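import Pool.Agent.H507_D.Defs

set_option autoImplicit false

namespace Pool.Agent.H507

open Pool.Agent.TH68 Pool.Agent.Helper97.Hyp

namespace FP

open Monoid Monoid.CoprodI
open scoped Classical

variable {G : Bool → Type} [∀ b, Group (G b)]

/-- the reduced word of an element of the free product -/
noncomputable def wd (x : CoprodI G) : Word G := Word.equiv x

/-- the reduced word of `x` does not start with a syllable of type `b` -/
def NS (b : Bool) (x : CoprodI G) : Prop := (wd x).fstIdx ≠ some b

theorem wd_prod (w : Word G) : wd w.prod = w := Word.equiv.apply_symm_apply w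

theorem prod_wd (x : CoprodI G) : (wd x).prod = x := Word.equiv.symm_apply_apply x

theorem wd_of_mul (b : Bool) (h : G b) (x : CoprodI G) (hx : NS b x) :
    wd (of h * x) = Word.rcons ⟨h, wd x, hx⟩ := by
  have e : of h * x = (Word.rcons ⟨h, wd x, hx⟩).prod := by
    rw [Word.prod_rcons, prod_wd]
  rw [e, wd_prod]

theorem wd_of_mul' (b : Bool) (h : G b) (hh : h ≠ 1) (x : CoprodI G) (hx : NS b x) :
    wd (of h * x) = Word.cons h (wd x) hx hh := by
  rw [wd_of_mul b h x hx, Word.rcons, dif_neg hh]

theorem fst_of_mul (b : Bool) (h : G b) (hh : h ≠ 1) (x : CoprodI G) (hx : NS b x) :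
    (wd (of h * x)).fstIdx = some b :=
  (congrArg Word.fstIdx (wd_of_mul' b h hh x hx)).trans (Word.fstIdx_cons h (wd x) hx hh)

theorem exists_dec (b : Bool) (x : CoprodI G) : ∃ (h : G b) (x' : CoprodI G), NS b x' ∧
    x = of h * x' := by
  refine ⟨(Word.equivPair b (wd x)).head, (Word.equivPair b (wd x)).tail.prod, ?_, ?_⟩
  · unfold NS
    rw [wd_prod]
    exact (Word.equivPair b (wd x)).fstIdx_ne
  · rw [← Word.prod_rcons, ← Word.equivPair_symm, Equiv.symm_apply_apply, prod_wd]

theorem wd_one : wd (1 : CoprodI G) = Word.empty := by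
  have : (1 : CoprodI G) = (Word.empty : Word G).prod := rfl
  rw [this, wd_prod]

theorem NS_one (b : Bool) : NS b (1 : CoprodI G) := by
  unfold NS
  rw [wd_one]
  intro h
  exact absurd h (by simp [Word.fstIdx, Word.empty])

theorem NS_of_ne (b c : Bool) (hbc : b ≠ c) (h : G b) (hh : h ≠ 1) (x : CoprodI G)
    (hx : NS b x) : NS c (of h * x) := by
  unfold NS
  rw [fst_of_mul b h hh x hx]
  intro h1
  exact hbc (Option.some.inj h1)

theorem not_NS (b : Bool) (h : G b) (hh : h ≠ 1) (x : CoprodI G)
    (hx : NS b x) : ¬ NS b (of h * x) := by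
  unfold NS
  rw [fst_of_mul b h hh x hx]
  intro h1
  exact h1 rfl

/-- induction on the reduced word -/
theorem ind {P : CoprodI G → Prop} (h1 : P 1)
    (h2 : ∀ (b : Bool) (h : G b) (x : CoprodI G), h ≠ 1 → NS b x → P x → P (of h * x))
    (x : CoprodI G) : P x := by
  rw [← prod_wd x]
  generalize wd x = w
  induction w using Word.consRecOn with
  | empty => exact h1
  | cons i m w hw hm ih =>
    rw [Word.prod_cons]
    exact h2 i m w.prod hm (by unfold NS; rw [wd_prod]; exact hw) ih

variable (W : ∀ b, WNorm (G b))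

/-- the norm -/
noncomputable def len (x : CoprodI G) : ℕ := ((wd x).toList.map (fun s => (W s.1).ℓ s.2)).sum

theorem len_one : len W (1 : CoprodI G) = 0 := by
  unfold len
  rw [wd_one]
  rfl

theorem len_of_mul (b : Bool) (h : G b) (x : CoprodI G) (hx : NS b x) :
    len W (of h * x) = (W b).ℓ h + len W x := by
  by_cases hh : h = 1
  · rw [hh, map_one, one_mul, (W b).one', zero_add]
  · unfold len
    rw [wd_of_mul' b h hh x hx]
    simp [Word.cons]

theorem len_of (b : Bool) (h : G b) : len W (of h : CoprodI G) = (W b).ℓ h := by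
  have := len_of_mul W b h 1 (NS_one b)
  rwa [mul_one, len_one, add_zero] at this

theorem len_of_mul_le (b : Bool) (g : G b) (x : CoprodI G) :
    len W (of g * x) ≤ (W b).ℓ g + len W x := by
  obtain ⟨h, x', hx', rfl⟩ := exists_dec b x
  rw [← mul_assoc, ← map_mul, len_of_mul W b _ x' hx', len_of_mul W b _ x' hx']
  have := (W b).mul_le g h
  omega

theorem len_mul_le (x y : CoprodI G) : len W (x * y) ≤ len W x + len W y := by
  induction x using ind with
  | h1 => rw [one_mul]; omega
  | h2 b h x hh hx ih =>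
    rw [mul_assoc, len_of_mul W b h x hx]
    have := len_of_mul_le W b h (x * y)
    omega

theorem len_inv_le (x : CoprodI G) : len W x⁻¹ ≤ len W x := by
  induction x using ind with
  | h1 => rw [inv_one]
  | h2 b h x hh hx ih =>
    rw [mul_inv_rev, len_of_mul W b h x hx, ← map_inv]
    have := len_mul_le W x⁻¹ (of h⁻¹)
    rw [len_of, (W b).inv'] at this
    omega

theorem len_inv (x : CoprodI G) : len W x⁻¹ = len W x := by
  apply le_antisymm (len_inv_le W x)
  have := len_inv_le W x⁻¹
  rwa [inv_inv] at this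

theorem len_pos (b : Bool) (h : G b) (hh : h ≠ 1) : 0 < (W b).ℓ h := by
  rcases Nat.eq_zero_or_pos ((W b).ℓ h) with h0 | h0
  · exact absurd ((W b).eq_one h h0) hh
  · exact h0

theorem eq_one_of_len (x : CoprodI G) (hx : len W x = 0) : x = 1 := by
  induction x using ind with
  | h1 => rfl
  | h2 b h x hh hNS ih =>
    rw [len_of_mul W b h x hNS] at hx
    have := len_pos W b h hh
    omega

theorem len_geod (x : CoprodI G) : ∀ k, k ≤ len W x →
    ∃ a b : CoprodI G, a * b = x ∧ len W a = k ∧ k + len W b = len W x := by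
  induction x using ind with
  | h1 =>
    intro k hk
    rw [len_one] at hk
    exact ⟨1, 1, by rw [one_mul], by rw [len_one]; omega, by rw [len_one]; omega⟩
  | h2 c h x hh hx ih =>
    intro k hk
    rw [len_of_mul W c h x hx] at hk ⊢
    by_cases hkh : k ≤ (W c).ℓ h
    · obtain ⟨a, b, hab, ha, hb⟩ := (W c).geod h k hkh
      refine ⟨of a, of b * x, ?_, ?_, ?_⟩
      · rw [← mul_assoc, ← map_mul, hab]
      · rw [len_of, ha]
      · rw [len_of_mul W c b x hx]; omega
    · obtain ⟨a, b, hab, ha, hb⟩ := ih (k - (W c).ℓ h) (by omega)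
      have h1 := len_mul_le W (of h * a) b
      have h2 := len_of_mul_le W c h a
      have h3 : of h * a * b = of h * x := by rw [mul_assoc, hab]
      rw [h3, len_of_mul W c h x hx] at h1
      exact ⟨of h * a, b, h3, by omega, by omega⟩

theorem len_fin (r : ℕ) : {x : CoprodI G | len W x ≤ r}.Finite := by
  induction r with
  | zero =>
    apply (Set.finite_singleton (1 : CoprodI G)).subset
    intro x hx
    exact eq_one_of_len W x (by
      have : len W x ≤ 0 := hx
      omega)
  | succ r ih =>
    have hfin : (⋃ b : Bool, Set.image2 (fun (h : G b) (x : CoprodI G) => of h * x)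
        {h | (W b).ℓ h ≤ r + 1} {x | len W x ≤ r}).Finite := by
      apply Set.finite_iUnion
      intro b
      exact Set.Finite.image2 _ ((W b).fin (r + 1)) ih
    apply ((Set.finite_singleton (1 : CoprodI G)).union hfin).subset
    intro x
    induction x using ind with
    | h1 => intro _; exact Or.inl rfl
    | h2 b h x hh hNS _ =>
      intro hx
      right
      have hx' : len W (of h * x) ≤ r + 1 := hx
      rw [len_of_mul W b h x hNS] at hx'
      have := len_pos W b h hh
      rw [Set.mem_iUnion]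
      exact ⟨b, h, by show (W b).ℓ h ≤ r + 1; omega, x, by show len W x ≤ r; omega, rfl⟩

/-- the norm on the free product -/
noncomputable def norm : WNorm (CoprodI G) where
  ℓ := len W
  one' := len_one W
  eq_one := eq_one_of_len W
  inv' := len_inv W
  mul_le := len_mul_le W
  geod := len_geod W
  fin := len_fin W

/-- no cancellation between words with different first types -/
theorem len_sep (x : CoprodI G) : ∀ y : CoprodI G, (∀ b, NS b x ∨ NS b y) →
    len W (x⁻¹ * y) = len W x + len W y := by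
  induction x using ind with
  | h1 => intro y _; rw [inv_one, one_mul, len_one, zero_add]
  | h2 b h x hh hx ih =>
    intro y hy
    have hyb : NS b y := by
      rcases hy b with h1 | h1
      · exact absurd h1 (not_NS b h hh x hx)
      · exact h1
    rw [mul_inv_rev, ← map_inv, mul_assoc, ih (of h⁻¹ * y), len_of_mul W b _ y hyb,
      len_of_mul W b h x hx, (W b).inv']
    · omega
    · intro c
      by_cases hbc : b = c
      · subst hbc; exact Or.inl hx
      · exact Or.inr (NS_of_ne b c hbc h⁻¹ (inv_ne_one.2 hh) y hyb)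

theorem len_head (b : Bool) (g h : G b) (hgh : g ≠ h) (x y : CoprodI G) (hx : NS b x)
    (hy : NS b y) :
    len W ((of g * x)⁻¹ * (of h * y)) = len W x + (W b).ℓ (g⁻¹ * h) + len W y := by
  have e : (of g * x)⁻¹ * (of h * y) = x⁻¹ * (of (g⁻¹ * h) * y) := by
    rw [map_mul, map_inv]; group
  have hne : g⁻¹ * h ≠ 1 := by
    intro h0
    exact hgh (inv_mul_eq_one.1 h0)
  rw [e, len_sep W x, len_of_mul W b _ y hy]
  · omega
  · intro c
    by_cases hbc : b = c
    · subst hbc; exact Or.inl hx
    · exact Or.inr (NS_of_ne b c hbc _ hne y hy)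

/-- twice the Gromov product -/
noncomputable def gp (x y : CoprodI G) : ℝ := (len W x : ℝ) + len W y - len W (x⁻¹ * y)

/-- twice the Gromov product in a factor -/
noncomputable def gq (b : Bool) (g h : G b) : ℝ :=
  ((W b).ℓ g : ℝ) + (W b).ℓ h - (W b).ℓ (g⁻¹ * h)

theorem gp_nonneg (x y : CoprodI G) : 0 ≤ gp W x y := by
  unfold gp
  have h1 := len_mul_le W x⁻¹ y
  rw [len_inv] at h1
  have h2 : (len W (x⁻¹ * y) : ℝ) ≤ len W x + len W y := by exact_mod_cast h1
  linarith

theorem gq_le (b : Bool) (g h : G b) : gq W b g h ≤ 2 * (W b).ℓ g := by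
  unfold gq
  have h1 := (W b).mul_le g (g⁻¹ * h)
  rw [mul_inv_cancel_left] at h1
  have h2 : ((W b).ℓ h : ℝ) ≤ (W b).ℓ g + (W b).ℓ (g⁻¹ * h) := by exact_mod_cast h1
  linarith

theorem gp_ne (b : Bool) (g h : G b) (hgh : g ≠ h) (x y : CoprodI G) (hx : NS b x)
    (hy : NS b y) : gp W (of g * x) (of h * y) = gq W b g h := by
  unfold gp gq
  rw [len_head W b g h hgh x y hx hy, len_of_mul W b g x hx, len_of_mul W b h y hy]
  push_cast
  ring

theorem gp_eq (b : Bool) (g : G b) (x y : CoprodI G) (hx : NS b x)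
    (hy : NS b y) : gp W (of g * x) (of g * y) = 2 * (W b).ℓ g + gp W x y := by
  unfold gp
  have e : (of g * x)⁻¹ * (of g * y) = x⁻¹ * y := by group
  rw [e, len_of_mul W b g x hx, len_of_mul W b g y hy]
  push_cast
  ring

theorem gp_one_left (y : CoprodI G) : gp W 1 y = 0 := by
  unfold gp
  rw [len_one, inv_one, one_mul]
  simp

theorem four (δ : ℝ) (hδ : 0 ≤ δ) (hW : ∀ b, GHyp (Pt (W b)) δ) (x : CoprodI G) :
    ∀ y z : CoprodI G, min (gp W x y) (gp W y z) - 2 * δ ≤ gp W x z := by
  induction x using ind with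
  | h1 =>
    intro y z
    rw [gp_one_left, gp_one_left]
    have := min_le_left (0 : ℝ) (gp W y z)
    linarith
  | h2 b g x hg hx ih =>
    intro y z
    obtain ⟨h, y, hy, rfl⟩ := exists_dec b y
    obtain ⟨k, z, hz, rfl⟩ := exists_dec b z
    by_cases hgk : g = k
    · subst hgk
      by_cases hgh : g = h
      · subst hgh
        rw [gp_eq W b g x y hx hy, gp_eq W b g y z hy hz, gp_eq W b g x z hx hz,
          min_add_add_left]
        have := ih y z
        linarith
      · rw [gp_ne W b g h hgh x y hx hy, gp_eq W b g x z hx hz]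
        have h1 := gq_le W b g h
        have h2 := gp_nonneg W x z
        have h3 := min_le_left (gq W b g h) (gp W (of h * y) (of g * z))
        linarith
    · rw [gp_ne W b g k hgk x z hx hz]
      by_cases hgh : g = h
      · subst hgh
        rw [gp_ne W b g k hgk y z hy hz]
        have := min_le_right (gp W (of g * x) (of g * y)) (gq W b g k)
        linarith
      · rw [gp_ne W b g h hgh x y hx hy]
        by_cases hhk : h = k
        · subst hhk
          have := min_le_left (gq W b g h) (gp W (of h * y) (of h * z))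
          linarith
        · rw [gp_ne W b h k hhk y z hy hz]
          have h4 := hW b (pt (W b) g) (pt (W b) k) (pt (W b) h) (pt (W b) 1)
          simp only [dist_def, out_pt, mul_one, (W b).inv'] at h4
          have e : ((W b).ℓ (k⁻¹ * h) : ℝ) = (W b).ℓ (h⁻¹ * k) := by
            rw [← (W b).inv' (k⁻¹ * h), mul_inv_rev, inv_inv]
          rw [e] at h4
          unfold gq
          rcases max_cases (((W b).ℓ (g⁻¹ * h) : ℝ) + (W b).ℓ k)
            (((W b).ℓ g : ℝ) + (W b).ℓ (h⁻¹ * k)) with ⟨h5, _⟩ | ⟨h5, _⟩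
          · rw [h5] at h4
            have := min_le_left (((W b).ℓ g : ℝ) + (W b).ℓ h - (W b).ℓ (g⁻¹ * h))
              (((W b).ℓ h : ℝ) + (W b).ℓ k - (W b).ℓ (h⁻¹ * k))
            linarith
          · rw [h5] at h4
            have := min_le_right (((W b).ℓ g : ℝ) + (W b).ℓ h - (W b).ℓ (g⁻¹ * h))
              (((W b).ℓ h : ℝ) + (W b).ℓ k - (W b).ℓ (h⁻¹ * k))
            linarith

theorem ghyp (δ : ℝ) (hδ : 0 ≤ δ) (hW : ∀ b, GHyp (Pt (W b)) δ) : GHyp (Pt (norm W)) δ := by
  intro x y z w
  have key := four W δ hδ hW (w.out⁻¹ * x.out) (w.out⁻¹ * z.out) (w.out⁻¹ * y.out)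
  unfold gp at key
  have e1 : (w.out⁻¹ * x.out)⁻¹ * (w.out⁻¹ * z.out) = x.out⁻¹ * z.out := by group
  have e2 : (w.out⁻¹ * z.out)⁻¹ * (w.out⁻¹ * y.out) = z.out⁻¹ * y.out := by group
  have e3 : (w.out⁻¹ * x.out)⁻¹ * (w.out⁻¹ * y.out) = x.out⁻¹ * y.out := by group
  rw [e1, e2, e3] at key
  have d1 : dist x y = (len W (x.out⁻¹ * y.out) : ℝ) := rfl
  have d2 : dist z w = (len W (w.out⁻¹ * z.out) : ℝ) := by rw [dist_comm]; rfl
  have d3 : dist x z = (len W (x.out⁻¹ * z.out) : ℝ) := rfl
  have d4 : dist y w = (len W (w.out⁻¹ * y.out) : ℝ) := by rw [dist_comm]; rfl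
  have d5 : dist x w = (len W (w.out⁻¹ * x.out) : ℝ) := by rw [dist_comm]; rfl
  have d6 : dist y z = (len W (z.out⁻¹ * y.out) : ℝ) := by rw [dist_comm]; rfl
  rw [d1, d2, d3, d4, d5, d6]
  rcases min_cases ((len W (w.out⁻¹ * x.out) : ℝ) + len W (w.out⁻¹ * z.out) -
      len W (x.out⁻¹ * z.out)) ((len W (w.out⁻¹ * z.out) : ℝ) + len W (w.out⁻¹ * y.out) -
      len W (z.out⁻¹ * y.out)) with ⟨h5, _⟩ | ⟨h5, _⟩
  · rw [h5] at key
    have := le_max_left ((len W (x.out⁻¹ * z.out) : ℝ) + len W (w.out⁻¹ * y.out))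
      ((len W (w.out⁻¹ * x.out) : ℝ) + len W (z.out⁻¹ * y.out))
    linarith
  · rw [h5] at key
    have := le_max_right ((len W (x.out⁻¹ * z.out) : ℝ) + len W (w.out⁻¹ * y.out))
      ((len W (w.out⁻¹ * x.out) : ℝ) + len W (z.out⁻¹ * y.out))
    linarith

end FP

/-- TARGET -/
theorem hyp_coprodI {G : Bool → Type} [∀ b, Group (G b)] (h : ∀ b, HypGroup (G b)) :
    HypGroup (Monoid.CoprodI G) := by
  choose W δ hW using h
  have h0 : ∀ b, 0 ≤ δ b := fun b => (hW b).nonneg (pt (W b) 1)
  refine ⟨FP.norm W, max (δ false) (δ true), FP.ghyp W _ ((h0 false).trans (le_max_left _ _)) ?_⟩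
  intro b x y z w
  have h1 := hW b x y z w
  have h2 : δ b ≤ max (δ false) (δ true) := by
    cases b
    · exact le_max_left _ _
    · exact le_max_right _ _
  linarith

end Pool.Agent.H507
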