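import Pool.Agent.H507_D.Defs

set_option autoImplicit false

namespace Pool.Agent.H507

open Pool.Agent.TH68 Pool.Agent.Helper97.Hyp

/-- four point hyperbolicity passes to the image of a map with bounded distortion -/
lemma A2_push {X Y : Type*} [PseudoMetricSpace X] [PseudoMetricSpace Y] (f : X → Y)
    (hf : Function.Surjective f) (c δ : ℝ) (h1 : ∀ x y, dist (f x) (f y) ≤ dist x y + c)
    (h2 : ∀ x y, dist x y ≤ dist (f x) (f y) + c) (h : GHyp X δ) : GHyp Y (δ + 2 * c) := by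
  intro x y z w
  obtain ⟨x, rfl⟩ := hf x
  obtain ⟨y, rfl⟩ := hf y
  obtain ⟨z, rfl⟩ := hf z
  obtain ⟨w, rfl⟩ := hf w
  have a1 := h1 x y
  have a2 := h1 z w
  have a3 := h2 x z
  have a4 := h2 y w
  have a5 := h2 x w
  have a6 := h2 y z
  rcases h.cases x y z w with h3 | h3
  · have := le_max_left (dist (f x) (f z) + dist (f y) (f w)) (dist (f x) (f w) + dist (f y) (f z))
    linarith
  · have := le_max_right (dist (f x) (f z) + dist (f y) (f w)) (dist (f x) (f w) + dist (f y) (f z))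
    linarith

/-- four point hyperbolicity passes back along a map with bounded distortion -/
lemma A2_pull {X Y : Type*} [PseudoMetricSpace X] [PseudoMetricSpace Y] (f : X → Y)
    (c δ : ℝ) (h1 : ∀ x y, dist (f x) (f y) ≤ dist x y + c)
    (h2 : ∀ x y, dist x y ≤ dist (f x) (f y) + c) (h : GHyp Y δ) : GHyp X (δ + 2 * c) := by
  intro x y z w
  have a1 := h2 x y
  have a2 := h2 z w
  have a3 := h1 x z
  have a4 := h1 y w
  have a5 := h1 x w
  have a6 := h1 y z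
  rcases h.cases (f x) (f y) (f z) (f w) with h3 | h3
  · have := le_max_left (dist x z + dist y w) (dist x w + dist y z)
    linarith
  · have := le_max_right (dist x z + dist y w) (dist x w + dist y z)
    linarith

/-- TARGET 1 -/
theorem hyp_equiv {Γ Γ' : Type} [Group Γ] [Group Γ'] (e : Γ ≃* Γ') (h : HypGroup Γ) : HypGroup Γ' := by
  obtain ⟨W, δ, hW⟩ := h
  let W' : WNorm Γ' :=
    { ℓ := fun g => W.ℓ (e.symm g)
      one' := by rw [map_one]; exact W.one'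
      eq_one := fun g hg => by
        have := W.eq_one _ hg
        simpa using this
      inv' := fun g => by rw [map_inv]; exact W.inv' _
      mul_le := fun g h => by rw [map_mul]; exact W.mul_le _ _
      geod := fun g k hk => by
        obtain ⟨a, b, hab, ha, hb⟩ := W.geod _ k hk
        refine ⟨e a, e b, ?_, ?_, ?_⟩
        · rw [← map_mul, hab]; simp
        · simpa using ha
        · simpa using hb
      fin := fun r => by
        apply ((W.fin r).image e).subset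
        intro g hg
        exact ⟨e.symm g, hg, by simp⟩ }
  have hd : ∀ x y : Pt W, dist (pt W' (e x.out)) (pt W' (e y.out)) = dist x y := by
    intro x y
    rw [dist_def, dist_def]
    change ((W.ℓ (e.symm ((e x.out)⁻¹ * e y.out)) : ℕ) : ℝ) = _
    rw [← map_inv, ← map_mul]
    simp
  refine ⟨W', δ + 2 * 0, A2_push (fun x : Pt W => pt W' (e x.out)) ?_ 0 δ ?_ ?_ hW⟩
  · intro y
    refine ⟨pt W (e.symm y.out), ?_⟩
    simp
  · intro x y
    rw [hd]; simp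
  · intro x y
    simp only [hd]; simp

open Classical in
/-- the quotient norm -/
noncomputable def A2_qn {Γ : Type} [Group Γ] (K : Subgroup Γ) [K.Normal] (W : WNorm Γ) (q : Γ ⧸ K) : ℕ :=
  Nat.find (p := fun n => ∃ g : Γ, (g : Γ ⧸ K) = q ∧ W.ℓ g = n)
    (by obtain ⟨g, hg⟩ := QuotientGroup.mk_surjective q; exact ⟨W.ℓ g, g, hg, rfl⟩)

lemma A2_qn_spec {Γ : Type} [Group Γ] (K : Subgroup Γ) [K.Normal] (W : WNorm Γ) (q : Γ ⧸ K) :
    ∃ g : Γ, (g : Γ ⧸ K) = q ∧ W.ℓ g = A2_qn K W q := by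
  classical
  unfold A2_qn
  exact Nat.find_spec (p := fun n => ∃ g : Γ, (g : Γ ⧸ K) = q ∧ W.ℓ g = n) _

lemma A2_qn_le {Γ : Type} [Group Γ] (K : Subgroup Γ) [K.Normal] (W : WNorm Γ) (g : Γ) :
    A2_qn K W (g : Γ ⧸ K) ≤ W.ℓ g := by
  classical
  unfold A2_qn
  exact Nat.find_min' _ ⟨g, rfl, rfl⟩

/-- the quotient norm -/
noncomputable def A2_W {Γ : Type} [Group Γ] (K : Subgroup Γ) [K.Normal] (W : WNorm Γ) : WNorm (Γ ⧸ K) where
  ℓ := A2_qn K W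
  one' := by
    have := A2_qn_le K W 1
    rw [W.one'] at this
    exact Nat.le_zero.mp this
  eq_one := fun q hq => by
    obtain ⟨g, hg, hg2⟩ := A2_qn_spec K W q
    rw [hq] at hg2
    rw [← hg, W.eq_one g hg2]
    rfl
  inv' := by
    have key : ∀ q : Γ ⧸ K, A2_qn K W q⁻¹ ≤ A2_qn K W q := by
      intro q
      obtain ⟨g, hg, hg2⟩ := A2_qn_spec K W q
      rw [← hg2, ← W.inv' g, ← hg]
      exact A2_qn_le K W g⁻¹
    intro q
    refine le_antisymm (key q) ?_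
    have := key q⁻¹
    rwa [inv_inv] at this
  mul_le := fun p q => by
    obtain ⟨g, hg, hg2⟩ := A2_qn_spec K W p
    obtain ⟨h, hh, hh2⟩ := A2_qn_spec K W q
    rw [← hg2, ← hh2, ← hg, ← hh]
    exact (A2_qn_le K W (g * h)).trans (W.mul_le g h)
  geod := fun q k hk => by
    obtain ⟨g, hg, hg2⟩ := A2_qn_spec K W q
    rw [← hg2] at hk
    obtain ⟨a, b, hab, ha, hb⟩ := W.geod g k hk
    have h1 : A2_qn K W (a : Γ ⧸ K) ≤ k := ha ▸ A2_qn_le K W a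
    have h2 := A2_qn_le K W b
    obtain ⟨a', ha', ha2⟩ := A2_qn_spec K W (a : Γ ⧸ K)
    obtain ⟨b', hb', hb2⟩ := A2_qn_spec K W (b : Γ ⧸ K)
    have h3 : A2_qn K W q ≤ W.ℓ (a' * b') := by
      have h4 : ((a' * b' : Γ) : Γ ⧸ K) = q := by
        change (a' : Γ ⧸ K) * (b' : Γ ⧸ K) = q
        rw [ha', hb', ← hg, ← hab]
        rfl
      rw [← h4]
      exact A2_qn_le K W _
    have h5 := W.mul_le a' b'
    refine ⟨(a : Γ ⧸ K), (b : Γ ⧸ K), ?_, ?_, ?_⟩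
    · rw [← hg, ← hab]; rfl
    · omega
    · omega
  fin := fun r => by
    apply ((W.fin r).image (fun g : Γ => (g : Γ ⧸ K))).subset
    intro q hq
    obtain ⟨g, hg, hg2⟩ := A2_qn_spec K W q
    refine ⟨g, ?_, hg⟩
    have hq' : A2_qn K W q ≤ r := hq
    change W.ℓ g ≤ r
    omega

/-- TARGET 2 -/
theorem hyp_quot {Γ : Type} [Group Γ] (K : Subgroup Γ) [K.Normal] [Finite K] (h : HypGroup Γ) :
    HypGroup (Γ ⧸ K) := by
  obtain ⟨W, δ, hW⟩ := h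
  obtain ⟨m, hm⟩ : ∃ m : ℕ, ∀ k ∈ K, W.ℓ k ≤ m := by
    have hfin : (Set.range (fun k : K => W.ℓ k)).Finite := Set.finite_range _
    obtain ⟨m, hm⟩ := hfin.bddAbove
    exact ⟨m, fun k hk => hm ⟨⟨k, hk⟩, rfl⟩⟩
  have key : ∀ g : Γ, W.ℓ g ≤ A2_qn K W (g : Γ ⧸ K) + m := by
    intro g
    obtain ⟨h, hh, hh2⟩ := A2_qn_spec K W (g : Γ ⧸ K)
    have h1 : h⁻¹ * g ∈ K := QuotientGroup.eq.mp hh
    have h2 := W.mul_le h (h⁻¹ * g)
    rw [mul_inv_cancel_left] at h2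
    have h3 := hm _ h1
    omega
  refine ⟨A2_W K W, δ + 2 * m, A2_push (fun x : Pt W => pt (A2_W K W) (x.out : Γ ⧸ K)) ?_ m δ ?_ ?_ hW⟩
  · intro y
    obtain ⟨g, hg⟩ := QuotientGroup.mk_surjective y.out
    refine ⟨pt W g, ?_⟩
    change pt (A2_W K W) (g : Γ ⧸ K) = y
    rw [hg, pt_out]
  · intro x y
    rw [dist_def, dist_def]
    have h1 := A2_qn_le K W (x.out⁻¹ * y.out)
    have h2 : (A2_W K W).ℓ ((pt (A2_W K W) (x.out : Γ ⧸ K)).out⁻¹ * (pt (A2_W K W) (y.out : Γ ⧸ K)).out) =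
      A2_qn K W ((x.out⁻¹ * y.out : Γ) : Γ ⧸ K) := rfl
    rw [h2]
    have h3 : (A2_qn K W ((x.out⁻¹ * y.out : Γ) : Γ ⧸ K) : ℝ) ≤ W.ℓ (x.out⁻¹ * y.out) := by
      exact_mod_cast h1
    have h4 : (0 : ℝ) ≤ m := Nat.cast_nonneg m
    linarith
  · intro x y
    rw [dist_def, dist_def]
    have h1 := key (x.out⁻¹ * y.out)
    have h2 : (A2_W K W).ℓ ((pt (A2_W K W) (x.out : Γ ⧸ K)).out⁻¹ * (pt (A2_W K W) (y.out : Γ ⧸ K)).out) =
      A2_qn K W ((x.out⁻¹ * y.out : Γ) : Γ ⧸ K) := rfl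
    rw [h2]
    exact_mod_cast h1

open Classical in
/-- the pulled back norm -/
noncomputable def A2_pn {Γ : Type} [Group Γ] (K : Subgroup Γ) [K.Normal] (W : WNorm (Γ ⧸ K)) (g : Γ) : ℕ :=
  if g = 1 then 0 else max 1 (W.ℓ (g : Γ ⧸ K))

lemma A2_pn_one {Γ : Type} [Group Γ] (K : Subgroup Γ) [K.Normal] (W : WNorm (Γ ⧸ K)) :
    A2_pn K W 1 = 0 := by simp [A2_pn]

lemma A2_pn_ne {Γ : Type} [Group Γ] (K : Subgroup Γ) [K.Normal] (W : WNorm (Γ ⧸ K)) {g : Γ} (hg : g ≠ 1) :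
    A2_pn K W g = max 1 (W.ℓ (g : Γ ⧸ K)) := by simp [A2_pn, hg]

lemma A2_pn_ge {Γ : Type} [Group Γ] (K : Subgroup Γ) [K.Normal] (W : WNorm (Γ ⧸ K)) (g : Γ) :
    W.ℓ (g : Γ ⧸ K) ≤ A2_pn K W g := by
  by_cases hg : g = 1
  · subst hg
    rw [A2_pn_one]
    exact le_of_eq W.one'
  · rw [A2_pn_ne K W hg]
    exact le_max_right _ _

lemma A2_pn_le {Γ : Type} [Group Γ] (K : Subgroup Γ) [K.Normal] (W : WNorm (Γ ⧸ K)) (g : Γ) :
    A2_pn K W g ≤ W.ℓ (g : Γ ⧸ K) + 1 := by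
  by_cases hg : g = 1
  · subst hg
    rw [A2_pn_one]
    exact Nat.zero_le _
  · rw [A2_pn_ne K W hg]
    omega

/-- the pulled back norm -/
noncomputable def A2_P {Γ : Type} [Group Γ] (K : Subgroup Γ) [K.Normal] [Finite K] (W : WNorm (Γ ⧸ K)) :
    WNorm Γ where
  ℓ := A2_pn K W
  one' := A2_pn_one K W
  eq_one := fun g hg => by
    by_contra hg1
    rw [A2_pn_ne K W hg1] at hg
    omega
  inv' := fun g => by
    by_cases hg : g = 1
    · subst hg; rw [inv_one]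
    · rw [A2_pn_ne K W hg, A2_pn_ne K W (inv_ne_one.mpr hg)]
      congr 1
      exact W.inv' (g : Γ ⧸ K)
  mul_le := fun g h => by
    by_cases hg : g = 1
    · subst hg; rw [one_mul, A2_pn_one, zero_add]
    by_cases hh : h = 1
    · subst hh; rw [mul_one, A2_pn_one, add_zero]
    by_cases hgh : g * h = 1
    · rw [hgh, A2_pn_one]; exact Nat.zero_le _
    rw [A2_pn_ne K W hg, A2_pn_ne K W hh, A2_pn_ne K W hgh]
    have := W.mul_le (g : Γ ⧸ K) (h : Γ ⧸ K)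
    have e : W.ℓ ((g * h : Γ) : Γ ⧸ K) = W.ℓ ((g : Γ ⧸ K) * (h : Γ ⧸ K)) := rfl
    omega
  geod := fun g k hk => by
    rcases Nat.eq_zero_or_pos k with rfl | hk0
    · exact ⟨1, g, one_mul g, A2_pn_one K W, by omega⟩
    rcases hk.eq_or_lt with rfl | hk1
    · exact ⟨g, 1, mul_one g, rfl, by rw [A2_pn_one]; omega⟩
    have hg : g ≠ 1 := by
      rintro rfl
      rw [A2_pn_one] at hk1
      omega
    have hn : A2_pn K W g = W.ℓ (g : Γ ⧸ K) := by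
      have := A2_pn_ne K W hg
      omega
    obtain ⟨a', b', hab, ha, hb⟩ := W.geod (g : Γ ⧸ K) k (by omega)
    obtain ⟨a, rfl⟩ := QuotientGroup.mk_surjective a'
    have hb' : b' = ((a⁻¹ * g : Γ) : Γ ⧸ K) := by
      change b' = (a : Γ ⧸ K)⁻¹ * (g : Γ ⧸ K)
      rw [← hab, inv_mul_cancel_left]
    have h1 : a ≠ 1 := by
      rintro rfl
      have : W.ℓ ((1 : Γ) : Γ ⧸ K) = 0 := W.one'
      omega
    have h2 : a⁻¹ * g ≠ 1 := by
      intro h3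
      rw [hb', h3] at hb
      have : W.ℓ ((1 : Γ) : Γ ⧸ K) = 0 := W.one'
      omega
    rw [hb'] at hb
    refine ⟨a, a⁻¹ * g, mul_inv_cancel_left a g, ?_, ?_⟩
    · rw [A2_pn_ne K W h1]; omega
    · rw [A2_pn_ne K W h2]; omega
  fin := fun r => by
    have h1 : (Function.uncurry (fun (q : Γ ⧸ K) (k : K) => q.out * (k : Γ)) ''
        ({q | W.ℓ q ≤ r} ×ˢ (Set.univ : Set K))).Finite :=
      ((W.fin r).prod Set.finite_univ).image _
    apply h1.subset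
    intro g hg
    have hg' : A2_pn K W g ≤ r := hg
    have h2 := A2_pn_ge K W g
    have h3 : (g : Γ ⧸ K).out⁻¹ * g ∈ K := by
      rw [← QuotientGroup.eq]
      exact Quotient.out_eq' _
    refine ⟨((g : Γ ⧸ K), ⟨_, h3⟩), ⟨h2.trans hg', Set.mem_univ _⟩, ?_⟩
    change (g : Γ ⧸ K).out * ((g : Γ ⧸ K).out⁻¹ * g) = g
    rw [mul_inv_cancel_left]

/-- TARGET 3 -/
theorem hyp_of_quot {Γ : Type} [Group Γ] (K : Subgroup Γ) [K.Normal] [Finite K]
    (h : HypGroup (Γ ⧸ K)) : HypGroup Γ := by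
  obtain ⟨W, δ, hW⟩ := h
  refine ⟨A2_P K W, δ + 2 * 1, A2_pull (fun x : Pt (A2_P K W) => pt W (x.out : Γ ⧸ K)) 1 δ ?_ ?_ hW⟩
  · intro x y
    rw [dist_def, dist_def]
    have h1 := A2_pn_ge K W (x.out⁻¹ * y.out)
    have h2 : W.ℓ ((pt W (x.out : Γ ⧸ K)).out⁻¹ * (pt W (y.out : Γ ⧸ K)).out) =
      W.ℓ ((x.out⁻¹ * y.out : Γ) : Γ ⧸ K) := rfl
    rw [h2]
    have h3 : (W.ℓ ((x.out⁻¹ * y.out : Γ) : Γ ⧸ K) : ℝ) ≤ (A2_P K W).ℓ (x.out⁻¹ * y.out) := by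
      exact_mod_cast h1
    linarith
  · intro x y
    rw [dist_def, dist_def]
    have h1 := A2_pn_le K W (x.out⁻¹ * y.out)
    have h2 : W.ℓ ((pt W (x.out : Γ ⧸ K)).out⁻¹ * (pt W (y.out : Γ ⧸ K)).out) =
      W.ℓ ((x.out⁻¹ * y.out : Γ) : Γ ⧸ K) := rfl
    rw [h2]
    exact_mod_cast h1

/-- the image of an elementary group -/
lemma A2_elem_map {Γ Γ' : Type*} [Group Γ] [Group Γ'] (f : Γ →* Γ') (hf : Function.Surjective f)
    (h : Elem Γ) : Elem Γ' := by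
  obtain ⟨C, hC, hC2⟩ := h
  refine ⟨C.map f, ?_, ?_⟩
  · have h1 := Subgroup.index_map_dvd C hf
    constructor
    intro h2
    rw [h2, zero_dvd_iff] at h1
    exact hC.index_ne_zero h1
  · exact isCyclic_of_surjective (f.subgroupMap C) (f.subgroupMap_surjective C)

/-- TARGET 4 -/
theorem elem_equiv {Γ Γ' : Type} [Group Γ] [Group Γ'] (e : Γ ≃* Γ') (h : Elem Γ) : Elem Γ' :=
  A2_elem_map e.toMonoidHom e.surjective h

/-- TARGET 5 -/
theorem elem_quot {Γ : Type} [Group Γ] (K : Subgroup Γ) [K.Normal] (h : Elem Γ) :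
    Elem (Γ ⧸ K) :=
  A2_elem_map (QuotientGroup.mk' K) (QuotientGroup.mk'_surjective K) h

/-- TARGET 6 -/
theorem elem_of_quot {Γ : Type} [Group Γ] (K : Subgroup Γ) [K.Normal] [Finite K]
    (h : Elem (Γ ⧸ K)) : Elem Γ := by
  obtain ⟨C, hC, hC2⟩ := h
  obtain ⟨⟨c, hc⟩, hgen⟩ := hC2.exists_generator
  obtain ⟨g, rfl⟩ := QuotientGroup.mk_surjective c
  refine ⟨Subgroup.zpowers g, ?_, inferInstance⟩
  have hfin : Finite ((Γ ⧸ K) ⧸ C) := Subgroup.finite_quotient_of_finiteIndex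
  have hs : ∀ q : (Γ ⧸ K) ⧸ C, ∃ s : Γ, (((s : Γ ⧸ K) : (Γ ⧸ K)) : (Γ ⧸ K) ⧸ C) = q := by
    intro q
    obtain ⟨p, hp⟩ := QuotientGroup.mk_surjective q
    obtain ⟨s, hs⟩ := QuotientGroup.mk_surjective p
    exact ⟨s, by rw [hs, hp]⟩
  choose s hs using hs
  have hsurj : Function.Surjective (fun z : ((Γ ⧸ K) ⧸ C) × K =>
      ((s z.1 * (z.2 : Γ) : Γ) : Γ ⧸ Subgroup.zpowers g)) := by
    intro x
    obtain ⟨γ, rfl⟩ := QuotientGroup.mk_surjective x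
    obtain ⟨q, hq⟩ : ∃ q : (Γ ⧸ K) ⧸ C, q = ((γ : Γ ⧸ K) : (Γ ⧸ K) ⧸ C) := ⟨_, rfl⟩
    have h1 : ((s q : Γ) : Γ ⧸ K)⁻¹ * (γ : Γ ⧸ K) ∈ C := by
      rw [← QuotientGroup.eq, hs q, hq]
    obtain ⟨n, hn⟩ := Subgroup.mem_zpowers_iff.mp (hgen ⟨_, h1⟩)
    have hn' : (g : Γ ⧸ K) ^ n = ((s q : Γ) : Γ ⧸ K)⁻¹ * (γ : Γ ⧸ K) := by
      have := congrArg (fun z : C => (z : Γ ⧸ K)) hn
      simpa using this
    have h2 : ((s q)⁻¹ * γ * (g ^ n)⁻¹) ∈ K := by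
      rw [← QuotientGroup.eq_one_iff]
      change ((s q : Γ) : Γ ⧸ K)⁻¹ * (γ : Γ ⧸ K) * ((g : Γ ⧸ K) ^ n)⁻¹ = 1
      rw [hn', mul_inv_cancel]
    refine ⟨(q, ⟨_, h2⟩), ?_⟩
    apply QuotientGroup.eq.mpr
    refine Subgroup.mem_zpowers_iff.mpr ⟨n, ?_⟩
    change g ^ n = (s q * ((s q)⁻¹ * γ * (g ^ n)⁻¹))⁻¹ * γ
    group
  have hfin2 : Finite (Γ ⧸ Subgroup.zpowers g) := Finite.of_surjective _ hsurj
  exact Subgroup.finiteIndex_of_finite_quotient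

end Pool.Agent.H507
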