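import Pool.Agent.H507_D.Defs
import Pool.Agent.TH75.B_tors_fin
import Pool.Agent.H71R2.Hyp.Torsion

/-! Torsion subgroups of hyperbolic groups are finite; the finite radical (helper623, job A3 of helper507). -/

set_option autoImplicit false

namespace Pool.Agent.H507

open Pool.Agent.TH68 Pool.Agent.Helper97.Hyp

/-- a discrete length function from a word norm -/
noncomputable def toHyp {Γ : Type} [Group Γ] (W : WNorm Γ) (δ : ℝ) (h : GHyp (Pt W) δ) :
    Pool.Agent.TH64.Hyp Γ where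
  len := W.ℓ
  D := ⌈2 * δ⌉₊
  len_one := W.one'
  eq_one := W.eq_one
  len_inv := W.inv'
  len_mul := W.mul_le
  fp' u v w z := by
    have h1 := h (pt W u) (pt W v) (pt W w) (pt W z)
    simp only [dist_def, out_pt] at h1
    have h2 : 2 * δ ≤ (⌈2 * δ⌉₊ : ℝ) := Nat.le_ceil _
    have h3 : ((W.ℓ (u⁻¹ * v) + W.ℓ (w⁻¹ * z) : ℕ) : ℝ) ≤
        ((max (W.ℓ (u⁻¹ * w) + W.ℓ (v⁻¹ * z)) (W.ℓ (u⁻¹ * z) + W.ℓ (v⁻¹ * w)) + ⌈2 * δ⌉₊ : ℕ) : ℝ) := by
      push_cast
      linarith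
    exact_mod_cast h3
  step g k hk := by
    obtain ⟨a, b, hab, ha, hb⟩ := W.geod g k hk
    refine ⟨a, ha, ?_⟩
    rw [← hab, inv_mul_cancel_left, hab, ← hb]
    omega
  fin := W.fin

section helly

open Pool.Agent.TH64

variable {G : Type} [Group G] (H : Pool.Agent.TH64.Hyp G)

theorem qc {a x y z : G} {R e : ℕ} (hx : H.d x (a * x) ≤ R) (hy : H.d y (a * y) ≤ R)
    (hz : H.d x z + H.d z y ≤ H.d x y + e) : H.d z (a * z) ≤ R + e + H.D := by
  have h1 := H.fp z (a * z) x y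
  have h2 := H.d_tri (a * z) (a * y) y
  have h3 := H.d_tri (a * z) (a * x) x
  rw [H.d_mul, H.d_comm (a * y) y] at h2
  rw [H.d_mul, H.d_comm (a * x) x] at h3
  rw [H.d_comm x z] at hz
  rcases max_cases (H.d z x + H.d (a * z) y) (H.d z y + H.d (a * z) x) with ⟨h4, _⟩ | ⟨h4, _⟩
  · rw [h4] at h1; omega
  · rw [h4] at h1; omega

/-- nearest points -/
theorem near {a : G} (ha : IsOfFinOrder a) {R : ℕ} (hR : 1 + 3 * H.D ≤ R) {p m : G}
    (hp : H.d p (a * p) ≤ R) (hpm : ∀ q, H.d q (a * q) ≤ R → H.d 1 p ≤ H.d 1 q)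
    (hm : H.d m (a * m) ≤ R) :
    H.d 1 p + H.d p m ≤ H.d 1 m + 2 * (R + 2 * H.D + 2) := by
  by_cases hk : R + 2 * H.D + 2 ≤ H.d p m
  · obtain ⟨z, hz1, hz2⟩ := H.between p m (R + 2 * H.D + 2) hk
    have hz3 : H.d z (a * z) ≤ R + 0 + H.D := qc H hp hm (by omega)
    obtain ⟨q, hq1, hq2, hq3⟩ := Pool.Agent.TH75.BLJ.exists_mid H ha z
    have h1 := hpm q (by omega)
    have h2 := H.d_tri 1 z q
    have h3 := H.fp 1 z p m
    rw [H.d_comm z p] at h3
    rcases max_cases (H.d 1 p + H.d z m) (H.d 1 m + H.d p z) with ⟨h4, _⟩ | ⟨h4, _⟩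
    · rw [h4] at h3; omega
    · rw [h4] at h3; omega
  · have h1 := H.d_tri 1 m p
    rw [H.d_comm m p] at h1
    omega

theorem helly (A : Subgroup G) (hA : ∀ a ∈ A, IsOfFinOrder a) :
    ∃ R' : ℕ, ∀ F : Finset G, (∀ a ∈ F, a ∈ A) → ∃ p, ∀ a ∈ F, H.len (p⁻¹ * a * p) ≤ R' := by
  classical
  obtain ⟨R, hR⟩ : ∃ R, R = 30 * H.D + 20 := ⟨_, rfl⟩
  obtain ⟨c, hc⟩ : ∃ c, c = 2 * (R + 2 * H.D + 2) := ⟨_, rfl⟩
  -- nearest points
  have hex : ∀ a : G, ∃ p : G, a ∈ A → (H.d p (a * p) ≤ R ∧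
      ∀ q, H.d q (a * q) ≤ R → H.d 1 p ≤ H.d 1 q) := by
    intro a
    by_cases ha : a ∈ A
    · obtain ⟨q, -, -, hq⟩ := Pool.Agent.TH75.BLJ.exists_mid H (hA a ha) 1
      have hne : ∃ n, ∃ p, H.d p (a * p) ≤ R ∧ H.d 1 p = n := ⟨_, q, by omega, rfl⟩
      obtain ⟨p, hp1, hp2⟩ := Nat.find_spec hne
      exact ⟨p, fun _ => ⟨hp1, fun q hq => by
        rw [hp2]
        exact Nat.find_min' hne ⟨q, hq, rfl⟩⟩⟩
    · exact ⟨1, fun h => absurd h ha⟩
  choose P hP using hex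
  refine ⟨R + 2 * (c + H.D) + H.D, fun F hF => ?_⟩
  by_cases hne : F.Nonempty
  · obtain ⟨j, hj, hjm⟩ := F.exists_max_image (fun a => H.d 1 (P a)) hne
    refine ⟨P j, fun a ha => ?_⟩
    rw [Pool.Agent.TH75.BLJ.len_conj]
    have haA := hF a ha
    have hjA := hF j hj
    obtain ⟨ha1, ha2⟩ := hP a haA
    obtain ⟨hj1, hj2⟩ := hP j hjA
    have hmax := hjm a ha
    obtain ⟨m, hm1, hm2⟩ := Pool.Agent.TH75.BLJ.pair H (hA a haA) (hA j hjA)
      (hA _ (A.mul_mem haA hjA))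
    have hm1' : H.d m (a * m) ≤ R := by omega
    have hm2' : H.d m (j * m) ≤ R := by omega
    have n1 := near H (hA a haA) (by omega) ha1 ha2 hm1'
    have n2 := near H (hA j hjA) (by omega) hj1 hj2 hm2'
    have f := H.fp (P a) (P j) 1 m
    rw [H.d_comm (P a) 1, H.d_comm (P j) 1] at f
    have t := H.d_tri (P j) (P a) m
    rw [H.d_comm (P j) (P a)] at t
    have key : H.d (P a) (P j) + H.d (P j) m ≤ H.d (P a) m + 2 * (c + H.D) := by
      rcases max_cases (H.d 1 (P a) + H.d (P j) m) (H.d (P a) m + H.d 1 (P j)) with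
        ⟨h4, _⟩ | ⟨h4, _⟩
      · rw [h4] at f; omega
      · rw [h4] at f; omega
    exact qc H ha1 hm1' key
  · rw [Finset.not_nonempty_iff_eq_empty] at hne
    subst hne
    exact ⟨1, fun a ha => absurd ha (Finset.notMem_empty a)⟩

end helly

/-- TARGET 1 -/
theorem tors_finite {Γ : Type} [Group Γ] (hΓ : HypGroup Γ) (A : Subgroup Γ)
    (hA : ∀ a ∈ A, IsOfFinOrder a) : Finite A := by
  classical
  obtain ⟨W, δ, hW⟩ := hΓ
  set H := toHyp W δ hW
  obtain ⟨R, hR⟩ := helly H A hA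
  by_contra hinf
  rw [not_finite_iff_infinite] at hinf
  obtain ⟨t, ht⟩ := Infinite.exists_subset_card_eq A ({g | H.len g ≤ R}.ncard + 1)
  set s : Finset Γ := t.map ⟨Subtype.val, Subtype.val_injective⟩ with hs
  have hsc : s.card = {g | H.len g ≤ R}.ncard + 1 := by rw [hs, Finset.card_map, ht]
  obtain ⟨p, hp⟩ := hR s (by
    intro x hx
    rw [hs, Finset.mem_map] at hx
    obtain ⟨y, _, rfl⟩ := hx
    exact y.2)
  have hsub : (fun x => p⁻¹ * x * p) '' (s : Set Γ) ⊆ {g | H.len g ≤ R} := by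
    rintro _ ⟨x, hx, rfl⟩
    exact hp x hx
  have hinj : Function.Injective (fun x : Γ => p⁻¹ * x * p) := fun x y hxy => by
    simpa using hxy
  have h1 := Set.ncard_le_ncard hsub (H.fin _)
  rw [Set.ncard_image_of_injective _ hinj, Set.ncard_coe_finset, hsc] at h1
  omega

/-- the orders of the finite subgroups are bounded -/
theorem card_bound {Γ : Type} [Group Γ] (hΓ : HypGroup Γ) :
    ∃ B : ℕ, ∀ F : Subgroup Γ, Finite F → Nat.card F ≤ B := by
  obtain ⟨W, δ, hW⟩ := hΓ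
  set H := toHyp W δ hW
  have hl : Pool.Agent.H71R2.Hyp.Len H.len := by
    refine ⟨H.len_one, H.len_inv, H.len_mul, ?_, H.fin⟩
    intro g m hm
    obtain ⟨h, h1, h2⟩ := H.step g m hm
    exact ⟨h, h1, by omega⟩
  have h4 : Pool.Agent.H71R2.Hyp.FourPt H.len H.D := fun x y z w => H.fp' x y z w
  refine ⟨{g | H.len g ≤ 2 * H.D + 1}.ncard, fun F hF => ?_⟩
  obtain ⟨g, hg⟩ := Pool.Agent.H71R2.Hyp.finite_conj hl h4 F
  have hsub : (fun x => g⁻¹ * x * g) '' (F : Set Γ) ⊆ {g | H.len g ≤ 2 * H.D + 1} := by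
    rintro _ ⟨x, hx, rfl⟩
    exact hg x hx
  have hinj : Function.Injective (fun x : Γ => g⁻¹ * x * g) := fun x y hxy => by
    simpa using hxy
  have h1 := Set.ncard_le_ncard hsub (H.fin _)
  rw [Set.ncard_image_of_injective _ hinj] at h1
  rw [← SetLike.coe_sort_coe, Nat.card_coe_set_eq]
  exact h1

/-- the join of two finite normal subgroups is finite -/
theorem finite_sup {Γ : Type} [Group Γ] (N K : Subgroup Γ) [K.Normal] [Finite N] [Finite K] :
    Finite (N ⊔ K : Subgroup Γ) := by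
  have h := Subgroup.mul_normal N K
  have hN : (N : Set Γ).Finite := Set.toFinite _
  have hK : (K : Set Γ).Finite := Set.toFinite _
  have h2 := hN.mul hK
  rw [← h] at h2
  exact h2.to_subtype

/-- TARGET 2 -/
theorem exists_radical {Γ : Type} [Group Γ] (hΓ : HypGroup Γ) : ∃ K : Subgroup Γ, K.Normal ∧ Finite K ∧
    ∀ N : Subgroup Γ, N.Normal → Finite N → N ≤ K := by
  classical
  obtain ⟨B, hB⟩ := card_bound hΓ
  have hne : ∃ n, ∃ K : Subgroup Γ, K.Normal ∧ Finite K ∧ Nat.card K + n = B := by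
    refine ⟨B - Nat.card (⊥ : Subgroup Γ), ⊥, inferInstance, inferInstance, ?_⟩
    have := hB ⊥ inferInstance
    omega
  obtain ⟨K, hK1, hK2, hK3⟩ := Nat.find_spec hne
  refine ⟨K, hK1, hK2, fun N hN1 hN2 => ?_⟩
  have hfin : Finite (N ⊔ K : Subgroup Γ) := finite_sup N K
  have hcard := hB (N ⊔ K) hfin
  have hle : K ≤ N ⊔ K := le_sup_right
  have h5 : Nat.find hne ≤ B - Nat.card (N ⊔ K : Subgroup Γ) :=
    Nat.find_min' hne ⟨N ⊔ K, inferInstance, hfin, by omega⟩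
  have h6 : Nat.card (N ⊔ K : Subgroup Γ) ≤ Nat.card K := by omega
  have h7 : K = N ⊔ K := Subgroup.eq_of_le_of_card_ge hle h6
  rw [h7]
  exact le_sup_left

/-- TARGET 3 -/
theorem noFin_radical {Γ : Type} [Group Γ] (K : Subgroup Γ) [K.Normal] [Finite K]
    (hK : ∀ N : Subgroup Γ, N.Normal → Finite N → N ≤ K) : NoFin (Γ ⧸ K) := by
  intro N hN1 hN2
  have hfin : Finite (N.comap (QuotientGroup.mk' K)) := by
    have h1 : (N : Set (Γ ⧸ K)).Finite := Set.toFinite _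
    have h2 : ((QuotientGroup.mk' K) ⁻¹' (N : Set (Γ ⧸ K))).Finite := by
      refine h1.preimage' fun b _ => ?_
      obtain ⟨g, rfl⟩ := QuotientGroup.mk'_surjective K b
      have hKf : (K : Set Γ).Finite := Set.toFinite _
      refine (hKf.image (fun k => g * k)).subset ?_
      intro x hx
      have hx' : QuotientGroup.mk' K x = QuotientGroup.mk' K g := hx
      rw [QuotientGroup.mk'_eq_mk'] at hx'
      obtain ⟨z, hz, hz2⟩ := hx'
      refine ⟨z⁻¹, K.inv_mem hz, ?_⟩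
      show g * z⁻¹ = x
      rw [← hz2]; group
    exact h2.to_subtype
  have h3 := hK _ (hN1.comap (QuotientGroup.mk' K)) hfin
  rw [eq_bot_iff]
  intro x hx
  obtain ⟨g, rfl⟩ := QuotientGroup.mk'_surjective K x
  have h4 : g ∈ N.comap (QuotientGroup.mk' K) := hx
  have h5 := h3 h4
  rw [Subgroup.mem_bot]
  exact (QuotientGroup.eq_one_iff g).2 h5

end Pool.Agent.H507
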