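import Mathlib

set_option autoImplicit false

namespace Pool.Agent.H507

section alg0aux

variable {G K : Type} [Group G] [Group K] (N : Subgroup G) (j : N →* K)
  (α : G →* MulAut K)

/-- The graph homomorphism defining the amalgamation. -/
def alg0D (h1 : ∀ (κ : N) (x : K), α κ x = j κ * x * (j κ)⁻¹) : N →* K ⋊[α] G where
  toFun κ := ⟨(j κ)⁻¹, κ⟩
  map_one' := by
    ext <;> simp
  map_mul' κ κ' := by
    ext
    · simp only [SemidirectProduct.mul_left, map_mul, h1]
      group
    · simp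

theorem alg0D_normal [hN : N.Normal] (h1 : ∀ (κ : N) (x : K), α κ x = j κ * x * (j κ)⁻¹)
    (h2 : ∀ (g : G) (κ κ' : N), (κ' : G) = g * κ * g⁻¹ → α g (j κ) = j κ') :
    (alg0D N j α h1).range.Normal := by
  constructor
  rintro _ ⟨κ, rfl⟩ y
  have hy : y = SemidirectProduct.inl y.left * SemidirectProduct.inr y.right := by
    rw [SemidirectProduct.inl_left_mul_inr_right]
  set κ' : N := ⟨y.right * κ * y.right⁻¹, hN.conj_mem κ κ.2 y.right⟩ with hκ'
  have e1 : (SemidirectProduct.inr y.right : K ⋊[α] G) * alg0D N j α h1 κ *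
      (SemidirectProduct.inr y.right)⁻¹ = alg0D N j α h1 κ' := by
    ext
    · simp only [alg0D, MonoidHom.coe_mk, OneHom.coe_mk, SemidirectProduct.mul_left,
        SemidirectProduct.left_inr, SemidirectProduct.right_inr, SemidirectProduct.inv_left,
        SemidirectProduct.mul_right, map_inv, one_mul, inv_one, map_one, mul_one]
      rw [h2 y.right κ κ' rfl]
    · simp [alg0D, hκ']
  have e2 : ∀ (x : K) (k : N), (SemidirectProduct.inl x : K ⋊[α] G) * alg0D N j α h1 k *
      (SemidirectProduct.inl x)⁻¹ = alg0D N j α h1 k := by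
    intro x k
    ext
    · simp only [alg0D, MonoidHom.coe_mk, OneHom.coe_mk, SemidirectProduct.mul_left,
        SemidirectProduct.left_inl, SemidirectProduct.right_inl, SemidirectProduct.inv_left,
        SemidirectProduct.mul_right, map_inv, one_mul, inv_one, map_one, MulAut.one_apply]
      rw [h1]
      group
    · simp [alg0D]
  refine ⟨κ', ?_⟩
  rw [hy, mul_inv_rev]
  calc alg0D N j α h1 κ' = (SemidirectProduct.inl y.left : K ⋊[α] G) * alg0D N j α h1 κ' *
        (SemidirectProduct.inl y.left)⁻¹ := (e2 _ _).symm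
    _ = SemidirectProduct.inl y.left * (SemidirectProduct.inr y.right * alg0D N j α h1 κ *
      (SemidirectProduct.inr y.right)⁻¹) * (SemidirectProduct.inl y.left)⁻¹ := by rw [e1]
    _ = _ := by group

end alg0aux

/-- TARGET -/
theorem alg0 {G : Bool → Type} [∀ b, Group (G b)] (Kb : ∀ b, Subgroup (G b)) [∀ b, (Kb b).Normal]
    {K : Type} [Group K] (j : ∀ b, Kb b →* K) (hj : ∀ b, Function.Injective (j b))
    (α : ∀ b, G b →* MulAut K)
    (h1 : ∀ b (κ : Kb b) (x : K), α b κ x = j b κ * x * (j b κ)⁻¹)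
    (h2 : ∀ b (g : G b) (κ κ' : Kb b), (κ' : G b) = g * κ * g⁻¹ → α b g (j b κ) = j b κ') :
    ∃ (Γ : Type) (_ : Group Γ) (J : K →* Γ) (i : ∀ b, G b →* Γ)
      (p : Γ →* Monoid.CoprodI (fun b => G b ⧸ Kb b)),
      Function.Injective J ∧ (∀ b, Function.Injective (i b)) ∧
      (∀ b (κ : Kb b), i b κ = J (j b κ)) ∧
      (∀ b (g : G b) (x : K), i b g * J x * (i b g)⁻¹ = J (α b g x)) ∧
      Function.Surjective p ∧ p.ker = J.range ∧
      ∀ b (g : G b), p (i b g) = Monoid.CoprodI.of (M := fun b => G b ⧸ Kb b) (i := b) (g : G b ⧸ Kb b) := by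
  let D : ∀ b, Subgroup (K ⋊[α b] G b) := fun b => (alg0D (Kb b) (j b) (α b) (h1 b)).range
  have hD : ∀ b, (D b).Normal := fun b => alg0D_normal (Kb b) (j b) (α b) (h1 b) (h2 b)
  let A : Bool → Type := fun b => (K ⋊[α b] G b) ⧸ D b
  let _ : ∀ b, Group (A b) := fun b => QuotientGroup.Quotient.group (D b)
  let φ : ∀ b, K →* A b := fun b => (QuotientGroup.mk' (D b)).comp SemidirectProduct.inl
  let ψ : ∀ b, G b →* A b := fun b => (QuotientGroup.mk' (D b)).comp SemidirectProduct.inr
  have hφ : ∀ b, Function.Injective (φ b) := by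
    intro b
    rw [injective_iff_map_eq_one]
    intro x hx
    have h3 : (SemidirectProduct.inl x : K ⋊[α b] G b) ∈ D b := by
      rw [← QuotientGroup.eq_one_iff]
      exact hx
    obtain ⟨κ, hκ⟩ := h3
    have e1 := congrArg SemidirectProduct.right hκ
    have e2 := congrArg SemidirectProduct.left hκ
    simp only [alg0D, MonoidHom.coe_mk, OneHom.coe_mk, SemidirectProduct.right_inl,
      SemidirectProduct.left_inl] at e1 e2
    have e3 : κ = 1 := Subtype.ext e1
    rw [← e2, e3, map_one, inv_one]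
  have hψ : ∀ b, Function.Injective (ψ b) := by
    intro b
    rw [injective_iff_map_eq_one]
    intro x hx
    have h3 : (SemidirectProduct.inr x : K ⋊[α b] G b) ∈ D b := by
      rw [← QuotientGroup.eq_one_iff]
      exact hx
    obtain ⟨κ, hκ⟩ := h3
    have e1 := congrArg SemidirectProduct.right hκ
    have e2 := congrArg SemidirectProduct.left hκ
    simp only [alg0D, MonoidHom.coe_mk, OneHom.coe_mk, SemidirectProduct.right_inr,
      SemidirectProduct.left_inr] at e1 e2
    have e3 : κ = 1 := hj b (by rw [map_one]; exact inv_eq_one.1 e2)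
    rw [← e1, e3]
    rfl
  have hκφ : ∀ b (κ : Kb b), ψ b κ = φ b (j b κ) := by
    intro b κ
    symm
    change (QuotientGroup.mk' (D b)) (SemidirectProduct.inl (j b κ)) =
      (QuotientGroup.mk' (D b)) (SemidirectProduct.inr (κ : G b))
    rw [QuotientGroup.mk'_apply, QuotientGroup.mk'_apply, QuotientGroup.eq]
    refine ⟨κ, ?_⟩
    ext
    · simp [alg0D]
    · simp [alg0D]
  let Γ : Type := Monoid.PushoutI φ
  let _ : Group Γ := inferInstanceAs (Group (Monoid.PushoutI φ))
  let J : K →* Γ := Monoid.PushoutI.base φ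
  let i : ∀ b, G b →* Γ := fun b => (Monoid.PushoutI.of b : A b →* Monoid.PushoutI φ).comp (ψ b)
  have hof : ∀ b x, (Monoid.PushoutI.of b : A b →* Monoid.PushoutI φ) (φ b x) = J x :=
    fun b x => Monoid.PushoutI.of_apply_eq_base φ b x
  let pb : ∀ b, A b →* Monoid.CoprodI (fun b => G b ⧸ Kb b) := fun b =>
    QuotientGroup.lift (D b) ((Monoid.CoprodI.of (M := fun b => G b ⧸ Kb b) (i := b)).comp
      ((QuotientGroup.mk' (Kb b)).comp SemidirectProduct.rightHom)) (by
        rintro _ ⟨κ, rfl⟩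
        have : (κ : G b ⧸ Kb b) = 1 := (QuotientGroup.eq_one_iff _).2 κ.2
        change Monoid.CoprodI.of (M := fun b => G b ⧸ Kb b) (i := b) ((κ : G b) : G b ⧸ Kb b) = 1
        rw [this, map_one])
  have hpb : ∀ b, (pb b).comp (φ b) = 1 := by
    intro b
    ext x
    change Monoid.CoprodI.of (M := fun b => G b ⧸ Kb b) (i := b) (((1 : G b)) : G b ⧸ Kb b) = 1
    rw [QuotientGroup.mk_one, map_one]
  let p : Γ →* Monoid.CoprodI (fun b => G b ⧸ Kb b) := Monoid.PushoutI.lift pb 1 hpb
  have hpJ : ∀ x, p (J x) = 1 := fun x => Monoid.PushoutI.lift_base pb 1 hpb x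
  have hpi : ∀ b (g : G b), p (i b g) =
      Monoid.CoprodI.of (M := fun b => G b ⧸ Kb b) (i := b) (g : G b ⧸ Kb b) := by
    intro b g
    exact Monoid.PushoutI.lift_of pb 1 hpb (ψ b g)
  have hiκ : ∀ b (κ : Kb b), i b κ = J (j b κ) := by
    intro b κ
    change (Monoid.PushoutI.of b : A b →* Monoid.PushoutI φ) (ψ b κ) = _
    rw [hκφ, hof]
  have hconjA : ∀ b (g : G b) (x : K), ψ b g * φ b x * (ψ b g)⁻¹ = φ b (α b g x) := by
    intro b g x
    change (QuotientGroup.mk' (D b)) (SemidirectProduct.inr g) *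
      (QuotientGroup.mk' (D b)) (SemidirectProduct.inl x) *
      ((QuotientGroup.mk' (D b)) (SemidirectProduct.inr g))⁻¹ =
      (QuotientGroup.mk' (D b)) (SemidirectProduct.inl (α b g x))
    rw [← map_inv, ← map_mul, ← map_mul, SemidirectProduct.inl_aut, ← map_inv]
  have hconj : ∀ b (g : G b) (x : K), i b g * J x * (i b g)⁻¹ = J (α b g x) := by
    intro b g x
    rw [← hof b x, ← hof b (α b g x)]
    change (Monoid.PushoutI.of b : A b →* Monoid.PushoutI φ) (ψ b g) * _ *
      ((Monoid.PushoutI.of b : A b →* Monoid.PushoutI φ) (ψ b g))⁻¹ = _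
    rw [← map_inv, ← map_mul, ← map_mul, hconjA]
  have hdecA : ∀ b (a : A b), ∃ (x : K) (g : G b), a = φ b x * ψ b g := by
    intro b a
    obtain ⟨y, rfl⟩ := QuotientGroup.mk'_surjective (D b) a
    refine ⟨y.left, y.right, ?_⟩
    change _ = (QuotientGroup.mk' (D b)) (SemidirectProduct.inl y.left) *
      (QuotientGroup.mk' (D b)) (SemidirectProduct.inr y.right)
    rw [← map_mul, SemidirectProduct.inl_left_mul_inr_right]
  have hnorm' : ∀ γ : Γ, ∀ x : K, ∃ x' : K, γ * J x * γ⁻¹ = J x' := by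
    intro γ
    induction γ using Monoid.PushoutI.induction_on with
    | of b a =>
      intro x
      obtain ⟨y, g, rfl⟩ := hdecA b a
      refine ⟨y * α b g x * y⁻¹, ?_⟩
      rw [map_mul, hof, map_mul, map_mul, ← hconj b g x, map_inv]
      change J y * i b g * J x * (J y * i b g)⁻¹ = _
      group
    | base y =>
      intro x
      refine ⟨y * x * y⁻¹, ?_⟩
      change J y * J x * (J y)⁻¹ = _
      rw [map_mul, map_mul, map_inv]
    | mul γ γ' ih ih' =>
      intro x
      obtain ⟨x1, e1⟩ := ih' x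
      obtain ⟨x2, e2⟩ := ih x1
      refine ⟨x2, ?_⟩
      rw [← e2, ← e1]
      group
  have hnorm : J.range.Normal := by
    constructor
    rintro _ ⟨x, rfl⟩ γ
    obtain ⟨x', e⟩ := hnorm' γ x
    exact ⟨x', e.symm⟩
  let s : Monoid.CoprodI (fun b => G b ⧸ Kb b) →* Γ ⧸ J.range :=
    Monoid.CoprodI.lift (fun b => QuotientGroup.lift (Kb b) ((QuotientGroup.mk' J.range).comp (i b))
      (by
        intro κ hκ
        change (QuotientGroup.mk' J.range) (i b κ) = 1
        have := hiκ b ⟨κ, hκ⟩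
        rw [QuotientGroup.mk'_apply, QuotientGroup.eq_one_iff]
        exact ⟨_, this.symm⟩))
  have hs : ∀ γ : Γ, s (p γ) = (γ : Γ ⧸ J.range) := by
    intro γ
    induction γ using Monoid.PushoutI.induction_on with
    | of b a =>
      obtain ⟨y, g, rfl⟩ := hdecA b a
      rw [map_mul, hof]
      change s (p (J y * i b g)) = ((J y * i b g : Γ) : Γ ⧸ J.range)
      rw [map_mul, hpJ, one_mul, hpi]
      have e1 : ((J y * i b g : Γ) : Γ ⧸ J.range) = ((i b g : Γ) : Γ ⧸ J.range) := by
        rw [QuotientGroup.mk_mul, (QuotientGroup.eq_one_iff (N := J.range) (J y)).2 ⟨y, rfl⟩, one_mul]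
      rw [e1]
      simp only [s, Monoid.CoprodI.lift_of]
      rfl
    | base y =>
      change s (p (J y)) = ((J y : Γ) : Γ ⧸ J.range)
      rw [hpJ, map_one, (QuotientGroup.eq_one_iff (N := J.range) (J y)).2 ⟨y, rfl⟩]
    | mul γ γ' ih ih' =>
      rw [map_mul, map_mul, ih, ih']
      rfl
  refine ⟨Γ, inferInstance, J, i, p, Monoid.PushoutI.base_injective hφ, ?_, hiκ, hconj, ?_, ?_, hpi⟩
  · intro b
    exact (Monoid.PushoutI.of_injective hφ b).comp (hψ b)
  · intro y
    induction y using Monoid.CoprodI.induction_on with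
    | one => exact ⟨1, map_one p⟩
    | of b a =>
      obtain ⟨g, rfl⟩ := QuotientGroup.mk'_surjective (Kb b) a
      exact ⟨i b g, hpi b g⟩
    | mul y y' ih ih' =>
      obtain ⟨γ, rfl⟩ := ih
      obtain ⟨γ', rfl⟩ := ih'
      exact ⟨γ * γ', map_mul p _ _⟩
  · ext γ
    constructor
    · intro h
      have h3 := hs γ
      rw [MonoidHom.mem_ker.1 h, map_one] at h3
      exact (QuotientGroup.eq_one_iff γ).1 h3.symm
    · rintro ⟨x, rfl⟩
      exact hpJ x

end Pool.Agent.H507
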