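import Pool.Agent.H507_D.Defs
import Pool.Agent.H71R2.Hyp.FP

set_option autoImplicit false

open scoped Pointwise

namespace Pool.Agent.H507

open Pool.Agent.TH68 Pool.Agent.Helper97.Hyp

open Pool.Agent.H71R2.Hyp in
/-- the unit ball of a norm generates, and its powers are the balls -/
theorem ball_pow {G : Type} [Group G] (W : WNorm G) (n : ℕ) (g : G) :
    g ∈ (((W.fin 1).toFinset : Set G) ∪ ((W.fin 1).toFinset : Set G)⁻¹ ∪ {1}) ^ n ↔ W.ℓ g ≤ n := by
  have hU : (((W.fin 1).toFinset : Set G) ∪ ((W.fin 1).toFinset : Set G)⁻¹ ∪ {1}) = {g | W.ℓ g ≤ 1} := by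
    rw [Set.Finite.coe_toFinset]
    ext x
    simp only [Set.mem_union, Set.mem_inv, Set.mem_ofPred_eq, Set.mem_singleton_iff, W.inv']
    constructor
    · rintro ((h | h) | h)
      · exact h
      · exact h
      · rw [h, W.one']; omega
    · intro h; exact Or.inl (Or.inl h)
  rw [hU]
  induction n generalizing g with
  | zero =>
    rw [pow_zero, Set.mem_one]
    constructor
    · rintro rfl; rw [W.one']
    · intro h; exact W.eq_one g (by omega)
  | succ n ih =>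
    rw [pow_succ, Set.mem_mul]
    constructor
    · rintro ⟨a, ha, b, hb, rfl⟩
      have h1 := (ih a).1 ha
      have h2 : W.ℓ b ≤ 1 := hb
      have h3 := W.mul_le a b
      omega
    · intro h
      by_cases h1 : W.ℓ g ≤ n
      · exact ⟨g, (ih g).2 h1, 1, by rw [Set.mem_ofPred_eq, W.one']; omega, mul_one g⟩
      · obtain ⟨a, b, hab, ha, hb⟩ := W.geod g n (by omega)
        refine ⟨a, (ih a).2 (by omega), b, ?_, hab⟩
        rw [Set.mem_ofPred_eq]; omega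

theorem ball_closure {G : Type} [Group G] (W : WNorm G) :
    Subgroup.closure ((W.fin 1).toFinset : Set G) = ⊤ := by
  rw [eq_top_iff]
  have : ∀ (n : ℕ) (g : G), W.ℓ g ≤ n → g ∈ Subgroup.closure ((W.fin 1).toFinset : Set G) := by
    intro n
    induction n with
    | zero =>
      intro g hg
      rw [W.eq_one g (by omega)]
      exact Subgroup.one_mem _
    | succ n ih =>
      intro g hg
      by_cases h1 : W.ℓ g ≤ n
      · exact ih g h1
      · obtain ⟨a, b, hab, ha, hb⟩ := W.geod g n (by omega)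
        rw [← hab]
        refine Subgroup.mul_mem _ (ih a (by omega)) (Subgroup.subset_closure ?_)
        rw [Set.Finite.coe_toFinset, Set.mem_ofPred_eq]
        omega
  intro g _
  exact this _ g le_rfl

/-- TARGET 1 -/
theorem hyp_iff {G : Type} [Group G] : Pool.Agent.H71R2.Hyp.Hyperbolic G ↔ HypGroup G := by
  constructor
  · rintro ⟨S, hS, δ, h4⟩
    have hl := Pool.Agent.H71R2.Hyp.wl_len S.finite_toSet hS
    let W : WNorm G :=
      { ℓ := Pool.Agent.H71R2.Hyp.wl (S : Set G)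
        one' := hl.one
        eq_one := by
          intro g hg
          have h1 := (Pool.Agent.H71R2.Hyp.wl_le_iff hS g 0).1 (le_of_eq hg)
          rw [pow_zero, Set.mem_one] at h1
          exact h1
        inv' := hl.inv
        mul_le := hl.mul
        geod := by
          intro g k hk
          obtain ⟨a, ha, hb⟩ := hl.geo g k hk
          exact ⟨a, a⁻¹ * g, by group, ha, by omega⟩
        fin := hl.fin }
    refine ⟨W, δ, ?_⟩
    intro x y z w
    have h5 : W.ℓ (x.out⁻¹ * y.out) + W.ℓ (z.out⁻¹ * w.out) ≤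
        max (W.ℓ (x.out⁻¹ * z.out) + W.ℓ (y.out⁻¹ * w.out))
          (W.ℓ (x.out⁻¹ * w.out) + W.ℓ (y.out⁻¹ * z.out)) + δ := h4 x.out y.out z.out w.out
    have h6 : ((W.ℓ (x.out⁻¹ * y.out) : ℕ) : ℝ) + ((W.ℓ (z.out⁻¹ * w.out) : ℕ) : ℝ) ≤
        max (((W.ℓ (x.out⁻¹ * z.out) : ℕ) : ℝ) + ((W.ℓ (y.out⁻¹ * w.out) : ℕ) : ℝ))
          (((W.ℓ (x.out⁻¹ * w.out) : ℕ) : ℝ) + ((W.ℓ (y.out⁻¹ * z.out) : ℕ) : ℝ)) + (δ : ℝ) := by
      exact_mod_cast h5
    rw [dist_def, dist_def, dist_def, dist_def, dist_def, dist_def]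
    have h7 : (0 : ℝ) ≤ δ := Nat.cast_nonneg δ
    linarith
  · rintro ⟨W, δ, h⟩
    refine ⟨(W.fin 1).toFinset, ball_closure W, ⌈2 * δ⌉₊, ?_⟩
    have hwd : ∀ x y : G, Pool.Agent.H71R2.Hyp.wd ((W.fin 1).toFinset : Set G) x y = W.ℓ (x⁻¹ * y) := by
      intro x y
      unfold Pool.Agent.H71R2.Hyp.wd
      have h1 : {n : ℕ | x⁻¹ * y ∈ (((W.fin 1).toFinset : Set G) ∪ ((W.fin 1).toFinset : Set G)⁻¹ ∪ {1}) ^ n}
          = {n : ℕ | W.ℓ (x⁻¹ * y) ≤ n} := by
        ext n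
        exact ball_pow W n _
      rw [h1]
      apply le_antisymm
      · exact Nat.sInf_le (le_refl (W.ℓ (x⁻¹ * y)))
      · exact Nat.sInf_mem (s := {n : ℕ | W.ℓ (x⁻¹ * y) ≤ n}) ⟨_, le_refl (W.ℓ (x⁻¹ * y))⟩
    intro x y z w
    simp only [hwd]
    have h2 := h (pt W x) (pt W y) (pt W z) (pt W w)
    rw [dist_def, dist_def, dist_def, dist_def, dist_def, dist_def] at h2
    simp only [out_pt] at h2
    have h3 : 2 * δ ≤ (⌈2 * δ⌉₊ : ℝ) := Nat.le_ceil _
    have h4 : ((W.ℓ (x⁻¹ * y) : ℕ) : ℝ) + ((W.ℓ (z⁻¹ * w) : ℕ) : ℝ) ≤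
        max (((W.ℓ (x⁻¹ * z) : ℕ) : ℝ) + ((W.ℓ (y⁻¹ * w) : ℕ) : ℝ))
          (((W.ℓ (x⁻¹ * w) : ℕ) : ℝ) + ((W.ℓ (y⁻¹ * z) : ℕ) : ℝ)) + (⌈2 * δ⌉₊ : ℝ) := by linarith
    exact_mod_cast h4

/-- TARGET 2 -/
theorem hyp_fg {G : Type} [Group G] (h : HypGroup G) : Group.FG G := by
  obtain ⟨S, hS, _⟩ := hyp_iff.2 h
  exact Group.fg_iff.2 ⟨(S : Set G), hS, S.finite_toSet⟩

/-- TARGET 3 -/
theorem hyp_fp {G : Type} [Group G] (h : HypGroup G) : Group.IsFinitelyPresented G :=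
  (hyp_iff.2 h).fp

end Pool.Agent.H507
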