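import Pool.Agent.TH63.SC.Cross

set_option autoImplicit false
set_option linter.unusedSectionVars false

namespace Pool.Agent.H507

open Pool.Agent.Helper97.Hyp Pool.Agent.TH68 Pool.Agent.TH63.SC

variable {Γ : Type*} [Group Γ] {W : WNorm Γ} {𝒜 : Type*} [MulAction Γ 𝒜]

/-- TARGET -/
theorem crossing_long {Y : Sys Γ W 𝒜} {K l L : ℝ} {P Q : ℤ → Pt W} {A B : ℤ → 𝒜}
    (hP : Br Y K l L P A) (hQ : Br Y K l L Q B) (q : ℕ) {j m : ℤ} (hjm : j < m) {u v : ℤ}
    (huv : u < v) (hu : IsProj (L + 2 * K) (Set.range P) (Q j) (P u))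
    (hv : IsProj (L + 2 * K) (Set.range P) (Q m) (P v))
    (hfar : ((q : ℝ) + 8) * L < dist (P u) (P v)) :
    ∃ w k : ℤ, (∀ i : ℕ, i ≤ q + 1 → dist (P (w + i)) (Q (k + i)) ≤ 68 * K) ∧
      ∀ i : ℕ, i ≤ q → A (w + i) = B (k + i) := by
  classical
  have hδ := hP.δ_le
  have hl := hP.hl
  have hL := hP.l_le
  have hK := hP.K_one
  have hθ := hP.hθ
  have hq0 : (0 : ℝ) ≤ q := Nat.cast_nonneg q
  have hL0 : 0 ≤ L := by linarith
  have hqL : 0 ≤ (q : ℝ) * L := mul_nonneg hq0 hL0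
  have hfar' : (q : ℝ) * L + 8 * L < dist (P u) (P v) := by linarith
  -- the first vertex far from `P u`
  have hex : ∃ n : ℕ, L < dist (P u) (P (u + n)) :=
    ⟨(v - u).toNat, by rw [show u + ((v - u).toNat : ℤ) = v by omega]; linarith⟩
  obtain ⟨n, hn⟩ : ∃ n, n = Nat.find hex := ⟨_, rfl⟩
  have hn1 : L < dist (P u) (P (u + n)) := hn ▸ Nat.find_spec hex
  have hn0 : n ≠ 0 := by
    rintro rfl
    rw [Nat.cast_zero, add_zero, dist_self] at hn1
    linarith
  have hn2 : dist (P u) (P (u + n)) ≤ 2 * L := by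
    have h1 : ¬ L < dist (P u) (P (u + (n - 1 : ℕ))) := Nat.find_min hex (by omega)
    have h2 := hP.hi (u + (n - 1 : ℕ))
    rw [show u + ((n - 1 : ℕ) : ℤ) + 1 = u + n by omega] at h2
    have h3 := dist_triangle (P u) (P (u + (n - 1 : ℕ))) (P (u + n))
    linarith
  obtain ⟨z, hz⟩ : ∃ z : ℤ, z = u + n := ⟨_, rfl⟩
  rw [← hz] at hn1 hn2
  have huz : u ≤ z := by omega
  have hup : ∀ i : ℕ, dist (P u) (P (z + i)) ≤ (2 + i) * L := by
    intro i
    induction i with
    | zero => simpa using hn2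
    | succ i ih =>
      have h2 := hP.hi (z + i)
      have h3 := dist_triangle (P u) (P (z + i)) (P (z + i + 1))
      push_cast
      rw [← add_assoc]
      linarith
  have hlow : ∀ i : ℕ, L < dist (P u) (P (z + i)) := by
    intro i
    rcases Nat.eq_zero_or_pos i with rfl | hi
    · simpa using hn1
    · have h1 := hP.dist_add (i := u) (j := z) (k := z + i) huz (by omega)
      have h2 := hP.lo_lt (i := z) (j := z + i) (by omega)
      linarith
  have hzv : ∀ i : ℕ, i ≤ q + 3 → z + i ≤ v := by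
    intro i hi
    by_contra hcon
    push Not at hcon
    have h1 := hP.dist_add (i := u) (j := v) (k := z + i) huv.le hcon.le
    have h2 := hup i
    have h3 : (i : ℝ) ≤ q + 3 := by exact_mod_cast hi
    have h4 : (2 + (i : ℝ)) * L ≤ (q + 5) * L := mul_le_mul_of_nonneg_right (by linarith) hL0
    have h4' : (2 + (i : ℝ)) * L ≤ (q : ℝ) * L + 5 * L := by linarith
    have h5 := dist_nonneg (x := P v) (y := P (z + i))
    linarith
  have hfv : ∀ i : ℕ, i ≤ q + 3 → 3 * L < dist (P (z + i)) (P v) := by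
    intro i hi
    have h2 := hup i
    have h3 : (i : ℝ) ≤ q + 3 := by exact_mod_cast hi
    have h4 : (2 + (i : ℝ)) * L ≤ (q + 5) * L := mul_le_mul_of_nonneg_right (by linarith) hL0
    have h4' : (2 + (i : ℝ)) * L ≤ (q : ℝ) * L + 5 * L := by linarith
    have h5 := dist_triangle (P u) (P (z + i)) (P v)
    linarith
  have hnear : ∀ i : ℕ, i ≤ q + 3 → exc (Q j) (Q m) (P (z + i)) ≤ 29 * K := fun i hi =>
    hP.near_mid (by omega) (hzv i hi) hu hv (hlow i) (by have := hfv i hi; linarith)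
  have hinc : ∀ i : ℕ, i ≤ q + 2 →
      dist (Q j) (P (z + i)) + (l - 27 * K) ≤ dist (Q j) (P (z + (i + 1 : ℕ))) := by
    intro i hi
    have h1 := hP.split_left (w := z + i) (w' := z + (i + 1 : ℕ)) (by omega) (by omega) hu (hlow i)
    have h2 := hP.lo (z + i)
    rw [show z + (i : ℤ) + 1 = z + ((i + 1 : ℕ) : ℤ) by push_cast; ring] at h2
    unfold exc at h1
    linarith
  -- the vertices of `Q`
  have qnear : ∀ k : ℤ, j ≤ k → k ≤ m → exc (Q j) (Q m) (Q k) ≤ 29 * K := by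
    intro k h1 h2
    have := hQ.exc_le h1 h2
    linarith
  have qinc : ∀ k k' : ℤ, j ≤ k → k < k' →
      dist (Q j) (Q k) + (l - 50 * K) ≤ dist (Q j) (Q k') := by
    intro k k' h1 h2
    have h3 := hQ.dist_add h1 h2.le
    have h4 := hQ.lo_lt h2
    linarith
  have qinc1 : ∀ k : ℤ, j ≤ k →
      dist (Q j) (Q k) + (l - 25 * K) ≤ dist (Q j) (Q (k + 1)) := by
    intro k h1
    have h3 := hQ.dist_add (i := j) (j := k) (k := k + 1) h1 (by omega)
    have h4 := hQ.lo k
    linarith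
  have hlast : ∀ i : ℕ, i ≤ q + 3 → dist (Q j) (P (z + i)) < dist (Q j) (Q m) := by
    intro i hi
    have h1 := hnear i hi
    have h2 := hfv i hi
    have h3 := hv.2 (P (z + i)) ⟨_, rfl⟩
    rw [dist_comm (P v) (P (z + i)), dist_comm (Q m) (P (z + i))] at h3
    unfold exc at h1
    have h4 := dist_nonneg (x := Q m) (y := P v)
    linarith
  -- matching
  have hmatch : ∀ i : ℕ, 1 ≤ i → i ≤ q + 2 → ∃ k : ℤ, j ≤ k ∧ k ≤ m ∧
      |dist (Q j) (P (z + i)) - dist (Q j) (Q k)| ≤ 37 * K := by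
    intro i hi1 hi3
    have hex2 : ∃ n : ℕ, dist (Q j) (P (z + i)) < dist (Q j) (Q (j + n)) :=
      ⟨(m - j).toNat, by
        rw [show j + ((m - j).toNat : ℤ) = m by omega]; exact hlast i (by omega)⟩
    obtain ⟨t, ht⟩ : ∃ t, t = Nat.find hex2 := ⟨_, rfl⟩
    have ht1 : dist (Q j) (P (z + i)) < dist (Q j) (Q (j + t)) := ht ▸ Nat.find_spec hex2
    have ht0 : t ≠ 0 := by
      rintro rfl
      rw [Nat.cast_zero, add_zero, dist_self] at ht1
      have := dist_nonneg (x := Q j) (y := P (z + i))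
      linarith
    have htm : j + (t : ℤ) ≤ m := by
      have h1 : t ≤ (m - j).toNat := by
        rw [ht]
        apply Nat.find_min'
        rw [show j + ((m - j).toNat : ℤ) = m by omega]
        exact hlast i (by omega)
      omega
    have ht2 : dist (Q j) (Q (j + (t - 1 : ℕ))) ≤ dist (Q j) (P (z + i)) :=
      not_lt.1 (Nat.find_min hex2 (by omega))
    obtain ⟨k, hk⟩ : ∃ k : ℤ, k = j + (t - 1 : ℕ) := ⟨_, rfl⟩
    rw [show j + (t : ℤ) = k + 1 by omega] at ht1 htm
    rw [← hk] at ht2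
    by_cases c1 : dist (Q j) (P (z + i)) ≤ dist (Q j) (Q k) + 37 * K
    · refine ⟨k, by omega, by omega, ?_⟩
      rw [abs_of_nonneg (by linarith)]
      linarith
    by_cases c2 : dist (Q j) (Q (k + 1)) ≤ dist (Q j) (P (z + i)) + 37 * K
    · refine ⟨k + 1, by omega, by omega, ?_⟩
      rw [abs_of_nonpos (by linarith)]
      linarith
    exfalso
    push Not at c1 c2
    obtain ⟨i', rfl⟩ : ∃ i', i = i' + 1 := ⟨i - 1, by omega⟩
    have a1 := hinc i' (by omega)
    have a2 := hinc (i' + 1) (by omega)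
    have r1 := hP.right (z + i')
    rw [show z + (i' : ℤ) + 1 = z + ((i' + 1 : ℕ) : ℤ) by push_cast; ring] at r1
    have r2 := hP.right (z + (i' + 1 : ℕ))
    rw [show z + ((i' + 1 : ℕ) : ℤ) + 1 = z + ((i' + 1 + 1 : ℕ) : ℤ) by push_cast; ring] at r2
    have hne := hP.ne (z + i')
    rw [show z + (i' : ℤ) + 1 = z + ((i' + 1 : ℕ) : ℤ) by push_cast; ring] at hne
    exact Br.turn hθ hne (hnear i' (by omega)) (hnear (i' + 1) (by omega))
      (hnear (i' + 1 + 1) (by omega)) (qnear k (by omega) (by omega))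
      (qnear (k + 1) (by omega) (by omega)) (hP.left _) r1 (hP.left _) r2 (hQ.left k) (hQ.right k)
      (by linarith) (by linarith) (by linarith) (by linarith)
  have hnext : ∀ i : ℕ, 1 ≤ i → i ≤ q + 1 → ∀ k k' : ℤ, j ≤ k → k ≤ m → j ≤ k' → k' ≤ m →
      |dist (Q j) (P (z + i)) - dist (Q j) (Q k)| ≤ 37 * K →
      |dist (Q j) (P (z + (i + 1 : ℕ))) - dist (Q j) (Q k')| ≤ 37 * K → k' = k + 1 := by
    intro i hi1 hi2 k k' hk1 hk2 hk1' hk2' e1 e2
    rw [abs_le] at e1 e2
    have a1 := hinc i (by omega)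
    have hlt : k < k' := by
      by_contra hcon
      push Not at hcon
      have h1 : dist (Q j) (Q k') ≤ dist (Q j) (Q k) := by
        rcases hcon.eq_or_lt with h2 | h2
        · rw [h2]
        · have := qinc k' k hk1' h2
          linarith
      linarith
    by_contra hne
    have hlt2 : k + 1 < k' := by omega
    have b1 := qinc1 k hk1
    have b2 := qinc1 (k + 1) (by omega)
    have b3 := qinc (k + 1) k' (by omega) hlt2
    have r1 := hP.right (z + i)
    rw [show z + (i : ℤ) + 1 = z + ((i + 1 : ℕ) : ℤ) by push_cast; ring] at r1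
    exact Br.turn hθ (hQ.ne k) (qnear k hk1 hk2) (qnear (k + 1) (by omega) (by omega))
      (qnear (k + 1 + 1) (by omega) (by omega)) (hnear i (by omega)) (hnear (i + 1) (by omega))
      (hQ.left k) (hQ.right k) (hQ.left (k + 1)) (hQ.right (k + 1)) (hP.left _) r1
      (by linarith) (by linarith) (by linarith) (by linarith)
  obtain ⟨k₁, h11, h12, h13⟩ := hmatch 1 le_rfl (by omega)
  have hall : ∀ i : ℕ, i ≤ q + 1 → j ≤ k₁ + i ∧ k₁ + i ≤ m ∧
      |dist (Q j) (P (z + (i + 1 : ℕ))) - dist (Q j) (Q (k₁ + i))| ≤ 37 * K := by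
    intro i
    induction i with
    | zero =>
      intro _
      refine ⟨by simpa using h11, by simpa using h12, ?_⟩
      simpa using h13
    | succ i ih =>
      intro hi
      obtain ⟨g1, g2, g3⟩ := ih (by omega)
      obtain ⟨k', f1, f2, f3⟩ := hmatch (i + 1 + 1) (by omega) (by omega)
      have e := hnext (i + 1) (by omega) (by omega) (k₁ + i) k' g1 g2 f1 f2 g3 f3
      have e' : k' = k₁ + ((i + 1 : ℕ) : ℤ) := by rw [e]; push_cast; ring
      rw [e'] at f1 f2 f3
      exact ⟨f1, f2, f3⟩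
  have hd : ∀ i : ℕ, i ≤ q + 1 →
      dist (P (z + (1 : ℕ) + i)) (Q (k₁ + i)) ≤ 68 * K := by
    intro i hi
    obtain ⟨g1, g2, g3⟩ := hall i hi
    have d1 := Br.near_dist hδ (hnear (i + 1) (by omega)) (qnear (k₁ + i) g1 g2)
    rw [show z + ((1 : ℕ) : ℤ) + i = z + ((i + 1 : ℕ) : ℤ) by push_cast; ring]
    linarith
  refine ⟨z + (1 : ℕ), k₁, hd, ?_⟩
  intro i hi
  have r1 := hP.right (z + (1 : ℕ) + i)
  have l1 := hP.lo (z + (1 : ℕ) + i)
  have r2 := hQ.right (k₁ + i)
  have hd2 := hd (i + 1) (by omega)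
  rw [show z + ((1 : ℕ) : ℤ) + ((i + 1 : ℕ) : ℤ) = z + ((1 : ℕ) : ℤ) + i + 1 by push_cast; ring,
    show k₁ + ((i + 1 : ℕ) : ℤ) = k₁ + i + 1 by push_cast; ring] at hd2
  exact Br.line_eq hθ hl (hP.left _) r1 (hQ.left _) r2 (hd i (by omega)) hd2 l1

end Pool.Agent.H507
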