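import Pool.Agent.H507_D.Line
import Pool.Agent.TH63.SC.Br

set_option autoImplicit false
set_option linter.unusedSectionVars false

namespace Pool.Agent.H507

open Pool.Agent.Helper97.Hyp Pool.Agent.TH68 Pool.Agent.TH63.SC

/-- bi-infinite products -/
theorem word_exists_prod {Γ : Type} [Group Γ] (s : ℤ → Γ) :
    ∃ g : ℤ → Γ, g 0 = 1 ∧ ∀ i, g (i + 1) = g i * s i := by
  let P : ℕ → Γ := fun n => Nat.rec 1 (fun k x => x * s k) n
  let Q : ℕ → Γ := fun n => Nat.rec 1 (fun (k : ℕ) x => x * (s (-((k : ℤ) + 1)))⁻¹) n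
  have hP : ∀ k : ℕ, P (k + 1) = P k * s k := fun k => rfl
  have hQ : ∀ k : ℕ, Q (k + 1) = Q k * (s (-((k : ℤ) + 1)))⁻¹ := fun k => rfl
  have hP0 : P 0 = 1 := rfl
  have hQ0 : Q 0 = 1 := rfl
  refine ⟨fun i => if 0 ≤ i then P i.toNat else Q (-i).toNat, ?_, ?_⟩
  · simp [hP0]
  · intro i
    rcases lt_trichotomy i (-1) with h1 | h1 | h1
    · have e1 : ¬ (0 ≤ i + 1) := by omega
      have e2 : ¬ (0 ≤ i) := by omega
      simp only [e1, e2, if_false]
      obtain ⟨k, hk⟩ : ∃ k : ℕ, i = -((k : ℤ) + 1) := ⟨(-i - 1).toNat, by omega⟩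
      have e3 : (-(i + 1)).toNat = k := by omega
      have e4 : (-i).toNat = k + 1 := by omega
      rw [e3, e4, hQ, hk, inv_mul_cancel_right]
    · subst h1
      have e4 : (-(-1 : ℤ)).toNat = 0 + 1 := by norm_num
      beta_reduce
      rw [if_pos (by norm_num), if_neg (by norm_num), e4, hQ]
      have e5 : ((-1 : ℤ) + 1).toNat = 0 := by norm_num
      rw [e5, hP0, hQ0]
      simp
    · have e1 : 0 ≤ i + 1 := by omega
      have e2 : 0 ≤ i := by omega
      simp only [e1, e2, if_true]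
      obtain ⟨k, rfl⟩ := Int.eq_ofNat_of_zero_le e2
      have e3 : ((k : ℤ) + 1).toNat = k + 1 := by omega
      rw [e3, hP, Int.toNat_natCast]

theorem word_exists_per {Γ : Type} [Group Γ] (s g : ℤ → Γ) (m : ℕ) (hs : ∀ i, s (i + m) = s i)
    (h0 : g 0 = 1) (h1 : ∀ i, g (i + 1) = g i * s i) : ∀ i, g (i + m) = g m * g i := by
  intro i
  induction i using Int.induction_on with
  | zero => rw [zero_add, h0, mul_one]
  | succ i ih =>
    rw [show (i : ℤ) + 1 + m = i + m + 1 by ring, h1, ih, hs, h1, mul_assoc]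
  | pred i ih =>
    have e1 := h1 (-(i : ℤ) - 1 + m)
    rw [show -(i : ℤ) - 1 + m + 1 = -i + m by ring, ih, hs] at e1
    have e2 := h1 (-(i : ℤ) - 1)
    rw [show -(i : ℤ) - 1 + 1 = -i by ring] at e2
    rw [e2, ← mul_assoc] at e1
    exact (mul_right_cancel e1).symm

theorem word_exists_mod {α : Type} (f : ℤ → α) (m : ℕ) (hf : ∀ i, f (i + m) = f i) (i : ℤ) :
    f i = f (i % m) := by
  have h1 : Function.Periodic f (m : ℤ) := hf
  have h2 := h1.int_mul (i / m) (i % m)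
  rw [← h2]
  congr 1
  have h3 := Int.mul_ediv_add_emod i m
  rw [mul_comm] at h3
  rw [Int.cast_id]
  linarith

theorem word_exists_level {Γ : Type} [Group Γ] {W : WNorm Γ} {δ : ℝ} {o : Pt W} {c : Γ}
    (h : Lox δ o c) (L : ℝ) (hL : 0 < L) : ∃ n : ℕ, L ≤ tl o c n ∧ tl o c n ≤ L + tl o c 1 := by
  classical
  have hex : ∃ n : ℕ, L ≤ tl o c n := ⟨⌈L⌉₊, (Nat.le_ceil L).trans (h.tl_ge _)⟩
  refine ⟨Nat.find hex, Nat.find_spec hex, ?_⟩
  have hpos : Nat.find hex ≠ 0 := by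
    intro h0
    have := Nat.find_spec hex
    rw [h0, Lox.tl_zero] at this
    linarith
  obtain ⟨k, hk⟩ := Nat.exists_eq_succ_of_ne_zero hpos
  have h1 : ¬ L ≤ tl o c k := Nat.find_min hex (by omega)
  push Not at h1
  rw [hk]
  have := Lox.tl_sub (o := o) (g := c) k 1
  change tl o c (k + 1) ≤ _
  linarith

/-- TARGET -/
theorem word_exists {Γ : Type} [Group Γ] {W : WNorm Γ} {δ : ℝ} {o : Pt W} {c : Γ} (hδ : 1 ≤ δ)
    (h : Lox δ o c) (m : ℕ) (hm : 3 ≤ m) (f : ℤ → Γ) (hf : ∀ i, f (i + m) = f i)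
    (hfE : ∀ i, f i ∉ Lox.E c) (ρ : ℝ) :
    ∃ (K l : ℝ) (n : ℤ → ℕ) (g : ℤ → Γ), ρ ≤ K ∧ ρ ≤ l ∧ 1000 * K * (m + 2) ≤ l ∧
      (∀ i, dist o (f i • o) ≤ K) ∧ g 0 = 1 ∧ (∀ i, g (i + 1) = g i * (c ^ n i * f i)) ∧
      (∀ i, g (i + m) = g m * g i) ∧ (∀ i, n (i + m) = n i) ∧ (∀ i, l ≤ dist o (c ^ n i • o)) ∧
      Br (lineSys hδ h) K l (4 * l) (fun i => g i • o) (fun i => ((g i : Γ) : Γ ⧸ Lox.E c)) ∧
      ∀ i j : ℤ, |dist (g i • o) (g (i + 1) • o) - dist (g j • o) (g (j + 1) • o)| ≤ 136 * K →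
        (m : ℤ) ∣ j - i := by
  have hm0 : (0 : ℤ) < m := by omega
  have hm3 : (3 : ℝ) ≤ m := by exact_mod_cast hm
  -- the constants
  obtain ⟨K, hKρ, hK1, hKθ, hKc, hKf⟩ : ∃ K : ℝ, ρ ≤ K ∧ 1 ≤ K ∧ (lineSys hδ h).θ ≤ K ∧
      tl o c 1 ≤ K ∧ ∀ i, dist o (f i • o) ≤ K := by
    have hS : ∀ j ∈ Finset.range m, dist o (f (j : ℤ) • o) ≤
        ∑ j ∈ Finset.range m, dist o (f (j : ℤ) • o) := fun j hj =>
      Finset.single_le_sum (f := fun j : ℕ => dist o (f (j : ℤ) • o))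
        (fun _ _ => dist_nonneg) hj
    have hS0 : 0 ≤ ∑ j ∈ Finset.range m, dist o (f (j : ℤ) • o) :=
      Finset.sum_nonneg fun _ _ => dist_nonneg
    have ht : (0 : ℝ) ≤ tl o c 1 := dist_nonneg
    have hρ0 : 0 ≤ |ρ| := abs_nonneg ρ
    have hρ1 : ρ ≤ |ρ| := le_abs_self ρ
    have hθ0 : 0 ≤ |(lineSys hδ h).θ| := abs_nonneg _
    have hθ1 : (lineSys hδ h).θ ≤ |(lineSys hδ h).θ| := le_abs_self _
    refine ⟨|ρ| + 1 + |(lineSys hδ h).θ| + tl o c 1 +
      ∑ j ∈ Finset.range m, dist o (f (j : ℤ) • o), by linarith, by linarith, by linarith,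
      by linarith, ?_⟩
    intro i
    rw [word_exists_mod f m hf i]
    have h1 := Int.emod_nonneg i hm0.ne'
    have h2 := Int.emod_lt_of_pos i hm0
    have h3 := hS (i % m).toNat (by rw [Finset.mem_range]; omega)
    rw [Int.toNat_of_nonneg h1] at h3
    linarith
  set l : ℝ := 1000 * K * (m + 2) + |ρ| with hl
  have hρ0 : 0 ≤ |ρ| := abs_nonneg ρ
  have hρ1 : ρ ≤ |ρ| := le_abs_self ρ
  have hKm : 3 * K ≤ m * K := mul_le_mul_of_nonneg_right hm3 (by linarith)
  have hll : 1000 * (m * K) + 2000 * K ≤ l := by rw [hl]; linarith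
  have hNex : ∀ j : ℕ, ∃ n : ℕ, l + K + 1000 * K * j ≤ tl o c n ∧
      tl o c n ≤ l + 2 * K + 1000 * K * j := by
    intro j
    have hj : 0 ≤ K * (j : ℝ) := by positivity
    obtain ⟨n, h1, h2⟩ := word_exists_level h (l + K + 1000 * K * j) (by linarith)
    exact ⟨n, h1, by linarith⟩
  choose N hN1 hN2 using hNex
  set n : ℤ → ℕ := fun i => N (i % m).toNat with hn
  have hnper : ∀ i, n (i + m) = n i := by
    intro i
    simp only [hn, Int.add_emod_right]
  have hsper : ∀ i, (fun i => c ^ n i * f i) (i + m) = (fun i => c ^ n i * f i) i := by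
    intro i
    simp only [hnper, hf]
  obtain ⟨g, hg0, hg1⟩ := word_exists_prod (fun i => c ^ n i * f i)
  have hgper := word_exists_per _ g m hsper hg0 hg1
  -- lengths of steps
  have hstep : ∀ i, dist (g i • o) (g (i + 1) • o) = dist o ((c ^ n i * f i) • o) := by
    intro i
    rw [hg1, mul_smul (g i), dist_smul]
  have hlen : ∀ i, tl o c (n i) - K ≤ dist (g i • o) (g (i + 1) • o) ∧
      dist (g i • o) (g (i + 1) • o) ≤ tl o c (n i) + K := by
    intro i
    rw [hstep, mul_smul]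
    have e1 : dist (c ^ n i • o) (c ^ n i • f i • o) = dist o (f i • o) := dist_smul _ _ _
    have e2 : tl o c (n i) = dist o (c ^ n i • o) := rfl
    have e3 := dist_triangle o (c ^ n i • o) (c ^ n i • f i • o)
    have e4 := dist_triangle o (c ^ n i • f i • o) (c ^ n i • o)
    rw [dist_comm (c ^ n i • f i • o) (c ^ n i • o)] at e4
    have e5 := hKf i
    constructor <;> linarith
  have hres : ∀ i : ℤ, ∃ r : ℕ, (r : ℤ) = i % m ∧ r < m ∧
      l + 1000 * K * r ≤ dist (g i • o) (g (i + 1) • o) ∧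
      dist (g i • o) (g (i + 1) • o) ≤ l + 3 * K + 1000 * K * r := by
    intro i
    have h1 := Int.emod_nonneg i hm0.ne'
    have h2 := Int.emod_lt_of_pos i hm0
    have h3 := hN1 (i % m).toNat
    have h4 := hN2 (i % m).toNat
    have h5 := hlen i
    have h6 : n i = N (i % m).toNat := rfl
    rw [h6] at h5
    refine ⟨(i % m).toNat, Int.toNat_of_nonneg h1, by omega, by linarith, by linarith⟩
  refine ⟨K, l, n, g, hKρ, by linarith, by linarith, hKf, hg0, hg1, hgper, hnper, ?_, ?_, ?_⟩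
  · intro i
    have h3 := hN1 (i % m).toNat
    have hj : 0 ≤ K * ((i % m).toNat : ℝ) := by positivity
    have h6 : dist o (c ^ n i • o) = tl o c (N (i % m).toNat) := rfl
    rw [h6]
    linarith
  · refine ⟨hKθ, by linarith, ?_, ?_, ?_, ?_, ?_⟩
    · intro i
      refine ⟨g i • o, ⟨g i, rfl, rfl⟩, ?_⟩
      rw [dist_self]
      linarith
    · intro i
      refine ⟨(g i * c ^ n i) • o, ⟨g i * c ^ n i, ?_, rfl⟩, ?_⟩
      · apply QuotientGroup.eq.2
        have : (g i * c ^ n i)⁻¹ * g i = (c ^ n i)⁻¹ := by group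
        rw [this]
        apply inv_mem
        have := Lox.zpow_mem_E (g := c) (n i : ℤ)
        rwa [zpow_natCast] at this
      · rw [hg1, ← mul_assoc, mul_smul (g i * c ^ n i) (f i), dist_smul]
        exact hKf i
    · intro i hi
      have h1 := QuotientGroup.eq.1 hi
      rw [hg1, inv_mul_cancel_left] at h1
      have h2 : c ^ n i ∈ Lox.E c := by
        have := Lox.zpow_mem_E (g := c) (n i : ℤ)
        rwa [zpow_natCast] at this
      exact hfE i ((Subgroup.mul_mem_cancel_left _ h2).1 h1)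
    · intro i
      obtain ⟨r, _, _, h3, _⟩ := hres i
      have hj : 0 ≤ K * (r : ℝ) := by positivity
      linarith
    · intro i
      obtain ⟨r, _, h2, _, h4⟩ := hres i
      have h5 : K * (r : ℝ) ≤ K * m := by
        apply mul_le_mul_of_nonneg_left _ (by linarith)
        exact_mod_cast h2.le
      linarith
  · intro i j hij
    obtain ⟨r, hr, _, h3, h4⟩ := hres i
    obtain ⟨r', hr', _, h3', h4'⟩ := hres j
    have hrr : r = r' := by
      by_contra hne
      rw [abs_le] at hij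
      rcases Nat.lt_or_gt_of_ne hne with hlt | hlt
      · have e1 : (r : ℝ) + 1 ≤ r' := by exact_mod_cast hlt
        have e2 : K * ((r : ℝ) + 1) ≤ K * r' := mul_le_mul_of_nonneg_left e1 (by linarith)
        linarith
      · have e1 : (r' : ℝ) + 1 ≤ r := by exact_mod_cast hlt
        have e2 : K * ((r' : ℝ) + 1) ≤ K * r := mul_le_mul_of_nonneg_left e1 (by linarith)
        linarith
    have : i % m = j % m := by rw [← hr, ← hr', hrr]
    exact Int.ModEq.dvd this

end Pool.Agent.H507
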