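import Pool.Agent.H507_D.Line
import Pool.Agent.TH63.SC.Cross
import Pool.Agent.TH68.JD
import Pool.Agent.H507_P.G1
import Pool.Agent.H507_P.G2

set_option autoImplicit false
set_option linter.unusedSectionVars false

namespace Pool.Agent.H507

open Pool.Agent.Helper97.Hyp Pool.Agent.TH68 Pool.Agent.TH63.SC

/-- projections of points near the vertices -/
theorem stage1_core_proj {Γ : Type*} [Group Γ] {W : WNorm Γ} {𝒜 : Type*} [MulAction Γ 𝒜]
    {Y : Sys Γ W 𝒜} {K l L : ℝ} {P : ℤ → Pt W} {A : ℤ → 𝒜}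
    (hP : Br Y K l L P A) {x : Pt W} {i : ℤ} {R : ℝ} (hx : dist x (P i) ≤ R) :
    ∃ u : ℤ, IsProj (L + 2 * K) (Set.range P) x (P u) ∧
      ((u - i).natAbs : ℝ) ≤ R + L + 2 * K := by
  obtain ⟨u, hu⟩ := hP.proj x
  refine ⟨u, hu, ?_⟩
  have h1 := hu.2 (P i) ⟨i, rfl⟩
  have h2 := hP.growth' i u
  have hK := hP.K_one
  have hl := hP.hl
  have h3 : ((u - i).natAbs : ℝ) * 1 ≤ ((u - i).natAbs : ℝ) * (l - 25 * K) :=
    mul_le_mul_of_nonneg_left (by linarith) (Nat.cast_nonneg _)
  have h4 := dist_nonneg (x := x) (y := P u)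
  rw [dist_comm (P u) (P i)] at h1
  linarith

/-- the powers of the period -/
theorem stage1_core_per {Γ : Type*} [Group Γ] {g : ℤ → Γ} {m : ℕ}
    (hg : ∀ i, g (i + m) = g m * g i) (s i : ℤ) : g (i + s * m) = g m ^ s * g i := by
  have key : ∀ (n : ℕ) (i : ℤ), g (i + n * m) = g m ^ n * g i := by
    intro n
    induction n with
    | zero => intro i; simp
    | succ n ih =>
      intro i
      have h1 := hg (i + n * m)
      rw [ih, ← mul_assoc, ← pow_succ'] at h1
      rw [← h1]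
      congr 1
      push_cast
      ring
  rcases Int.natAbs_eq s with hs | hs
  · have h1 := key s.natAbs i
    rw [← zpow_natCast, ← hs] at h1
    exact h1
  · have h1 := key s.natAbs (i + s * m)
    have h2 : i + s * m + (s.natAbs : ℤ) * m = i := by
      have : (s.natAbs : ℤ) = -s := by omega
      rw [this]; ring
    rw [h2, ← zpow_natCast, show (s.natAbs : ℤ) = -s by omega] at h1
    rw [h1, ← mul_assoc, ← zpow_add, add_neg_cancel, zpow_zero, one_mul]

/-- an inverting element moves far -/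
theorem stage1_core_flip {Γ : Type*} [Group Γ] {W : WNorm Γ} {δ : ℝ} {o : Pt W} {c : Γ}
    (h : Lox δ o c) {K l : ℝ} {n : ℕ} {a f : Γ} (hK : 1 ≤ K) (hl : 200 * K ≤ l)
    (hf : dist o (f • o) ≤ K) (hn : l ≤ dist o (c ^ n • o)) (ha : dist o (a • o) ≤ 68 * K)
    (hac : a * c * a⁻¹ = c⁻¹)
    (hb : dist o (((c ^ n * f)⁻¹ * a * (c ^ n * f)) • o) ≤ 68 * K) : False := by
  have e1 : a * c ^ n * a⁻¹ = (c ^ n)⁻¹ := by
    have : (a * c * a⁻¹) ^ n = a * c ^ n * a⁻¹ := by rw [conj_pow]
    rw [← this, hac, inv_pow]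
  have e2 : (c ^ n * f)⁻¹ * a * (c ^ n * f) = f⁻¹ * ((c ^ (2 * n))⁻¹ * (a * f)) := by
    have e3 : a * c ^ n = (c ^ n)⁻¹ * a := by rw [← e1]; group
    calc (c ^ n * f)⁻¹ * a * (c ^ n * f) = f⁻¹ * (c ^ n)⁻¹ * (a * c ^ n) * f := by
          rw [mul_inv_rev]; group
      _ = f⁻¹ * (c ^ n)⁻¹ * ((c ^ n)⁻¹ * a) * f := by rw [e3]
      _ = f⁻¹ * ((c ^ (2 * n))⁻¹ * (a * f)) := by
          rw [two_mul, pow_add, mul_inv_rev]; simp only [mul_assoc]
  rw [e2] at hb
  -- distances
  have t0 : tl o c n ≤ tl o c (2 * n) := h.tl_mono (by omega)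
  have t1 : tl o c (2 * n) = dist (c ^ (2 * n) • o) o := by rw [tl, dist_comm]
  have t2 : dist (c ^ (2 * n) • o) o = dist o ((c ^ (2 * n))⁻¹ • o) := by
    rw [← dist_smul (c ^ (2 * n))⁻¹, inv_smul_smul]
  have t3 : dist o ((f⁻¹ * ((c ^ (2 * n))⁻¹ * (a * f))) • o)
      = dist (f • o) ((c ^ (2 * n))⁻¹ • (a * f) • o) := by
    rw [← dist_smul f, smul_smul, smul_smul]
    congr 2
    group
  rw [t3] at hb
  have t4 := dist_triangle4 o (f • o) ((c ^ (2 * n))⁻¹ • (a * f) • o) ((c ^ (2 * n))⁻¹ • o)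
  have t5 : dist ((c ^ (2 * n))⁻¹ • (a * f) • o) ((c ^ (2 * n))⁻¹ • o) ≤ 69 * K := by
    rw [dist_smul, mul_smul]
    have := dist_triangle (a • f • o) (a • o) o
    rw [dist_smul, dist_comm (f • o) o, dist_comm (a • o) o] at this
    linarith
  have t6 : tl o c n = dist o (c ^ n • o) := rfl
  linarith

/-- TARGET -/
theorem stage1_core {Γ : Type} [Group Γ] {W : WNorm Γ} {δ : ℝ} {o : Pt W} {c : Γ} (hδ : 1 ≤ δ)
    (h : Lox δ o c) (hE : ∀ e ∈ Lox.E c, e * c * e⁻¹ = c ∨ e * c * e⁻¹ = c⁻¹)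
    (p : ℕ) (hp : 2 ≤ p) (y : ℤ → Γ) (hy : ∀ i, y (i + p) = y i)
    (hyE : ∀ i, (y i)⁻¹ * y (i + 1) ∉ Lox.E c)
    (hy1 : ∀ e : Γ, (∀ i, Commute ((y i)⁻¹ * e * y i) c) → e = 1) :
    ∃ w ∈ Subgroup.closure (insert c (Set.range fun i : ℤ => (y i)⁻¹ * y (i + 1))),
      ¬ IsOfFinOrder w ∧ ∀ e ∈ Lox.E w, IsOfFinOrder e → e = 1 := by
  classical
  set f : ℤ → Γ := fun i => (y i)⁻¹ * y (i + 1) with hfdef
  have hfp : ∀ i, f (i + (p : ℤ)) = f i := by
    intro i
    have h1 := hy (i + 1)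
    rw [show i + 1 + (p : ℤ) = i + p + 1 by ring] at h1
    simp only [hfdef, hy i, h1]
  have hf2 : ∀ i, f (i + ((2 * p : ℕ) : ℤ)) = f i := by
    intro i
    have : i + ((2 * p : ℕ) : ℤ) = i + p + p := by push_cast; ring
    rw [this, hfp, hfp]
  obtain ⟨K, l, n, g, hK, hl1, hl, hfK, hg0, hgs, hgm, hnm, hnl, hbr, hstep⟩ :=
    word_exists hδ h (2 * p) (by omega) f hf2 hyE 1
  obtain ⟨m, hmp⟩ : ∃ m, m = 2 * p := ⟨_, rfl⟩
  rw [← hmp] at hl hgm hnm hstep
  have hm3 : 4 ≤ m := by omega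
  set P : ℤ → Pt W := fun i => g i • o with hP
  set A : ℤ → Γ ⧸ Lox.E c := fun i => ((g i : Γ) : Γ ⧸ Lox.E c) with hA
  have hl200 := hbr.hl
  have hper := stage1_core_per hgm
  obtain ⟨w, hw⟩ : ∃ w, w = g m := ⟨_, rfl⟩
  rw [← hw] at hper
  have hPper : ∀ s i : ℤ, P (i + s * m) = w ^ s • P i := by
    intro s i
    simp only [hP]
    rw [hper, mul_smul]
  have hP0 : P 0 = o := by simp [hP, hg0]
  have hPs : ∀ s : ℤ, P (s * m) = w ^ s • o := by
    intro s
    have := hPper s 0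
    rw [zero_add, hP0] at this
    exact this
  have hgrow : ∀ i j : ℤ, ((j - i).natAbs : ℝ) ≤ dist (P i) (P j) := by
    intro i j
    have h2 := hbr.growth' i j
    have h3 : ((j - i).natAbs : ℝ) * 1 ≤ ((j - i).natAbs : ℝ) * (l - 25 * K) :=
      mul_le_mul_of_nonneg_left (by linarith) (Nat.cast_nonneg _)
    linarith
  have hmem : w ∈ Subgroup.closure (insert c (Set.range f)) := by
    have key : ∀ i : ℕ, g i ∈ Subgroup.closure (insert c (Set.range f)) := by
      intro i
      induction i with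
      | zero => rw [Nat.cast_zero, hg0]; exact one_mem _
      | succ i ih =>
        push_cast
        rw [hgs]
        refine mul_mem ih (mul_mem (pow_mem (Subgroup.subset_closure (Set.mem_insert _ _)) _) ?_)
        exact Subgroup.subset_closure (Set.mem_insert_of_mem _ ⟨_, rfl⟩)
    rw [hw]
    exact key m
  have hwz : ∀ s : ℤ, w ^ s = 1 → s = 0 := by
    intro s hs
    have h1 := hgrow 0 (s * m)
    rw [hPs, hs, one_smul, hP0, dist_self, sub_zero] at h1
    have h2 : (s * (m : ℤ)).natAbs = 0 := by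
      have : ((s * (m : ℤ)).natAbs : ℝ) = 0 := le_antisymm h1 (Nat.cast_nonneg _)
      exact_mod_cast this
    rw [Int.natAbs_eq_zero, mul_eq_zero] at h2
    rcases h2 with h2 | h2
    · exact h2
    · omega
  have hwinf : ¬ IsOfFinOrder w := by
    intro hfin
    obtain ⟨k, hk, hk1⟩ := hfin.exists_pow_eq_one
    have := hwz k (by rw [zpow_natCast]; exact hk1)
    omega
  refine ⟨w, hmem, hwinf, ?_⟩
  intro e he hfin
  -- powers
  obtain ⟨N, hN0, hN⟩ : ∃ N : ℕ, 0 < N ∧
      (e * w ^ (N : ℤ) * e⁻¹ = w ^ (N : ℤ) ∨ e * w ^ (N : ℤ) * e⁻¹ = w ^ (-(N : ℤ))) := by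
    obtain ⟨J, hJ⟩ := lox_of_inf (Γ := Γ) (W := W) h.hyp hδ
    obtain ⟨j, hj1, -, x, hx⟩ := hJ w hwinf
    have he' : e ∈ Lox.E (w ^ j) := by
      obtain ⟨a, b, ha, hb, hab⟩ := he
      refine ⟨a, b, ha, hb, ?_⟩
      have : e * (w ^ j) ^ a * e⁻¹ = (e * w ^ a * e⁻¹) ^ j := by
        rw [conj_pow, ← zpow_natCast, ← zpow_natCast, ← zpow_mul, ← zpow_mul, mul_comm]
      rw [this, hab, ← zpow_natCast, ← zpow_natCast, ← zpow_mul, ← zpow_mul, mul_comm]
    obtain ⟨a, ha, h1⟩ := hx.exists_pow he'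
    refine ⟨j * a, by positivity, ?_⟩
    have e1 : ∀ b : ℤ, w ^ ((j : ℤ) * b) = (w ^ j) ^ b := fun b => by
      rw [zpow_mul, zpow_natCast w j]
    push_cast
    rw [← mul_neg, e1, e1]
    exact h1
  -- far points
  obtain ⟨R, hR⟩ : ∃ R, R = dist o (e • o) := ⟨_, rfl⟩
  have hR0 : 0 ≤ R := by rw [hR]; exact dist_nonneg
  obtain ⟨C, hC⟩ : ∃ C, C = R + 4 * l + 2 * K := ⟨_, rfl⟩
  obtain ⟨t, ht⟩ : ∃ t : ℕ, 2 * C + ((p : ℝ) + 9) * (4 * l) < t := exists_nat_gt _
  obtain ⟨T, hT⟩ : ∃ T : ℤ, T = t * N := ⟨_, rfl⟩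
  have hTm : (t : ℤ) ≤ T * m := by
    rw [hT]
    have h1 : (1 : ℤ) ≤ N := by exact_mod_cast hN0
    have h2 : (1 : ℤ) ≤ m := by omega
    have h3 : (0 : ℤ) ≤ t := by positivity
    nlinarith [mul_nonneg h3 (mul_nonneg (sub_nonneg.2 h1) (sub_nonneg.2 h2)),
      mul_nonneg h3 (sub_nonneg.2 h1), mul_nonneg h3 (sub_nonneg.2 h2)]
  have hTmR : (t : ℝ) ≤ (T * m : ℤ) := by exact_mod_cast hTm
  have hl0 : 0 < l := by linarith
  have hpl : 0 ≤ ((p : ℝ) + 9) * (4 * l) := by positivity
  have hC0 : 0 ≤ C := by rw [hC]; positivity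
  have ht0 : (0 : ℝ) < t := by linarith
  have hTpos : (0 : ℤ) < T * m := by
    have : (0 : ℤ) < t := by exact_mod_cast ht0
    omega
  rcases hN with hN | hN
  · -- the orientation preserving case
    have hnear : ∀ s : ℤ, dist (e • P (s * N * m)) (P (s * N * m)) ≤ R := by
      intro s
      rw [hPs]
      have h1 : e * w ^ (s * N) = w ^ (s * N) * e := by
        have : e * w ^ (s * (N : ℤ)) * e⁻¹ = w ^ (s * (N : ℤ)) := by
          rw [mul_comm s, zpow_mul, ← conj_zpow, hN]
        rw [← mul_inv_eq_iff_eq_mul]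
        exact this
      rw [smul_smul, h1, mul_smul, dist_smul, dist_comm, hR]
    have hn1 := hnear (-t)
    have hn2 := hnear t
    rw [show -(t : ℤ) * N * m = -(T * m) by rw [hT]; ring] at hn1
    rw [show (t : ℤ) * N * m = T * m by rw [hT]] at hn2
    obtain ⟨u, hu, hu'⟩ := stage1_core_proj hbr hn1
    obtain ⟨v, hv, hv'⟩ := stage1_core_proj hbr hn2
    rw [← hC] at hu' hv'
    have hu2 : (u : ℝ) ≤ -((T * m : ℤ) : ℝ) + C := by
      have h1 : u + T * m ≤ ((u - -(T * m)).natAbs : ℤ) := by omega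
      have h2 : ((u + T * m : ℤ) : ℝ) ≤ (((u - -(T * m)).natAbs : ℤ) : ℝ) := by exact_mod_cast h1
      rw [Int.cast_natCast] at h2
      push_cast at h2 ⊢
      linarith
    have hv2 : ((T * m : ℤ) : ℝ) - C ≤ v := by
      have h1 : T * m - v ≤ ((v - (T * m)).natAbs : ℤ) := by omega
      have h2 : ((T * m - v : ℤ) : ℝ) ≤ (((v - (T * m)).natAbs : ℤ) : ℝ) := by exact_mod_cast h1
      rw [Int.cast_natCast] at h2
      push_cast at h2 ⊢
      linarith
    have huv : u < v := by
      have : (u : ℝ) < v := by linarith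
      exact_mod_cast this
    have hfar : ((p : ℝ) + 8) * (4 * l) < dist (P u) (P v) := by
      have h1 := hgrow u v
      have h2 : v - u ≤ ((v - u).natAbs : ℤ) := by omega
      have h3 : ((v - u : ℤ) : ℝ) ≤ (((v - u).natAbs : ℤ) : ℝ) := by exact_mod_cast h2
      rw [Int.cast_natCast] at h3
      push_cast at h3
      linarith
    obtain ⟨w₀, k, hd, hAA⟩ := crossing_long hbr (hbr.smul e) p (j := -(T * m)) (m := T * m)
      (by omega) huv hu hv hfar
    -- the shift
    have hdiv : (m : ℤ) ∣ k - w₀ := by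
      apply hstep
      have d0 := hd 0 (by omega)
      have d1 := hd 1 (by omega)
      rw [Nat.cast_zero, add_zero, add_zero] at d0
      rw [Nat.cast_one] at d1
      have t1 := dist_triangle4 (e • P k) (P w₀) (P (w₀ + 1)) (e • P (k + 1))
      have t2 := dist_triangle4 (P w₀) (e • P k) (e • P (k + 1)) (P (w₀ + 1))
      rw [dist_smul, dist_comm (e • P k)] at t1
      rw [dist_smul, dist_comm (e • P (k + 1))] at t2
      change |dist (P w₀) (P (w₀ + 1)) - dist (P k) (P (k + 1))| ≤ 136 * K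
      rw [abs_le]
      constructor <;> linarith
    obtain ⟨s, hs⟩ := hdiv
    have hk : ∀ i : ℤ, k + i = w₀ + i + s * m := by intro i; linarith
    obtain ⟨e', he'⟩ : ∃ e', e' = e * w ^ s := ⟨_, rfl⟩
    have hPk : ∀ i : ℤ, e • P (k + i) = e' • P (w₀ + i) := by
      intro i
      rw [hk, hPper, smul_smul, he']
    set a : ℕ → Γ := fun i => (g (w₀ + i))⁻¹ * e' * g (w₀ + i) with ha
    have haE : ∀ i : ℕ, i ≤ p → a i ∈ Lox.E c := by
      intro i hi
      have h1 : ((g (w₀ + i) : Γ) : Γ ⧸ Lox.E c) = ((e * g (k + i) : Γ) : Γ ⧸ Lox.E c) := hAA i hi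
      rw [QuotientGroup.eq, hk, hper] at h1
      have h2 : (g (w₀ + i))⁻¹ * (e * (w ^ s * g (w₀ + i))) = a i := by
        simp only [ha, he', mul_assoc]
      rwa [h2] at h1
    have had : ∀ i : ℕ, i ≤ p + 1 → dist o (a i • o) ≤ 68 * K := by
      intro i hi
      have h1 : dist (P (w₀ + i)) (e • P (k + i)) ≤ 68 * K := hd i hi
      rw [hPk] at h1
      have h2 : dist (P (w₀ + i)) (e' • P (w₀ + i)) = dist o (a i • o) := by
        simp only [hP, ha]
        rw [← dist_smul (g (w₀ + i)) o, smul_smul, smul_smul]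
        congr 2
        group
      rwa [h2] at h1
    have hasucc : ∀ i : ℕ, a (i + 1) = (c ^ n (w₀ + i) * f (w₀ + i))⁻¹ * a i *
        (c ^ n (w₀ + i) * f (w₀ + i)) := by
      intro i
      simp only [ha]
      push_cast
      rw [← add_assoc, hgs]
      group
    have hac : ∀ i : ℕ, i ≤ p → a i * c * (a i)⁻¹ = c := by
      intro i hi
      rcases hE _ (haE i hi) with h1 | h1
      · exact h1
      · exfalso
        have h2 := had (i + 1) (by omega)
        rw [hasucc] at h2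
        exact stage1_core_flip h hbr.K_one hl200 (hfK (w₀ + i)) (hnl (w₀ + i)) (had i (by omega))
          h1 h2
    have hcomm : ∀ i : ℕ, i ≤ p → Commute (a i) c := by
      intro i hi
      have := hac i hi
      rw [mul_inv_eq_iff_eq_mul] at this
      exact this
    have hasucc' : ∀ i : ℕ, i ≤ p → a (i + 1) = (f (w₀ + i))⁻¹ * a i * f (w₀ + i) := by
      intro i hi
      rw [hasucc]
      have h1 : (c ^ n (w₀ + i))⁻¹ * a i * c ^ n (w₀ + i) = a i := by
        have h2 : Commute (a i) (c ^ n (w₀ + i)) := (hcomm i hi).pow_right _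
        rw [mul_assoc, h2.eq, inv_mul_cancel_left]
      calc (c ^ n (w₀ + i) * f (w₀ + i))⁻¹ * a i * (c ^ n (w₀ + i) * f (w₀ + i))
          = (f (w₀ + i))⁻¹ * ((c ^ n (w₀ + i))⁻¹ * a i * c ^ n (w₀ + i)) * f (w₀ + i) := by
            rw [mul_inv_rev]; simp only [mul_assoc]
        _ = _ := by rw [h1]
    obtain ⟨ee, hee⟩ : ∃ ee, ee = y w₀ * a 0 * (y w₀)⁻¹ := ⟨_, rfl⟩
    have heei : ∀ i : ℕ, i ≤ p → (y (w₀ + i))⁻¹ * ee * y (w₀ + i) = a i := by
      intro i
      induction i with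
      | zero =>
        intro _
        rw [Nat.cast_zero, add_zero, hee]
        group
      | succ i ih =>
        intro hi
        have h1 := ih (by omega)
        rw [hasucc' i (by omega), ← h1]
        simp only [hfdef]
        push_cast
        rw [← add_assoc]
        group
    have hyper : ∀ s i : ℤ, y (i + s * p) = y i := by
      have key : ∀ (q : ℕ) (i : ℤ), y (i + q * p) = y i := by
        intro q
        induction q with
        | zero => intro i; simp
        | succ q ih =>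
          intro i
          have := hy (i + q * p)
          rw [ih] at this
          rw [← this]
          congr 1
          push_cast
          ring
      intro s i
      rcases Int.natAbs_eq s with hs | hs
      · have h1 := key s.natAbs i
        rw [← hs] at h1
        exact h1
      · have h1 := key s.natAbs (i + s * p)
        have h2 : i + s * p + (s.natAbs : ℤ) * p = i := by
          have : (s.natAbs : ℤ) = -s := by omega
          rw [this]; ring
        rw [h2] at h1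
        exact h1.symm
    have hee1 : ee = 1 := by
      apply hy1
      intro i
      have hp0 : (0 : ℤ) < p := by omega
      have h1 : 0 ≤ (i - w₀) % p := Int.emod_nonneg _ hp0.ne'
      have h2 : (i - w₀) % p < p := Int.emod_lt_of_pos _ hp0
      obtain ⟨r, hr⟩ := Int.eq_ofNat_of_zero_le h1
      have h3 : i = w₀ + r + (i - w₀) / p * p := by
        have := Int.emod_add_mul_ediv (i - w₀) p
        rw [hr] at this
        linarith
      rw [h3, hyper, heei r (by omega)]
      exact hcomm r (by omega)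
    have ha0 : a 0 = 1 := by
      rw [hee1] at hee
      have : a 0 = (y w₀)⁻¹ * (y w₀ * a 0 * (y w₀)⁻¹) * y w₀ := by group
      rw [this, ← hee]
      group
    have he'1 : e' = 1 := by
      simp only [ha] at ha0
      have : e' = g (w₀ + (0 : ℕ)) * ((g (w₀ + (0 : ℕ)))⁻¹ * e' * g (w₀ + (0 : ℕ))) *
          (g (w₀ + (0 : ℕ)))⁻¹ := by group
      rw [this, ha0]
      group
    have hes : e = w ^ (-s) := by
      rw [he'] at he'1
      rw [zpow_neg]
      exact eq_inv_of_mul_eq_one_left he'1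
    obtain ⟨k', hk', hk1⟩ := hfin.exists_pow_eq_one
    rw [hes, ← zpow_natCast, ← zpow_mul] at hk1
    have := hwz _ hk1
    have hs0 : s = 0 := by
      rcases mul_eq_zero.1 this with h1 | h1
      · omega
      · omega
    rw [hes, hs0]
    simp
  · -- the orientation reversing case
    exfalso
    have hnear : ∀ s : ℤ, dist (e • P (s * N * m)) (P (-(s * N * m))) ≤ R := by
      intro s
      rw [show -(s * (N : ℤ) * m) = (-(s * N)) * m by ring, hPs, hPs]
      have h1 : e * w ^ (s * N) = w ^ (-(s * N)) * e := by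
        have : e * w ^ (s * (N : ℤ)) * e⁻¹ = w ^ (-(s * (N : ℤ))) := by
          rw [mul_comm s, zpow_mul, ← conj_zpow, hN, ← zpow_mul, neg_mul]
        rw [← mul_inv_eq_iff_eq_mul]
        exact this
      rw [smul_smul, h1, mul_smul, dist_smul, dist_comm, hR]
    have hn1 := hnear (-t)
    have hn2 := hnear t
    rw [show -(t : ℤ) * N * m = -(T * m) by rw [hT]; ring, neg_neg] at hn1
    rw [show (t : ℤ) * N * m = T * m by rw [hT]] at hn2
    obtain ⟨u, hu, hu'⟩ := stage1_core_proj hbr hn1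
    obtain ⟨v, hv, hv'⟩ := stage1_core_proj hbr hn2
    rw [← hC] at hu' hv'
    have hu2 : ((T * m : ℤ) : ℝ) - C ≤ u := by
      have h1 : T * m - u ≤ ((u - (T * m)).natAbs : ℤ) := by omega
      have h2 : ((T * m - u : ℤ) : ℝ) ≤ (((u - (T * m)).natAbs : ℤ) : ℝ) := by exact_mod_cast h1
      rw [Int.cast_natCast] at h2
      push_cast at h2 ⊢
      linarith
    have hv2 : (v : ℝ) ≤ -((T * m : ℤ) : ℝ) + C := by
      have h1 : v + T * m ≤ ((v - -(T * m)).natAbs : ℤ) := by omega
      have h2 : ((v + T * m : ℤ) : ℝ) ≤ (((v - -(T * m)).natAbs : ℤ) : ℝ) := by exact_mod_cast h1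
      rw [Int.cast_natCast] at h2
      push_cast at h2 ⊢
      linarith
    have huv : v < u := by
      have : (v : ℝ) < u := by linarith
      exact_mod_cast this
    have hfar : 9 * (4 * l) < dist (P u) (P v) := by
      have h1 := hgrow u v
      have h2 : u - v ≤ ((v - u).natAbs : ℤ) := by omega
      have h3 : ((u - v : ℤ) : ℝ) ≤ (((v - u).natAbs : ℤ) : ℝ) := by exact_mod_cast h2
      rw [Int.cast_natCast] at h3
      push_cast at h3
      have h4 : 0 ≤ (p : ℝ) * (4 * l) := by positivity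
      linarith
    have hrg : Set.range (fun i : ℤ => P (-i)) = Set.range P := by
      ext x
      constructor
      · rintro ⟨i, rfl⟩; exact ⟨-i, rfl⟩
      · rintro ⟨i, rfl⟩; exact ⟨-i, by simp⟩
    obtain ⟨z, z', e1, e2, e3, e4, e5⟩ := hbr.rev.crossing (hbr.smul e) (j := -(T * m))
      (m := T * m) (by omega) (u := -u) (v := -v) (by omega)
      (by rw [hrg]; simpa using hu) (by rw [hrg]; simpa using hv) (by simpa using hfar)
    have key : ∀ z z' : ℤ, dist (P (-z)) (e • P z') ≤ 68 * K →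
        dist (P (-(z + 1))) (e • P (z' + 1)) ≤ 68 * K → (m : ℤ) ∣ z' - (-z - 1) := by
      intro z z' t1 t2
      apply hstep
      change |dist (P (-z - 1)) (P (-z - 1 + 1)) - dist (P z') (P (z' + 1))| ≤ 136 * K
      rw [sub_add_cancel]
      rw [show -(z + 1) = -z - 1 by ring] at t2
      have t4 := dist_triangle4 (e • P z') (P (-z)) (P (-z - 1)) (e • P (z' + 1))
      have t5 := dist_triangle4 (P (-z)) (e • P z') (e • P (z' + 1)) (P (-z - 1))
      rw [dist_smul, dist_comm (e • P z')] at t4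
      rw [dist_smul, dist_comm (e • P (z' + 1))] at t5
      rw [dist_comm (P (-z - 1)) (P (-z)), abs_le]
      constructor <;> linarith
    have m1 := key z z' e1 e2
    have m2 := key (z + 1) (z' + 1) e2 (by
      rw [show z + 1 + 1 = z + 2 by ring, show z' + 1 + 1 = z' + 2 by ring]; exact e3)
    have m3 := dvd_sub m2 m1
    have m4 : z' + 1 - (-(z + 1) - 1) - (z' - (-z - 1)) = 2 := by ring
    rw [m4] at m3
    have m5 := Int.le_of_dvd (by norm_num) m3
    omega

end Pool.Agent.H507
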