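import Pool.Agent.H507_D.Defs
import Pool.Agent.Helper97.Hyp.System
import Pool.Agent.TH63.SC.LineEx
import Pool.Agent.TH68.JD

set_option autoImplicit false

namespace Pool.Agent.H507

open Pool.Agent.Helper97.Hyp Pool.Agent.TH68

theorem ghyp_mono {X : Type*} [PseudoMetricSpace X] {δ δ' : ℝ} (h : GHyp X δ) (hd : δ ≤ δ') :
    GHyp X δ' := by
  intro x y z w
  have := h x y z w
  linarith

theorem E_pow {Q : Type} [Group Q] (c : Q) {j : ℕ} (hj : 0 < j) :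
    Lox.E (c ^ j) = Lox.E c := by
  have hz : ∀ k : ℤ, (c ^ j) ^ k = c ^ ((j : ℤ) * k) := fun k => by
    rw [← zpow_natCast, ← zpow_mul]
  have hj' : (j : ℤ) ≠ 0 := by exact_mod_cast hj.ne'
  ext γ
  rw [Lox.mem_E, Lox.mem_E]
  constructor
  · rintro ⟨a, b, ha, hb, h⟩
    rw [hz, hz] at h
    exact ⟨j * a, j * b, mul_ne_zero hj' ha, mul_ne_zero hj' hb, h⟩
  · rintro ⟨a, b, ha, hb, h⟩
    refine ⟨a, b, ha, hb, ?_⟩
    rw [hz, hz, mul_comm (j : ℤ) a, mul_comm (j : ℤ) b, zpow_mul, zpow_mul, ← conj_zpow, h]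

theorem lox_ex {Q : Type} [Group Q] (hQ : HypGroup Q) {c : Q} (hc : ¬ IsOfFinOrder c) :
    ∃ (W : WNorm Q) (δ : ℝ) (o : Pt W) (j : ℕ), 1 ≤ δ ∧ 0 < j ∧ Lox δ o (c ^ j) := by
  obtain ⟨W, δ₀, h0⟩ := hQ
  have h1 : GHyp (Pt W) (max δ₀ 1) := ghyp_mono h0 (le_max_left _ _)
  obtain ⟨J, hJ⟩ := lox_of_inf h1 (le_max_right _ _)
  obtain ⟨j, hj, -, x, hx⟩ := hJ c hc
  exact ⟨W, max δ₀ 1, x, j, le_max_right _ _, hj, hx⟩

/-- TARGET 1 -/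
theorem E_cosets {Q : Type} [Group Q] (hQ : HypGroup Q) {c : Q} (hc : ¬ IsOfFinOrder c) :
    ∃ F : Set Q, F.Finite ∧ ∀ e ∈ Lox.E c, ∃ f ∈ F, ∃ n : ℤ, e = c ^ n * f := by
  obtain ⟨W, δ, o, j, _, hj, hL⟩ := lox_ex hQ hc
  refine ⟨{γ : Q | dist o (γ • o) ≤ Lox.c5 o (c ^ j) δ}, proper o _, ?_⟩
  intro e he
  rw [← E_pow c hj] at he
  obtain ⟨k, hk⟩ := hL.E_near he
  refine ⟨((c ^ j) ^ k)⁻¹ * e, ?_, (j : ℤ) * k, ?_⟩
  · change dist o ((((c ^ j) ^ k)⁻¹ * e) • o) ≤ Lox.c5 o (c ^ j) δ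
    rw [mul_smul, ← dist_smul ((c ^ j) ^ k), smul_inv_smul, dist_comm]
    exact hk
  · rw [← zpow_natCast c j, ← zpow_mul, mul_inv_cancel_left]

/-- TARGET 2 -/
theorem pow_of_mem_E {Q : Type} [Group Q] (hQ : HypGroup Q) {c : Q} (hc : ¬ IsOfFinOrder c) {e : Q}
    (he : e ∈ Lox.E c) (hi : ¬ IsOfFinOrder e) : ∃ a b : ℤ, a ≠ 0 ∧ b ≠ 0 ∧ e ^ a = c ^ b := by
  obtain ⟨F, hF, h⟩ := E_cosets hQ hc
  have h1 : ∀ i : ℕ, ∃ f : F, ∃ n : ℤ, e ^ i = c ^ n * f := by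
    intro i
    obtain ⟨f, hf, n, hn⟩ := h (e ^ i) ((Lox.E c).pow_mem he i)
    exact ⟨⟨f, hf⟩, n, hn⟩
  choose f n hfn using h1
  have : Finite F := hF
  obtain ⟨i, k, hik, hf⟩ := Finite.exists_ne_map_eq_of_infinite f
  have h2 : e ^ ((i : ℤ) - k) = c ^ (n i - n k) := by
    rw [zpow_sub, zpow_natCast, zpow_natCast, hfn i, hfn k, hf, zpow_sub]
    group
  refine ⟨(i : ℤ) - k, n i - n k, ?_, ?_, h2⟩
  · rw [sub_ne_zero]
    exact_mod_cast hik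
  · intro h3
    rw [h3, zpow_zero] at h2
    have h4 : e ^ i = e ^ k := by
      rw [zpow_sub, zpow_natCast, zpow_natCast, mul_inv_eq_one] at h2
      exact h2
    exact hik (injective_pow_iff_not_isOfFinOrder.2 hi h4)

/-- TARGET 3 -/
theorem E_norm {Q : Type} [Group Q] (hQ : HypGroup Q) {c : Q} (hc : ¬ IsOfFinOrder c) :
    ∃ (W : WNorm Q) (δ : ℝ) (o : Pt W) (s : ℕ), 1 ≤ δ ∧ 0 < s ∧ Lox δ o (c ^ s) ∧
      Lox.E (c ^ s) = Lox.E c ∧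
      ∀ e ∈ Lox.E c, e * c ^ s * e⁻¹ = c ^ s ∨ e * c ^ s * e⁻¹ = (c ^ s)⁻¹ := by
  obtain ⟨W, δ, o, j, hδ, hj, hL⟩ := lox_ex hQ hc
  obtain ⟨k, hk, hE⟩ := hL.exists_k0 (proper o)
  have hjk : 0 < j * k := Nat.mul_pos hj hk
  refine ⟨W, δ, o, j * k, hδ, hjk, ?_, E_pow c hjk, ?_⟩
  · rw [pow_mul]
    exact hL.pow hk
  · intro e he
    rw [← E_pow c hj] at he
    have h1 := hE e he
    rw [zpow_neg, zpow_natCast, ← pow_mul] at h1
    exact h1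

/-- TARGET 4 -/
theorem mem_E_of_pow {Q : Type} [Group Q] {c γ : Q} {a b : ℤ} (ha : a ≠ 0) (hb : b ≠ 0)
    (h : (γ * c * γ⁻¹) ^ a = c ^ b) : γ ∈ Lox.E c := by
  refine ⟨a, b, ha, hb, ?_⟩
  rw [← conj_zpow]
  exact h

/-- TARGET 5 -/
theorem not_le_E {Q : Type} [Group Q] (hQ : HypGroup Q) (hne : ¬ Elem Q) {c : Q}
    (hc : ¬ IsOfFinOrder c) (H : Subgroup Q) [H.Normal] (hH : c ∈ H) : ¬ H ≤ Lox.E c := by
  intro hle
  have htop : ∀ g : Q, g ∈ Lox.E c := by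
    intro g
    have h1 : g * c * g⁻¹ ∈ Lox.E c := hle (Subgroup.Normal.conj_mem inferInstance c hH g)
    have h2 : ¬ IsOfFinOrder (g * c * g⁻¹) := by
      intro h3
      rw [isOfFinOrder_iff_pow_eq_one] at h3
      obtain ⟨n, hn, h4⟩ := h3
      apply hc
      rw [isOfFinOrder_iff_pow_eq_one]
      refine ⟨n, hn, ?_⟩
      rw [conj_pow] at h4
      have h5 : c ^ n = g⁻¹ * (g * c ^ n * g⁻¹) * g := by group
      rw [h5, h4]
      group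
    obtain ⟨a, b, ha, hb, h3⟩ := pow_of_mem_E hQ hc h1 h2
    exact mem_E_of_pow ha hb h3
  obtain ⟨F, hF, h⟩ := E_cosets hQ hc
  apply hne
  refine ⟨Subgroup.zpowers c, ?_, inferInstance⟩
  have : Finite F := hF
  have hsurj : Function.Surjective
      (fun f : F => (QuotientGroup.mk ((f : Q)⁻¹) : Q ⧸ Subgroup.zpowers c)) := by
    intro q
    obtain ⟨g, rfl⟩ := QuotientGroup.mk_surjective q
    obtain ⟨f, hf, n, hn⟩ := h g⁻¹ (htop _)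
    refine ⟨⟨f, hf⟩, ?_⟩
    change (QuotientGroup.mk (f⁻¹) : Q ⧸ Subgroup.zpowers c) = QuotientGroup.mk g
    rw [QuotientGroup.eq, inv_inv]
    have e : f * g = c ^ (-n) := by
      have h1 : g = (c ^ n * f)⁻¹ := by rw [← hn, inv_inv]
      rw [h1]
      group
    rw [e]
    exact Subgroup.zpow_mem_zpowers c (-n)
  have hfin : Finite (Q ⧸ Subgroup.zpowers c) := Finite.of_surjective _ hsurj
  exact Subgroup.finiteIndex_of_finite_quotient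

/-- TARGET 6 -/
theorem zpow_mem_of_infinite {Q : Type} [Group Q] (hQ : HypGroup Q) {c : Q} (hc : ¬ IsOfFinOrder c)
    (D : Subgroup Q) (hD : D ≤ Lox.E c) (hi : ¬ Finite D) : ∃ n : ℤ, n ≠ 0 ∧ c ^ n ∈ D := by
  obtain ⟨F, hF, h⟩ := E_cosets hQ hc
  have h1 : ∀ d : D, ∃ f : F, ∃ n : ℤ, (d : Q) = c ^ n * f := by
    intro d
    obtain ⟨f, hf, n, hn⟩ := h d (hD d.2)
    exact ⟨⟨f, hf⟩, n, hn⟩
  choose f n hfn using h1
  have : Finite F := hF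
  have : Infinite D := not_finite_iff_infinite.1 hi
  obtain ⟨d, d', hne, hf⟩ := Finite.exists_ne_map_eq_of_infinite f
  have h2 : (d : Q) * (d' : Q)⁻¹ = c ^ (n d - n d') := by
    rw [hfn d, hfn d', hf, zpow_sub]
    group
  refine ⟨n d - n d', ?_, ?_⟩
  · intro h3
    rw [h3, zpow_zero, mul_inv_eq_one] at h2
    exact hne (Subtype.ext h2)
  · rw [← h2]
    exact D.mul_mem d.2 (D.inv_mem d'.2)

end Pool.Agent.H507
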