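import Pool.Agent.H507_D.Defs
import Pool.Agent.TH68.Sys
import Pool.Agent.H507_P.A3
import Pool.Agent.H507_P.G3
import Pool.Agent.H507_P.G4a

set_option autoImplicit false

namespace Pool.Agent.H507

open Pool.Agent.Helper97.Hyp Pool.Agent.TH68

theorem su_comm {Q : Type} [Group Q] {c : Q} (hc1 : ∀ n : ℤ, n ≠ 0 → c ^ n ≠ 1)
    (hE : ∀ e ∈ Lox.E c, e * c * e⁻¹ = c ∨ e * c * e⁻¹ = c⁻¹) {e : Q} {n : ℤ} (hn : n ≠ 0)
    (h : Commute e (c ^ n)) : Commute e c := by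
  have he : e ∈ Lox.E c := by
    refine Lox.mem_E.2 ⟨n, n, hn, hn, ?_⟩
    rw [h.eq]; group
  rcases hE e he with h1 | h1
  · exact mul_inv_eq_iff_eq_mul.1 h1
  · exfalso
    have h2 : e * c ^ n * e⁻¹ = c ^ (-n) := by
      rw [← conj_zpow, h1, inv_zpow, zpow_neg]
    have h3 : e * c ^ n * e⁻¹ = c ^ n := by rw [h.eq]; group
    have h4 : c ^ (n + n) = 1 := by
      rw [zpow_add]
      nth_rewrite 1 [← h3]
      rw [h2, ← zpow_add]; simp
    exact hc1 (n + n) (by omega) h4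

theorem su_mem {Q : Type} [Group Q] (hQ : HypGroup Q) {c : Q} (hc : ¬ IsOfFinOrder c)
    {y : Q} {n : ℤ} (hn : n ≠ 0) (h : Commute (y⁻¹ * c ^ n * y) c) : y ∈ Lox.E c := by
  have hx : y⁻¹ * c ^ n * y ∈ Lox.E c := by
    refine Lox.mem_E.2 ⟨1, 1, one_ne_zero, one_ne_zero, ?_⟩
    rw [zpow_one, h.eq]; group
  have hi : ¬ IsOfFinOrder (y⁻¹ * c ^ n * y) := by
    intro hf
    obtain ⟨m, hm, hm1⟩ := isOfFinOrder_iff_pow_eq_one.1 hf
    apply hc
    rw [isOfFinOrder_iff_zpow_eq_one]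
    refine ⟨n * m, by positivity, ?_⟩
    have h1 : (y⁻¹ * c ^ n * y) ^ m = y⁻¹ * c ^ (n * m) * y := by
      have := conj_pow (a := y⁻¹) (b := c ^ n) (i := m)
      rw [inv_inv] at this
      rw [this, zpow_mul, zpow_natCast]
    rw [h1] at hm1
    have h2 : c ^ (n * (m : ℤ)) = y * (y⁻¹ * c ^ (n * (m : ℤ)) * y) * y⁻¹ := by group
    rw [h2, hm1]; group
  obtain ⟨a, b, ha, hb, hab⟩ := pow_of_mem_E hQ hc hx hi
  have h3 : y⁻¹ ∈ Lox.E c := by
    refine Lox.mem_E.2 ⟨n * a, b, mul_ne_zero hn ha, hb, ?_⟩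
    rw [← hab, inv_inv]
    have := conj_zpow (a := y⁻¹) (b := c ^ n) (i := a)
    rw [inv_inv] at this
    rw [this, zpow_mul]
  have := (Lox.E c).inv_mem h3
  rwa [inv_inv] at this

/-- the elements all of whose conjugates by `H` commute with `c` -/
def suD {Q : Type} [Group Q] (H : Subgroup Q) (c : Q) : Subgroup Q where
  carrier := {e | ∀ y ∈ H, Commute (y⁻¹ * e * y) c}
  one_mem' := by
    intro y _
    have : y⁻¹ * 1 * y = 1 := by group
    rw [this]
    exact Commute.one_left c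
  mul_mem' := by
    intro a b ha hb y hy
    have : y⁻¹ * (a * b) * y = (y⁻¹ * a * y) * (y⁻¹ * b * y) := by group
    rw [this]
    exact (ha y hy).mul_left (hb y hy)
  inv_mem' := by
    intro a ha y hy
    have : y⁻¹ * a⁻¹ * y = (y⁻¹ * a * y)⁻¹ := by group
    rw [this]
    exact (ha y hy).inv_left

theorem mem_suD {Q : Type} [Group Q] {H : Subgroup Q} {c e : Q} :
    e ∈ suD H c ↔ ∀ y ∈ H, Commute (y⁻¹ * e * y) c := Iff.rfl

theorem suD_conj {Q : Type} [Group Q] {H : Subgroup Q} {c e x : Q} (he : e ∈ suD H c)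
    (hx : x ∈ H) : x * e * x⁻¹ ∈ suD H c := by
  intro y hy
  have : y⁻¹ * (x * e * x⁻¹) * y = (x⁻¹ * y)⁻¹ * e * (x⁻¹ * y) := by group
  rw [this]
  exact he _ (H.mul_mem (H.inv_mem hx) hy)

/-- conjugation by the elements of `H` -/
def suPerm {Q : Type} [Group Q] (H : Subgroup Q) (c : Q) : H →* Equiv.Perm (suD H c) where
  toFun z :=
    { toFun := fun e => ⟨z.1 * e.1 * z.1⁻¹, suD_conj e.2 z.2⟩
      invFun := fun e => ⟨z.1⁻¹ * e.1 * (z.1⁻¹)⁻¹, suD_conj e.2 (H.inv_mem z.2)⟩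
      left_inv := fun e => by
        apply Subtype.ext
        simp only
        group
      right_inv := fun e => by
        apply Subtype.ext
        simp only
        group }
  map_one' := by
    ext e
    simp
  map_mul' := by
    intro a b
    ext e
    simp [mul_assoc]

theorem suPerm_apply {Q : Type} [Group Q] (H : Subgroup Q) (c : Q) (z : H) (e : suD H c) :
    ((suPerm H c z e : suD H c) : Q) = z.1 * e.1 * z.1⁻¹ := rfl

theorem su_pow {Q : Type} [Group Q] (H : Subgroup Q) (c : Q) [Finite (suD H c)] :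
    ∃ m : ℕ, m ≠ 0 ∧ ∀ z ∈ H, ∀ e ∈ suD H c, Commute (z ^ m) e := by
  refine ⟨Nat.card (Equiv.Perm (suD H c)), Nat.card_pos.ne', ?_⟩
  intro z hz e he
  have h1 : suPerm H c ((⟨z, hz⟩ : H) ^ Nat.card (Equiv.Perm (suD H c))) = 1 := by
    rw [map_pow, pow_card_eq_one']
  have h2 := congrArg (fun f : Equiv.Perm (suD H c) => ((f ⟨e, he⟩ : suD H c) : Q)) h1
  simp only [suPerm_apply, Equiv.Perm.coe_one, id_eq] at h2
  have h3 : z ^ Nat.card (Equiv.Perm (suD H c)) * e * (z ^ Nat.card (Equiv.Perm (suD H c)))⁻¹ = e := by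
    simpa using h2
  exact mul_inv_eq_iff_eq_mul.1 h3

/-- the auxiliary subgroup for two conjugators -/
def suT {Q : Type} [Group Q] (y : Q) (c : Q) : Subgroup Q where
  carrier := {e | Commute e c ∧ Commute (y⁻¹ * e * y) c}
  one_mem' := by
    refine ⟨Commute.one_left c, ?_⟩
    have : y⁻¹ * 1 * y = 1 := by group
    rw [this]
    exact Commute.one_left c
  mul_mem' := by
    rintro a b ⟨ha, ha'⟩ ⟨hb, hb'⟩
    refine ⟨ha.mul_left hb, ?_⟩
    have : y⁻¹ * (a * b) * y = (y⁻¹ * a * y) * (y⁻¹ * b * y) := by group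
    rw [this]
    exact ha'.mul_left hb'
  inv_mem' := by
    rintro a ⟨ha, ha'⟩
    refine ⟨ha.inv_left, ?_⟩
    have : y⁻¹ * a⁻¹ * y = (y⁻¹ * a * y)⁻¹ := by group
    rw [this]
    exact ha'.inv_left

theorem suitable {Q : Type} [Group Q] (hQ : HypGroup Q) (hne : ¬ Elem Q) (hnf : NoFin Q)
    (H : Subgroup Q) [H.Normal] (hH : H ≠ ⊥) :
    ∃ c ∈ H, ¬ IsOfFinOrder c ∧ (∀ e ∈ Lox.E c, IsOfFinOrder e → e = 1) ∧
      ∃ b ∈ H, b ∉ Lox.E c := by
  classical
  have hinf : ¬ Finite H := fun hf => hH (hnf H inferInstance hf)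
  obtain ⟨c₀, hc₀H, hc₀⟩ : ∃ c₀ ∈ H, ¬ IsOfFinOrder c₀ := by
    by_contra hcon
    push Not at hcon
    exact hinf (tors_finite hQ H hcon)
  obtain ⟨W, δ, o, s, hδ, hs, hlox, hEE, hEn0⟩ := E_norm hQ hc₀
  obtain ⟨c, hcdef⟩ : ∃ c, c = c₀ ^ s := ⟨_, rfl⟩
  rw [← hcdef] at hlox hEE hEn0
  have hEn : ∀ e ∈ Lox.E c, e * c * e⁻¹ = c ∨ e * c * e⁻¹ = c⁻¹ := by
    intro e he
    rw [hEE] at he
    exact hEn0 e he
  have hcH : c ∈ H := by rw [hcdef]; exact H.pow_mem hc₀H s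
  have hc1 : ∀ n : ℤ, n ≠ 0 → c ^ n ≠ 1 := fun n hn => hlox.zpow_ne hn
  have hc : ¬ IsOfFinOrder c := by
    intro hf
    obtain ⟨m, hm, hm1⟩ := isOfFinOrder_iff_pow_eq_one.1 hf
    exact hc1 m (by exact_mod_cast hm.ne') (by rw [zpow_natCast]; exact hm1)
  have hnle := not_le_E hQ hne hc H hcH
  have hcommE : ∀ e : Q, Commute e c → e ∈ Lox.E c := by
    intro e he
    refine Lox.mem_E.2 ⟨1, 1, one_ne_zero, one_ne_zero, ?_⟩
    rw [zpow_one, he.eq]; group
  -- the subgroup D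
  have hDE : suD H c ≤ Lox.E c := by
    intro e he
    have := he 1 H.one_mem
    rw [inv_one, one_mul, mul_one] at this
    exact hcommE e this
  have hDfin : Finite (suD H c) := by
    by_contra hi
    obtain ⟨n, hn, hn'⟩ := zpow_mem_of_infinite hQ hc (suD H c) hDE hi
    exact hnle fun y hy => su_mem hQ hc hn (hn' y hy)
  obtain ⟨m, hm0, hm⟩ := su_pow H c
  have hDnorm : (suD H c).Normal := by
    refine ⟨fun e he g y hy => ?_⟩
    have hz : g⁻¹ * (y * c * y⁻¹) * g ∈ H := by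
      have h1 : y * c * y⁻¹ ∈ H := H.mul_mem (H.mul_mem hy hcH) (H.inv_mem hy)
      have h2 := (inferInstance : H.Normal).conj_mem _ h1 g⁻¹
      rwa [inv_inv] at h2
    have h3 := hm _ hz e he
    have h4 : (g⁻¹ * (y * c * y⁻¹) * g) ^ m = (g⁻¹ * y) * c ^ (m : ℤ) * (g⁻¹ * y)⁻¹ := by
      have : g⁻¹ * (y * c * y⁻¹) * g = (g⁻¹ * y) * c * (g⁻¹ * y)⁻¹ := by group
      rw [this, conj_pow, zpow_natCast]
    rw [h4] at h3
    have h5 : Commute (y⁻¹ * (g * e * g⁻¹) * y) (c ^ (m : ℤ)) := by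
      have h6 : y⁻¹ * (g * e * g⁻¹) * y = (g⁻¹ * y)⁻¹ * e * (g⁻¹ * y) := by group
      rw [h6]
      generalize g⁻¹ * y = x at h3 ⊢
      generalize c ^ (m : ℤ) = d at h3 ⊢
      show x⁻¹ * e * x * d = d * (x⁻¹ * e * x)
      have h7 : x * d * x⁻¹ * e = e * (x * d * x⁻¹) := h3.eq
      calc x⁻¹ * e * x * d = x⁻¹ * (e * (x * d * x⁻¹)) * x := by group
        _ = x⁻¹ * (x * d * x⁻¹ * e) * x := by rw [h7]
        _ = d * (x⁻¹ * e * x) := by group
    exact su_comm hc1 hEn (by exact_mod_cast hm0) h5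
  have hDbot : suD H c = ⊥ := hnf _ hDnorm hDfin
  -- the second conjugator
  obtain ⟨y₁, hy₁H, hy₁E⟩ : ∃ y₁ ∈ H, y₁ ∉ Lox.E c := by
    by_contra hcon
    push Not at hcon
    exact hnle hcon
  have hTfin : Finite (suT y₁ c) := by
    by_contra hi
    obtain ⟨n, hn, hn'⟩ := zpow_mem_of_infinite hQ hc (suT y₁ c)
      (fun e he => hcommE e he.1) hi
    exact hy₁E (su_mem hQ hc hn hn'.2)
  have hchoice : ∀ e : Q, ∃ y ∈ H, e ≠ 1 → ¬ Commute (y⁻¹ * e * y) c := by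
    intro e
    by_cases he : e = 1
    · exact ⟨1, H.one_mem, fun h => absurd he h⟩
    · have h1 : e ∉ suD H c := by
        rw [hDbot]
        exact fun h => he (Subgroup.mem_bot.1 h)
      rw [mem_suD] at h1
      push Not at h1
      obtain ⟨y, hy, hy2⟩ := h1
      exact ⟨y, hy, fun _ => hy2⟩
  choose f hfH hf using hchoice
  have hTfin' : (suT y₁ c : Set Q).Finite := Set.toFinite _
  set Y₀ : Finset Q := insert 1 (insert y₁ (hTfin'.toFinset.image f)) with hY₀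
  have hY1 : (1 : Q) ∈ Y₀ := by simp [hY₀]
  have hYy : y₁ ∈ Y₀ := by simp [hY₀]
  have hYH : ∀ y ∈ Y₀, y ∈ H := by
    intro y hy
    rw [hY₀, Finset.mem_insert, Finset.mem_insert, Finset.mem_image] at hy
    rcases hy with rfl | rfl | ⟨e, _, rfl⟩
    · exact H.one_mem
    · exact hy₁H
    · exact hfH e
  have hYe : ∀ e : Q, (∀ y ∈ Y₀, Commute (y⁻¹ * e * y) c) → e = 1 := by
    intro e he
    by_contra hne1
    have hT : e ∈ suT y₁ c := by
      refine ⟨?_, he y₁ hYy⟩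
      have := he 1 hY1
      rwa [inv_one, one_mul, mul_one] at this
    refine hf e hne1 (he (f e) ?_)
    rw [hY₀, Finset.mem_insert, Finset.mem_insert, Finset.mem_image]
    exact Or.inr (Or.inr ⟨e, by simpa using hT, rfl⟩)
  -- the cosets
  set C : Finset (Q ⧸ Lox.E c) := Finset.image (fun y : Q => (QuotientGroup.mk y : Q ⧸ Lox.E c)) Y₀ with hCdef
  have hC2 : 2 ≤ C.card := by
    have h1 : ((1 : Q) : Q ⧸ Lox.E c) ∈ C := Finset.mem_image.2 ⟨1, hY1, rfl⟩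
    have h2 : (y₁ : Q ⧸ Lox.E c) ∈ C := Finset.mem_image.2 ⟨y₁, hYy, rfl⟩
    have h3 : ((1 : Q) : Q ⧸ Lox.E c) ≠ (y₁ : Q ⧸ Lox.E c) := by
      intro h
      rw [QuotientGroup.eq] at h
      rw [inv_one, one_mul] at h
      exact hy₁E h
    exact Finset.one_lt_card.2 ⟨_, h1, _, h2, h3⟩
  set p := C.card with hp
  have : NeZero p := ⟨by omega⟩
  have hcard : Fintype.card (ZMod p) = Fintype.card C := by
    rw [ZMod.card, Fintype.card_coe]
  set σ : ZMod p ≃ C := Fintype.equivOfCardEq hcard with hσ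
  have hrep : ∀ q : C, ∃ y ∈ Y₀, (y : Q ⧸ Lox.E c) = q.1 := by
    intro q
    obtain ⟨y, hy, hyq⟩ := Finset.mem_image.1 q.2
    exact ⟨y, hy, hyq⟩
  choose r hrY hr using hrep
  have : Fact (1 < p) := ⟨by omega⟩
  obtain ⟨w, hw, hwinf, hwE⟩ := stage1_core hδ hlox hEn p hC2
    (fun i : ℤ => r (σ (i : ZMod p)))
    (by
      intro i
      simp)
    (by
      intro i hmem
      have h1 : ((r (σ (i : ZMod p)) : Q) : Q ⧸ Lox.E c) =
          ((r (σ ((i + 1 : ℤ) : ZMod p)) : Q) : Q ⧸ Lox.E c) := QuotientGroup.eq.2 hmem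
      rw [hr, hr] at h1
      have h2 := σ.injective (Subtype.ext h1)
      push_cast at h2
      have h3 : (1 : ZMod p) = 0 := by
        have := congrArg (fun t => t - (i : ZMod p)) h2
        simpa using this.symm
      exact one_ne_zero h3)
    (by
      intro e he
      apply hYe
      intro y hy
      have hyC : (y : Q ⧸ Lox.E c) ∈ C := Finset.mem_image.2 ⟨y, hy, rfl⟩
      obtain ⟨i, hi⟩ := ZMod.intCast_surjective (σ.symm ⟨_, hyC⟩)
      have h1 := he i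
      simp only [hi, Equiv.apply_symm_apply] at h1
      have h2 := hr ⟨_, hyC⟩
      generalize r ⟨_, hyC⟩ = z at h1 h2
      simp only at h2
      rw [QuotientGroup.eq] at h2
      have h3 : y⁻¹ * e * y = (z⁻¹ * y)⁻¹ * (z⁻¹ * e * z) * (z⁻¹ * y) := by group
      rw [h3]
      generalize z⁻¹ * y = ε at h2 ⊢
      generalize z⁻¹ * e * z = x at h1 ⊢
      have h4 := hEn ε⁻¹ ((Lox.E c).inv_mem h2)
      rw [inv_inv] at h4
      have h5 : Commute (ε⁻¹ * x * ε) (ε⁻¹ * c * ε) := by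
        show ε⁻¹ * x * ε * (ε⁻¹ * c * ε) = ε⁻¹ * c * ε * (ε⁻¹ * x * ε)
        calc ε⁻¹ * x * ε * (ε⁻¹ * c * ε) = ε⁻¹ * (x * c) * ε := by group
          _ = ε⁻¹ * (c * x) * ε := by rw [h1.eq]
          _ = _ := by group
      rcases h4 with h4 | h4
      · rwa [h4] at h5
      · rw [h4] at h5
        have := h5.inv_right
        rwa [inv_inv] at this)
  have hwH : w ∈ H := by
    have hle : Subgroup.closure (insert c (Set.range fun i : ℤ =>
        (r (σ (i : ZMod p)))⁻¹ * r (σ ((i + 1 : ℤ) : ZMod p)))) ≤ H := by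
      rw [Subgroup.closure_le]
      rintro x (rfl | ⟨i, rfl⟩)
      · exact hcH
      · exact H.mul_mem (H.inv_mem (hYH _ (hrY _))) (hYH _ (hrY _))
    exact hle hw
  refine ⟨w, hwH, hwinf, hwE, ?_⟩
  by_contra hcon
  push Not at hcon
  exact not_le_E hQ hne hwinf H hwH hcon

end Pool.Agent.H507
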