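import Pool.Agent.H507_D.Defs
import Pool.Agent.TH63.SC.LineEx
import Pool.Agent.TH68.JD

set_option autoImplicit false

namespace Pool.Agent.H507

open Pool.Agent.Helper97.Hyp Pool.Agent.TH68

/-- `GHyp` is monotone in the constant -/
theorem norm_exists_mono {X : Type*} [PseudoMetricSpace X] {δ δ' : ℝ} (h : GHyp X δ)
    (hle : δ ≤ δ') : GHyp X δ' := fun x y z w => by
  have := h x y z w
  linarith

/-- positive powers have the same commensurator -/
theorem norm_exists_E {Γ : Type*} [Group Γ] (g : Γ) {s : ℕ} (hs : 0 < s) :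
    Lox.E (g ^ s) = Lox.E g := by
  have hs' : (s : ℤ) ≠ 0 := by exact_mod_cast hs.ne'
  ext γ
  rw [Lox.mem_E, Lox.mem_E]
  constructor
  · rintro ⟨a, b, ha, hb, h⟩
    refine ⟨s * a, s * b, mul_ne_zero hs' ha, mul_ne_zero hs' hb, ?_⟩
    rw [zpow_mul, zpow_mul, zpow_natCast]
    exact h
  · rintro ⟨a, b, ha, hb, h⟩
    refine ⟨a, b, ha, hb, ?_⟩
    have h1 : γ * (g ^ a) ^ s * γ⁻¹ = (g ^ b) ^ s := by
      rw [← conj_pow, h]
    rw [← zpow_natCast (g ^ a), ← zpow_natCast (g ^ b), ← zpow_mul, ← zpow_mul, mul_comm a,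
      mul_comm b, zpow_mul, zpow_mul, zpow_natCast] at h1
    exact h1

/-- TARGET 1 -/
theorem norm_exists {Q : Type} [Group Q] (hQ : HypGroup Q) {ι : Type} [Finite ι] {c : ι → Q}
    (hc : ∀ i, ¬ IsOfFinOrder (c i)) :
    ∃ (W : WNorm Q) (δ : ℝ) (o : ι → Pt W) (s : ℕ), GHyp (Pt W) δ ∧ 1 ≤ δ ∧ 0 < s ∧
      (∀ i, Lox δ (o i) (c i ^ s)) ∧ ∀ i, Lox.E (c i ^ s) = Lox.E (c i) := by
  classical
  have := Fintype.ofFinite ι
  obtain ⟨W, δ₀, h₀⟩ := hQ
  have hyp : GHyp (Pt W) (max δ₀ 1) := norm_exists_mono h₀ (le_max_left _ _)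
  have hδ : 1 ≤ max δ₀ 1 := le_max_right _ _
  obtain ⟨J, hJ⟩ := lox_of_inf hyp hδ
  choose j hj1 _ o ho using fun i => hJ (c i) (hc i)
  have hs : 0 < ∏ i, j i := Finset.prod_pos fun i _ => hj1 i
  refine ⟨W, max δ₀ 1, o, ∏ i, j i, hyp, hδ, hs, ?_, fun i => norm_exists_E (c i) hs⟩
  intro i
  obtain ⟨k, hk⟩ := Finset.dvd_prod_of_mem j (Finset.mem_univ i)
  rw [hk, pow_mul]
  refine Lox.pow (ho i) ?_
  rw [hk] at hs
  exact Nat.pos_of_ne_zero fun h0 => by rw [h0, mul_zero] at hs; exact lt_irrefl _ hs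

/-- TARGET 2 -/
theorem malnormal {ι : Type} {G : ι → Type} [∀ i, Group (G i)] {i : ι} {x y : G i} (hx : x ≠ 1)
    {g : Monoid.CoprodI G} (h : g * Monoid.CoprodI.of x * g⁻¹ = Monoid.CoprodI.of y) :
    ∃ g' : G i, g = Monoid.CoprodI.of g' := by
  classical
  have hinj : Function.Injective
      (Monoid.CoprodI.Word.prod : Monoid.CoprodI.Word G → Monoid.CoprodI G) :=
    Monoid.CoprodI.Word.equiv.symm.injective
  set w : Monoid.CoprodI.Word G := Monoid.CoprodI.Word.equiv g⁻¹ with hw
  have hwp : w.prod = g⁻¹ := Monoid.CoprodI.Word.equiv.symm_apply_apply g⁻¹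
  set p := Monoid.CoprodI.Word.equivPair i w with hp
  have hpw : Monoid.CoprodI.Word.rcons p = w := by
    rw [← Monoid.CoprodI.Word.equivPair_symm, hp, Equiv.symm_apply_apply]
  have hg : g⁻¹ = Monoid.CoprodI.of p.head * p.tail.prod := by
    rw [← hwp, ← hpw, Monoid.CoprodI.Word.prod_rcons]
  have hx' : p.head⁻¹ * x * p.head ≠ 1 := by
    intro h1
    apply hx
    have h2 : x = p.head * (p.head⁻¹ * x * p.head) * p.head⁻¹ := by group
    rw [h2, h1]; group
  by_cases hte : p.tail = Monoid.CoprodI.Word.empty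
  · refine ⟨p.head⁻¹, ?_⟩
    rw [hte, Monoid.CoprodI.Word.prod_empty, mul_one] at hg
    rw [map_inv, ← hg, inv_inv]
  · exfalso
    obtain ⟨j, k, v, hv⟩ := Monoid.CoprodI.NeWord.of_word p.tail hte
    have hji : j ≠ i := by
      intro hji
      apply p.fstIdx_ne
      rw [← hv]
      have h1 := Monoid.CoprodI.NeWord.toList_head? v
      unfold Monoid.CoprodI.Word.fstIdx
      show Option.map Sigma.fst v.toList.head? = some i
      rw [h1, ← hji]
      rfl
    set W := (v.inv.append hji (Monoid.CoprodI.NeWord.singleton _ hx')).append hji.symm v with hW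
    have hvp : v.prod = p.tail.prod := by
      unfold Monoid.CoprodI.NeWord.prod
      rw [hv]
    have hWp : W.prod = Monoid.CoprodI.of y := by
      rw [hW, Monoid.CoprodI.NeWord.append_prod, Monoid.CoprodI.NeWord.append_prod,
        Monoid.CoprodI.NeWord.inv_prod, Monoid.CoprodI.NeWord.prod_singleton, hvp, ← h]
      have hg' : g = (p.tail.prod)⁻¹ * (Monoid.CoprodI.of p.head)⁻¹ := by
        rw [← inv_inv g, hg, mul_inv_rev]
      rw [hg, hg', map_mul, map_mul, map_inv]
      group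
    have hlen : 3 ≤ W.toList.length := by
      have e : W.toList = (v.inv.toList ++ [⟨i, p.head⁻¹ * x * p.head⟩]) ++ v.toList := rfl
      have h1 : 0 < v.inv.toList.length :=
        List.length_pos_iff.2 (Monoid.CoprodI.NeWord.toList_ne_nil _)
      have h2 : 0 < v.toList.length :=
        List.length_pos_iff.2 (Monoid.CoprodI.NeWord.toList_ne_nil _)
      rw [e, List.length_append, List.length_append, List.length_singleton]
      omega
    by_cases hy : y = 1
    · subst hy
      have h1 : W.toWord.prod = Monoid.CoprodI.Word.empty.prod := by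
        rw [Monoid.CoprodI.Word.prod_empty]
        rw [map_one] at hWp
        exact hWp
      have h2 : W.toWord.toList = [] := by rw [hinj h1]; rfl
      have h3 : W.toWord.toList = W.toList := rfl
      rw [← h3, h2] at hlen
      simp at hlen
    · have h1 : W.toWord.prod = (Monoid.CoprodI.NeWord.singleton y hy).toWord.prod := by
        rw [← Monoid.CoprodI.NeWord.prod_singleton y hy] at hWp
        exact hWp
      have h2 : W.toWord.toList = [⟨i, y⟩] := by rw [hinj h1]; rfl
      have h3 : W.toWord.toList = W.toList := rfl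
      rw [← h3, h2] at hlen
      simp at hlen

/-- TARGET 3 -/
theorem retract {ι : Type} {G : ι → Type} [∀ i, Group (G i)] {i j : ι} (hij : i ≠ j) {x : G i}
    {y : G j} (g : Monoid.CoprodI G) (h : g * Monoid.CoprodI.of x * g⁻¹ = Monoid.CoprodI.of y) :
    x = 1 := by
  classical
  have h1 := congrArg (Monoid.CoprodI.lift (Pi.mulSingle i (MonoidHom.id (G i)))) h
  rw [map_mul, map_mul, map_inv, Monoid.CoprodI.lift_of, Monoid.CoprodI.lift_of,
    Pi.mulSingle_eq_same, Pi.mulSingle_eq_of_ne hij.symm] at h1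
  simpa using h1

end Pool.Agent.H507
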