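import Pool.Agent.Helper97.Hyp.Axis
import Pool.Agent.TH68.Defs

set_option autoImplicit false
set_option linter.unusedSectionVars false

namespace Pool.Agent.H507

open Pool.Agent.Helper97.Hyp Pool.Agent.TH68

/-- a two-sided product with prescribed steps -/
theorem exists_steps {Γ : Type} [Group Γ] (s : ℤ → Γ) :
    ∃ g : ℤ → Γ, g 0 = 1 ∧ ∀ i, g (i + 1) = g i * s i := by
  let gp : ℕ → Γ := fun n => Nat.rec 1 (fun k r => r * s k) n
  let gm : ℕ → Γ := fun n => Nat.rec 1 (fun k r => r * (s (-(k + 1 : ℤ)))⁻¹) n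
  have hgp : ∀ k, gp (k + 1) = gp k * s k := fun k => rfl
  have hgm : ∀ k : ℕ, gm (k + 1) = gm k * (s (-(k + 1 : ℤ)))⁻¹ := fun k => rfl
  refine ⟨fun i => if 0 ≤ i then gp i.toNat else gm (-i).toNat, ?_, ?_⟩
  · rfl
  · intro i
    rcases lt_trichotomy i (-1) with h | h | h
    · have h1 : ¬ (0 ≤ i + 1) := by omega
      have h2 : ¬ (0 ≤ i) := by omega
      simp only [if_neg h1, if_neg h2]
      obtain ⟨k, hk⟩ : ∃ k : ℕ, (-(i + 1)) = k := ⟨(-(i + 1)).toNat, by omega⟩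
      have e1 : (-(i + 1)).toNat = k := by omega
      have e2 : (-i).toNat = k + 1 := by omega
      rw [e1, e2, hgm]
      have e3 : (-(k + 1 : ℤ)) = i := by omega
      rw [e3]
      group
    · subst h
      have e1 : (-(-1 : ℤ)).toNat = 0 + 1 := rfl
      have h2 : ¬ ((0 : ℤ) ≤ -1) := by omega
      have h1 : (0 : ℤ) ≤ -1 + 1 := by omega
      simp only [if_neg h2, if_pos h1]
      rw [e1, hgm]
      show (1 : Γ) = 1 * (s (-((0 : ℕ) + 1 : ℤ)))⁻¹ * s (-1)
      simp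
    · have h1 : 0 ≤ i + 1 := by omega
      have h2 : 0 ≤ i := by omega
      simp only [if_pos h1, if_pos h2]
      obtain ⟨k, hk⟩ : ∃ k : ℕ, i = k := ⟨i.toNat, by omega⟩
      subst hk
      have e1 : ((k : ℤ) + 1).toNat = k + 1 := by omega
      have e2 : (k : ℤ).toNat = k := by omega
      rw [e1, e2, hgp]

theorem steps_period {Γ : Type} [Group Γ] (s g : ℤ → Γ) (m : ℤ) (h0 : g 0 = 1)
    (hg : ∀ i, g (i + 1) = g i * s i) (hs : ∀ i, s (i + m) = s i) :
    ∀ i, g (i + m) = g m * g i := by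
  intro i
  induction i using Int.induction_on with
  | zero => rw [h0, mul_one, zero_add]
  | succ i ih =>
    have e : (i : ℤ) + 1 + m = (i : ℤ) + m + 1 := by ring
    rw [e, hg, ih, hg, hs, mul_assoc]
  | pred i ih =>
    have e1 := hg (-(i : ℤ) - 1 + m)
    have e2 := hg (-(i : ℤ) - 1)
    have e3 : -(i : ℤ) - 1 + m + 1 = -(i : ℤ) + m := by ring
    have e4 : -(i : ℤ) - 1 + 1 = -(i : ℤ) := by ring
    rw [e3, ih, hs] at e1
    rw [e4] at e2
    rw [e2, ← mul_assoc] at e1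
    exact (mul_right_cancel e1).symm

/-- TARGET -/
theorem word_raw {Γ : Type} [Group Γ] {W : WNorm Γ} {δ : ℝ} {o : Pt W} {c : Γ} (h : Lox δ o c)
    (m : ℕ) (hm : 1 ≤ m) (f : ℤ → Γ) (hf : ∀ i, f (i + m) = f i) (K l : ℝ) (hK1 : 1 ≤ K)
    (hl : 0 ≤ l) (hK2 : dist o (c • o) ≤ K) (hK3 : ∀ i, dist o (f i • o) ≤ K) (a : ℕ) :
    ∃ (n : ℤ → ℕ) (g : ℤ → Γ), g 0 = 1 ∧ (∀ i, g (i + 1) = g i * (c ^ n i * f i)) ∧
      (∀ i, g (i + m) = g m * g i) ∧ (∀ i, n (i + m) = n i) ∧ (∀ i, l ≤ dist o (c ^ n i • o)) ∧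
      ∀ i : ℤ, l + 1000 * K * (a + ((i % m : ℤ) : ℝ)) ≤ dist (g i • o) (g (i + 1) • o) ∧
        dist (g i • o) (g (i + 1) • o) ≤ l + 3 * K + 1000 * K * (a + ((i % m : ℤ) : ℝ)) := by
  classical
  have hK0 : 0 < K := by linarith
  have htl1 : tl o c 1 ≤ K := by
    have : tl o c 1 = dist o (c • o) := by simp [tl]
    rw [this]; exact hK2
  -- the bound of an index
  set B : ℤ → ℝ := fun i => l + K + 1000 * K * (a + ((i % m : ℤ) : ℝ)) with hB
  have hmod : ∀ i : ℤ, (0 : ℝ) ≤ ((i % m : ℤ) : ℝ) := by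
    intro i
    have : 0 ≤ i % (m : ℤ) := Int.emod_nonneg i (by omega)
    exact_mod_cast this
  have hex : ∀ i : ℤ, ∃ n : ℕ, B i ≤ tl o c n := by
    intro i
    obtain ⟨n, hn⟩ := exists_nat_ge (B i)
    exact ⟨n, hn.trans (h.tl_ge n)⟩
  have hfind : ∀ i : ℤ, B i ≤ tl o c (Nat.find (hex i)) ∧ tl o c (Nat.find (hex i)) ≤ B i + K := by
    intro i
    refine ⟨Nat.find_spec (hex i), ?_⟩
    have hpos : Nat.find (hex i) ≠ 0 := by
      intro h0
      have h1 := Nat.find_spec (hex i)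
      rw [h0, Lox.tl_zero] at h1
      have h2 := hmod i
      have h3 : (0 : ℝ) ≤ a := Nat.cast_nonneg a
      have h4 : 0 ≤ 1000 * K * (a + ((i % m : ℤ) : ℝ)) := by positivity
      simp only [hB] at h1
      linarith
    obtain ⟨k, hk⟩ := Nat.exists_eq_succ_of_ne_zero hpos
    have h1 : ¬ (B i ≤ tl o c k) := Nat.find_min (hex i) (by omega)
    push Not at h1
    have h2 := Lox.tl_sub (o := o) (g := c) k 1
    rw [hk]
    show tl o c (k + 1) ≤ B i + K
    linarith
  have hBper : ∀ i, B (i + m) = B i := by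
    intro i
    simp only [hB]
    rw [Int.add_emod_right]
  have hnper : ∀ i, Nat.find (hex (i + m)) = Nat.find (hex i) := by
    intro i
    have : ∀ n, B (i + m) ≤ tl o c n ↔ B i ≤ tl o c n := by
      intro n; rw [hBper]
    exact Nat.find_congr' (fun {n} => this n)
  obtain ⟨g, hg0, hg⟩ := exists_steps (fun i => c ^ (Nat.find (hex i)) * f i)
  refine ⟨fun i => Nat.find (hex i), g, hg0, hg, ?_, hnper, ?_, ?_⟩
  · exact steps_period _ g m hg0 hg (fun i => by
      show c ^ (Nat.find (hex (i + m))) * f (i + m) = c ^ (Nat.find (hex i)) * f i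
      rw [hnper, hf])
  · intro i
    have h1 := (hfind i).1
    have h2 := hmod i
    have h3 : (0 : ℝ) ≤ a := Nat.cast_nonneg a
    have h4 : 0 ≤ 1000 * K * (a + ((i % m : ℤ) : ℝ)) := by positivity
    show l ≤ tl o c (Nat.find (hex i))
    simp only [hB] at h1
    linarith
  · intro i
    obtain ⟨h1, h2⟩ := hfind i
    have e1 : dist (g i • o) (g (i + 1) • o) = dist o (c ^ (Nat.find (hex i)) • (f i • o)) := by
      rw [hg, mul_smul, dist_smul, mul_smul]
    have e2 : dist (c ^ (Nat.find (hex i)) • (f i • o)) (c ^ (Nat.find (hex i)) • o) ≤ K := by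
      rw [dist_smul, dist_comm]
      exact hK3 i
    have e3 : tl o c (Nat.find (hex i)) = dist o (c ^ (Nat.find (hex i)) • o) := rfl
    have t1 := dist_triangle o (c ^ (Nat.find (hex i)) • (f i • o)) (c ^ (Nat.find (hex i)) • o)
    have t2 := dist_triangle o (c ^ (Nat.find (hex i)) • o) (c ^ (Nat.find (hex i)) • (f i • o))
    rw [dist_comm (c ^ (Nat.find (hex i)) • o)] at t2
    rw [e1]
    simp only [hB] at h1 h2
    constructor
    · linarith
    · linarith

end Pool.Agent.H507
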