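import Pool.Agent.H507_D.Line2
import Pool.Agent.TH63.SC.FamSys
import Pool.Agent.H507_P.G2a
import Pool.Agent.H507_P.G4a

set_option autoImplicit false
set_option linter.unusedSectionVars false

namespace Pool.Agent.H507

open Pool.Agent.Helper97.Hyp Pool.Agent.TH68 Pool.Agent.TH63.SC Pool.Agent.TH82.FG

namespace G5

lemma notFin_of_lox {Γ : Type} [Group Γ] {W : WNorm Γ} {δ : ℝ} {o : Pt W} {c : Γ}
    (h : Lox δ o c) : ¬ IsOfFinOrder c := by
  intro hf
  obtain ⟨n, hn, hcn⟩ := isOfFinOrder_iff_pow_eq_one.1 hf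
  have h1 := h.zpow_ne (n := (n : ℤ)) (by omega)
  rw [zpow_natCast] at h1
  exact h1 hcn

lemma conj_mem_of_fix {Γ : Type} [Group Γ] {S : Subgroup Γ} {γ α : Γ}
    (h : ((γ * α : Γ) : Γ ⧸ S) = (α : Γ ⧸ S)) : α⁻¹ * γ * α ∈ S := by
  have h1 := QuotientGroup.eq.mp h.symm
  rwa [← mul_assoc] at h1

/-- only the identity fixes two lines -/
lemma triv {Γ : Type} [Group Γ] {W : WNorm Γ} {δ : ℝ} {ι : Type} {o : ι → Pt W} {c : ι → Γ}
    (hyp : GHyp (Pt W) δ) (h : ∀ i, Lox δ (o i) (c i)) (hnc : NonComm c)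
    (htf : ∀ i, ∀ e ∈ Lox.E (c i), IsOfFinOrder e → e = 1)
    (A B : Σ i : ι, Γ ⧸ Lox.E (c i)) (hAB : A ≠ B) (γ : Γ) (hA : γ • A = A) (hB : γ • B = B) :
    γ = 1 := by
  obtain ⟨i, A⟩ := A
  obtain ⟨j, B⟩ := B
  obtain ⟨α, rfl⟩ := QuotientGroup.mk_surjective A
  obtain ⟨β, rfl⟩ := QuotientGroup.mk_surjective B
  have hA1 : ((γ * α : Γ) : Γ ⧸ Lox.E (c i)) = (α : Γ ⧸ Lox.E (c i)) :=
    eq_of_heq (Sigma.mk.inj_iff.1 hA).2
  have hB1 : ((γ * β : Γ) : Γ ⧸ Lox.E (c j)) = (β : Γ ⧸ Lox.E (c j)) :=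
    eq_of_heq (Sigma.mk.inj_iff.1 hB).2
  have hA2 := conj_mem_of_fix hA1
  have hB2 := conj_mem_of_fix hB1
  have hca : ∀ (x : Γ) (z : ℤ), (x⁻¹ * γ * x) ^ z = x⁻¹ * γ ^ z * x := by
    intro x z
    have := conj_zpow (i := z) (a := x⁻¹) (b := γ)
    rw [inv_inv] at this
    exact this
  by_cases hγ : IsOfFinOrder γ
  · have h1 : IsOfFinOrder (α⁻¹ * γ * α) := by
      obtain ⟨n, hn, hcn⟩ := isOfFinOrder_iff_pow_eq_one.1 hγ
      refine isOfFinOrder_iff_pow_eq_one.2 ⟨n, hn, ?_⟩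
      have := hca α n
      rw [zpow_natCast, zpow_natCast, hcn] at this
      rw [this]; group
    have h2 := htf i _ hA2 h1
    have h3 : γ = α * (α⁻¹ * γ * α) * α⁻¹ := by group
    rw [h3, h2]; group
  · have hnf : ∀ x : Γ, ¬ IsOfFinOrder (x⁻¹ * γ * x) := by
      intro x hx
      apply hγ
      obtain ⟨n, hn, hcn⟩ := isOfFinOrder_iff_pow_eq_one.1 hx
      refine isOfFinOrder_iff_pow_eq_one.2 ⟨n, hn, ?_⟩
      have := hca x n
      rw [zpow_natCast, zpow_natCast, hcn] at this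
      have h3 : γ ^ n = x * (x⁻¹ * γ ^ n * x) * x⁻¹ := by group
      rw [h3, ← this]; group
    have hQ : HypGroup Γ := ⟨W, δ, hyp⟩
    obtain ⟨x, x', hx, hx', e1⟩ := pow_of_mem_E hQ (notFin_of_lox (h i)) hA2 (hnf α)
    obtain ⟨y, y', hy, hy', e2⟩ := pow_of_mem_E hQ (notFin_of_lox (h j)) hB2 (hnf β)
    have f1 : γ ^ (x * y) = α * c i ^ (x' * y) * α⁻¹ := by
      rw [zpow_mul (c i), ← e1, ← zpow_mul, hca]; group
    have f2 : γ ^ (x * y) = β * c j ^ (y' * x) * β⁻¹ := by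
      rw [zpow_mul (c j), ← e2, ← zpow_mul, hca, mul_comm y x]; group
    have f3 : (β⁻¹ * α) * c i ^ (x' * y) * (β⁻¹ * α)⁻¹ = c j ^ (y' * x) := by
      have : (β⁻¹ * α) * c i ^ (x' * y) * (β⁻¹ * α)⁻¹ = β⁻¹ * (α * c i ^ (x' * y) * α⁻¹) * β := by
        group
      rw [this, ← f1, f2]; group
    by_cases hij : i = j
    · subst hij
      exfalso
      apply hAB
      have h1 : β⁻¹ * α ∈ Lox.E (c i) :=
        ⟨x' * y, y' * x, mul_ne_zero hx' hy, mul_ne_zero hy' hx, f3⟩
      have h2 : (β : Γ ⧸ Lox.E (c i)) = (α : Γ ⧸ Lox.E (c i)) := QuotientGroup.eq.mpr h1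
      rw [h2]
    · exact absurd f3 (hnc i j hij _ _ _ (mul_ne_zero hx' hy) (mul_ne_zero hy' hx))

end G5

/-- TARGET -/
theorem fam_exists {Γ : Type} [Group Γ] {W : WNorm Γ} {δ : ℝ} {ι κ : Type} [Fintype ι] [Fintype κ]
    [Nonempty κ] {o : ι → Pt W} {c : ι → Γ} (hyp : GHyp (Pt W) δ) (hδ : 1 ≤ δ)
    (h : ∀ i, Lox δ (o i) (c i)) (hnc : NonComm c)
    (htf : ∀ i, ∀ e ∈ Lox.E (c i), IsOfFinOrder e → e = 1) (b : ι → Γ)
    (hb : ∀ i, b i ∉ Lox.E (c i)) (τ : κ → ι) (t : κ → Γ) (m : ℕ) (hm : 3 ≤ m) (ρ : ℝ) :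
    ∃ (D : Fam (linesSys hyp hδ h hnc) κ) (w : κ → Γ),
      (∀ k, w k ∈ Subgroup.closure {c (τ k), b (τ k)}) ∧ (∀ k, D.r k = w k * t k) ∧
      D.m = m ∧ ρ ≤ D.l := by
  set Y := linesSys hyp hδ h hnc with hY
  -- the correction
  have hb' : ∀ k : κ, ∃ b' : Γ, b' ∈ Subgroup.closure {c (τ k), b (τ k)} ∧
      b' * t k ∉ Lox.E (c (τ k)) := by
    intro k
    by_cases ht : t k ∈ Lox.E (c (τ k))
    · refine ⟨b (τ k), Subgroup.subset_closure (by simp), fun hbt => hb (τ k) ?_⟩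
      have := mul_mem hbt (inv_mem ht)
      rwa [mul_inv_cancel_right] at this
    · exact ⟨1, one_mem _, by rwa [one_mul]⟩
  choose b' hb'c hb'E using hb'
  have hm0 : (0 : ℤ) < m := by omega
  -- the periodic sequence
  let f : κ → ℤ → Γ := fun k j => if j % (m : ℤ) = m - 1 then b' k * t k else b (τ k)
  have hfper : ∀ k j, f k (j + m) = f k j := by
    intro k j
    simp only [f, Int.add_emod_right]
  have hfE : ∀ k j, f k j ∉ Lox.E (c (τ k)) := by
    intro k j
    simp only [f]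
    split_ifs
    · exact hb'E k
    · exact hb (τ k)
  -- constants
  let s1 : ℝ := ∑ i, dist (o i) (c i • o i)
  let s2 : ℝ := ∑ k, (dist (o (τ k)) (b (τ k) • o (τ k)) +
    dist (o (τ k)) ((b' k * t k) • o (τ k)))
  have hs1 : ∀ i, dist (o i) (c i • o i) ≤ s1 := fun i =>
    Finset.single_le_sum (f := fun i => dist (o i) (c i • o i)) (fun _ _ => dist_nonneg)
      (Finset.mem_univ i)
  have hs2 : ∀ k, dist (o (τ k)) (b (τ k) • o (τ k)) +
      dist (o (τ k)) ((b' k * t k) • o (τ k)) ≤ s2 := fun k =>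
    Finset.single_le_sum (f := fun k => dist (o (τ k)) (b (τ k) • o (τ k)) +
      dist (o (τ k)) ((b' k * t k) • o (τ k))) (fun _ _ => add_nonneg dist_nonneg dist_nonneg)
      (Finset.mem_univ k)
  have hs1' : 0 ≤ s1 := Finset.sum_nonneg fun _ _ => dist_nonneg
  have hs2' : 0 ≤ s2 := Finset.sum_nonneg fun _ _ => add_nonneg dist_nonneg dist_nonneg
  let K : ℝ := 1 + |Y.θ| + s1 + s2
  have hK1 : 1 ≤ K := by
    have := abs_nonneg Y.θ
    simp only [K]; linarith
  have hKθ : Y.θ ≤ K := by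
    have := le_abs_self Y.θ
    simp only [K]; linarith
  have hK2 : ∀ k, dist (o (τ k)) (c (τ k) • o (τ k)) ≤ K := by
    intro k
    have := abs_nonneg Y.θ
    have := hs1 (τ k)
    simp only [K]; linarith
  have hK3 : ∀ k j, dist (o (τ k)) (f k j • o (τ k)) ≤ K := by
    intro k j
    have h0 := abs_nonneg Y.θ
    have h1 := hs2 k
    have h2 : 0 ≤ dist (o (τ k)) (b (τ k) • o (τ k)) := dist_nonneg
    have h3 : 0 ≤ dist (o (τ k)) ((b' k * t k) • o (τ k)) := dist_nonneg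
    simp only [f, K]
    split_ifs <;> linarith
  let N : ℕ := Fintype.card κ
  let e : κ ≃ Fin N := Fintype.equivFin κ
  let l : ℝ := 1000 * K * (N * m + 2) + |ρ|
  have hNm : (0 : ℝ) ≤ (N : ℝ) * m := by positivity
  have hl2 : 2000 * K ≤ l := by
    have h1 := abs_nonneg ρ
    have h2 : 0 ≤ 1000 * K * ((N : ℝ) * m) := by positivity
    simp only [l]; linarith
  have hl0 : 0 ≤ l := by linarith
  have hw := fun k => word_raw (h (τ k)) m (by omega) (f k) (hfper k) K l hK1 hl0 (hK2 k) (hK3 k)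
    ((e k : ℕ) * m)
  choose n g hg0 hg1 hgm hnm hlow hd using hw
  -- steps
  have hmod : ∀ i : ℤ, 0 ≤ i % (m : ℤ) ∧ i % (m : ℤ) < m := fun i =>
    ⟨Int.emod_nonneg _ hm0.ne', Int.emod_lt_of_pos _ hm0⟩
  have hstep : ∀ k i, l ≤ dist (g k i • o (τ k)) (g k (i + 1) • o (τ k)) ∧
      dist (g k i • o (τ k)) (g k (i + 1) • o (τ k)) ≤ 4 * l := by
    intro k i
    obtain ⟨d1, d2⟩ := hd k i
    obtain ⟨m1, m2⟩ := hmod i
    have m1' : (0 : ℝ) ≤ ((i % (m : ℤ) : ℤ) : ℝ) := by exact_mod_cast m1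
    have hle : ((((e k : ℕ) * m : ℕ) : ℝ) + ((i % (m : ℤ) : ℤ) : ℝ)) ≤ (N : ℝ) * m := by
      have h1 : (((e k : ℕ) * m : ℕ) : ℤ) + i % (m : ℤ) ≤ (N : ℤ) * m := by
        have h2 : ((e k : ℕ) : ℤ) + 1 ≤ N := by
          have := (e k).2
          omega
        push_cast
        nlinarith
      exact_mod_cast h1
    have h0 : 0 ≤ 1000 * K * ((((e k : ℕ) * m : ℕ) : ℝ) + ((i % (m : ℤ) : ℤ) : ℝ)) := by
      positivity
    have h3 : 1000 * K * ((((e k : ℕ) * m : ℕ) : ℝ) + ((i % (m : ℤ) : ℤ) : ℝ)) ≤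
        1000 * K * ((N : ℝ) * m) := mul_le_mul_of_nonneg_left hle (by positivity)
    have h4 := abs_nonneg ρ
    have h5 : 1000 * K * ((N : ℝ) * m) + 2000 * K ≤ l := by simp only [l]; linarith
    constructor
    · linarith
    · linarith
  have hcn : ∀ k (z : ℕ), c (τ k) ^ z ∈ Lox.E (c (τ k)) := by
    intro k z
    have := Lox.zpow_mem_E (g := c (τ k)) (z : ℤ)
    rwa [zpow_natCast] at this
  let D : Fam Y κ :=
    { K := K
      l := l
      m := m
      hm := hm
      r := fun k => g k m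
      P := fun k j => g k j • o (τ k)
      A := fun k j => ⟨τ k, (g k j : Γ ⧸ Lox.E (c (τ k)))⟩
      br := fun k =>
        { hθ := hKθ
          hl := by linarith
          left := fun i => ⟨g k i • o (τ k), ⟨g k i, rfl, rfl⟩, by rw [dist_self]; linarith⟩
          right := fun i => by
            refine ⟨(g k i * c (τ k) ^ n k i) • o (τ k), ⟨g k i * c (τ k) ^ n k i, ?_, rfl⟩, ?_⟩
            · apply QuotientGroup.eq.mpr
              rw [mul_inv_rev, inv_mul_cancel_right]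
              exact inv_mem (hcn k _)
            · simp only [hg1 k i]
              rw [← mul_assoc, mul_smul _ (f k i), dist_smul]
              exact hK3 k i
          ne := fun i hi => by
            have h1 : ((g k i : Γ) : Γ ⧸ Lox.E (c (τ k))) = (g k (i + 1) : Γ ⧸ Lox.E (c (τ k))) :=
              eq_of_heq (Sigma.mk.inj_iff.1 hi).2
            have h2 := QuotientGroup.eq.mp h1
            rw [hg1 k i, inv_mul_cancel_left] at h2
            apply hfE k i
            have := mul_mem (inv_mem (hcn k (n k i))) h2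
            rwa [inv_mul_cancel_left] at this
          lo := fun i => (hstep k i).1
          hi := fun i => (hstep k i).2 }
      perP := fun k i => by
        simp only [hgm k i]
        rw [mul_smul]
      perA := fun k i => by
        simp only [hgm k i]
        rfl
      triv := fun A B hAB γ hA hB => G5.triv hyp h hnc htf A B hAB γ hA hB
      sep := fun k k' i j γ _ hdd => by
        obtain ⟨d1, d2⟩ := hd k i
        obtain ⟨d3, d4⟩ := hd k' j
        obtain ⟨m1, m2⟩ := hmod i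
        obtain ⟨m3, m4⟩ := hmod j
        rw [abs_le] at hdd
        obtain ⟨q1, q2⟩ := hdd
        have hKpos : 0 < K := by linarith
        have e1 : (((((e k : ℕ) * m : ℕ) : ℤ) + i % (m : ℤ) : ℤ) : ℝ) <
            (((((e k' : ℕ) * m : ℕ) : ℤ) + j % (m : ℤ) : ℤ) : ℝ) + 1 := by
          push_cast
          push_cast at d1 d2 d3 d4
          by_contra hc
          push Not at hc
          have := mul_le_mul_of_nonneg_left hc hKpos.le
          nlinarith
        have e2 : (((((e k' : ℕ) * m : ℕ) : ℤ) + j % (m : ℤ) : ℤ) : ℝ) <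
            (((((e k : ℕ) * m : ℕ) : ℤ) + i % (m : ℤ) : ℤ) : ℝ) + 1 := by
          push_cast
          push_cast at d1 d2 d3 d4
          by_contra hc
          push Not at hc
          have := mul_le_mul_of_nonneg_left hc hKpos.le
          nlinarith
        have e3 : (((e k : ℕ) * m : ℕ) : ℤ) + i % (m : ℤ) < (((e k' : ℕ) * m : ℕ) : ℤ) +
            j % (m : ℤ) + 1 := by exact_mod_cast e1
        have e4 : (((e k' : ℕ) * m : ℕ) : ℤ) + j % (m : ℤ) < (((e k : ℕ) * m : ℕ) : ℤ) +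
            i % (m : ℤ) + 1 := by exact_mod_cast e2
        have e5 : ((e k : ℕ) : ℤ) * m + i % (m : ℤ) = ((e k' : ℕ) : ℤ) * m + j % (m : ℤ) := by
          push_cast at e3 e4
          omega
        have e6 : ((e k : ℕ) : ℤ) = ((e k' : ℕ) : ℤ) := by
          have h1 := congrArg (fun z => z / (m : ℤ)) e5
          rw [add_comm, Int.add_mul_ediv_right _ _ hm0.ne', Int.ediv_eq_zero_of_lt m1 m2,
            add_comm (((e k' : ℕ) : ℤ) * m), Int.add_mul_ediv_right _ _ hm0.ne',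
            Int.ediv_eq_zero_of_lt m3 m4, zero_add, zero_add] at h1
          exact h1
        have e7 : k = k' := by
          apply e.injective
          apply Fin.ext
          exact_mod_cast e6
        refine ⟨e7, ?_⟩
        have e8 : j % (m : ℤ) = i % (m : ℤ) := by
          rw [e6] at e5
          linarith
        exact Int.ModEq.dvd (show i % (m : ℤ) = j % (m : ℤ) from e8.symm) }
  refine ⟨D, fun k => g k m * (t k)⁻¹, ?_, ?_, rfl, ?_⟩
  · intro k
    have hc1 : ∀ z : ℕ, c (τ k) ^ z ∈ Subgroup.closure {c (τ k), b (τ k)} := fun z =>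
      pow_mem (Subgroup.subset_closure (by simp)) z
    have hb1 : b (τ k) ∈ Subgroup.closure {c (τ k), b (τ k)} :=
      Subgroup.subset_closure (by simp)
    have hgj : ∀ j : ℕ, j ≤ m - 1 → g k (j : ℤ) ∈ Subgroup.closure {c (τ k), b (τ k)} := by
      intro j
      induction j with
      | zero =>
        intro _
        rw [Nat.cast_zero, hg0 k]
        exact one_mem _
      | succ j ih =>
        intro hj
        rw [Nat.cast_succ, hg1 k]
        refine mul_mem (ih (by omega)) (mul_mem (hc1 _) ?_)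
        have : ¬ ((j : ℤ) % (m : ℤ) = m - 1) := by
          rw [Int.emod_eq_of_lt (by omega) (by omega)]
          omega
        simp only [f, if_neg this]
        exact hb1
    have h1 : (m : ℤ) = ((m - 1 : ℕ) : ℤ) + 1 := by omega
    have h2 : g k m = g k ((m - 1 : ℕ) : ℤ) * (c (τ k) ^ n k ((m - 1 : ℕ) : ℤ) *
        (b' k * t k)) := by
      conv_lhs => rw [h1]
      rw [hg1 k]
      have : ((m - 1 : ℕ) : ℤ) % (m : ℤ) = m - 1 := by
        rw [Int.emod_eq_of_lt (by omega) (by omega)]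
        omega
      simp only [f, if_pos this]
    have h3 : g k m * (t k)⁻¹ = g k ((m - 1 : ℕ) : ℤ) * (c (τ k) ^ n k ((m - 1 : ℕ) : ℤ) *
        b' k) := by
      rw [h2]; group
    change g k m * (t k)⁻¹ ∈ Subgroup.closure {c (τ k), b (τ k)}
    rw [h3]
    exact mul_mem (hgj _ le_rfl) (mul_mem (hc1 _) (hb'c k))
  · intro k
    change g k m = g k m * (t k)⁻¹ * t k
    rw [inv_mul_cancel_right]
  · change ρ ≤ l
    have h1 := le_abs_self ρ
    have h2 : 0 ≤ 1000 * K * ((N : ℝ) * m + 2) := by positivity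
    simp only [l]; linarith

end Pool.Agent.H507
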