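import Pool.Agent.TH63.SC.FamSys

set_option autoImplicit false
set_option linter.unusedSectionVars false

namespace Pool.Agent.H507

open Pool.Agent.Helper97.Hyp Pool.Agent.TH68 Pool.Agent.TH63.SC Pool.Agent.TH82.FG

/-- a block of the broken line far from the two projections -/
lemma run_block {Γ : Type*} [Group Γ] {W : WNorm Γ} {𝒜 : Type*} [MulAction Γ 𝒜]
    {Y : Sys Γ W 𝒜} {K l : ℝ} {P : ℤ → Pt W} {A : ℤ → 𝒜} (hP : Br Y K l (4 * l) P A)
    {x y : Pt W} {u v z : ℤ} (huz : u ≤ z) (hzv : z + 1 ≤ v)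
    (hu : IsProj (4 * l + 2 * K) (Set.range P) x (P u))
    (hv : IsProj (4 * l + 2 * K) (Set.range P) y (P v))
    (hn1 : 4 * l < dist (P u) (P z)) (hn2 : 4 * l < dist (P (z + 1)) (P v)) :
    l / 2 ≤ pd (Y.S (A z)) x y := by
  have hK := hP.K_one
  have hl := hP.hl
  have hhi := hP.hi z
  have hlo := hP.lo z
  have e1 := hP.split_left (w := z) (w' := z + 1) huz (by omega) hu hn1
  have hrg : Set.range (fun i : ℤ => P (-i)) = Set.range P := by
    ext x
    constructor
    · rintro ⟨i, rfl⟩; exact ⟨-i, rfl⟩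
    · rintro ⟨i, rfl⟩; exact ⟨-i, by simp⟩
  have e2 := hP.rev.split_left (u := -v) (w := -(z + 1)) (w' := -z) (by omega) (by omega)
    (p := y) (by rw [hrg]; simpa using hv) (by
      simp only [neg_neg]
      rw [dist_comm]
      exact hn2)
  simp only [neg_neg] at e2
  obtain ⟨a, ha, had⟩ := hP.left z
  obtain ⟨b, hb, hbd⟩ := hP.right z
  have h1 := le_pd (p := x) (q := y) hb ha
  have t2 := dist_triangle x b (P (z + 1))
  have t3 := dist_triangle x (P z) a
  have t4 := dist_triangle y b (P (z + 1))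
  have t4' := dist_triangle y (P (z + 1)) b
  have t5 := dist_triangle y a (P z)
  rw [dist_comm (P z) a] at t3
  rw [dist_comm (P (z + 1)) b] at t4'
  unfold exc at e1 e2
  rw [dist_comm (P (z + 1)) (P z)] at e2
  linarith

/-- the oriented version of the target -/
lemma line_proj_key {Γ : Type*} [Group Γ] {W : WNorm Γ} {𝒜 : Type*} [MulAction Γ 𝒜]
    {Y : Sys Γ W 𝒜} {K l : ℝ} {P : ℤ → Pt W} {A : ℤ → 𝒜} (hP : Br Y K l (4 * l) P A)
    {B : 𝒜} {x y : Pt W} (hx : x ∈ Y.S B) (hy : y ∈ Y.S B) {u v : ℤ} (huv : u < v)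
    (hu : IsProj (4 * l + 2 * K) (Set.range P) x (P u))
    (hv : IsProj (4 * l + 2 * K) (Set.range P) y (P v))
    (hd : 90 * l < dist (P u) (P v)) : False := by
  classical
  have hK := hP.K_one
  have hl := hP.hl
  have hθ := hP.hθ
  have hex : ∃ n : ℕ, 4 * l < dist (P u) (P (u + n)) :=
    ⟨(v - u).toNat, by rw [show u + ((v - u).toNat : ℤ) = v by omega]; linarith⟩
  obtain ⟨n, hn⟩ : ∃ n, n = Nat.find hex := ⟨_, rfl⟩
  have hn1 : 4 * l < dist (P u) (P (u + n)) := hn ▸ Nat.find_spec hex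
  have hn0 : n ≠ 0 := by
    rintro rfl
    rw [Nat.cast_zero, add_zero, dist_self] at hn1
    linarith
  have hn2 : dist (P u) (P (u + n)) ≤ 8 * l := by
    have h1 : ¬ 4 * l < dist (P u) (P (u + (n - 1 : ℕ))) := Nat.find_min hex (by omega)
    have h2 := hP.hi (u + (n - 1 : ℕ))
    rw [show u + ((n - 1 : ℕ) : ℤ) + 1 = u + n by omega] at h2
    have h3 := dist_triangle (P u) (P (u + (n - 1 : ℕ))) (P (u + n))
    linarith
  obtain ⟨z, hz⟩ : ∃ z : ℤ, z = u + n := ⟨_, rfl⟩
  rw [← hz] at hn1 hn2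
  have hhi := hP.hi z
  have hlo := hP.lo z
  have hhi2 := hP.hi (z + 1)
  have hlo2 := hP.lo (z + 1)
  rw [show z + 1 + 1 = z + 2 by ring] at hhi2 hlo2
  have s1 := dist_triangle (P u) (P z) (P (z + 1))
  have s2 := dist_triangle (P u) (P (z + 1)) (P (z + 2))
  have s3 := dist_triangle (P u) (P (z + 1)) (P v)
  have s4 := dist_triangle (P u) (P (z + 2)) (P v)
  have hzv : z + 2 < v := by
    by_contra hcon
    push Not at hcon
    have h1 := hP.dist_add (i := u) (j := v) (k := z + 2) huv.le hcon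
    have h3 := dist_nonneg (x := P v) (y := P (z + 2))
    linarith
  have s5 := hP.dist_add (i := u) (j := z) (k := z + 1) (by omega) (by omega)
  have r1 := run_block hP (x := x) (y := y) (u := u) (v := v) (z := z) (by omega) (by omega) hu hv
    hn1 (by linarith)
  have r2 := run_block hP (x := x) (y := y) (u := u) (v := v) (z := z + 1) (by omega) (by omega)
    hu hv (by linarith) (by rw [show z + 1 + 1 = z + 2 by ring]; linarith)
  have e1 : A z = B := by
    by_contra hne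
    have := Y.small (A z) B hne x hx y hy
    linarith
  have e2 : A (z + 1) = B := by
    by_contra hne
    have := Y.small (A (z + 1)) B hne x hx y hy
    linarith
  exact hP.ne z (e1.trans e2.symm)

/-- TARGET -/
theorem line_proj {Γ : Type*} [Group Γ] {W : WNorm Γ} {𝒜 : Type*} [MulAction Γ 𝒜]
    {Y : Sys Γ W 𝒜} {κ : Type*} (D : Fam Y κ) (k : κ) (γ : Γ) (B : 𝒜) {x y : Pt W}
    (hx : x ∈ Y.S B) (hy : y ∈ Y.S B) : pd (D.S (D.ax k γ)) x y ≤ 100 * D.l := by
  have hb := D.br k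
  have hK := hb.K_one
  have hl := hb.hl
  have hne : (Set.range (D.P k)).Nonempty := ⟨D.P k 0, 0, rfl⟩
  by_contra hcon
  push Not at hcon
  have h1 := pd_smul hne (D.S_iff k γ) (γ⁻¹ • x) (γ⁻¹ • y)
  rw [smul_inv_smul, smul_inv_smul] at h1
  rw [h1] at hcon
  have hx' := Y.smul_mem γ⁻¹ B x hx
  have hy' := Y.smul_mem γ⁻¹ B y hy
  obtain ⟨u, hu⟩ := hb.proj (γ⁻¹ • x)
  obtain ⟨v, hv⟩ := hb.proj (γ⁻¹ • y)
  have h2 := pd_le_of_proj hu hv
  rcases lt_trichotomy u v with huv | rfl | huv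
  · exact line_proj_key hb hx' hy' huv hu hv (by linarith)
  · rw [dist_self] at h2; linarith
  · exact line_proj_key hb hy' hx' huv hv hu (by rw [dist_comm]; linarith)

end Pool.Agent.H507
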