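import Pool.Agent.TH63.SC.FamSys
import Pool.Agent.TH68.Wind

set_option autoImplicit false
set_option linter.unusedSectionVars false

namespace Pool.Agent.H507

open Pool.Agent.Helper97.Hyp Pool.Agent.TH68 Pool.Agent.TH63.SC Pool.Agent.TH82.FG

/-- displacement of the points of an axis under a nonzero power of its relator -/
theorem spin_pow {Γ : Type} [Group Γ] {W : WNorm Γ} {𝒜 : Type} [MulAction Γ 𝒜]
    {Y : Sys Γ W 𝒜} {κ : Type} (D : Fam Y κ) {k : κ} {γ : Γ} {s : ℤ} (hs : s ≠ 0) {q : Pt W}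
    (hq : q ∈ D.S (D.ax k γ)) :
    D.m * D.l / 2 ≤ dist q ((γ * D.r k ^ s * γ⁻¹) • q) := by
  obtain ⟨i, rfl⟩ := (D.mem_S _ _ _).1 hq
  have h1 : (γ * D.r k ^ s * γ⁻¹) • γ • D.P k i = γ • D.P k (i + s * D.m) := by
    rw [D.perz, smul_smul, smul_smul]; congr 1; group
  rw [h1, dist_smul]
  have h2 := (D.br k).growth' i (i + s * D.m)
  rw [add_sub_cancel_left] at h2
  have h3 : (D.m : ℝ) ≤ ((s * (D.m : ℤ)).natAbs : ℝ) := by
    have : D.m ≤ (s * (D.m : ℤ)).natAbs := by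
      rw [Int.natAbs_mul, Int.natAbs_natCast]
      have : 1 ≤ s.natAbs := by omega
      nlinarith
    exact_mod_cast this
  have hK := (D.br k).K_one
  have hl := (D.br k).hl
  have h4 : D.l / 2 ≤ D.l - 25 * D.K := by linarith
  calc (D.m : ℝ) * D.l / 2 = D.m * (D.l / 2) := by ring
    _ ≤ ((s * (D.m : ℤ)).natAbs : ℝ) * (D.l - 25 * D.K) :=
        mul_le_mul h3 h4 (by linarith) (Nat.cast_nonneg _)
    _ ≤ _ := h2

/-- TARGET -/
theorem lift_inter {Γ : Type} [Group Γ] {W : WNorm Γ} {𝒜 : Type} [MulAction Γ 𝒜]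
    {Y : Sys Γ W 𝒜} {κ : Type} [Finite κ] [Nonempty κ] (D : Fam Y κ) (hm : 40000 ≤ D.m)
    {G : Type} [Group G] (p : G →* Γ) (hp : Function.Surjective p) (ρ : κ → G)
    (hρ : ∀ k, p (ρ k) = D.r k) (hc : ∀ k, ∀ z ∈ p.ker, Commute z (ρ k)) {n : G}
    (hn : n ∈ Subgroup.normalClosure (Set.range ρ)) (hk : n ∈ p.ker) : n = 1 := by
  classical
  letI a1 : MulAction G D.Ax := MulAction.compHom D.Ax p
  letI a2 : MulAction G (Pt W) := MulAction.compHom (Pt W) p
  have s1 : ∀ (g : G) (A : D.Ax), g • A = p g • A := fun g A => rfl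
  have s2 : ∀ (g : G) (x : Pt W), g • x = p g • x := fun g x => rfl
  have hθ := D.raw_θ
  have hl : 0 < D.l := by
    have h1 := D.K_one
    have h2 := (D.br (Classical.arbitrary κ)).hl
    linarith
  let E : ProjSys G D.Ax (Pt W) :=
    { d := D.raw.ps.d, S := D.raw.ps.S, r := D.raw.ps.r, θ := D.raw.ps.θ, θpos := D.raw.ps.θpos
      symm := D.raw.ps.symm, tri := D.raw.ps.tri, self := D.raw.ps.self
      inv := fun g A x y => D.raw.ps.inv (p g) A x y
      Sinv := fun g A x h => D.raw.ps.Sinv (p g) A x h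
      Sne := D.raw.ps.Sne, proj := D.raw.ps.proj, beh := D.raw.ps.beh
      closer := D.raw.ps.closer, fin := D.raw.ps.fin }
  have key : ∀ k (g g' : G), D.ax k (p g) = D.ax k (p g') → ∀ s : ℤ,
      g * ρ k ^ s * g⁻¹ = g' * ρ k ^ s * g'⁻¹ := by
    intro k g g' h s
    obtain ⟨t, ht⟩ := D.ax_eq h
    have hz : (ρ k ^ t)⁻¹ * g⁻¹ * g' ∈ p.ker := by
      rw [MonoidHom.mem_ker, map_mul, map_mul, map_inv, map_inv, map_zpow, hρ, ht]
      group
    have hcz : Commute ((ρ k ^ t)⁻¹ * g⁻¹ * g') (ρ k ^ s) := (hc k _ hz).zpow_right s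
    have hg' : g' = g * ρ k ^ t * ((ρ k ^ t)⁻¹ * g⁻¹ * g') := by group
    have h1 : g' * ρ k ^ s * g'⁻¹ = g * ρ k ^ t * (((ρ k ^ t)⁻¹ * g⁻¹ * g') * ρ k ^ s *
        ((ρ k ^ t)⁻¹ * g⁻¹ * g')⁻¹) * (g * ρ k ^ t)⁻¹ := by
      group
    rw [h1, hcz.eq, mul_inv_cancel_right]
    group
  have axinj : ∀ k k' (γ γ' : Γ), D.ax k γ = D.ax k' γ' → k = k' := fun k k' γ γ' h =>
    (Sigma.mk.inj_iff.1 h).1
  let R : D.Ax → Subgroup G := fun A =>
    { carrier := {x | ∀ k g, D.ax k (p g) = A → ∃ s : ℤ, x = g * ρ k ^ s * g⁻¹}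
      mul_mem' := by
        intro x y hx hy k g hA
        obtain ⟨s, rfl⟩ := hx k g hA
        obtain ⟨t, rfl⟩ := hy k g hA
        refine ⟨s + t, ?_⟩
        rw [zpow_add]
        group
      one_mem' := by
        intro k g hA
        exact ⟨0, by simp⟩
      inv_mem' := by
        intro x hx k g hA
        obtain ⟨s, rfl⟩ := hx k g hA
        exact ⟨-s, by group⟩ }
  have hR : ∀ k g x, x ∈ R (D.ax k (p g)) ↔ ∃ s : ℤ, x = g * ρ k ^ s * g⁻¹ := by
    intro k g x
    constructor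
    · intro h
      exact h k g rfl
    · rintro ⟨s, rfl⟩ k' g' h
      obtain rfl := axinj _ _ _ _ h
      exact ⟨s, key _ _ _ h.symm s⟩
  have hsurj : ∀ A : D.Ax, ∃ k g, D.ax k (p g) = A := by
    intro A
    obtain ⟨k, γ, rfl⟩ := D.ax_surj A
    obtain ⟨g, rfl⟩ := hp γ
    exact ⟨k, g, rfl⟩
  have hconj : ∀ (γ : G) A g, g ∈ R A → γ * g * γ⁻¹ ∈ R (γ • A) := by
    intro γ A x hx k g hA
    have h1 : D.ax k (p (γ⁻¹ * g)) = A := by
      rw [map_mul, ← D.smul_ax, hA, s1, map_inv, inv_smul_smul]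
    obtain ⟨s, rfl⟩ := hx k _ h1
    exact ⟨s, by group⟩
  let sp : Spin E :=
    { G := R
      M := D.m * D.l / 2 - D.raw.c
      hM := by
        change 100 * D.raw.θ ≤ D.m * D.l / 2 - 5 * D.l
        rw [hθ]
        have h1 : (40000 : ℝ) ≤ D.m := by exact_mod_cast hm
        have h2 := mul_le_mul_of_nonneg_right h1 hl.le
        linarith
      Gconj := hconj
      Gfix := by
        intro A x hx
        obtain ⟨k, g, rfl⟩ := hsurj A
        obtain ⟨s, rfl⟩ := (hR _ _ _).1 hx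
        rw [s1, map_mul, map_mul, map_inv, map_zpow, hρ]
        exact D.stab_mem _ _ _
      spin := by
        intro A x q hx hx1
        obtain ⟨k, g, rfl⟩ := hsurj A
        obtain ⟨s, rfl⟩ := (hR _ _ _).1 hx
        have hs : s ≠ 0 := by
          rintro rfl
          apply hx1
          simp
        have hpx : p (g * ρ k ^ s * g⁻¹) = p g * D.r k ^ s * (p g)⁻¹ := by
          rw [map_mul, map_mul, map_inv, map_zpow, hρ]
        obtain ⟨q', hq'⟩ := D.raw.proj (D.ax k (p g)) q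
        have h0 : (p g * D.r k ^ s * (p g)⁻¹) • D.ax k (p g) = D.ax k (p g) :=
          D.stab_mem _ _ _
        have h1 : IsProj D.raw.c (D.raw.S (D.ax k (p g))) ((p g * D.r k ^ s * (p g)⁻¹) • q)
            ((p g * D.r k ^ s * (p g)⁻¹) • q') := by
          apply hq'.smul (γ := p g * D.r k ^ s * (p g)⁻¹)
          intro x
          have := D.raw.mem_smul (p g * D.r k ^ s * (p g)⁻¹) (D.ax k (p g)) x
          rwa [h0] at this
        have h2 := le_pd_of_proj hq' h1
        have h3 := spin_pow D hs (k := k) (γ := p g) hq'.1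
        rw [s2, hpx]
        change D.m * D.l / 2 - D.raw.c ≤ pd (D.raw.S (D.ax k (p g))) q
          ((p g * D.r k ^ s * (p g)⁻¹) • q)
        linarith }
  have hnorm : (⨆ A, R A).Normal := by
    constructor
    intro n hn γ
    have h1 : (⨆ A, R A) ≤ (⨆ A, R A).comap (MulAut.conj γ).toMonoidHom := by
      apply iSup_le
      intro A x hx
      rw [Subgroup.mem_comap]
      exact (le_iSup R (γ • A)) (hconj γ A x hx)
    exact h1 hn
  have hn' : n ∈ ⨆ A, R A := by
    have h1 : Subgroup.normalClosure (Set.range ρ) ≤ ⨆ A, R A := by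
      apply Subgroup.normalClosure_le_normal
      rintro _ ⟨k, rfl⟩
      apply le_iSup R (D.ax k (p 1))
      exact (hR _ _ _).2 ⟨1, by simp⟩
    exact h1 hn
  by_contra hn1
  obtain ⟨x, hx⟩ := D.raw.Sne (D.ax (Classical.arbitrary κ) 1)
  obtain ⟨A, y, hy, hy1, h⟩ := sp.swind x hn' hn1
  have h1 : n • x = x := by
    rw [s2, (MonoidHom.mem_ker).1 hk, one_smul]
  rw [h1] at h
  have h2 := sp.spin A y x hy hy1
  have h3 := sp.hM
  have h4 := E.symm A (y • x) x
  have h5 := E.θpos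
  linarith

end Pool.Agent.H507
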