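import Pool.Agent.H507_D.Line2
import Pool.Agent.TH63.SC.FamSys
import Pool.Agent.TH82.FG.T7
import Pool.Agent.Y44.FG.Tor
import Pool.Agent.H507_P.G4c
import Pool.Agent.H507_P.G5
import Pool.Agent.H507_P.G6
import Pool.Agent.H507_P.G7

set_option autoImplicit false
set_option linter.unusedSectionVars false

namespace Pool.Agent.H507

open Pool.Agent.Helper97.Hyp Pool.Agent.TH68 Pool.Agent.TH63.SC Pool.Agent.TH82.FG

lemma geo_hyp_congr {Q : Type} [Group Q] {N N' : Subgroup Q} [N.Normal] [N'.Normal]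
    (h : N = N') (hN : HypGroup (Q ⧸ N)) : HypGroup (Q ⧸ N') := by
  subst h
  exact hN

/-- TARGET -/
theorem geo {Q : Type} [Group Q] (hQ : HypGroup Q) {ι κ : Type} [Finite ι] [Finite κ] [Nonempty κ]
    (c b : ι → Q) (hc : ∀ i, ¬ IsOfFinOrder (c i)) (hnc : NonComm c)
    (htf : ∀ i, ∀ e ∈ Lox.E (c i), IsOfFinOrder e → e = 1) (hb : ∀ i, b i ∉ Lox.E (c i))
    (τ : κ → ι) (t : κ → Q) (S : Set Q) (hS : S.Finite) :
    ∃ w : κ → Q, (∀ k, w k ∈ Subgroup.closure {c (τ k), b (τ k)}) ∧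
      HypGroup (Q ⧸ Subgroup.normalClosure (Set.range fun k => w k * t k)) ∧
      (∀ i, ∀ u ∈ S, ∀ v ∈ S, ∀ n k : ℤ,
        u * c i ^ n * v * c i ^ k ∈ Subgroup.normalClosure (Set.range fun k => w k * t k) →
          u * c i ^ n * v * c i ^ k = 1) ∧
      (∀ (x : Q) (k : ℕ), 0 < k → x ^ k ∈ Subgroup.normalClosure (Set.range fun k => w k * t k) →
        ∃ n ∈ Subgroup.normalClosure (Set.range fun k => w k * t k), IsOfFinOrder (n * x)) ∧
      (∀ (G : Type) (_ : Group G) (p : G →* Q) (r : κ → G), Function.Surjective p →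
        (∀ k, p (r k) = w k * t k) → (∀ k, ∀ z ∈ p.ker, Commute z (r k)) →
          ∀ n ∈ Subgroup.normalClosure (Set.range r), n ∈ p.ker → n = 1) ∧
      ∀ k, ¬ IsOfFinOrder (w k * t k) := by
  classical
  have := Fintype.ofFinite ι
  have := Fintype.ofFinite κ
  obtain ⟨W, δ, o, s, hyp, hδ, hs, hL, hE⟩ := norm_exists hQ hc
  have hnc' : NonComm (fun i => c i ^ s) := by
    intro i j hij g n m hn hm
    have h1 := hnc i j hij g (s * n) (s * m) (mul_ne_zero (by omega) hn)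
      (mul_ne_zero (by omega) hm)
    rw [zpow_mul, zpow_mul, zpow_natCast, zpow_natCast] at h1
    exact h1
  have hS' : ∀ i, ∀ u ∈ S, dist (o i) (u • o i) ≤
      ∑ i : ι, ∑ u ∈ hS.toFinset, dist (o i) (u • o i) := by
    intro i u hu
    refine le_trans ?_ (Finset.single_le_sum
      (f := fun i => ∑ u ∈ hS.toFinset, dist (o i) (u • o i))
      (fun j _ => Finset.sum_nonneg fun _ _ => dist_nonneg) (Finset.mem_univ i))
    exact Finset.single_le_sum (f := fun u => dist (o i) (u • o i)) (fun _ _ => dist_nonneg)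
      (hS.mem_toFinset.2 hu)
  obtain ⟨ρ, hρ⟩ : ∃ ρ : ℝ, ∀ i, ∀ u ∈ S, dist (o i) (u • o i) ≤ ρ := ⟨_, hS'⟩
  obtain ⟨D, w, hw, hr, hm, hρl⟩ := fam_exists hyp hδ hL hnc'
    (fun i e he => htf i e (by rw [← hE i]; exact he)) b
    (fun i hi => hb i (by rw [← hE i]; exact hi)) τ t 1000000 (by norm_num) ρ
  obtain ⟨Z, R, hZδ, hZθ, hZS, hRM, hRN, hRG⟩ := D.sys_exists (by rw [hm]; norm_num)
  have hr' : D.r = fun k => w k * t k := funext hr
  have hN : R.N = Subgroup.normalClosure (Set.range fun k => w k * t k) := by rw [hRN, hr']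
  have hK1 := D.K_one
  have hl := (D.br (Classical.arbitrary κ)).hl
  have hl0 : 0 < D.l := by linarith
  have hmR : (D.m : ℝ) = 1000000 := by rw [hm]; norm_num
  have hM : R.M = 500000 * D.l := by rw [hRM, hmR]; ring
  have hM2 : 2000 * Z.θ ≤ R.M := by rw [hZθ, hM]; linarith
  refine ⟨w, ?_, ?_, ?_, ?_, ?_, ?_⟩
  · intro k
    refine (Subgroup.closure_le _).2 ?_ (hw k)
    intro x hx
    rcases hx with rfl | hx
    · exact Subgroup.pow_mem _ (Subgroup.subset_closure (Set.mem_insert _ _)) _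
    · rw [Set.mem_singleton_iff.1 hx]
      exact Subgroup.subset_closure (Set.mem_insert_of_mem _ rfl)
  · obtain ⟨W', -, -, δ', hδ'⟩ := quot Z R hM2
    exact geo_hyp_congr hN ⟨W', δ', hδ'⟩
  · intro i u hu v hv n k hmem
    by_contra hne
    rw [← hN] at hmem
    obtain ⟨A, r, hrG, hr1, hpd⟩ := R.wind _ hmem hne (o i)
    obtain ⟨q1, hq1⟩ := Z.proj A (o i)
    have h1 : IsProj Z.θ (Z.S A) (r • o i) (r • q1) := hq1.smul (Z.mem_iff (R.fix A r hrG))
    have h2 := le_pd_of_proj hq1 h1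
    have h3 := R.spin A r hrG hr1 q1 hq1.1
    have h4 := pd_tri (Z.Sne A) (o i) ((u * c i ^ n * v * c i ^ k) • o i) (r • o i)
    rw [pd_symm (Z.Sne A) (r • o i)] at hpd
    have t1 := pd_tri (Z.Sne A) (o i) (u • o i) ((u * c i ^ n * v * c i ^ k) • o i)
    have t2 := pd_tri (Z.Sne A) (u • o i) ((u * c i ^ n) • o i)
      ((u * c i ^ n * v * c i ^ k) • o i)
    have t3 := pd_tri (Z.Sne A) ((u * c i ^ n) • o i) ((u * c i ^ n * v) • o i)
      ((u * c i ^ n * v * c i ^ k) • o i)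
    have d1 := (pd_le_dist (Z.Sne A) (o i) (u • o i)).trans (hρ i u hu)
    have d3 : pd (Z.S A) ((u * c i ^ n) • o i) ((u * c i ^ n * v) • o i) ≤ ρ := by
      refine (pd_le_dist (Z.Sne A) _ _).trans ?_
      rw [mul_smul (u * c i ^ n) v, dist_smul]
      exact hρ i v hv
    have hmemE : ∀ j : ℤ, c i ^ j ∈ Lox.E (c i ^ s) := by
      intro j
      rw [hE i]
      exact Lox.zpow_mem_E j
    have key : ∀ (g : Q) (j : ℤ), pd (Z.S A) (g • o i) ((g * c i ^ j) • o i) ≤ 100 * D.l := by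
      intro g j
      obtain ⟨k', γ', rfl⟩ := D.ax_surj A
      rw [hZS]
      apply line_proj D k' γ' (⟨i, (g : Q ⧸ Lox.E (c i ^ s))⟩ : Σ i : ι, Q ⧸ Lox.E (c i ^ s))
      · exact ⟨g, rfl, rfl⟩
      · refine ⟨g * c i ^ j, ?_, rfl⟩
        apply QuotientGroup.eq.mpr
        have : (g * c i ^ j)⁻¹ * g = c i ^ (-j) := by rw [zpow_neg]; group
        rw [this]
        exact hmemE _
    have d2 := key u n
    have d4 := key (u * c i ^ n * v) k
    rw [hZθ] at h2 hpd
    rw [hM] at h3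
    linarith
  · intro x k hk hx
    by_cases hxN : x ∈ R.N
    · refine ⟨x⁻¹, ?_, ?_⟩
      · rw [← hN]; exact R.N.inv_mem hxN
      · rw [inv_mul_cancel]; exact IsOfFinOrder.one
    · rw [← hN] at hx ⊢
      exact Pool.Agent.Y44.FG.lift_q Z R hM2 hk hx hxN
  · intro G _ p r hp hr2 hcomm n hn hk
    exact lift_inter D (by rw [hm]; norm_num) p hp r (fun k => by rw [hr2 k, hr k]) hcomm hn hk
  · intro k hfin
    rw [← hr k] at hfin
    obtain ⟨e, he, he1⟩ := isOfFinOrder_iff_pow_eq_one.1 hfin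
    have h1 := D.perz k e 0
    rw [zpow_natCast, he1, one_smul] at h1
    have h2 := (D.br k).growth' 0 (0 + e * D.m)
    rw [h1, dist_self] at h2
    have h3 : (1 : ℝ) ≤ ((0 + (e : ℤ) * D.m - 0).natAbs : ℝ) := by
      have : 1 ≤ (0 + (e : ℤ) * D.m - 0).natAbs := by
        rw [hm]; omega
      exact_mod_cast this
    have h4 : 0 < D.l - 25 * D.K := by linarith
    nlinarith

end Pool.Agent.H507
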