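import Pool.Agent.H507_D.Line2
import Pool.Agent.Y44.FG.Tor
import Pool.Agent.H507_P.A2
import Pool.Agent.H507_P.G8

set_option autoImplicit false
set_option linter.unusedSectionVars false

namespace Pool.Agent.H507

open Pool.Agent.Helper97.Hyp Pool.Agent.TH68

/-- a group in which two conjugate elements have no relation between powers is not elementary -/
theorem core_elem {Q : Type} [Group Q] (N : Subgroup Q) [N.Normal] (c b : Q)
    (hc : ¬ IsOfFinOrder c) (hb : b ∉ Lox.E c) (S : Set Q) (h1S : (1 : Q) ∈ S) (hbS : b ∈ S)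
    (hbS' : b⁻¹ ∈ S)
    (hN : ∀ u ∈ S, ∀ v ∈ S, ∀ n k : ℤ, u * c ^ n * v * c ^ k ∈ N → u * c ^ n * v * c ^ k = 1) :
    ¬ Elem (Q ⧸ N) := by
  rintro ⟨C, hCf, hCc⟩
  have hzc : ∀ n : ℤ, n ≠ 0 → c ^ n ∉ N := by
    intro n hn hmem
    have h1 := hN 1 h1S 1 h1S n 0 (by simpa using hmem)
    have h2 : c ^ n = 1 := by simpa using h1
    exact hc (isOfFinOrder_iff_zpow_eq_one.mpr ⟨n, hn, h2⟩)
  obtain ⟨z, hz⟩ := hCc.exists_generator
  obtain ⟨n1, hn1, -, hx⟩ := Subgroup.exists_pow_mem_of_index_ne_zero hCf.index_ne_zero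
    ((c : Q) : Q ⧸ N)
  obtain ⟨n2, hn2, -, hy⟩ := Subgroup.exists_pow_mem_of_index_ne_zero hCf.index_ne_zero
    ((b * c * b⁻¹ : Q) : Q ⧸ N)
  obtain ⟨i, hi⟩ := Subgroup.mem_zpowers_iff.mp (hz ⟨_, hx⟩)
  obtain ⟨j, hj⟩ := Subgroup.mem_zpowers_iff.mp (hz ⟨_, hy⟩)
  have hi' : (z : Q ⧸ N) ^ i = ((c : Q) : Q ⧸ N) ^ n1 := by
    have := congrArg Subtype.val hi
    simpa using this
  have hj' : (z : Q ⧸ N) ^ j = ((b * c * b⁻¹ : Q) : Q ⧸ N) ^ n2 := by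
    have := congrArg Subtype.val hj
    simpa using this
  have hi0 : i ≠ 0 := by
    rintro rfl
    rw [zpow_zero] at hi'
    have h1 : ((c ^ n1 : Q) : Q ⧸ N) = 1 := by rw [QuotientGroup.mk_pow, ← hi']
    rw [QuotientGroup.eq_one_iff] at h1
    exact hzc n1 (by exact_mod_cast hn1.ne') (by exact_mod_cast h1)
  have hj0 : j ≠ 0 := by
    rintro rfl
    rw [zpow_zero] at hj'
    have h1 : (((b * c * b⁻¹) ^ n2 : Q) : Q ⧸ N) = 1 := by rw [QuotientGroup.mk_pow, ← hj']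
    rw [QuotientGroup.eq_one_iff, conj_pow] at h1
    have h2 := (inferInstance : N.Normal).conj_mem _ h1 b⁻¹
    have h3 : b⁻¹ * (b * c ^ n2 * b⁻¹) * b⁻¹⁻¹ = c ^ n2 := by group
    rw [h3] at h2
    exact hzc n2 (by exact_mod_cast hn2.ne') (by exact_mod_cast h2)
  -- common power
  have h5 : ((b * c * b⁻¹ : Q) : Q ⧸ N) ^ ((n2 : ℤ) * i) = ((c : Q) : Q ⧸ N) ^ ((n1 : ℤ) * j) := by
    rw [zpow_mul, zpow_mul, zpow_natCast, zpow_natCast, ← hi', ← hj', ← zpow_mul, ← zpow_mul,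
      mul_comm]
  have h6 : b * c ^ ((n2 : ℤ) * i) * b⁻¹ * c ^ (-((n1 : ℤ) * j)) ∈ N := by
    rw [← QuotientGroup.eq_one_iff, ← conj_zpow, QuotientGroup.mk_mul, QuotientGroup.mk_zpow,
      QuotientGroup.mk_zpow, h5, zpow_neg, mul_inv_cancel]
  have h7 := hN b hbS b⁻¹ hbS' _ _ h6
  apply hb
  rw [Lox.mem_E]
  refine ⟨(n2 : ℤ) * i, (n1 : ℤ) * j, mul_ne_zero (by exact_mod_cast hn2.ne') hi0,
    mul_ne_zero (by exact_mod_cast hn1.ne') hj0, ?_⟩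
  rw [zpow_neg, mul_inv_eq_one] at h7
  exact h7

/-- no finite normal subgroups in the quotient -/
theorem core_nofin {Q : Type} [Group Q] (W : WNorm Q) {δ : ℝ} (hδ : 1 ≤ δ) (hyp : GHyp (Pt W) δ)
    (N : Subgroup Q) [N.Normal] (c : Q)
    (htf : ∀ e ∈ Lox.E c, IsOfFinOrder e → e = 1) (S : Set Q)
    (hVS : ∀ v : Q, dist (pt W 1) (v • pt W 1) ≤ 100 * δ → v ∈ S ∧ v⁻¹ ∈ S)
    (hN : ∀ u ∈ S, ∀ v ∈ S, ∀ n k : ℤ, u * c ^ n * v * c ^ k ∈ N → u * c ^ n * v * c ^ k = 1)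
    (hfin : ∀ (x : Q) (k : ℕ), 0 < k → x ^ k ∈ N → ∃ n ∈ N, IsOfFinOrder (n * x)) :
    NoFin (Q ⧸ N) := by
  intro F hF hFf
  rw [eq_bot_iff]
  intro xb hxb
  rw [Subgroup.mem_bot]
  obtain ⟨x, rfl⟩ := QuotientGroup.mk_surjective xb
  have hxf : IsOfFinOrder ((⟨(x : Q ⧸ N), hxb⟩ : F)) := isOfFinOrder_of_finite _
  obtain ⟨k, hk, hk1⟩ := hxf.exists_pow_eq_one
  have hk2 : x ^ k ∈ N := by
    rw [← QuotientGroup.eq_one_iff, QuotientGroup.mk_pow]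
    have := congrArg Subtype.val hk1
    simpa using this
  obtain ⟨n, hn, hnx⟩ := hfin x k hk hk2
  have hv : ((n * x : Q) : Q ⧸ N) = x := by
    rw [QuotientGroup.mk_mul, (QuotientGroup.eq_one_iff n).2 hn, one_mul]
  obtain ⟨q, hq⟩ := disp_of_fin hyp hδ (n * x) hnx
  obtain ⟨g, hg⟩ : ∃ g : Q, g = q.out := ⟨_, rfl⟩
  have hqg : q = g • pt W 1 := by
    rw [smul_base, hg, pt_out]
  have hv'V : dist (pt W 1) ((g⁻¹ * (n * x) * g) • pt W 1) ≤ 100 * δ := by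
    rw [mul_smul, mul_smul, ← hqg]
    have : pt W 1 = g⁻¹ • q := by rw [hqg, inv_smul_smul]
    rw [this, dist_smul]
    exact hq
  obtain ⟨hv1, hv2⟩ := hVS _ hv'V
  have hvF : ((g⁻¹ * (n * x) * g : Q) : Q ⧸ N) ∈ F := by
    have h1 := hF.conj_mem _ (show ((n * x : Q) : Q ⧸ N) ∈ F by rw [hv]; exact hxb)
      (g⁻¹ : Q)
    rw [← QuotientGroup.mk_inv, ← QuotientGroup.mk_mul,
      ← QuotientGroup.mk_mul, inv_inv] at h1
    exact h1
  obtain ⟨v, hvdef⟩ : ∃ v : Q, v = g⁻¹ * (n * x) * g := ⟨_, rfl⟩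
  rw [← hvdef] at hv1 hv2 hvF
  have hvfin : IsOfFinOrder v := by
    obtain ⟨m, hm, hm1⟩ := hnx.exists_pow_eq_one
    refine isOfFinOrder_iff_pow_eq_one.mpr ⟨m, hm, ?_⟩
    have h2 : v ^ m = g⁻¹ * (n * x) ^ m * g := by
      have h3 := conj_pow (a := g⁻¹) (b := n * x) (i := m)
      rw [inv_inv] at h3
      rw [hvdef, h3]
    rw [h2, hm1]; group
  -- a power of `c` centralises `v` modulo `N`
  have hninj : ¬ Function.Injective (fun m : ℕ =>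
      (⟨((c : Q) : Q ⧸ N) ^ m * (v : Q ⧸ N) * (((c : Q) : Q ⧸ N) ^ m)⁻¹,
        hF.conj_mem _ hvF _⟩ : F)) := not_injective_infinite_finite _
  rw [Function.Injective] at hninj
  push Not at hninj
  obtain ⟨m1, m2, hm, hne⟩ := hninj
  have key : ∃ a : ℤ, a ≠ 0 ∧ v * c ^ a * v⁻¹ * c ^ (-a) ∈ N := by
    refine ⟨(m1 : ℤ) - m2, by omega, ?_⟩
    have h1 : ((c : Q) : Q ⧸ N) ^ m1 * (v : Q ⧸ N) * (((c : Q) : Q ⧸ N) ^ m1)⁻¹ =
        ((c : Q) : Q ⧸ N) ^ m2 * (v : Q ⧸ N) * (((c : Q) : Q ⧸ N) ^ m2)⁻¹ :=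
      congrArg Subtype.val hm
    rw [← QuotientGroup.eq_one_iff]
    simp only [QuotientGroup.mk_mul, QuotientGroup.mk_inv, QuotientGroup.mk_zpow]
    have h2 : ((c : Q) : Q ⧸ N) ^ ((m1 : ℤ) - m2) * (v : Q ⧸ N) =
        (v : Q ⧸ N) * ((c : Q) : Q ⧸ N) ^ ((m1 : ℤ) - m2) := by
      have h3 : ((c : Q) : Q ⧸ N) ^ ((m1 : ℤ) - m2) =
          (((c : Q) : Q ⧸ N) ^ m2)⁻¹ * ((c : Q) : Q ⧸ N) ^ m1 := by
        rw [← zpow_natCast, ← zpow_natCast, ← zpow_neg, ← zpow_add]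
        congr 1; ring
      have h3' : ((c : Q) : Q ⧸ N) ^ ((m1 : ℤ) - m2) =
          ((c : Q) : Q ⧸ N) ^ m1 * (((c : Q) : Q ⧸ N) ^ m2)⁻¹ := by
        rw [← zpow_natCast, ← zpow_natCast, ← zpow_neg, ← zpow_add]
        congr 1
      have h3'' : ((c : Q) : Q ⧸ N) ^ ((m1 : ℤ) - m2) =
          (((c : Q) : Q ⧸ N) ^ m2)⁻¹ * ((c : Q) : Q ⧸ N) ^ m1 := h3
      calc ((c : Q) : Q ⧸ N) ^ ((m1 : ℤ) - m2) * (v : Q ⧸ N)
          = (((c : Q) : Q ⧸ N) ^ m2)⁻¹ * (((c : Q) : Q ⧸ N) ^ m1 * (v : Q ⧸ N) *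
            (((c : Q) : Q ⧸ N) ^ m1)⁻¹) * ((c : Q) : Q ⧸ N) ^ m1 := by rw [h3]; group
        _ = (((c : Q) : Q ⧸ N) ^ m2)⁻¹ * (((c : Q) : Q ⧸ N) ^ m2 * (v : Q ⧸ N) *
            (((c : Q) : Q ⧸ N) ^ m2)⁻¹) * ((c : Q) : Q ⧸ N) ^ m1 := by rw [h1]
        _ = (v : Q ⧸ N) * ((((c : Q) : Q ⧸ N) ^ m2)⁻¹ * ((c : Q) : Q ⧸ N) ^ m1) := by group
        _ = (v : Q ⧸ N) * ((c : Q) : Q ⧸ N) ^ ((m1 : ℤ) - m2) := by rw [h3'']
    rw [← h2, mul_inv_cancel_right, zpow_neg, mul_inv_cancel]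
  obtain ⟨a, ha, haN⟩ := key
  have h8 := hN v hv1 v⁻¹ hv2 a (-a) haN
  have hvE : v ∈ Lox.E c := by
    rw [Lox.mem_E]
    refine ⟨a, a, ha, ha, ?_⟩
    rw [zpow_neg, mul_inv_eq_one] at h8
    exact h8
  have hv1' : v = 1 := htf v hvE hvfin
  have hnx1 : n * x = 1 := by
    have : n * x = g * v * g⁻¹ := by rw [hvdef]; group
    rw [this, hv1']; group
  rw [← hv, hnx1, QuotientGroup.mk_one]

theorem core_nofin_equiv {Γ Γ' : Type} [Group Γ] [Group Γ'] (e : Γ ≃* Γ') (h : NoFin Γ') :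
    NoFin Γ := by
  intro F hF hFf
  have h1 : (F.map e.toMonoidHom).Normal := hF.map _ e.surjective
  have h2 : Finite (F.map e.toMonoidHom) :=
    Finite.of_equiv F (F.equivMapOfInjective e.toMonoidHom e.injective).toEquiv
  have h3 := h _ h1 h2
  exact (Subgroup.map_eq_bot_iff_of_injective F e.injective).mp h3

/-- TARGET -/
theorem core {Γ : Type} [Group Γ] (K : Subgroup Γ) [K.Normal] [Finite K] (hQ : HypGroup (Γ ⧸ K))
    {ι κ : Type} [Finite ι] [Finite κ] [Nonempty κ] (H : ι → Subgroup Γ)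
    (hH : ∀ i, H i ≤ Subgroup.centralizer (K : Set Γ)) (c b : ι → Γ ⧸ K)
    (hcH : ∀ i, c i ∈ (H i).map (QuotientGroup.mk' K))
    (hbH : ∀ i, b i ∈ (H i).map (QuotientGroup.mk' K))
    (hc : ∀ i, ¬ IsOfFinOrder (c i)) (hnc : NonComm c)
    (htf : ∀ i, ∀ e ∈ Lox.E (c i), IsOfFinOrder e → e = 1) (hb : ∀ i, b i ∉ Lox.E (c i))
    (τ : κ → ι) (t : κ → Γ) (ht : ∀ k, t k ∈ Subgroup.centralizer (K : Set Γ))
    (S : Set Γ) (hS : S.Finite) :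
    ∃ w : κ → Γ, (∀ k, w k ∈ H (τ k)) ∧
      (∀ s ∈ S, s ∈ Subgroup.normalClosure (Set.range fun k => w k * t k) → s = 1) ∧
      HypGroup (Γ ⧸ (Subgroup.normalClosure (Set.range fun k => w k * t k) ⊔ K)) ∧
      ¬ Elem (Γ ⧸ (Subgroup.normalClosure (Set.range fun k => w k * t k) ⊔ K)) ∧
      NoFin (Γ ⧸ (Subgroup.normalClosure (Set.range fun k => w k * t k) ⊔ K)) ∧
      ∀ k, w k * t k ∉ K := by
  obtain ⟨W, δ₀, hyp₀⟩ := id hQ
  have hyp : GHyp (Pt W) (max δ₀ 1) := by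
    intro x y z w
    have h1 := hyp₀ x y z w
    have h2 := le_max_left δ₀ 1
    linarith
  obtain ⟨δ, hδ⟩ : ∃ δ : ℝ, δ = max δ₀ 1 := ⟨_, rfl⟩
  rw [← hδ] at hyp
  have hδ1 : 1 ≤ δ := by rw [hδ]; exact le_max_right _ _
  obtain ⟨p, hp⟩ : ∃ p : Γ →* Γ ⧸ K, p = QuotientGroup.mk' K := ⟨_, rfl⟩
  have hpsurj : Function.Surjective p := by rw [hp]; exact QuotientGroup.mk'_surjective K
  have hpker : p.ker = K := by rw [hp]; exact QuotientGroup.ker_mk' K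
  rw [← hp] at hcH hbH
  obtain ⟨V, hV⟩ : ∃ V : Set (Γ ⧸ K), V = {v | dist (pt W 1) (v • pt W 1) ≤ 100 * δ} := ⟨_, rfl⟩
  have hVf : V.Finite := by rw [hV]; exact proper _ _
  obtain ⟨S₁, hS₁⟩ : ∃ S₁ : Set (Γ ⧸ K), S₁ = p '' S ∪ {1} ∪ Set.range b ∪
    (Set.range fun i => (b i)⁻¹) ∪ V ∪ (fun v => v⁻¹) '' V := ⟨_, rfl⟩
  have hS₁f : S₁.Finite := by
    rw [hS₁]
    exact (((((hS.image _).union (Set.finite_singleton _)).union (Set.finite_range _)).union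
      (Set.finite_range _)).union hVf).union (hVf.image _)
  have m1 : (1 : Γ ⧸ K) ∈ S₁ := by rw [hS₁]; simp
  have mS : ∀ s ∈ S, p s ∈ S₁ := by
    intro s hs
    rw [hS₁]
    exact Or.inl (Or.inl (Or.inl (Or.inl (Or.inl ⟨s, hs, rfl⟩))))
  have mb : ∀ i, b i ∈ S₁ := by
    intro i
    rw [hS₁]
    exact Or.inl (Or.inl (Or.inl (Or.inr ⟨i, rfl⟩)))
  have mb' : ∀ i, (b i)⁻¹ ∈ S₁ := by
    intro i
    rw [hS₁]
    exact Or.inl (Or.inl (Or.inr ⟨i, rfl⟩))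
  have mV : ∀ v : Γ ⧸ K, dist (pt W 1) (v • pt W 1) ≤ 100 * δ → v ∈ S₁ ∧ v⁻¹ ∈ S₁ := by
    intro v hv
    have hvV : v ∈ V := by rw [hV]; exact hv
    rw [hS₁]
    exact ⟨Or.inl (Or.inr hvV), Or.inr ⟨v, hvV, rfl⟩⟩
  obtain ⟨wb, hw1, hw2, hw3, hw4, hw5, hw6⟩ := geo hQ c b hc hnc htf hb τ (fun k => p (t k)) S₁ hS₁f
  have hlift : ∀ k, ∃ w ∈ H (τ k), p w = wb k := by
    intro k
    have h1 : Subgroup.closure {c (τ k), b (τ k)} ≤ (H (τ k)).map p := by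
      rw [Subgroup.closure_le]
      rintro x (rfl | rfl)
      · exact hcH _
      · exact hbH _
    exact Subgroup.mem_map.mp (h1 (hw1 k))
  choose w hwH hwp using hlift
  have hpr : ∀ k, p (w k * t k) = wb k * p (t k) := by
    intro k; rw [map_mul, hwp]
  have hmap : (Subgroup.normalClosure (Set.range fun k => w k * t k)).map p =
      Subgroup.normalClosure (Set.range fun k => wb k * p (t k)) := by
    rw [Subgroup.map_normalClosure _ p hpsurj, ← Set.range_comp]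
    congr 2
    funext k
    exact hpr k
  have hmap2 : (Subgroup.normalClosure (Set.range fun k => w k * t k) ⊔ K).map (QuotientGroup.mk' K) =
      Subgroup.normalClosure (Set.range fun k => wb k * p (t k)) := by
    rw [← hp, Subgroup.map_sup, hmap]
    have : K.map p = ⊥ := by
      rw [Subgroup.map_eq_bot_iff, hpker]
    rw [this, sup_bot_eq]
  have e1 := QuotientGroup.quotientQuotientEquivQuotient K
    (Subgroup.normalClosure (Set.range fun k => w k * t k) ⊔ K) le_sup_right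
  have e2 := QuotientGroup.quotientMulEquivOfEq hmap2
  have e : ((Γ ⧸ K) ⧸ Subgroup.normalClosure (Set.range fun k => wb k * p (t k))) ≃*
      Γ ⧸ (Subgroup.normalClosure (Set.range fun k => w k * t k) ⊔ K) := e2.symm.trans e1
  obtain ⟨k₀⟩ := (inferInstance : Nonempty κ)
  refine ⟨w, hwH, ?_, hyp_equiv e hw2, ?_, ?_, ?_⟩
  · intro s hs hsN
    have h1 : p s ∈ Subgroup.normalClosure (Set.range fun k => wb k * p (t k)) := by
      rw [← hmap]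
      exact Subgroup.mem_map_of_mem _ hsN
    have h2 := hw3 (τ k₀) (p s) (mS s hs) 1 m1 0 0 (by simpa using h1)
    have h3 : p s = 1 := by simpa using h2
    refine hw5 Γ _ p (fun k => w k * t k) hpsurj hpr ?_ s hsN h3
    intro k z hz
    rw [hpker] at hz
    have h4 : w k * t k ∈ Subgroup.centralizer (K : Set Γ) :=
      Subgroup.mul_mem _ (hH _ (hwH k)) (ht k)
    exact Subgroup.mem_centralizer_iff.mp h4 z hz
  · intro hE
    exact core_elem _ (c (τ k₀)) (b (τ k₀)) (hc _) (hb _) S₁ m1 (mb _) (mb' _) (hw3 (τ k₀))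
      (elem_equiv e.symm hE)
  · exact core_nofin_equiv e.symm
      (core_nofin W hδ1 hyp _ (c (τ k₀)) (htf _) S₁ mV (hw3 (τ k₀)) hw4)
  · intro k hk
    apply hw6 k
    have h1 : p (w k * t k) = 1 := by
      rw [← hpker] at hk
      exact hk
    change IsOfFinOrder (wb k * p (t k))
    rw [← hpr k, h1]
    exact IsOfFinOrder.one

end Pool.Agent.H507
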