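import Pool.Agent.H507_D.Defs2
import Pool.Agent.H507_D.Line2
import Pool.Agent.H507_P.A1
import Pool.Agent.H507_P.A2
import Pool.Agent.H507_P.G4b
import Pool.Agent.H507_P.G4c
import Pool.Agent.H507_P.G9

set_option autoImplicit false

namespace Pool.Agent.H507

open Pool.Agent.TH68 Pool.Agent.Helper97.Hyp

/-- a general transport lemma: `Lox.E` under an injective homomorphism -/
theorem mem_E_map {G G' : Type} [Group G] [Group G'] (f : G →* G') {g γ : G}
    (h : γ ∈ Lox.E g) : f γ ∈ Lox.E (f g) := by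
  obtain ⟨a, b, ha, hb, hab⟩ := Lox.mem_E.mp h
  refine Lox.mem_E.mpr ⟨a, b, ha, hb, ?_⟩
  rw [← map_zpow, ← map_zpow, ← map_inv, ← map_mul, ← map_mul, hab]

theorem mem_E_map_iff {G G' : Type} [Group G] [Group G'] (f : G →* G')
    (hf : Function.Injective f) {g γ : G} : f γ ∈ Lox.E (f g) ↔ γ ∈ Lox.E g := by
  constructor
  · intro h
    obtain ⟨a, b, ha, hb, hab⟩ := Lox.mem_E.mp h
    refine Lox.mem_E.mpr ⟨a, b, ha, hb, hf ?_⟩
    rw [map_mul, map_mul, map_inv, map_zpow, map_zpow, hab]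
  · exact mem_E_map f

theorem zpow_ne_of_not_fin {G : Type} [Group G] {x : G} (hx : ¬ IsOfFinOrder x) {n : ℤ}
    (hn : n ≠ 0) : x ^ n ≠ 1 := by
  intro h
  exact hx (isOfFinOrder_iff_zpow_eq_one.mpr ⟨n, hn, h⟩)

/-- TARGET -/
theorem core_amalg {A : Bool → Type} [∀ b, Group (A b)] (Kb : ∀ b, Subgroup (A b))
    [∀ b, (Kb b).Normal] (hA : ∀ b, HypGroup (A b ⧸ Kb b)) (hne : ∀ b, ¬ Elem (A b ⧸ Kb b))
    (hnf : ∀ b, NoFin (A b ⧸ Kb b)) {Γ : Type} [Group Γ] (K : Subgroup Γ) [K.Normal] [Finite K]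
    (i : ∀ b, A b →* Γ) (p : Γ →* Monoid.CoprodI (fun b => A b ⧸ Kb b))
    (hp : Function.Surjective p) (hk : p.ker = K)
    (hpi : ∀ b (a : A b), p (i b a) =
      Monoid.CoprodI.of (M := fun b => A b ⧸ Kb b) (i := b) (a : A b ⧸ Kb b))
    (C : ∀ b, Subgroup (A b)) [∀ b, (C b).Normal]
    (hC : ∀ b, ∀ a ∈ C b, i b a ∈ Subgroup.centralizer (K : Set Γ)) (hCK : ∀ b, ¬ C b ≤ Kb b)
    {κ : Type} [Finite κ] [Nonempty κ] (τ : κ → Bool) (t : κ → Γ)
    (ht : ∀ k, t k ∈ Subgroup.centralizer (K : Set Γ)) (S : Set Γ) (hS : S.Finite) :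
    ∃ w : κ → Γ, (∀ k, w k ∈ (C (τ k)).map (i (τ k))) ∧
      (∀ s ∈ S, s ∈ Subgroup.normalClosure (Set.range fun k => w k * t k) → s = 1) ∧
      HypGroup (Γ ⧸ (Subgroup.normalClosure (Set.range fun k => w k * t k) ⊔ K)) ∧
      ¬ Elem (Γ ⧸ (Subgroup.normalClosure (Set.range fun k => w k * t k) ⊔ K)) ∧
      NoFin (Γ ⧸ (Subgroup.normalClosure (Set.range fun k => w k * t k) ⊔ K)) := by
  classical
  subst hk
  have hF : HypGroup (Monoid.CoprodI (fun b => A b ⧸ Kb b)) := hyp_coprodI hA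
  let e : Γ ⧸ p.ker ≃* Monoid.CoprodI (fun b => A b ⧸ Kb b) :=
    QuotientGroup.quotientKerEquivOfSurjective p hp
  have he : ∀ x : Γ, e (x : Γ ⧸ p.ker) = p x := fun x => rfl
  have hQ : HypGroup (Γ ⧸ p.ker) := hyp_equiv e.symm hF
  have hCne : ∀ b, (C b).map (QuotientGroup.mk' (Kb b)) ≠ ⊥ := by
    intro b hb
    apply hCK b
    intro a ha
    have : (QuotientGroup.mk' (Kb b)) a ∈ (C b).map (QuotientGroup.mk' (Kb b)) := ⟨a, ha, rfl⟩
    rw [hb, Subgroup.mem_bot] at this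
    exact (QuotientGroup.eq_one_iff a).mp this
  have hCn : ∀ b, ((C b).map (QuotientGroup.mk' (Kb b))).Normal := fun b =>
    Subgroup.Normal.map inferInstance _ (QuotientGroup.mk'_surjective (Kb b))
  have hsuit : ∀ b, ∃ c ∈ (C b).map (QuotientGroup.mk' (Kb b)), ¬ IsOfFinOrder c ∧
      (∀ e ∈ Lox.E c, IsOfFinOrder e → e = 1) ∧
      ∃ d ∈ (C b).map (QuotientGroup.mk' (Kb b)), d ∉ Lox.E c := by
    intro b
    have := hCn b
    exact suitable (hA b) (hne b) (hnf b) _ (hCne b)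
  choose c' hc' hfin htf d' hd' hdE using hsuit
  have hof : ∀ b, Function.Injective
      (Monoid.CoprodI.of (M := fun b => A b ⧸ Kb b) (i := b)) := fun b =>
    Monoid.CoprodI.of_injective b
  -- the elements of the quotient
  let c : Bool → Γ ⧸ p.ker := fun b =>
    e.symm (Monoid.CoprodI.of (M := fun b => A b ⧸ Kb b) (i := b) (c' b))
  let d : Bool → Γ ⧸ p.ker := fun b =>
    e.symm (Monoid.CoprodI.of (M := fun b => A b ⧸ Kb b) (i := b) (d' b))
  have hec : ∀ b, e (c b) = Monoid.CoprodI.of (M := fun b => A b ⧸ Kb b) (i := b) (c' b) :=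
    fun b => e.apply_symm_apply _
  have hed : ∀ b, e (d b) = Monoid.CoprodI.of (M := fun b => A b ⧸ Kb b) (i := b) (d' b) :=
    fun b => e.apply_symm_apply _
  have hmem : ∀ b, ∀ x ∈ (C b).map (QuotientGroup.mk' (Kb b)),
      e.symm (Monoid.CoprodI.of (M := fun b => A b ⧸ Kb b) (i := b) x) ∈
        ((C b).map (i b)).map (QuotientGroup.mk' p.ker) := by
    rintro b x ⟨a, ha, rfl⟩
    refine ⟨i b a, ⟨a, ha, rfl⟩, ?_⟩
    apply e.injective
    rw [e.apply_symm_apply]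
    change e ((i b a : Γ) : Γ ⧸ p.ker) = _
    rw [he, hpi]
    rfl
  have hfinc : ∀ b, ¬ IsOfFinOrder (c b) := by
    intro b h
    apply hfin b
    have h1 : IsOfFinOrder (e (c b)) := e.toMonoidHom.isOfFinOrder h
    rw [hec] at h1
    exact (hof b).isOfFinOrder_iff.mp h1
  -- elements of the commensurator come from the factor
  have hEfac : ∀ b (x : Γ ⧸ p.ker), x ∈ Lox.E (c b) →
      ∃ y ∈ Lox.E (c' b), e x = Monoid.CoprodI.of (M := fun b => A b ⧸ Kb b) (i := b) y := by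
    intro b x hx
    have h1 : e x ∈ Lox.E (Monoid.CoprodI.of (M := fun b => A b ⧸ Kb b) (i := b) (c' b)) := by
      rw [← hec]
      exact mem_E_map e.toMonoidHom hx
    obtain ⟨n, m, hn, hm, hnm⟩ := Lox.mem_E.mp h1
    rw [← map_zpow, ← map_zpow] at hnm
    obtain ⟨y, hy⟩ := malnormal (zpow_ne_of_not_fin (hfin b) hn) hnm
    refine ⟨y, ?_, hy⟩
    rw [hy] at h1
    exact (mem_E_map_iff (Monoid.CoprodI.of (M := fun b => A b ⧸ Kb b) (i := b)) (hof b)).mp h1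
  have htfc : ∀ b, ∀ x ∈ Lox.E (c b), IsOfFinOrder x → x = 1 := by
    intro b x hx hxf
    obtain ⟨y, hy, hxy⟩ := hEfac b x hx
    have h1 : IsOfFinOrder (e x) := e.toMonoidHom.isOfFinOrder hxf
    rw [hxy] at h1
    have h2 : y = 1 := htf b y hy ((hof b).isOfFinOrder_iff.mp h1)
    apply e.injective
    rw [hxy, h2, map_one, map_one]
  have hdc : ∀ b, d b ∉ Lox.E (c b) := by
    intro b hb
    obtain ⟨y, hy, hxy⟩ := hEfac b _ hb
    rw [hed] at hxy
    rw [← hof b hxy] at hy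
    exact hdE b hy
  have hnc : NonComm c := by
    intro b b' hbb g n m hn hm h
    have h1 := congrArg e h
    rw [map_mul, map_mul, map_inv, map_zpow, map_zpow, hec, hec, ← map_zpow, ← map_zpow] at h1
    exact zpow_ne_of_not_fin (hfin b) hn (retract hbb _ h1)
  obtain ⟨w, hw, h1, h2, h3, h4, -⟩ := core (Γ := Γ) p.ker hQ (ι := Bool) (κ := κ)
    (fun b => (C b).map (i b)) (by
      rintro b _ ⟨a, ha, rfl⟩
      exact hC b a ha) c d (fun b => hmem b _ (hc' b)) (fun b => hmem b _ (hd' b)) hfinc hnc htfc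
    hdc τ t ht S hS
  exact ⟨w, hw, h1, h2, h3, h4⟩

end Pool.Agent.H507
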