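import Pool.Agent.H507_D.Defs2
import Pool.Agent.H507_P.A3

set_option autoImplicit false

namespace Pool.Agent.H507

open Pool.Agent.TH68 Pool.Agent.Helper97.Hyp

/-- TARGET 1 -/
theorem rad_finite {G : Type} [Group G] (hG : HypGroup G) : Finite (rad G) := by
  obtain ⟨K, hn, hf, hK⟩ := exists_radical hG
  have h : rad G ≤ K := by
    unfold rad
    exact sSup_le fun N hN => hK N hN.1 hN.2
  exact Finite.of_injective (Subgroup.inclusion h) (Subgroup.inclusion_injective h)

/-- TARGET 2 -/
theorem le_rad {G : Type} [Group G] {N : Subgroup G} (hn : N.Normal) (hf : Finite N) : N ≤ rad G := by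
  unfold rad
  exact le_sSup ⟨hn, hf⟩

/-- TARGET 3 -/
theorem noFin_rad {G : Type} [Group G] (hG : HypGroup G) : NoFin (G ⧸ rad G) := by
  haveI := rad_finite hG
  exact noFin_radical (rad G) fun N hn hf => le_rad hn hf

/-- TARGET 4 -/
theorem pidx_ne_zero {G : Type} [Group G] (hG : HypGroup G) : pidx G ≠ 0 := by
  haveI := rad_finite hG
  haveI : Finite (MulAut (rad G)) := Finite.of_injective (fun e : MulAut (rad G) => (e : rad G → rad G))
    DFunLike.coe_injective
  let f : G →* MulAut (rad G) := MulAut.conjNormal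
  haveI : f.ker.FiniteIndex := Subgroup.finiteIndex_ker f
  have h : f.ker ≤ Subgroup.centralizer (rad G : Set G) := by
    intro g hg
    rw [Subgroup.mem_centralizer_iff]
    intro k hk
    have h1 : f g = 1 := hg
    have h2 : ((f g ⟨k, hk⟩ : rad G) : G) = k := by rw [h1]; rfl
    rw [MulAut.conjNormal_apply] at h2
    change g * k * g⁻¹ = k at h2
    rw [mul_inv_eq_iff_eq_mul] at h2
    exact h2.symm
  haveI := Subgroup.finiteIndex_of_le h
  exact Subgroup.FiniteIndex.index_ne_zero

/-- the index of the centre as a relative index of the centralizer -/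
theorem qidx_eq {G : Type} [Group G] :
    qidx G = (Subgroup.centralizer (rad G : Set G)).relIndex (rad G) := by
  unfold qidx
  rw [Subgroup.relIndex]
  congr 1
  ext x
  rw [Subgroup.mem_center_iff, Subgroup.mem_subgroupOf, Subgroup.mem_centralizer_iff]
  constructor
  · intro h k hk
    exact congrArg Subtype.val (h ⟨k, hk⟩)
  · intro h k
    exact Subtype.ext (h k k.2)

theorem relIndex_le_pidx {G : Type} [Group G] (hG : HypGroup G) :
    (Subgroup.centralizer (rad G : Set G)).relIndex (rad G) ≤ pidx G := by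
  have h := Subgroup.relIndex_le_of_le_right (H := Subgroup.centralizer (rad G : Set G))
    (K := rad G) (L := ⊤) le_top (by rw [Subgroup.relIndex_top_right]; exact pidx_ne_zero hG)
  rwa [Subgroup.relIndex_top_right] at h

/-- TARGET 5 -/
theorem qidx_le {G : Type} [Group G] (hG : HypGroup G) : qidx G ≤ pidx G := by
  rw [qidx_eq]
  exact relIndex_le_pidx hG

theorem map_rad_le {G A : Type} [Group G] [Group A] (hG : HypGroup G) (π : G →* A)
    (hs : Function.Surjective π) : (rad G).map π ≤ rad A := by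
  haveI := rad_finite hG
  refine le_rad (Subgroup.Normal.map inferInstance π hs) ?_
  have h : Finite ((π : G → A) '' (rad G : Set G)) := Finite.Set.finite_image _ _
  exact h

theorem comap_centralizer_le {G A : Type} [Group G] [Group A] (hG : HypGroup G) (π : G →* A)
    (hs : Function.Surjective π) (hi : ∀ x ∈ rad G, π x = 1 → x = 1) :
    (Subgroup.centralizer (rad A : Set A)).comap π ≤ Subgroup.centralizer (rad G : Set G) := by
  intro g hg
  rw [Subgroup.mem_comap, Subgroup.mem_centralizer_iff] at hg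
  rw [Subgroup.mem_centralizer_iff]
  intro k hk
  have h1 := hg (π k) (map_rad_le hG π hs (Subgroup.mem_map_of_mem π hk))
  have h2 : k * (g * k⁻¹ * g⁻¹) ∈ rad G :=
    (rad G).mul_mem hk ((rad_normal G).conj_mem _ ((rad G).inv_mem hk) g)
  have h3 : π (k * (g * k⁻¹ * g⁻¹)) = 1 := by
    simp only [map_mul, map_inv]
    rw [← mul_assoc, ← mul_assoc, h1]
    group
  have h4 := hi _ h2 h3
  rw [← mul_assoc, ← mul_assoc, mul_inv_eq_one] at h4
  rw [mul_inv_eq_iff_eq_mul] at h4
  exact h4

theorem index_comap_centralizer {G A : Type} [Group G] [Group A] (π : G →* A)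
    (hs : Function.Surjective π) :
    ((Subgroup.centralizer (rad A : Set A)).comap π).index = pidx A :=
  Subgroup.index_comap_of_surjective _ hs

/-- TARGET 6 -/
theorem pidx_mono {G A : Type} [Group G] [Group A] (hG : HypGroup G) (hA : HypGroup A) (π : G →* A)
    (hs : Function.Surjective π) (hi : ∀ x ∈ rad G, π x = 1 → x = 1) : pidx G ≤ pidx A := by
  rw [← index_comap_centralizer π hs]
  exact Nat.le_of_dvd (Nat.pos_of_ne_zero (by
    rw [index_comap_centralizer π hs]; exact pidx_ne_zero hA))
    (Subgroup.index_dvd_of_le (comap_centralizer_le hG π hs hi))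

theorem relIndex_A_ne_zero {A : Type} [Group A] (hA : HypGroup A) :
    (Subgroup.centralizer (rad A : Set A)).relIndex (rad A) ≠ 0 := by
  intro h
  exact pidx_ne_zero hA (Subgroup.index_eq_zero_of_relIndex_eq_zero h)

theorem relIndex_map_ne_zero {G A : Type} [Group G] [Group A] (hA : HypGroup A)
    (π : G →* A) : (Subgroup.centralizer (rad A : Set A)).relIndex ((rad G).map π) ≠ 0 := by
  intro h
  exact pidx_ne_zero hA (Subgroup.index_eq_zero_of_relIndex_eq_zero h)

theorem qidx_le_relIndex {G A : Type} [Group G] [Group A] (hG : HypGroup G) (hA : HypGroup A)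
    (π : G →* A) (hs : Function.Surjective π) (hi : ∀ x ∈ rad G, π x = 1 → x = 1) :
    qidx G ≤ (Subgroup.centralizer (rad A : Set A)).relIndex ((rad G).map π) := by
  have h0 := relIndex_map_ne_zero (G := G) hA π
  rw [qidx_eq]
  rw [← Subgroup.relIndex_comap] at h0 ⊢
  exact Subgroup.relIndex_le_of_le_left (comap_centralizer_le hG π hs hi) h0

/-- TARGET 7 -/
theorem qidx_mono {G A : Type} [Group G] [Group A] (hG : HypGroup G) (hA : HypGroup A) (π : G →* A)
    (hs : Function.Surjective π) (hi : ∀ x ∈ rad G, π x = 1 → x = 1) : qidx G ≤ qidx A := by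
  refine le_trans (qidx_le_relIndex hG hA π hs hi) ?_
  rw [qidx_eq (G := A)]
  exact Subgroup.relIndex_le_of_le_right (map_rad_le hG π hs) (relIndex_A_ne_zero hA)

/-- TARGET 8 -/
theorem h3_of_eq {G A : Type} [Group G] [Group A] (hG : HypGroup G) (hA : HypGroup A) (π : G →* A)
    (hs : Function.Surjective π) (hi : ∀ x ∈ rad G, π x = 1 → x = 1) (h : pidx A = pidx G) :
    ∀ g ∈ Subgroup.centralizer (rad G : Set G), π g ∈ Subgroup.centralizer (rad A : Set A) := by
  have hle := comap_centralizer_le hG π hs hi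
  have h1 := Subgroup.relIndex_mul_index hle
  rw [index_comap_centralizer π hs, h] at h1
  have h2 : (Subgroup.centralizer (rad G : Set G)).index = pidx G := rfl
  rw [h2] at h1
  have h3 : ((Subgroup.centralizer (rad A : Set A)).comap π).relIndex
      (Subgroup.centralizer (rad G : Set G)) = 1 := by
    have := pidx_ne_zero hG
    exact Nat.eq_of_mul_eq_mul_right (Nat.pos_of_ne_zero this) (by rw [h1, one_mul])
  rw [Subgroup.relIndex_eq_one] at h3
  exact fun g hg => h3 hg

/-- TARGET 9 -/
theorem h4_of_eq {G A : Type} [Group G] [Group A] (hG : HypGroup G) (hA : HypGroup A) (π : G →* A)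
    (hs : Function.Surjective π) (hi : ∀ x ∈ rad G, π x = 1 → x = 1) (h : qidx A = qidx G) :
    ∀ x ∈ rad A, ∃ y ∈ rad G, ∃ z ∈ rad A, z ∈ Subgroup.centralizer (rad A : Set A) ∧ x = π y * z := by
  intro x hx
  set C := Subgroup.centralizer (rad A : Set A) with hC
  have hle := map_rad_le hG π hs
  have h1 : C.relIndex (rad A) ≤ C.relIndex ((rad G).map π) := by
    rw [← qidx_eq (G := A), h]
    exact qidx_le_relIndex hG hA π hs hi
  haveI : Finite (↥(rad A) ⧸ C.subgroupOf (rad A)) := by
    have h2 : (C.subgroupOf (rad A)).index ≠ 0 := relIndex_A_ne_zero hA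
    exact Subgroup.index_ne_zero_iff_finite.mp h2
  let e := Subgroup.quotientSubgroupOfEmbeddingOfLE C hle
  have hb : Function.Bijective e :=
    e.injective.bijective_of_nat_card_le h1
  obtain ⟨q, hq⟩ := hb.2 (QuotientGroup.mk ⟨x, hx⟩)
  obtain ⟨⟨w, hw⟩, rfl⟩ := QuotientGroup.mk_surjective q
  obtain ⟨y, hy, rfl⟩ := hw
  have h2 : QuotientGroup.mk (s := C.subgroupOf (rad A)) (Subgroup.inclusion hle ⟨π y, ⟨y, hy, rfl⟩⟩) =
      QuotientGroup.mk (s := C.subgroupOf (rad A)) ⟨x, hx⟩ := hq
  rw [QuotientGroup.eq, Subgroup.mem_subgroupOf] at h2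
  have h3 : (π y)⁻¹ * x ∈ C := h2
  refine ⟨y, hy, (π y)⁻¹ * x, ?_, h3, by group⟩
  exact (rad A).mul_mem ((rad A).inv_mem (hle (Subgroup.mem_map_of_mem π hy))) hx

end Pool.Agent.H507
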