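import Pool.Agent.H507_D.Defs2
import Pool.Agent.H507_P.A2
import Pool.Agent.H507_P.A4
import Pool.Agent.H507_P.B1
import Pool.Agent.H507_P.C0
import Pool.Agent.H507_P.R1

set_option autoImplicit false

namespace Pool.Agent.H507

open Pool.Agent.TH68 Pool.Agent.Helper97.Hyp

theorem cq_central_gen {A : Bool → Type} [∀ b, Group (A b)] {Γ : Type} [Group Γ]
    {K₁ : Type} [Group K₁] (J : K₁ →* Γ) (Kb : ∀ b, Subgroup (A b)) [∀ b, (Kb b).Normal]
    (i : ∀ b, A b →* Γ) (p : Γ →* Monoid.CoprodI (fun b => A b ⧸ Kb b)) (hk : p.ker = J.range)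
    (hpi : ∀ b (g : A b), p (i b g) =
      Monoid.CoprodI.of (M := fun b => A b ⧸ Kb b) (i := b) (g : A b ⧸ Kb b))
    (hJ : ∀ x : K₁, J x ∈ ⨆ b, (i b).range) : (⨆ b, (i b).range) = ⊤ := by
  rw [eq_top_iff]
  intro g _
  have h1 : (⨆ b, (i b).range).map p = ⊤ := by
    rw [eq_top_iff]
    intro y _
    induction y using Monoid.CoprodI.induction_on with
    | one => exact Subgroup.one_mem _
    | of b m =>
      obtain ⟨a, rfl⟩ := QuotientGroup.mk_surjective m
      exact ⟨i b a, (le_iSup (fun b => (i b).range) b) ⟨a, rfl⟩, hpi b a⟩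
    | mul x y hx hy => exact Subgroup.mul_mem _ (hx trivial) (hy trivial)
  have h2 : p g ∈ (⨆ b, (i b).range).map p := by rw [h1]; trivial
  obtain ⟨h, hh, hpg⟩ := h2
  have h3 : h⁻¹ * g ∈ p.ker := by
    rw [MonoidHom.mem_ker, map_mul, map_inv, hpg]
    simp
  rw [hk] at h3
  obtain ⟨x, hx⟩ := h3
  have h4 : g = h * J x := by rw [hx]; group
  rw [h4]
  exact Subgroup.mul_mem _ hh (hJ x)

theorem cq_central_fin {A : Bool → Type} [∀ b, Group (A b)] (hA : ∀ b, HypGroup (A b)) (b : Bool) :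
    ∃ X : Set (A b), X.Finite ∧ X.Nonempty ∧ Subgroup.closure X = ⊤ := by
  obtain ⟨X, hX⟩ := (Group.fg_iff.1 (hyp_fg (hA b)))
  refine ⟨insert 1 X, hX.2.insert 1, ⟨1, Set.mem_insert _ _⟩, ?_⟩
  rw [eq_top_iff, ← hX.1]
  exact Subgroup.closure_mono (Set.subset_insert _ _)

theorem cq_central_end {Γ : Type} [Group Γ] (K : Subgroup Γ) [K.Normal] [Finite K]
    (hKc : ∀ k ∈ K, ∀ g : Γ, g * k = k * g) (N : Subgroup Γ) [N.Normal]
    (h1 : HypGroup (Γ ⧸ (N ⊔ K))) (h2 : ¬ Elem (Γ ⧸ (N ⊔ K))) (h3 : NoFin (Γ ⧸ (N ⊔ K))) :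
    HypGroup (Γ ⧸ N) ∧ ¬ Elem (Γ ⧸ N) ∧
      ∀ E : Subgroup (Γ ⧸ N), E.Normal → Finite E → E ≤ Subgroup.center (Γ ⧸ N) := by
  set M : Subgroup Γ := N ⊔ K with hM
  have hN : N ≤ M := le_sup_left
  set K' : Subgroup (Γ ⧸ N) := M.map (QuotientGroup.mk' N) with hK'
  have hK'1 : K' = K.map (QuotientGroup.mk' N) := by
    rw [hK', hM, Subgroup.map_sup]
    have : N.map (QuotientGroup.mk' N) = ⊥ := by
      rw [Subgroup.map_eq_bot_iff, QuotientGroup.ker_mk']
    rw [this, bot_sup_eq]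
  have hfin : Finite K' := by
    rw [hK'1]
    have : Set.Finite ((K.map (QuotientGroup.mk' N) : Subgroup (Γ ⧸ N)) : Set (Γ ⧸ N)) := by
      rw [Subgroup.coe_map]
      exact (Set.toFinite (K : Set Γ)).image _
    exact this.to_subtype
  have hcen : K' ≤ Subgroup.center (Γ ⧸ N) := by
    rw [hK'1]
    rintro _ ⟨k, hk, rfl⟩
    rw [Subgroup.mem_center_iff]
    intro q
    obtain ⟨g, rfl⟩ := QuotientGroup.mk'_surjective N q
    rw [← map_mul, ← map_mul, hKc k hk g]
  have hKn : K'.Normal := inferInstance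
  let e : (Γ ⧸ N) ⧸ K' ≃* Γ ⧸ M := QuotientGroup.quotientQuotientEquivQuotient N M hN
  have hno : NoFin ((Γ ⧸ N) ⧸ K') := by
    intro L hL hLf
    have hLn : (L.map e.toMonoidHom).Normal := Subgroup.Normal.map hL _ e.surjective
    have hLf' : Finite (L.map e.toMonoidHom) := by
      have : Set.Finite ((L.map e.toMonoidHom : Subgroup (Γ ⧸ M)) : Set (Γ ⧸ M)) := by
        rw [Subgroup.coe_map]
        exact (Set.toFinite (L : Set ((Γ ⧸ N) ⧸ K'))).image _
      exact this.to_subtype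
    have h4 := h3 _ hLn hLf'
    rw [Subgroup.map_eq_bot_iff_of_injective L (f := e.toMonoidHom) e.injective] at h4
    exact h4
  refine ⟨hyp_of_quot K' (hyp_equiv e.symm h1), fun hE => h2 (elem_equiv e (elem_quot K' hE)), ?_⟩
  intro E hE hEf
  refine le_trans ?_ hcen
  have hEn : (E.map (QuotientGroup.mk' K')).Normal :=
    Subgroup.Normal.map hE _ (QuotientGroup.mk'_surjective K')
  have hEf' : Finite (E.map (QuotientGroup.mk' K')) := by
    have : Set.Finite ((E.map (QuotientGroup.mk' K') : Subgroup ((Γ ⧸ N) ⧸ K')) : Set ((Γ ⧸ N) ⧸ K')) := by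
      rw [Subgroup.coe_map]
      exact (Set.toFinite (E : Set (Γ ⧸ N))).image _
    exact this.to_subtype
  have h4 := hno _ hEn hEf'
  rwa [Subgroup.map_eq_bot_iff, QuotientGroup.ker_mk'] at h4

/-- TARGET -/
theorem cq_central {A : Bool → Type} [∀ b, Group (A b)] (hA : ∀ b, HypGroup (A b))
    (hne : ∀ b, ¬ Elem (A b)) (hcen : ∀ b, rad (A b) ≤ Subgroup.center (A b)) (S : ∀ b, Set (A b))
    (hS : ∀ b, (S b).Finite) :
    ∃ (Q : Type) (_ : Group Q) (φ : ∀ b, A b →* Q), (∀ b, Function.Surjective (φ b)) ∧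
      (∀ b, ∀ s ∈ S b, φ b s = 1 → s = 1) ∧ HypGroup Q ∧ ¬ Elem Q ∧
      ∀ E : Subgroup Q, E.Normal → Finite E → E ≤ Subgroup.center Q := by
  classical
  have hfr : ∀ b, Finite (rad (A b)) := fun b => rad_finite (hA b)
  have hcomm : ∀ (b : Bool) (x y : rad (A b)), x * y = y * x := by
    intro b x y
    apply Subtype.ext
    exact (Subgroup.mem_center_iff.1 (hcen b y.2) x.1)
  have hcomm' : ∀ (b : Bool) (x : rad (A b)) (g : A b), g * x * g⁻¹ = x := by
    intro b x g
    rw [(Subgroup.mem_center_iff.1 (hcen b x.2) g)]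
    group
  let j : ∀ b, rad (A b) →* (∀ b, rad (A b)) := fun b => MonoidHom.mulSingle (fun b => rad (A b)) b
  obtain ⟨Γ, _, J, i, p, hJ, hi, hκ, hact, hp, hk, hpi⟩ := alg0 (fun b => rad (A b))
    (K := ∀ b, rad (A b)) j
    (fun b => Pi.mulSingle_injective (M := fun b => rad (A b)) b) (fun b => 1)
    (by
      intro b κ x
      change x = _
      funext c
      simp only [Pi.mul_apply, Pi.inv_apply]
      rw [hcomm c (j b κ c) (x c)]
      group)
    (by
      intro b g κ κ' h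
      have : κ' = κ := by
        apply Subtype.ext
        rw [h]
        exact hcomm' b κ g
      rw [this]
      rfl)
  have hHJ : ∀ x, J x ∈ ⨆ b, (i b).range := by
    intro x
    have hx : x = j false (x false) * j true (x true) := by
      funext c
      cases c <;> simp [j, MonoidHom.mulSingle_apply]
    rw [hx, map_mul, ← hκ, ← hκ]
    exact Subgroup.mul_mem _ ((le_iSup (fun b => (i b).range) false) ⟨_, rfl⟩)
      ((le_iSup (fun b => (i b).range) true) ⟨_, rfl⟩)
  have hgen : (⨆ b, (i b).range) = ⊤ := cq_central_gen J (fun b => rad (A b)) i p hk hpi hHJ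
  have hKn : J.range.Normal := by rw [← hk]; infer_instance
  have hKf : Finite J.range := by
    have : Set.Finite ((J.range : Subgroup Γ) : Set Γ) := by
      rw [MonoidHom.coe_range]
      exact Set.finite_range J
    exact this.to_subtype
  have hKc' : (⨆ b, (i b).range) ≤ Subgroup.centralizer (J.range : Set Γ) := by
    refine iSup_le fun b => ?_
    rintro _ ⟨g, rfl⟩
    rw [Subgroup.mem_centralizer_iff]
    rintro _ ⟨x, rfl⟩
    have h := hact b g x
    change i b g * J x * (i b g)⁻¹ = J x at h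
    rw [mul_inv_eq_iff_eq_mul] at h
    exact h.symm
  have hKt : Subgroup.centralizer (J.range : Set Γ) = ⊤ := by
    rw [eq_top_iff, ← hgen]
    exact hKc'
  have hKc : ∀ k ∈ J.range, ∀ g : Γ, g * k = k * g := by
    intro k hkk g
    have h : g ∈ Subgroup.centralizer (J.range : Set Γ) := by rw [hKt]; trivial
    rw [Subgroup.mem_centralizer_iff] at h
    exact (h k hkk).symm
  choose X hX1 hX2 hX3 using cq_central_fin hA
  have : ∀ b, Finite (X b) := fun b => (hX1 b).to_subtype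
  have : Nonempty (Σ b, X b) := ⟨⟨true, ⟨_, (hX2 true).some_mem⟩⟩⟩
  obtain ⟨w, hw1, hw2, hw3, hw4, hw5⟩ := core_amalg (fun b => rad (A b))
    (fun b => hyp_quot (rad (A b)) (hA b))
    (fun b h => hne b (elem_of_quot (rad (A b)) h)) (fun b => noFin_rad (hA b))
    J.range i p hp hk hpi (fun b => ⊤) (fun b a _ => by rw [hKt]; trivial)
    (fun b h => hne b ⟨⊥, by
      have hfA : Finite (A b) := by
        have h' : rad (A b) = ⊤ := eq_top_iff.2 h
        have h'' : Finite (⊤ : Subgroup (A b)) := by rw [← h']; exact hfr b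
        exact Finite.of_equiv _ (Subgroup.topEquiv (G := A b)).toEquiv
      infer_instance, inferInstance⟩)
    (κ := Σ b, X b) (fun k => !k.1) (fun k => i k.1 k.2) (fun k => by rw [hKt]; trivial)
    ((J.range : Set Γ) ∪ ⋃ b, i b '' S b)
    ((Set.toFinite _).union (Set.finite_iUnion fun b => (hS b).image _))
  set N := Subgroup.normalClosure (Set.range fun k : (Σ b, X b) => w k * i k.1 k.2) with hN
  have hmem : ∀ k : (Σ b, X b), w k * i k.1 k.2 ∈ N := fun k =>
    Subgroup.subset_normalClosure ⟨k, rfl⟩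
  obtain ⟨r1, r2, r3⟩ := cq_central_end J.range hKc N hw3 hw4 hw5
  refine ⟨Γ ⧸ N, inferInstance, fun b => (QuotientGroup.mk' N).comp (i b), ?_, ?_, r1, r2, r3⟩
  · have key : ∀ b c : Bool, (!c) = b → ∀ g ∈ X c,
        ((QuotientGroup.mk' N).comp (i c)) g ∈ ((QuotientGroup.mk' N).comp (i b)).range := by
      rintro b c rfl g hg
      have h1 := hmem ⟨c, ⟨g, hg⟩⟩
      obtain ⟨a, -, ha⟩ := hw1 ⟨c, ⟨g, hg⟩⟩
      rw [← ha] at h1
      refine ⟨a⁻¹, ?_⟩
      have h2 : (QuotientGroup.mk' N) (i (!c) a * i c g) = 1 := by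
        rw [← MonoidHom.mem_ker, QuotientGroup.ker_mk']
        exact h1
      rw [map_mul] at h2
      rw [map_inv]
      exact inv_eq_of_mul_eq_one_right h2
    have hle : ∀ b c : Bool, ((QuotientGroup.mk' N).comp (i c)).range ≤
        ((QuotientGroup.mk' N).comp (i b)).range := by
      intro b c
      by_cases h : (!c) = b
      · rw [MonoidHom.range_eq_map, ← hX3 c, MonoidHom.map_closure, Subgroup.closure_le]
        rintro _ ⟨g, hg, rfl⟩
        exact key b c h g hg
      · have : c = b := by revert h; cases b <;> cases c <;> simp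
        rw [this]
    intro b
    rw [← MonoidHom.range_eq_top, eq_top_iff]
    intro q _
    obtain ⟨g, rfl⟩ := QuotientGroup.mk'_surjective N q
    have hg : g ∈ ⨆ c, (i c).range := by rw [hgen]; trivial
    have h2 : (⨆ c, (i c).range) ≤
        (((QuotientGroup.mk' N).comp (i b)).range).comap (QuotientGroup.mk' N) := by
      refine iSup_le fun c => ?_
      rintro _ ⟨x, rfl⟩
      exact hle b c ⟨x, rfl⟩
    exact h2 hg
  · intro b s hs h1
    have h2 : i b s ∈ N := by
      rw [← QuotientGroup.ker_mk' N]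
      exact h1
    have h3 := hw2 (i b s) (Or.inr (Set.mem_iUnion.2 ⟨b, ⟨s, hs, rfl⟩⟩)) h2
    exact hi b (by rw [h3, map_one])

end Pool.Agent.H507
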