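import Mathlib
import Pool.Agent.H507_P.A4

/-!
C2b (helper507, MP_565fc2_lc): amalgamating two quotients of one group over a common finite normal subgroup.
-/

set_option autoImplicit false

namespace Pool.Agent.H507

namespace alg_aux

/-- the automorphisms induced on a quotient by a group acting by automorphisms that preserve the
subgroup -/
noncomputable def act {G X : Type} [Group G] [Group X] (e : G →* MulAut X) (R : Subgroup X)
    [R.Normal] (h : ∀ g, ∀ x ∈ R, e g x ∈ R) : G →* MulAut (X ⧸ R) where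
  toFun g :=
    { toFun := QuotientGroup.map R R (e g).toMonoidHom (fun x hx => h g x hx)
      invFun := QuotientGroup.map R R (e g⁻¹).toMonoidHom (fun x hx => h g⁻¹ x hx)
      left_inv := by
        intro q
        induction q using QuotientGroup.induction_on with
        | H x =>
          change ((e g⁻¹ (e g x) : X) : X ⧸ R) = x
          rw [← MulAut.mul_apply, ← map_mul, inv_mul_cancel, map_one, MulAut.one_apply]
      right_inv := by
        intro q
        induction q using QuotientGroup.induction_on with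
        | H x =>
          change ((e g (e g⁻¹ x) : X) : X ⧸ R) = x
          rw [← MulAut.mul_apply, ← map_mul, mul_inv_cancel, map_one, MulAut.one_apply]
      map_mul' := fun x y => map_mul _ x y }
  map_one' := by
    ext q
    induction q using QuotientGroup.induction_on with
    | H x =>
      change ((e 1 x : X) : X ⧸ R) = x
      rw [map_one, MulAut.one_apply]
  map_mul' g g' := by
    ext q
    induction q using QuotientGroup.induction_on with
    | H x =>
      change ((e (g * g') x : X) : X ⧸ R) = ((e g (e g' x) : X) : X ⧸ R)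
      rw [map_mul, MulAut.mul_apply]

theorem act_mk {G X : Type} [Group G] [Group X] (e : G →* MulAut X) (R : Subgroup X)
    [R.Normal] (h : ∀ g, ∀ x ∈ R, e g x ∈ R) (g : G) (x : X) :
    act e R h g (x : X ⧸ R) = ((e g x : X) : X ⧸ R) := rfl

/-- the componentwise conjugation -/
def cj {G A B : Type} [Group G] [Group A] [Group B] (π : G →* A) (ρ : G →* B) (S : Subgroup A)
    (T : Subgroup B) [S.Normal] [T.Normal] : G →* MulAut (S × T) where
  toFun g := MulEquiv.prodCongr (MulAut.conjNormal (π g)) (MulAut.conjNormal (ρ g))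
  map_one' := by
    rw [map_one, map_one, map_one, map_one]; rfl
  map_mul' g g' := by
    rw [map_mul, map_mul, map_mul, map_mul]; rfl

theorem cj_fst {G A B : Type} [Group G] [Group A] [Group B] (π : G →* A) (ρ : G →* B)
    (S : Subgroup A) (T : Subgroup B) [S.Normal] [T.Normal] (g : G) (x : S × T) :
    (((cj π ρ S T g x).1 : S) : A) = π g * x.1 * (π g)⁻¹ :=
  MulAut.conjNormal_apply (π g) x.1

theorem cj_snd {G A B : Type} [Group G] [Group A] [Group B] (π : G →* A) (ρ : G →* B)
    (S : Subgroup A) (T : Subgroup B) [S.Normal] [T.Normal] (g : G) (x : S × T) :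
    (((cj π ρ S T g x).2 : T) : B) = ρ g * x.2 * (ρ g)⁻¹ :=
  MulAut.conjNormal_apply (ρ g) x.2

theorem core {G : Type} [Group G] (K₀ : Subgroup G) [K₀.Normal] {A : Bool → Type}
    [∀ b, Group (A b)] (Kb : ∀ b, Subgroup (A b)) [∀ b, (Kb b).Normal] [∀ b, Finite (Kb b)]
    (π : ∀ b, G →* A b) (hs : ∀ b, Function.Surjective (π b))
    (hi : ∀ b, ∀ x ∈ K₀, π b x = 1 → x = 1) (hK : ∀ b, K₀.map (π b) ≤ Kb b)
    (h3 : ∀ b, ∀ g ∈ Subgroup.centralizer (K₀ : Set G),
      π b g ∈ Subgroup.centralizer (Kb b : Set (A b)))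
    (h4 : ∀ b, ∀ x ∈ Kb b, ∃ y ∈ K₀, ∃ z ∈ Kb b,
      z ∈ Subgroup.centralizer (Kb b : Set (A b)) ∧ x = π b y * z) :
    ∃ (K : Type) (_ : Group K) (_ : Finite K) (j : ∀ b, Kb b →* K) (α : ∀ b, A b →* MulAut K)
      (αG : G →* MulAut K), (∀ b, Function.Injective (j b)) ∧
      (∀ b g, α b (π b g) = αG g) ∧
      (∀ b g, π b g ∈ Subgroup.centralizer (Kb b : Set (A b)) → αG g = 1) ∧
      (∀ b (κ : Kb b) (x : K), α b κ x = j b κ * x * (j b κ)⁻¹) ∧
      (∀ b (g : A b) (κ κ' : Kb b), (κ' : A b) = g * κ * g⁻¹ → α b g (j b κ) = j b κ') ∧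
      ∀ x : K, ∃ a c, x = j true a * j false c := by
  have hKm : ∀ b, ∀ y ∈ K₀, π b y ∈ Kb b := fun b y hy => hK b ⟨y, hy, rfl⟩
  -- elements acting trivially on the image of `K₀`
  have hcent : ∀ b, ∀ g, (∀ k ∈ K₀, π b g * π b k = π b k * π b g) →
      g ∈ Subgroup.centralizer (K₀ : Set G) := by
    intro b g hg
    rw [Subgroup.mem_centralizer_iff]
    intro k hk
    have h1 : g * k * g⁻¹ * k⁻¹ ∈ K₀ :=
      K₀.mul_mem (‹K₀.Normal›.conj_mem k hk g) (K₀.inv_mem hk)
    have h2 : π b (g * k * g⁻¹ * k⁻¹) = 1 := by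
      rw [map_mul, map_mul, map_mul, map_inv, map_inv, hg k hk]; group
    have h5 := hi b _ h1 h2
    have h6 : g * k = k * g := by
      rw [mul_inv_eq_one, mul_inv_eq_iff_eq_mul] at h5
      exact h5
    exact h6.symm
  let Z : Subgroup (A false) := Kb false ⊓ Subgroup.centralizer (Kb false : Set (A false))
  have hZn : Z.Normal := inferInstance
  have hZK : ∀ c : Z, (c : A false) ∈ Kb false := fun c => c.2.1
  have hZc : ∀ c : Z, ∀ k ∈ Kb false, k * (c : A false) = (c : A false) * k := fun c k hk =>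
    (Subgroup.mem_centralizer_iff.1 c.2.2) k hk
  let X := (Kb true) × Z
  let R : Subgroup X :=
    { carrier := {p | ∃ z ∈ K₀, z ∈ Subgroup.centralizer (K₀ : Set G) ∧
        (p.1 : A true) = π true z ∧ (p.2 : A false) = (π false z)⁻¹}
      one_mem' := ⟨1, K₀.one_mem, Subgroup.one_mem _, by simp, by simp⟩
      mul_mem' := by
        rintro p q ⟨z, hz, hz', h1, h2⟩ ⟨w, hw, hw', h1', h2'⟩
        refine ⟨z * w, K₀.mul_mem hz hw, Subgroup.mul_mem _ hz' hw', ?_, ?_⟩
        · rw [Prod.fst_mul, Subgroup.coe_mul, h1, h1', map_mul]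
        · rw [Prod.snd_mul, Subgroup.coe_mul, h2, h2', ← (Subgroup.mem_centralizer_iff.1 hz') w hw,
            map_mul, _root_.mul_inv_rev]
      inv_mem' := by
        rintro p ⟨z, hz, hz', h1, h2⟩
        refine ⟨z⁻¹, K₀.inv_mem hz, Subgroup.inv_mem _ hz', ?_, ?_⟩
        · rw [Prod.fst_inv, Subgroup.coe_inv, h1, map_inv]
        · rw [Prod.snd_inv, Subgroup.coe_inv, h2, map_inv] }
  have hR : ∀ p : X, p ∈ R ↔ ∃ z ∈ K₀, z ∈ Subgroup.centralizer (K₀ : Set G) ∧
        (p.1 : A true) = π true z ∧ (p.2 : A false) = (π false z)⁻¹ := fun p => Iff.rfl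
  have hRc : ∀ p ∈ R, ∀ q : X, q * p = p * q := by
    intro p hp q
    obtain ⟨z, hz, hz', h1, h2⟩ := (hR p).1 hp
    apply Prod.ext
    · apply Subtype.ext
      rw [Prod.fst_mul, Prod.fst_mul, Subgroup.coe_mul, Subgroup.coe_mul, h1]
      exact (Subgroup.mem_centralizer_iff.1 (h3 true z hz')) _ q.1.2
    · apply Subtype.ext
      rw [Prod.snd_mul, Prod.snd_mul, Subgroup.coe_mul, Subgroup.coe_mul]
      exact hZc p.2 _ (hZK q.2)
  have hRn : R.Normal := ⟨fun p hp q => by
    rw [hRc p hp q, mul_assoc, mul_inv_cancel, mul_one]; exact hp⟩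
  have hRe : ∀ g, ∀ x ∈ R, cj (π true) (π false) (Kb true) Z g x ∈ R := by
    intro g x hx
    obtain ⟨z, hz, hz', h1, h2⟩ := (hR x).1 hx
    refine (hR _).2 ⟨g * z * g⁻¹, ‹K₀.Normal›.conj_mem z hz g, ?_, ?_, ?_⟩
    · exact (Subgroup.normal_centralizer (H := K₀)).conj_mem z hz' g
    · rw [cj_fst, h1]; simp
    · rw [cj_snd, h2]; simp [mul_assoc]
  let αG : G →* MulAut (X ⧸ R) := act (cj (π true) (π false) (Kb true) Z) R hRe
  have hαG : ∀ g (x : X), αG g (x : X ⧸ R) =
      ((cj (π true) (π false) (Kb true) Z g x : X) : X ⧸ R) := fun g x => rfl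
  -- triviality
  have htriv : ∀ g ∈ Subgroup.centralizer (K₀ : Set G), αG g = 1 := by
    intro g hg
    ext q
    induction q using QuotientGroup.induction_on with
    | H x =>
      rw [hαG, MulAut.one_apply]
      congr 1
      apply Prod.ext
      · apply Subtype.ext
        rw [cj_fst, ← (Subgroup.mem_centralizer_iff.1 (h3 true g hg)) _ x.1.2]
        group
      · apply Subtype.ext
        rw [cj_snd, ← (Subgroup.mem_centralizer_iff.1 (h3 false g hg)) _ (hZK x.2)]
        group
  have htriv' : ∀ b g, π b g ∈ Subgroup.centralizer (Kb b : Set (A b)) → αG g = 1 := by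
    intro b g hg
    refine htriv g (hcent b g fun k hk => ?_)
    exact ((Subgroup.mem_centralizer_iff.1 hg) _ (hKm b k hk)).symm
  have hker : ∀ b, (π b).ker ≤ αG.ker := by
    intro b g hg
    rw [MonoidHom.mem_ker] at hg ⊢
    refine htriv' b g ?_
    rw [hg]
    exact Subgroup.one_mem _
  let α : ∀ b, A b →* MulAut (X ⧸ R) := fun b => (π b).liftOfSurjective (hs b) ⟨αG, hker b⟩
  have hα : ∀ b g, α b (π b g) = αG g := fun b g =>
    (π b).liftOfRightInverse_comp_apply _ _ ⟨αG, hker b⟩ g
  -- the first inclusion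
  let jt : Kb true →* X ⧸ R := (QuotientGroup.mk' R).comp (MonoidHom.inl (Kb true) Z)
  have hjt : ∀ a : Kb true, jt a = (((a, 1) : X) : X ⧸ R) := fun a => rfl
  -- the second inclusion
  let s : K₀ × Z →* Kb false :=
    { toFun := fun p => ⟨π false p.1 * p.2, (Kb false).mul_mem (hKm false _ p.1.2) (hZK p.2)⟩
      map_one' := Subtype.ext (by simp)
      map_mul' := fun p q => Subtype.ext (by
        change π false ((p.1 * q.1 : K₀) : G) * ((p.2 * q.2 : Z) : A false) =
          π false p.1 * p.2 * (π false q.1 * q.2)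
        rw [Subgroup.coe_mul, Subgroup.coe_mul, map_mul]
        have := hZc p.2 _ (hKm false _ q.1.2)
        calc π false (p.1 : G) * π false (q.1 : G) * ((p.2 : A false) * (q.2 : A false))
            = π false (p.1 : G) * (π false (q.1 : G) * (p.2 : A false)) * (q.2 : A false) := by
              group
          _ = _ := by rw [this]; group) }
  have hsv : ∀ p, ((s p : Kb false) : A false) = π false p.1 * p.2 := fun p => rfl
  have hss : Function.Surjective s := by
    rintro ⟨x, hx⟩
    obtain ⟨y, hy, z, hz, hz', hxyz⟩ := h4 false x hx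
    exact ⟨(⟨y, hy⟩, ⟨z, hz, hz'⟩), Subtype.ext hxyz.symm⟩
  let t : K₀ × Z →* X ⧸ R := (QuotientGroup.mk' R).comp
    (MonoidHom.prodMap (((π true).comp K₀.subtype).codRestrict (Kb true)
      (fun y => hKm true _ y.2)) (MonoidHom.id Z))
  have ht : ∀ p : K₀ × Z, t p = (((⟨π true p.1, hKm true _ p.1.2⟩, p.2) : X) : X ⧸ R) :=
    fun p => rfl
  have hst : ∀ p, s p = 1 ↔ t p = 1 := by
    intro p
    rw [ht, QuotientGroup.eq_one_iff, hR]
    constructor
    · intro h
      have h5 : π false p.1 * p.2 = 1 := congrArg Subtype.val h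
      have h6 : (p.2 : A false) = (π false (p.1 : G))⁻¹ := eq_inv_of_mul_eq_one_right h5
      refine ⟨p.1, p.1.2, ?_, rfl, h6⟩
      refine hcent false _ fun k hk => ?_
      have h7 := hZc p.2 _ (hKm false k hk)
      rw [h6] at h7
      have h8 : π false (p.1 : G) * (π false k * (π false (p.1 : G))⁻¹) * π false (p.1 : G) =
          π false (p.1 : G) * ((π false (p.1 : G))⁻¹ * π false k) * π false (p.1 : G) := by rw [h7]
      simpa [mul_assoc] using h8
    · rintro ⟨z, hz, hz', h5, h6⟩
      have h7 : (p.1 : G) = z := by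
        have h5' : π true (p.1 : G) = π true z := h5
        have h8 : π true ((p.1 : G) * z⁻¹) = 1 := by
          rw [map_mul, map_inv, h5', mul_inv_cancel]
        exact mul_inv_eq_one.1 (hi true _ (K₀.mul_mem p.1.2 (K₀.inv_mem hz)) h8)
      have h6' : (p.2 : A false) = (π false z)⁻¹ := h6
      apply Subtype.ext
      rw [hsv, h6', h7, mul_inv_cancel]
      rfl
  let jf : Kb false →* X ⧸ R := s.liftOfSurjective hss ⟨t, fun p hp => (hst p).1 hp⟩
  have hjf : ∀ p, jf (s p) = t p := fun p =>
    s.liftOfRightInverse_comp_apply _ _ ⟨t, fun p hp => (hst p).1 hp⟩ p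
  have hjf2 : ∀ c : Kb false, ∃ p, s p = c ∧ jf c = t p := fun c => by
    obtain ⟨p, rfl⟩ := hss c
    exact ⟨p, rfl, hjf p⟩
  -- conjugation by elements of the two subgroups
  have hconj : ∀ b, ∀ κ ∈ Kb b, ∀ y ∈ K₀, ∀ z ∈ Subgroup.centralizer (Kb b : Set (A b)),
      κ = π b y * z → α b κ = αG y := by
    intro b κ _ y hy z hz hκ
    obtain ⟨g, rfl⟩ := hs b z
    rw [hκ, map_mul, hα, hα, htriv' b g hz, mul_one]
  have hfZ : Finite Z := Finite.of_injective (fun c : Z => (⟨c, hZK c⟩ : Kb false))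
    (fun c c' h => Subtype.ext (Subtype.mk.inj h))
  have hfX : Finite X := inferInstanceAs (Finite (Kb true × Z))
  have hfQ : Finite (X ⧸ R) := Finite.of_surjective _ (QuotientGroup.mk'_surjective R)
  refine ⟨X ⧸ R, inferInstance, hfQ, fun b => match b with | true => jt | false => jf,
    α, αG, ?_, hα, htriv', ?_, ?_, ?_⟩
  · rintro (_ | _)
    · change Function.Injective jf
      rw [injective_iff_map_eq_one]
      intro c hc
      obtain ⟨p, rfl, hp⟩ := hjf2 c
      rw [hp] at hc
      exact (hst p).2 hc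
    · change Function.Injective jt
      rw [injective_iff_map_eq_one]
      intro a ha
      rw [hjt, QuotientGroup.eq_one_iff, hR] at ha
      obtain ⟨z, hz, _, h5, h6⟩ := ha
      have h7 : π false z = 1 := by
        have h8 : (π false z)⁻¹ = 1 := h6.symm
        exact inv_eq_one.1 h8
      have h8 := hi false z hz h7
      apply Subtype.ext
      have h9 : (a : A true) = π true z := h5
      rw [h9, h8, map_one]
      rfl
  · have hpart : ∀ (y : G) (hy : y ∈ K₀) (k : Kb true) (c : Z) (x : X),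
        (∀ v ∈ Kb true, (k : A true) * v * (k : A true)⁻¹ = π true y * v * (π true y)⁻¹) →
        αG y (x : X ⧸ R) = (((k, c) : X) : X ⧸ R) * (x : X ⧸ R) *
          ((((k, c) : X) : X ⧸ R))⁻¹ := by
      intro y hy k c x hk
      rw [hαG, ← QuotientGroup.mk_inv, ← QuotientGroup.mk_mul, ← QuotientGroup.mk_mul]
      congr 1
      apply Prod.ext
      · apply Subtype.ext
        rw [cj_fst, Prod.fst_mul, Prod.fst_mul, Prod.fst_inv, Subgroup.coe_mul, Subgroup.coe_mul,
          Subgroup.coe_inv]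
        exact (hk _ x.1.2).symm
      · apply Subtype.ext
        rw [cj_snd, Prod.snd_mul, Prod.snd_mul, Prod.snd_inv, Subgroup.coe_mul, Subgroup.coe_mul,
          Subgroup.coe_inv, hZc x.2 _ (hKm false y hy), hZc x.2 _ (hZK c)]
        group
    rintro (_ | _)
    · intro κ q
      change α false κ q = jf κ * q * (jf κ)⁻¹
      obtain ⟨p, rfl, hp⟩ := hjf2 κ
      rw [hconj false _ (s p).2 p.1 p.1.2 p.2 p.2.2.2 (hsv p), hp, ht]
      induction q using QuotientGroup.induction_on with
      | H x => exact hpart p.1 p.1.2 _ p.2 x (fun v _ => rfl)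
    · intro κ q
      change α true κ q = jt κ * q * (jt κ)⁻¹
      obtain ⟨y, hy, z, hz, hz', hκ⟩ := h4 true κ κ.2
      rw [hconj true _ κ.2 y hy z hz' hκ, hjt]
      induction q using QuotientGroup.induction_on with
      | H x =>
        refine hpart y hy _ 1 x (fun v hv => ?_)
        have h5 := (Subgroup.mem_centralizer_iff.1 hz') v hv
        rw [hκ]
        calc π true y * z * v * (π true y * z)⁻¹ = π true y * (z * v) * z⁻¹ * (π true y)⁻¹ := by
              group
          _ = π true y * v * (π true y)⁻¹ := by rw [← h5]; group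
  · rintro (_ | _)
    · intro g κ κ' hκ
      change α false g (jf κ) = jf κ'
      obtain ⟨p, rfl, hp⟩ := hjf2 κ
      obtain ⟨h, rfl⟩ := hs false g
      have h5 : κ' = s (⟨h * p.1 * h⁻¹, ‹K₀.Normal›.conj_mem _ p.1.2 h⟩,
          MulAut.conjNormal (π false h) p.2) := by
        apply Subtype.ext
        rw [hκ, hsv, hsv, MulAut.conjNormal_apply]
        simp [mul_assoc]
      rw [hα, h5, hp, hjf, ht, ht, hαG]
      congr 1
      apply Prod.ext
      · apply Subtype.ext
        rw [cj_fst]
        simp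
      · apply Subtype.ext
        rw [cj_snd, MulAut.conjNormal_apply]
    · intro g κ κ' hκ
      change α true g (jt κ) = jt κ'
      obtain ⟨h, rfl⟩ := hs true g
      rw [hα, hjt, hjt, hαG]
      congr 1
      apply Prod.ext
      · apply Subtype.ext
        rw [cj_fst]
        exact hκ.symm
      · apply Subtype.ext
        rw [cj_snd]
        simp
  · intro q
    induction q using QuotientGroup.induction_on with
    | H x =>
      refine ⟨x.1, s (1, x.2), ?_⟩
      change (x : X ⧸ R) = jt x.1 * jf (s (1, x.2))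
      rw [hjf, ht, hjt, ← QuotientGroup.mk_mul]
      congr 1
      apply Prod.ext
      · apply Subtype.ext
        simp
      · apply Subtype.ext
        simp

end alg_aux

/-- amalgamating two quotients -/
theorem alg {G : Type} [Group G] (K₀ : Subgroup G) [K₀.Normal] [Finite K₀] {A : Bool → Type}
    [∀ b, Group (A b)] (Kb : ∀ b, Subgroup (A b)) [∀ b, (Kb b).Normal] [∀ b, Finite (Kb b)]
    (π : ∀ b, G →* A b) (hs : ∀ b, Function.Surjective (π b))
    (hi : ∀ b, ∀ x ∈ K₀, π b x = 1 → x = 1) (hK : ∀ b, K₀.map (π b) ≤ Kb b)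
    (h3 : ∀ b, ∀ g ∈ Subgroup.centralizer (K₀ : Set G),
      π b g ∈ Subgroup.centralizer (Kb b : Set (A b)))
    (h4 : ∀ b, ∀ x ∈ Kb b, ∃ y ∈ K₀, ∃ z ∈ Kb b,
      z ∈ Subgroup.centralizer (Kb b : Set (A b)) ∧ x = π b y * z) :
    ∃ (Γ : Type) (_ : Group Γ) (K : Subgroup Γ) (_ : K.Normal) (_ : Finite K) (i : ∀ b, A b →* Γ)
      (p : Γ →* Monoid.CoprodI (fun b => A b ⧸ Kb b)),
      (∀ b, Function.Injective (i b)) ∧ Function.Surjective p ∧ p.ker = K ∧
      (∀ b (a : A b), p (i b a) =
        Monoid.CoprodI.of (M := fun b => A b ⧸ Kb b) (i := b) (a : A b ⧸ Kb b)) ∧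
      (∀ b, ∀ a ∈ Subgroup.centralizer (Kb b : Set (A b)),
        i b a ∈ Subgroup.centralizer (K : Set Γ)) ∧
      (∀ g : G, (i false (π false g))⁻¹ * i true (π true g) ∈ Subgroup.centralizer (K : Set Γ)) ∧
      K = (Kb true).map (i true) ⊔ (Kb false).map (i false) := by
  obtain ⟨K, _, _, j, α, αG, hj, hα, htriv, h1, h2, hgen⟩ :=
    alg_aux.core K₀ Kb π hs hi hK h3 h4
  obtain ⟨Γ, _, J, i, p, hJ, hii, hiJ, hconj, hp, hker, hof⟩ := alg0 Kb j hj α h1 h2
  refine ⟨Γ, inferInstance, p.ker, inferInstance, ?_, i, p, hii, hp, rfl, hof, ?_, ?_, ?_⟩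
  · rw [hker]
    exact Finite.of_surjective _ J.rangeRestrict_surjective
  · intro b a ha
    rw [Subgroup.mem_centralizer_iff]
    intro k hk
    rw [hker] at hk
    obtain ⟨x, rfl⟩ := hk
    obtain ⟨g, rfl⟩ := hs b a
    have h5 := hconj b (π b g) x
    rw [hα, htriv b g ha, MulAut.one_apply, mul_inv_eq_iff_eq_mul] at h5
    exact h5.symm
  · intro g
    rw [Subgroup.mem_centralizer_iff]
    intro k hk
    rw [hker] at hk
    obtain ⟨x, rfl⟩ := hk
    have h5 := hconj true (π true g) x
    have h6 := hconj false (π false g) x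
    rw [hα] at h5 h6
    rw [← h5, mul_inv_eq_iff_eq_mul] at h6
    have h7 : i true (π true g) * J x * (i true (π true g))⁻¹ * i false (π false g) =
        i false (π false g) * J x := h6.symm
    calc J x * ((i false (π false g))⁻¹ * i true (π true g))
        = (i false (π false g))⁻¹ * (i false (π false g) * J x) * (i false (π false g))⁻¹ *
          i true (π true g) := by group
      _ = (i false (π false g))⁻¹ * i true (π true g) * J x := by rw [← h7]; group
  · apply le_antisymm
    · intro k hk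
      rw [hker] at hk
      obtain ⟨x, rfl⟩ := hk
      obtain ⟨a, c, rfl⟩ := hgen x
      rw [map_mul, ← hiJ, ← hiJ]
      exact Subgroup.mul_mem _ (Subgroup.mem_sup_left ⟨a, a.2, rfl⟩)
        (Subgroup.mem_sup_right ⟨c, c.2, rfl⟩)
    · rw [hker]
      refine sup_le ?_ ?_
      · rintro _ ⟨a, ha, rfl⟩
        exact ⟨j true ⟨a, ha⟩, (hiJ true ⟨a, ha⟩).symm⟩
      · rintro _ ⟨a, ha, rfl⟩
        exact ⟨j false ⟨a, ha⟩, (hiJ false ⟨a, ha⟩).symm⟩

end Pool.Agent.H507
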