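import Pool.Agent.H507_D.Defs2
import Pool.Agent.H507_P.A2
import Pool.Agent.H507_P.B1
import Pool.Agent.H507_P.C0
import Pool.Agent.H507_P.C2b
import Pool.Agent.H507_P.R1

set_option autoImplicit false

namespace Pool.Agent.H507

open Pool.Agent.TH68 Pool.Agent.Helper97.Hyp

/-- images of finite subgroups are finite -/
theorem cq_gen_map_fin {G H : Type} [Group G] [Group H] (K : Subgroup G) (hf : Finite K)
    (f : G →* H) : Finite (K.map f) := by
  have h : ((K.map f : Subgroup H) : Set H).Finite := by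
    rw [Subgroup.coe_map]
    exact (Set.toFinite (K : Set G)).image f
  exact h.to_subtype

/-- the centralizer of the radical is not contained in the radical -/
theorem cq_gen_not_le {A : Type} [Group A] (hA : HypGroup A) (hne : ¬ Elem A) :
    ¬ Subgroup.centralizer (rad A : Set A) ≤ rad A := by
  intro hle
  apply hne
  have hf : Finite (rad A) := rad_finite hA
  have h1 : (Subgroup.centralizer (rad A : Set A)).index ≠ 0 := pidx_ne_zero hA
  have h2 : (rad A).index ≠ 0 := by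
    intro h0
    have := Subgroup.index_dvd_of_le hle
    rw [h0] at this
    exact h1 (Nat.eq_zero_of_zero_dvd this)
  have h3 : Nat.card A ≠ 0 := by
    rw [← Subgroup.card_mul_index (rad A)]
    exact mul_ne_zero Nat.card_pos.ne' h2
  have h4 : Finite A := (Nat.card_ne_zero.1 h3).2
  exact ⟨⊥, inferInstance, inferInstance⟩

/-- generation of the amalgam by the factors -/
theorem cq_gen_top {A : Bool → Type} [∀ b, Group (A b)] (Kb : ∀ b, Subgroup (A b))
    [∀ b, (Kb b).Normal] {Γ : Type} [Group Γ] (K : Subgroup Γ)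
    (i : ∀ b, A b →* Γ) (p : Γ →* Monoid.CoprodI (fun b => A b ⧸ Kb b))
    (hk : p.ker = K)
    (hpi : ∀ b (a : A b), p (i b a) =
      Monoid.CoprodI.of (M := fun b => A b ⧸ Kb b) (i := b) (a : A b ⧸ Kb b))
    (hK : K = (Kb true).map (i true) ⊔ (Kb false).map (i false))
    (R : Subgroup Γ) (hR : ∀ b (a : A b), i b a ∈ R) : R = ⊤ := by
  rw [eq_top_iff]
  intro x _
  have h1 : ∀ y : Monoid.CoprodI (fun b => A b ⧸ Kb b), ∃ r ∈ R, p r = y := by
    intro y
    induction y using Monoid.CoprodI.induction_on with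
    | one => exact ⟨1, R.one_mem, map_one p⟩
    | of b m =>
        obtain ⟨a, rfl⟩ := QuotientGroup.mk_surjective m
        exact ⟨i b a, hR b a, hpi b a⟩
    | mul u v hu hv =>
        obtain ⟨r, hr, rfl⟩ := hu
        obtain ⟨s, hs, rfl⟩ := hv
        exact ⟨r * s, R.mul_mem hr hs, map_mul p r s⟩
  obtain ⟨r, hr, hpr⟩ := h1 (p x)
  have hKR : K ≤ R := by
    rw [hK]
    apply sup_le
    · rintro _ ⟨a, _, rfl⟩; exact hR _ a
    · rintro _ ⟨a, _, rfl⟩; exact hR _ a
  have h2 : r⁻¹ * x ∈ K := by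
    rw [← hk, MonoidHom.mem_ker, map_mul, map_inv, hpr, inv_mul_cancel]
  have h3 := R.mul_mem hr (hKR h2)
  simpa using h3

/-- the radical of the quotient -/
theorem cq_gen_rad {Γ : Type} [Group Γ] (N K : Subgroup Γ) [N.Normal] [K.Normal] (hfK : Finite K)
    (hnf : NoFin (Γ ⧸ (N ⊔ K))) :
    rad (Γ ⧸ N) = K.map (QuotientGroup.mk' N) := by
  have hsup : (N ⊔ K).map (QuotientGroup.mk' N) = K.map (QuotientGroup.mk' N) := by
    rw [Subgroup.map_sup, (Subgroup.map_eq_bot_iff _).2 (by rw [QuotientGroup.ker_mk']), bot_sup_eq]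
  apply le_antisymm
  · unfold rad
    apply sSup_le
    intro N1 hN1
    obtain ⟨hn1, hf1⟩ := hN1
    have hle : N ≤ N ⊔ K := le_sup_left
    let q : Γ ⧸ N →* Γ ⧸ (N ⊔ K) := QuotientGroup.map N (N ⊔ K) (MonoidHom.id Γ) hle
    have hq : Function.Surjective q := by
      intro y
      obtain ⟨g, rfl⟩ := QuotientGroup.mk_surjective y
      exact ⟨(g : Γ ⧸ N), rfl⟩
    have h1 : N1.map q = ⊥ := hnf _ (Subgroup.Normal.map hn1 q hq) (cq_gen_map_fin N1 hf1 q)
    intro x hx
    obtain ⟨g, rfl⟩ := QuotientGroup.mk_surjective x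
    have h2 : q (g : Γ ⧸ N) ∈ N1.map q := Subgroup.mem_map_of_mem q hx
    rw [h1, Subgroup.mem_bot] at h2
    have h3 : g ∈ N ⊔ K := (QuotientGroup.eq_one_iff g).1 h2
    rw [← hsup]
    exact Subgroup.mem_map_of_mem (QuotientGroup.mk' N) h3
  · exact le_rad (Subgroup.Normal.map inferInstance _ (QuotientGroup.mk'_surjective N))
      (cq_gen_map_fin K hfK _)

/-- finiteness properties pass to the quotient -/
theorem cq_gen_hyp {Γ : Type} [Group Γ] (N K : Subgroup Γ) [N.Normal] [K.Normal] (hfK : Finite K)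
    (hh : HypGroup (Γ ⧸ (N ⊔ K))) (hne : ¬ Elem (Γ ⧸ (N ⊔ K))) :
    HypGroup (Γ ⧸ N) ∧ ¬ Elem (Γ ⧸ N) := by
  have hsup : (N ⊔ K).map (QuotientGroup.mk' N) = K.map (QuotientGroup.mk' N) := by
    rw [Subgroup.map_sup, (Subgroup.map_eq_bot_iff _).2 (by rw [QuotientGroup.ker_mk']), bot_sup_eq]
  have hf : Finite ((N ⊔ K).map (QuotientGroup.mk' N)) := by
    rw [hsup]; exact cq_gen_map_fin K hfK _
  have e := QuotientGroup.quotientQuotientEquivQuotient N (N ⊔ K) le_sup_left
  refine ⟨hyp_of_quot ((N ⊔ K).map (QuotientGroup.mk' N)) (hyp_equiv e.symm hh), fun hel => ?_⟩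
  exact hne (elem_equiv e (elem_quot ((N ⊔ K).map (QuotientGroup.mk' N)) hel))

/-- the index bound -/
theorem cq_gen_idx {G : Type} [Group G] (hG : HypGroup G) {A : Bool → Type} [∀ b, Group (A b)]
    (Kb : ∀ b, Subgroup (A b)) [∀ b, (Kb b).Normal] (π : ∀ b, G →* A b)
    (hs : ∀ b, Function.Surjective (π b))
    (h3 : ∀ b, ∀ g ∈ Subgroup.centralizer (rad G : Set G),
      π b g ∈ Subgroup.centralizer (Kb b : Set (A b)))
    {Γ : Type} [Group Γ] (K : Subgroup Γ) [K.Normal] (i : ∀ b, A b →* Γ)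
    (hgen : ∀ R : Subgroup Γ, (∀ b (a : A b), i b a ∈ R) → R = ⊤)
    (hc : ∀ b, ∀ a ∈ Subgroup.centralizer (Kb b : Set (A b)),
        i b a ∈ Subgroup.centralizer (K : Set Γ))
    (ht : ∀ g : G, (i false (π false g))⁻¹ * i true (π true g) ∈ Subgroup.centralizer (K : Set Γ)) :
    (Subgroup.centralizer (K : Set Γ)).index ≠ 0 ∧
      (Subgroup.centralizer (K : Set Γ)).index ≤ pidx G := by
  let θ : G →* Γ ⧸ Subgroup.centralizer (K : Set Γ) :=
    (QuotientGroup.mk' (Subgroup.centralizer (K : Set Γ))).comp ((i true).comp (π true))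
  have hθ : ∀ g, θ g = QuotientGroup.mk' (Subgroup.centralizer (K : Set Γ)) (i true (π true g)) :=
    fun g => rfl
  have hran : θ.range = ⊤ := by
    have h1 := hgen (θ.range.comap (QuotientGroup.mk' (Subgroup.centralizer (K : Set Γ)))) (by
      intro b a
      obtain ⟨g, rfl⟩ := hs b a
      rw [Subgroup.mem_comap]
      refine ⟨g, ?_⟩
      rw [hθ]
      cases b
      · exact ((QuotientGroup.eq).2 (ht g)).symm
      · rfl)
    rw [eq_top_iff]
    intro x _
    obtain ⟨g, rfl⟩ := QuotientGroup.mk'_surjective (Subgroup.centralizer (K : Set Γ)) x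
    have h2 : g ∈ (θ.range.comap (QuotientGroup.mk' (Subgroup.centralizer (K : Set Γ)))) := by
      rw [h1]; exact Subgroup.mem_top g
    exact h2
  have hker : Subgroup.centralizer (rad G : Set G) ≤ θ.ker := by
    intro g hg
    rw [MonoidHom.mem_ker, hθ]
    exact (QuotientGroup.eq_one_iff _).2 (hc true _ (h3 true g hg))
  have hidx : θ.ker.index = (Subgroup.centralizer (K : Set Γ)).index := by
    rw [Subgroup.index_ker, hran, Subgroup.card_top]
    rfl
  have hdvd := Subgroup.index_dvd_of_le hker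
  rw [hidx] at hdvd
  have h0 : (Subgroup.centralizer (rad G : Set G)).index ≠ 0 := pidx_ne_zero hG
  refine ⟨fun h => h0 ?_, Nat.le_of_dvd (Nat.pos_of_ne_zero h0) hdvd⟩
  rw [h] at hdvd
  exact Nat.eq_zero_of_zero_dvd hdvd

theorem cq_gen_e1 {Q : Type} [Group Q] (a u v : Q) (h : a * (u⁻¹ * v) = 1) : u * a⁻¹ = v := by
  rw [inv_eq_of_mul_eq_one_right h]; simp

theorem cq_gen_e2 {Q : Type} [Group Q] (a u v : Q) (h : a * (u⁻¹ * v) = 1) : v * a = u := by
  rw [eq_inv_of_mul_eq_one_left h]; simp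

theorem cq_gen_bool (b c : Bool) (h : ¬ c = b) : c = !b := by
  revert h; cases b <;> cases c <;> simp

/-- TARGET -/
theorem cq_gen {G : Type} [Group G] (hG : HypGroup G) {A : Bool → Type} [∀ b, Group (A b)]
    (hA : ∀ b, HypGroup (A b)) (hne : ∀ b, ¬ Elem (A b)) (π : ∀ b, G →* A b)
    (hs : ∀ b, Function.Surjective (π b)) (hi : ∀ b, ∀ x ∈ rad G, π b x = 1 → x = 1)
    (hp : ∀ b, pidx (A b) = pidx G) (hq : ∀ b, qidx (A b) = qidx G) (S : ∀ b, Set (A b))
    (hS : ∀ b, (S b).Finite) :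
    ∃ (Q : Type) (_ : Group Q) (φ : ∀ b, A b →* Q), (∀ b, Function.Surjective (φ b)) ∧
      (∀ b, ∀ s ∈ S b, φ b s = 1 → s = 1) ∧ HypGroup Q ∧ ¬ Elem Q ∧ pidx Q ≤ pidx G := by
  have hfG : Finite (rad G) := rad_finite hG
  have hfA : ∀ b, Finite (rad (A b)) := fun b => rad_finite (hA b)
  have hK0 : ∀ b, (rad G).map (π b) ≤ rad (A b) := fun b =>
    le_rad (Subgroup.Normal.map (rad_normal G) (π b) (hs b)) (cq_gen_map_fin _ hfG _)
  have h3 : ∀ b, ∀ g ∈ Subgroup.centralizer (rad G : Set G),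
      π b g ∈ Subgroup.centralizer (rad (A b) : Set (A b)) := fun b =>
    h3_of_eq hG (hA b) (π b) (hs b) (hi b) (hp b)
  have h4 : ∀ b, ∀ x ∈ rad (A b), ∃ y ∈ rad G, ∃ z ∈ rad (A b),
      z ∈ Subgroup.centralizer (rad (A b) : Set (A b)) ∧ x = π b y * z := fun b =>
    h4_of_eq hG (hA b) (π b) (hs b) (hi b) (hq b)
  obtain ⟨Γ, gΓ, K, nK, fK, i, p, hinj, hsurj, hker, hpi, hcent, hcent2, hKeq⟩ :=
    alg (rad G) (fun b => rad (A b)) π hs hi hK0 h3 h4
  obtain ⟨X0, hX0, hX0f⟩ := Group.fg_iff.1 (hyp_fg hG)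
  have hXf : (insert (1 : G) X0).Finite := hX0f.insert 1
  have hX : Subgroup.closure (insert (1 : G) X0) = ⊤ := by
    rw [eq_top_iff, ← hX0]
    exact Subgroup.closure_mono (Set.subset_insert _ _)
  set X : Set G := insert (1 : G) X0 with hXdef
  have : Finite X := hXf.to_subtype
  have : Nonempty X := ⟨⟨1, Set.mem_insert _ _⟩⟩
  have hSf : ((K : Set Γ) ∪ (i true '' S true) ∪ (i false '' S false)).Finite :=
    ((Set.toFinite (K : Set Γ)).union ((hS true).image _)).union ((hS false).image _)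
  obtain ⟨w, hw, hwS, hwH, hwE, hwN⟩ := core_amalg (fun b => rad (A b))
    (fun b => hyp_quot (rad (A b)) (hA b)) (fun b h => hne b (elem_of_quot (rad (A b)) h))
    (fun b => noFin_rad (hA b)) K i p hsurj hker hpi
    (fun b => Subgroup.centralizer (rad (A b) : Set (A b))) hcent
    (fun b => cq_gen_not_le (hA b) (hne b)) (κ := X × Bool) (fun k => k.2)
    (fun k => (i false (π false k.1))⁻¹ * i true (π true k.1)) (fun k => hcent2 k.1)
    ((K : Set Γ) ∪ (i true '' S true) ∪ (i false '' S false)) hSf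
  set N : Subgroup Γ := Subgroup.normalClosure (Set.range fun k : X × Bool =>
    w k * ((i false (π false (k.1 : G)))⁻¹ * i true (π true (k.1 : G)))) with hN
  have hgen : ∀ R : Subgroup Γ, (∀ b (a : A b), i b a ∈ R) → R = ⊤ := fun R hR =>
    cq_gen_top (fun b => rad (A b)) K i p hker hpi hKeq R hR
  obtain ⟨hQ1, hQ2⟩ := cq_gen_hyp N K fK hwH hwE
  have hrad : rad (Γ ⧸ N) = K.map (QuotientGroup.mk' N) := cq_gen_rad N K fK hwN
  -- the relations
  have hrel : ∀ (x : X) (ε : Bool), ∃ a : A ε,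
      (i ε a) * ((i false (π false (x : G)))⁻¹ * i true (π true (x : G))) ∈ N := by
    intro x ε
    obtain ⟨a, _, ha⟩ := hw (x, ε)
    refine ⟨a, ?_⟩
    have : w (x, ε) * ((i false (π false (x : G)))⁻¹ * i true (π true (x : G))) ∈ N :=
      Subgroup.subset_normalClosure ⟨(x, ε), rfl⟩
    rwa [← ha] at this
  let φ : ∀ b, A b →* Γ ⧸ N := fun b => (QuotientGroup.mk' N).comp (i b)
  have hφ : ∀ b (a : A b), φ b a = QuotientGroup.mk' N (i b a) := fun _ _ => rfl
  have hrel2 : ∀ (x : X) (ε : Bool), ∃ a : A ε,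
      φ ε a * ((φ false (π false (x : G)))⁻¹ * φ true (π true (x : G))) = 1 := by
    intro x ε
    obtain ⟨a, ha⟩ := hrel x ε
    refine ⟨a, ?_⟩
    have h := (QuotientGroup.eq_one_iff _).2 ha
    exact h
  -- generation of the quotient
  have hgenQ : ∀ R : Subgroup (Γ ⧸ N), (∀ b (a : A b), φ b a ∈ R) → R = ⊤ := by
    intro R hR
    have h1 := hgen (R.comap (QuotientGroup.mk' N)) (fun b a => hR b a)
    rw [eq_top_iff]
    intro x _
    obtain ⟨g, rfl⟩ := QuotientGroup.mk'_surjective N x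
    have h2 : g ∈ R.comap (QuotientGroup.mk' N) := by rw [h1]; exact Subgroup.mem_top g
    exact h2
  have hfin : ∀ b, (∀ x : X, φ (!b) (π (!b) (x : G)) ∈ (φ b).range) →
      Function.Surjective (φ b) := by
    intro b hb
    rw [← MonoidHom.range_eq_top]
    have h1 : ∀ g : G, φ (!b) (π (!b) g) ∈ (φ b).range := by
      have h2 : (⊤ : Subgroup G) ≤ (φ b).range.comap ((φ (!b)).comp (π (!b))) := by
        rw [← hX, Subgroup.closure_le]
        intro x hx
        exact hb ⟨x, hx⟩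
      intro g
      exact h2 (Subgroup.mem_top g)
    apply hgenQ
    intro c a
    by_cases hcb : c = b
    · subst hcb
      exact ⟨a, rfl⟩
    · have hc' : c = !b := cq_gen_bool b c hcb
      subst hc'
      obtain ⟨g, rfl⟩ := hs (!b) a
      exact h1 g
  have hsur : ∀ b, Function.Surjective (φ b) := by
    intro b
    apply hfin
    intro x
    obtain ⟨a, ha⟩ := hrel2 x b
    cases b
    · -- b = false
      refine ⟨π false (x : G) * a⁻¹, ?_⟩
      rw [map_mul, map_inv]
      exact cq_gen_e1 _ _ _ ha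
    · refine ⟨π true (x : G) * a, ?_⟩
      rw [map_mul]
      exact cq_gen_e2 _ _ _ ha
  refine ⟨Γ ⧸ N, inferInstance, φ, hsur, ?_, hQ1, hQ2, ?_⟩
  · intro b s hsS h1
    have h2 : i b s ∈ N := (QuotientGroup.eq_one_iff _).1 h1
    have h3 : i b s ∈ ((K : Set Γ) ∪ (i true '' S true) ∪ (i false '' S false)) := by
      cases b
      · exact Or.inr ⟨s, hsS, rfl⟩
      · exact Or.inl (Or.inr ⟨s, hsS, rfl⟩)
    have h4 := hwS _ h3 h2
    exact hinj b (by rw [h4, map_one])
  · obtain ⟨hc0, hcle⟩ := cq_gen_idx hG (fun b => rad (A b)) π hs h3 K i hgen hcent hcent2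
    have h5 : Subgroup.centralizer (K : Set Γ) ≤
        (Subgroup.centralizer (rad (Γ ⧸ N) : Set (Γ ⧸ N))).comap (QuotientGroup.mk' N) := by
      intro g hg
      rw [Subgroup.mem_comap, Subgroup.mem_centralizer_iff]
      intro y hy
      rw [hrad] at hy
      obtain ⟨k, hk, rfl⟩ := hy
      rw [← map_mul, ← map_mul, Subgroup.mem_centralizer_iff.1 hg k hk]
    have h6 := Subgroup.index_dvd_of_le h5
    rw [Subgroup.index_comap_of_surjective _ (QuotientGroup.mk'_surjective N)] at h6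
    exact (Nat.le_of_dvd (Nat.pos_of_ne_zero hc0) h6).trans hcle

end Pool.Agent.H507

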