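import Pool.Agent.H507_D.Defs2
import Pool.Agent.H507_P.A2
import Pool.Agent.H507_P.A4
import Pool.Agent.H507_P.B1
import Pool.Agent.H507_P.C0
import Pool.Agent.H507_P.R1

set_option autoImplicit false

namespace Pool.Agent.H507

open Pool.Agent.TH68 Pool.Agent.Helper97.Hyp

/-! ### The families over `Bool` -/

/-- the normal subgroups -/
def dKb (A : Bool → Type) [∀ b, Group (A b)] : ∀ b, Subgroup (A b)
  | true => rad (A true)
  | false => ⊥

instance dKb_normal (A : Bool → Type) [∀ b, Group (A b)] (b : Bool) : (dKb A b).Normal :=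
  match b with
  | true => rad_normal (A true)
  | false => Subgroup.normal_bot

/-- the maps to `rad` -/
def dj (A : Bool → Type) [∀ b, Group (A b)] : ∀ b, dKb A b →* rad (A true)
  | true => MonoidHom.id _
  | false => 1

/-- the actions -/
def dal (A : Bool → Type) [∀ b, Group (A b)] : ∀ b, A b →* MulAut (rad (A true))
  | true => MulAut.conjNormal
  | false => 1

/-- the normal subgroups from which the corrections are taken -/
def dC (A : Bool → Type) [∀ b, Group (A b)] : ∀ b, Subgroup (A b)
  | true => Subgroup.centralizer (rad (A true) : Set (A true))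
  | false => fres (A false)

theorem mem_fres {B : Type} [Group B] {b : B} :
    b ∈ fres B ↔ ∀ N : Subgroup B, N.FiniteIndex → b ∈ N := by
  unfold fres
  rw [Subgroup.mem_sInf]
  rfl

theorem comap_fi {B D : Type} [Group B] [Group D] (f : B →* D) (N : Subgroup D)
    (h : N.FiniteIndex) : (N.comap f).FiniteIndex := by
  refine ⟨?_⟩
  rw [Subgroup.index_comap]
  exact (inferInstance : (N.subgroupOf f.range).FiniteIndex).index_ne_zero

instance fres_normal (B : Type) [Group B] : (fres B).Normal := by
  refine ⟨fun n hn g => ?_⟩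
  rw [mem_fres] at hn ⊢
  intro N hN
  have h := hn _ (comap_fi (MulAut.conj g).toMonoidHom N hN)
  exact h

instance dC_normal (A : Bool → Type) [∀ b, Group (A b)] (b : Bool) : (dC A b).Normal :=
  match b with
  | true => Subgroup.normal_centralizer
  | false => fres_normal (A false)

theorem fres_map {B D : Type} [Group B] [Group D] (f : B →* D) : (fres B).map f ≤ fres D := by
  rintro _ ⟨b, hb, rfl⟩
  rw [mem_fres]
  intro N hN
  exact mem_fres.1 hb _ (comap_fi f N hN)

theorem noFin_equiv {Γ Γ' : Type} [Group Γ] [Group Γ'] (e : Γ ≃* Γ') (h : NoFin Γ) :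
    NoFin Γ' := by
  intro N hN hf
  have h1 : (N.comap e.toMonoidHom).Normal := hN.comap _
  have h2 : Finite (N.comap e.toMonoidHom) :=
    Finite.of_injective (fun x : N.comap e.toMonoidHom => (⟨e x.1, x.2⟩ : N)) (by
      intro x y hxy
      have h3 : e x.1 = e y.1 := congrArg Subtype.val hxy
      exact Subtype.ext (e.injective h3))
  have h3 := h _ h1 h2
  rw [eq_bot_iff]
  intro x hx
  have h4 : e.symm x ∈ N.comap e.toMonoidHom := by
    change e (e.symm x) ∈ N
    rw [e.apply_symm_apply]
    exact hx
  rw [h3, Subgroup.mem_bot] at h4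
  rw [Subgroup.mem_bot, ← e.apply_symm_apply x, h4, map_one]

/-- finite groups are elementary -/
theorem elem_of_finite {G : Type} [Group G] [Finite G] : Elem G :=
  ⟨⊥, inferInstance, inferInstance⟩

theorem dense_step_aux (A : Bool → Type) [∀ b, Group (A b)] (hA : ∀ b, HypGroup (A b))
    (hAe : ∀ b, ¬ Elem (A b)) (hBf : NoFin (A false)) (hres : fres (A false) ≠ ⊥)
    (S : Set (A true)) (hS : S.Finite) :
    ∃ (Q : Type) (_ : Group Q) (φ : A true →* Q), Function.Surjective φ ∧
      (∀ s ∈ S, φ s = 1 → s = 1) ∧ HypGroup Q ∧ ¬ Elem Q ∧ (fres Q).FiniteIndex := by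
  have hfin : Finite (rad (A true)) := rad_finite (hA true)
  -- the amalgam
  have hjinj : ∀ b, Function.Injective (dj A b) := by
    intro b
    match b with
    | true => exact fun x y h => h
    | false =>
      intro x y _
      exact Subtype.ext ((Subgroup.mem_bot.1 x.2).trans (Subgroup.mem_bot.1 y.2).symm)
  have h1 : ∀ b (κ : dKb A b) (x : rad (A true)),
      dal A b κ x = dj A b κ * x * (dj A b κ)⁻¹ := by
    intro b
    match b with
    | true =>
      intro κ x
      exact Subtype.ext (MulAut.conjNormal_apply _ _)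
    | false =>
      intro κ x
      change x = 1 * x * 1⁻¹
      group
  have h2 : ∀ b (g : A b) (κ κ' : dKb A b), (κ' : A b) = g * κ * g⁻¹ →
      dal A b g (dj A b κ) = dj A b κ' := by
    intro b
    match b with
    | true =>
      intro g κ κ' h
      exact Subtype.ext ((MulAut.conjNormal_apply _ _).trans h.symm)
    | false =>
      intro g κ κ' h
      rfl
  obtain ⟨Γ, instΓ, J, i, p, hJ, hi, hij, hact, hp, hpk, hpi⟩ :=
    alg0 (dKb A) (dj A) hjinj (dal A) h1 h2
  have hKn : J.range.Normal := hpk ▸ (inferInstance : p.ker.Normal)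
  have hKf : Finite J.range := (Set.finite_range J).to_subtype
  -- the centralizers
  have hcent : ∀ b (a : A b), (∀ x, dal A b a x = x) →
      i b a ∈ Subgroup.centralizer (J.range : Set Γ) := by
    intro b a h
    rw [Subgroup.mem_centralizer_iff]
    rintro _ ⟨x, rfl⟩
    have h3 := hact b a x
    rw [h x] at h3
    exact (mul_inv_eq_iff_eq_mul.1 h3).symm
  have hC : ∀ b, ∀ a ∈ dC A b, i b a ∈ Subgroup.centralizer (J.range : Set Γ) := by
    intro b
    match b with
    | true =>
      intro a ha
      refine hcent true a fun x => Subtype.ext ?_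
      have h3 : (x : A true) * a = a * x := Subgroup.mem_centralizer_iff.1 ha x x.2
      refine (MulAut.conjNormal_apply _ _).trans ?_
      rw [← h3, mul_assoc, mul_inv_cancel, mul_one]
    | false => exact fun a _ => hcent false a fun x => rfl
  have hBcent : ∀ a : A false, i false a ∈ Subgroup.centralizer (J.range : Set Γ) :=
    fun a => hcent false a fun x => rfl
  have hCfi : (dC A true).FiniteIndex := ⟨pidx_ne_zero (hA true)⟩
  have hCK : ∀ b, ¬ dC A b ≤ dKb A b := by
    intro b
    match b with
    | true =>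
      intro hle
      apply hAe true
      have h3 : (dC A true : Set (A true)).Finite :=
        Set.Finite.subset (Set.toFinite (rad (A true) : Set (A true))) hle
      have h4 : Finite (dC A true) := h3.to_subtype
      have h6 : Finite (A true) := by
        apply Nat.finite_of_card_ne_zero
        rw [← Subgroup.card_mul_index (dC A true)]
        exact mul_ne_zero Nat.card_pos.ne' hCfi.index_ne_zero
      exact elem_of_finite
    | false =>
      intro hle
      exact hres (le_bot_iff.1 hle)
  have hQh : ∀ b, HypGroup (A b ⧸ dKb A b) := by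
    intro b
    match b with
    | true =>
      have : Finite (dKb A true) := hfin
      exact hyp_quot (dKb A true) (hA true)
    | false => exact hyp_equiv (QuotientGroup.quotientBot (G := A false)).symm (hA false)
  have hQe : ∀ b, ¬ Elem (A b ⧸ dKb A b) := by
    intro b
    match b with
    | true =>
      have : Finite (dKb A true) := hfin
      exact fun h => hAe true (elem_of_quot (dKb A true) h)
    | false => exact fun h => hAe false (elem_equiv (QuotientGroup.quotientBot (G := A false)) h)
  have hQn : ∀ b, NoFin (A b ⧸ dKb A b) := by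
    intro b
    match b with
    | true => exact noFin_rad (hA true)
    | false => exact noFin_equiv (QuotientGroup.quotientBot (G := A false)).symm hBf
  -- generators
  have hfgG : Group.FG (A true) := hyp_fg (hA true)
  have hfgB : Group.FG (A false) := hyp_fg (hA false)
  have hfgC : Group.FG (dC A true) := Subgroup.fg_of_index_ne_zero _
  obtain ⟨X, hX⟩ := (Group.fg_iff_subgroup_fg (dC A true)).1 hfgC
  obtain ⟨Y, hY⟩ := Group.fg_def.1 hfgB
  set X' : Set (A true) := insert 1 (X : Set (A true)) with hX'
  have hXf : Finite X' := (X.finite_toSet.insert 1).to_subtype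
  have hX'C : ∀ x ∈ X', x ∈ dC A true := by
    intro x hx
    rcases hx with rfl | hx
    · exact one_mem _
    · rw [← hX]
      exact Subgroup.subset_closure hx
  let τ : X' ⊕ (Y : Set (A false)) → Bool := Sum.elim (fun _ => false) (fun _ => true)
  let t : X' ⊕ (Y : Set (A false)) → Γ := Sum.elim (fun x => i true x) (fun y => i false y)
  have : Nonempty X' := ⟨⟨1, Set.mem_insert _ _⟩⟩
  have ht : ∀ k, t k ∈ Subgroup.centralizer (J.range : Set Γ) := by
    rintro (x | y)
    · exact hC true x (hX'C x x.2)
    · exact hBcent y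
  obtain ⟨w, hw, hwS, hwH, hwE, -⟩ := core_amalg (dKb A) hQh hQe hQn J.range i p hp hpk hpi
    (dC A) hC hCK τ t ht ((J.range : Set Γ) ∪ i true '' S)
    ((Set.toFinite _).union (hS.image _))
  set N : Subgroup Γ := Subgroup.normalClosure (Set.range fun k => w k * t k) with hN
  have hmemN : ∀ k, w k * t k ∈ N := fun k =>
    Subgroup.subset_normalClosure (Set.mem_range_self k)
  set φ : A true →* Γ ⧸ N := (QuotientGroup.mk' N).comp (i true) with hφ
  set ψ : A false →* Γ ⧸ N := (QuotientGroup.mk' N).comp (i false) with hψ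
  have hmk : ∀ k, QuotientGroup.mk' N (t k) = (QuotientGroup.mk' N (w k))⁻¹ := by
    intro k
    have h3 : QuotientGroup.mk' N (w k * t k) = 1 :=
      (QuotientGroup.eq_one_iff _).2 (hmemN k)
    rw [map_mul] at h3
    exact eq_inv_of_mul_eq_one_right h3
  have hψφ : ψ.range ≤ φ.range := by
    rw [MonoidHom.range_eq_map, ← hY, Subgroup.map_le_iff_le_comap, Subgroup.closure_le]
    intro y hy
    have h3 := hmk (Sum.inr ⟨y, hy⟩)
    obtain ⟨c, hc, hcw⟩ := hw (Sum.inr ⟨y, hy⟩)
    change ψ y ∈ φ.range
    have hcw' : i true c = w (Sum.inr ⟨y, hy⟩) := hcw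
    have h4 : ψ y = (φ c)⁻¹ := by
      change QuotientGroup.mk' N (i false y) = (QuotientGroup.mk' N (i true c))⁻¹
      rw [hcw']
      exact h3
    rw [h4]
    exact inv_mem ⟨c, rfl⟩
  have hCψ : (dC A true).map φ ≤ (fres (A false)).map ψ := by
    rw [← hX, Subgroup.map_le_iff_le_comap, Subgroup.closure_le]
    intro x hx
    have hx' : x ∈ X' := Set.mem_insert_of_mem _ hx
    have h3 := hmk (Sum.inl ⟨x, hx'⟩)
    obtain ⟨c, hc, hcw⟩ := hw (Sum.inl ⟨x, hx'⟩)
    change φ x ∈ (fres (A false)).map ψ
    have hcw' : i false c = w (Sum.inl ⟨x, hx'⟩) := hcw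
    have h4 : φ x = (ψ c)⁻¹ := by
      change QuotientGroup.mk' N (i true x) = (QuotientGroup.mk' N (i false c))⁻¹
      rw [hcw']
      exact h3
    rw [h4]
    exact inv_mem (Subgroup.mem_map_of_mem ψ hc)
  -- `Γ` is generated by the ranges
  have hgen : ∀ γ : Γ, γ ∈ (i true).range ⊔ (i false).range := by
    have h3 : ∀ m : Monoid.CoprodI (fun b => A b ⧸ dKb A b),
        ∃ h ∈ (i true).range ⊔ (i false).range, p h = m := by
      intro m
      induction m using Monoid.CoprodI.induction_on with
      | one => exact ⟨1, one_mem _, map_one p⟩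
      | of b q =>
        obtain ⟨a, rfl⟩ := QuotientGroup.mk_surjective q
        refine ⟨i b a, ?_, hpi b a⟩
        match b with
        | true => exact Subgroup.mem_sup_left ⟨a, rfl⟩
        | false => exact Subgroup.mem_sup_right ⟨a, rfl⟩
      | mul x y hx hy =>
        obtain ⟨u, hu, rfl⟩ := hx
        obtain ⟨v, hv, rfl⟩ := hy
        exact ⟨u * v, mul_mem hu hv, map_mul p u v⟩
    have h4 : J.range ≤ (i true).range := by
      rintro _ ⟨x, rfl⟩
      exact ⟨x, hij true x⟩
    intro γ
    obtain ⟨h, hh, he⟩ := h3 (p γ)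
    have h5 : h⁻¹ * γ ∈ p.ker := by
      rw [MonoidHom.mem_ker, map_mul, map_inv, he, inv_mul_cancel]
    rw [hpk] at h5
    have h6 := mul_mem hh (Subgroup.mem_sup_left (h4 h5) :
      h⁻¹ * γ ∈ (i true).range ⊔ (i false).range)
    rwa [mul_inv_cancel_left] at h6
  have hφs : Function.Surjective φ := by
    intro q
    obtain ⟨γ, rfl⟩ := QuotientGroup.mk_surjective q
    have h3 : (i true).range ⊔ (i false).range ≤ φ.range.comap (QuotientGroup.mk' N) := by
      refine sup_le ?_ ?_
      · rintro _ ⟨a, rfl⟩
        exact ⟨a, rfl⟩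
      · rintro _ ⟨a, rfl⟩
        exact hψφ ⟨a, rfl⟩
    exact h3 (hgen γ)
  -- the quotient
  have hMf : Finite ((N ⊔ J.range).map (QuotientGroup.mk' N)) := by
    have h3 : (N ⊔ J.range).map (QuotientGroup.mk' N) = J.range.map (QuotientGroup.mk' N) := by
      rw [Subgroup.map_sup, QuotientGroup.map_mk'_self, bot_sup_eq]
    rw [h3]
    exact ((Set.toFinite (J.range : Set Γ)).image (QuotientGroup.mk' N)).to_subtype
  have hMn : ((N ⊔ J.range).map (QuotientGroup.mk' N)).Normal :=
    Subgroup.Normal.map inferInstance _ (QuotientGroup.mk'_surjective N)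
  have e : (Γ ⧸ N) ⧸ ((N ⊔ J.range).map (QuotientGroup.mk' N)) ≃* Γ ⧸ (N ⊔ J.range) :=
    QuotientGroup.quotientQuotientEquivQuotient N (N ⊔ J.range) le_sup_left
  refine ⟨Γ ⧸ N, inferInstance, φ, hφs, ?_, ?_, ?_, ?_⟩
  · intro s hs h3
    have h4 : i true s ∈ N := (QuotientGroup.eq_one_iff _).1 h3
    have h5 := hwS _ (Or.inr ⟨s, hs, rfl⟩) h4
    exact hi true (h5.trans (map_one _).symm)
  · exact hyp_of_quot _ (hyp_equiv e.symm hwH)
  · exact fun h => hwE (elem_equiv e (elem_quot _ h))
  · have h3 : ((dC A true).map φ).FiniteIndex := by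
      refine ⟨fun h0 => ?_⟩
      have h4 := Subgroup.index_map_dvd (dC A true) hφs
      rw [h0, zero_dvd_iff] at h4
      exact hCfi.index_ne_zero h4
    exact Subgroup.finiteIndex_of_le (hCψ.trans (fres_map ψ))

/-- TARGET -/
theorem dense_step {B : Type} [Group B] (hB : HypGroup B) (hBe : ¬ Elem B) (hBf : NoFin B)
    (hres : fres B ≠ ⊥) {G : Type} [Group G] (hG : HypGroup G) (hne : ¬ Elem G) (S : Set G)
    (hS : S.Finite) :
    ∃ (Q : Type) (_ : Group Q) (φ : G →* Q), Function.Surjective φ ∧
      (∀ s ∈ S, φ s = 1 → s = 1) ∧ HypGroup Q ∧ ¬ Elem Q ∧ (fres Q).FiniteIndex := by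
  let A : Bool → Type := fun b => Bool.rec B G b
  let inst : ∀ b, Group (A b) := fun b =>
    match b with
    | true => (inferInstance : Group G)
    | false => (inferInstance : Group B)
  refine @dense_step_aux A inst ?_ ?_ hBf hres S hS
  · intro b
    match b with
    | true => exact hG
    | false => exact hB
  · intro b
    match b with
    | true => exact hne
    | false => exact hBe

end Pool.Agent.H507
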