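import Pool.Agent.H507_D.Defs2
import Pool.Agent.H507_P.A1
import Pool.Agent.H507_P.G4c
import Pool.Agent.H507_P.R1

set_option autoImplicit false

namespace Pool.Agent.H507

open Pool.Agent.TH68 Pool.Agent.Helper97.Hyp

/-- the two factors -/
def goodFac (R : Type) : Bool → Type
  | true => R
  | false => Multiplicative ℤ

instance goodFacGroup (R : Type) [Group R] : ∀ b, Group (goodFac R b)
  | true => inferInstanceAs (Group R)
  | false => inferInstanceAs (Group (Multiplicative ℤ))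

/-- the word norm of the integers -/
def goodNorm : WNorm (Multiplicative ℤ) where
  ℓ g := (Multiplicative.toAdd g).natAbs
  one' := rfl
  eq_one g h := by
    have h1 : (Multiplicative.toAdd g) = 0 := Int.natAbs_eq_zero.1 h
    exact Multiplicative.toAdd.injective h1
  inv' g := by
    rw [toAdd_inv, Int.natAbs_neg]
  mul_le g h := by
    rw [toAdd_mul]
    exact Int.natAbs_add_le _ _
  geod g k hk := by
    rcases le_total 0 (Multiplicative.toAdd g) with h | h
    · refine ⟨Multiplicative.ofAdd (k : ℤ), Multiplicative.ofAdd (Multiplicative.toAdd g - k),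
        ?_, ?_, ?_⟩
      · rw [← ofAdd_add]
        apply Multiplicative.toAdd.injective
        rw [toAdd_ofAdd]
        ring
      · rw [toAdd_ofAdd]; omega
      · rw [toAdd_ofAdd]; omega
    · refine ⟨Multiplicative.ofAdd (-(k : ℤ)), Multiplicative.ofAdd (Multiplicative.toAdd g + k),
        ?_, ?_, ?_⟩
      · rw [← ofAdd_add]
        apply Multiplicative.toAdd.injective
        rw [toAdd_ofAdd]
        ring
      · rw [toAdd_ofAdd]; omega
      · rw [toAdd_ofAdd]; omega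
  fin r := by
    refine ((Set.finite_Icc (-(r : ℤ)) r).preimage
      (f := Multiplicative.toAdd) (Multiplicative.toAdd.injective.injOn)).subset ?_
    intro g hg
    have h1 : (Multiplicative.toAdd g).natAbs ≤ r := hg
    show Multiplicative.toAdd g ∈ Set.Icc (-(r : ℤ)) r
    rw [Set.mem_Icc]
    omega

theorem good_line (a b c d : ℝ) : |a - b| + |c - d| ≤ max (|a - c| + |b - d|) (|a - d| + |b - c|) := by
  by_contra hcon
  rw [not_le, max_lt_iff] at hcon
  obtain ⟨h1, h2⟩ := hcon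
  rcases abs_cases (a - b) with ⟨e1, f1⟩ | ⟨e1, f1⟩ <;>
  rcases abs_cases (c - d) with ⟨e2, f2⟩ | ⟨e2, f2⟩ <;>
  rcases abs_cases (a - c) with ⟨e3, f3⟩ | ⟨e3, f3⟩ <;>
  rcases abs_cases (b - d) with ⟨e4, f4⟩ | ⟨e4, f4⟩ <;>
  rcases abs_cases (a - d) with ⟨e5, f5⟩ | ⟨e5, f5⟩ <;>
  rcases abs_cases (b - c) with ⟨e6, f6⟩ | ⟨e6, f6⟩ <;>
  linarith

theorem good_hypZ : HypGroup (Multiplicative ℤ) := by
  refine ⟨goodNorm, 0, ?_⟩
  intro x y z w
  have hd : ∀ x y : Pt goodNorm, dist x y =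
      |((Multiplicative.toAdd x.out : ℤ) : ℝ) - ((Multiplicative.toAdd y.out : ℤ) : ℝ)| := by
    intro x y
    rw [dist_def]
    show (((Multiplicative.toAdd (x.out⁻¹ * y.out)).natAbs : ℕ) : ℝ) = _
    rw [toAdd_mul, toAdd_inv]
    rw [← Int.cast_natCast, Int.natCast_natAbs, Int.cast_abs]
    push_cast
    rw [abs_sub_comm]
    congr 1
    ring
  rw [hd, hd, hd, hd, hd, hd, mul_zero, add_zero]
  exact good_line _ _ _ _

/-- TARGET 1 -/
theorem good_source {R : Type} [Group R] (hR : HypGroup R) (hres : fres R ≠ ⊥) :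
    ∃ (B : Type) (_ : Group B), HypGroup B ∧ ¬ Elem B ∧ NoFin B ∧ fres B ≠ ⊥ := by
  classical
  obtain ⟨x₀, hx₀, hx₀1⟩ : ∃ x : R, x ∈ fres R ∧ x ≠ 1 := by
    by_contra hcon
    push Not at hcon
    exact hres ((Subgroup.eq_bot_iff_forall _).2 hcon)
  let ι₁ : R →* Monoid.CoprodI (goodFac R) := Monoid.CoprodI.of (M := goodFac R) (i := true)
  let ι₂ : Multiplicative ℤ →* Monoid.CoprodI (goodFac R) :=
    Monoid.CoprodI.of (M := goodFac R) (i := false)
  have hι₁ : Function.Injective ι₁ := Monoid.CoprodI.of_injective (M := goodFac R) true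
  have hι₂ : Function.Injective ι₂ := Monoid.CoprodI.of_injective (M := goodFac R) false
  have hmal : ∀ (x y : Multiplicative ℤ), x ≠ 1 → ∀ g : Monoid.CoprodI (goodFac R),
      g * ι₂ x * g⁻¹ = ι₂ y → ∃ g' : Multiplicative ℤ, g = ι₂ g' := by
    intro x y hx g h
    exact malnormal (G := goodFac R) (i := false) (x := x) (y := y) hx h
  have hret : ∀ (x : R) (y : Multiplicative ℤ), ι₁ x = ι₂ y → x = 1 := by
    intro x y h
    refine retract (G := goodFac R) (i := true) (j := false) (by decide) (x := x) (y := y) 1 ?_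
    rw [one_mul, inv_one, mul_one]
    exact h
  obtain ⟨g₀, hg₀⟩ : ∃ g₀ : Multiplicative ℤ, g₀ = Multiplicative.ofAdd 1 := ⟨_, rfl⟩
  have hgz : ∀ k : ℤ, g₀ ^ k = 1 → k = 0 := by
    intro k hk
    have := congrArg Multiplicative.toAdd hk
    rw [hg₀, toAdd_zpow, toAdd_ofAdd, toAdd_one, smul_eq_mul, mul_one] at this
    exact this
  have htf : ∀ (x : Multiplicative ℤ) (k : ℕ), 0 < k → x ^ k = 1 → x = 1 := by
    intro x k hk h
    have := congrArg Multiplicative.toAdd h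
    rw [toAdd_pow, toAdd_one, nsmul_eq_mul, mul_eq_zero] at this
    rcases this with h1 | h1
    · have : k = 0 := by exact_mod_cast h1
      omega
    · exact Multiplicative.toAdd.injective h1
  refine ⟨Monoid.CoprodI (goodFac R), inferInstance, ?_, ?_, ?_, ?_⟩
  · apply hyp_coprodI
    intro b
    cases b
    · exact good_hypZ
    · exact hR
  · rintro ⟨C, hC, hcyc⟩
    obtain ⟨z, hz⟩ := hcyc.exists_generator
    obtain ⟨a, ha0, -, ha⟩ := Subgroup.exists_pow_mem_of_index_ne_zero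
      (Subgroup.FiniteIndex.index_ne_zero (H := C)) (ι₂ g₀)
    obtain ⟨b, hb0, -, hb⟩ := Subgroup.exists_pow_mem_of_index_ne_zero
      (Subgroup.FiniteIndex.index_ne_zero (H := C)) (ι₁ x₀ * ι₂ g₀ * (ι₁ x₀)⁻¹)
    obtain ⟨i, hi⟩ := Subgroup.mem_zpowers_iff.1 (hz ⟨_, ha⟩)
    obtain ⟨j, hj⟩ := Subgroup.mem_zpowers_iff.1 (hz ⟨_, hb⟩)
    have hi' : (z : Monoid.CoprodI (goodFac R)) ^ i = ι₂ (g₀ ^ (a : ℤ)) := by
      have := congrArg Subtype.val hi
      rw [Subgroup.coe_zpow] at this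
      rw [this, zpow_natCast, map_pow]
    have hj' : (z : Monoid.CoprodI (goodFac R)) ^ j = ι₁ x₀ * ι₂ (g₀ ^ (b : ℤ)) * (ι₁ x₀)⁻¹ := by
      have := congrArg Subtype.val hj
      rw [Subgroup.coe_zpow] at this
      rw [this, zpow_natCast, map_pow, ← conj_pow]
    have hi0 : i ≠ 0 := by
      rintro rfl
      rw [zpow_zero] at hi'
      have h1 : g₀ ^ (a : ℤ) = 1 := hι₂ (by rw [← hi', map_one])
      have := hgz _ h1
      omega
    have hj0 : j ≠ 0 := by
      rintro rfl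
      rw [zpow_zero] at hj'
      have h2 : ι₂ (g₀ ^ (b : ℤ)) = 1 := by
        have : ι₂ (g₀ ^ (b : ℤ)) = (ι₁ x₀)⁻¹ * (ι₁ x₀ * ι₂ (g₀ ^ (b : ℤ)) * (ι₁ x₀)⁻¹) * ι₁ x₀ := by
          group
        rw [this, ← hj']
        group
      have h1 : g₀ ^ (b : ℤ) = 1 := hι₂ (by rw [h2, map_one])
      have := hgz _ h1
      omega
    have hkey : ι₁ x₀ * ι₂ (g₀ ^ ((b : ℤ) * i)) * (ι₁ x₀)⁻¹ = ι₂ (g₀ ^ ((a : ℤ) * j)) := by
      have h1 : ((z : Monoid.CoprodI (goodFac R)) ^ j) ^ i = (z ^ i) ^ j := by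
        rw [← zpow_mul, ← zpow_mul, mul_comm]
      rw [hi', hj', conj_zpow, ← map_zpow, ← map_zpow, ← zpow_mul, ← zpow_mul] at h1
      exact h1
    obtain ⟨y, hy⟩ := hmal _ _ (fun h => by
      have := hgz _ h
      rcases mul_eq_zero.1 this with h1 | h1
      · omega
      · exact hi0 h1) _ hkey
    exact hx₀1 (hret x₀ y hy)
  · intro F hF hfin
    rw [Subgroup.eq_bot_iff_forall]
    intro x hx
    obtain ⟨a, b, hab, he⟩ : ∃ a b : ℕ, a < b ∧
        (ι₂ g₀) ^ a * x * ((ι₂ g₀) ^ a)⁻¹ = (ι₂ g₀) ^ b * x * ((ι₂ g₀) ^ b)⁻¹ := by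
      obtain ⟨a, -, b, -, hab, he⟩ := Set.Infinite.exists_ne_map_eq_of_mapsTo
        (s := (Set.univ : Set ℕ)) Set.infinite_univ
        (f := fun k : ℕ => (ι₂ g₀) ^ k * x * ((ι₂ g₀) ^ k)⁻¹)
        (t := (F : Set (Monoid.CoprodI (goodFac R))))
        (fun k _ => hF.conj_mem x hx _) (Set.toFinite _)
      rcases lt_or_gt_of_ne hab with h | h
      · exact ⟨a, b, h, he⟩
      · exact ⟨b, a, h, he.symm⟩
    obtain ⟨k, rfl⟩ := Nat.exists_eq_add_of_lt hab
    have hcomm : x * ι₂ (g₀ ^ (k + 1)) * x⁻¹ = ι₂ (g₀ ^ (k + 1)) := by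
      rw [map_pow]
      have h1 : x = (ι₂ g₀) ^ (k + 1) * x * ((ι₂ g₀) ^ (k + 1))⁻¹ := by
        calc x = ((ι₂ g₀) ^ a)⁻¹ * ((ι₂ g₀) ^ a * x * ((ι₂ g₀) ^ a)⁻¹) * (ι₂ g₀) ^ a := by group
          _ = ((ι₂ g₀) ^ a)⁻¹ * ((ι₂ g₀) ^ (a + (k + 1)) * x * ((ι₂ g₀) ^ (a + (k + 1)))⁻¹) *
              (ι₂ g₀) ^ a := by rw [he, add_assoc]
          _ = _ := by rw [pow_add]; group
      calc x * (ι₂ g₀) ^ (k + 1) * x⁻¹
          = ((ι₂ g₀) ^ (k + 1) * x * ((ι₂ g₀) ^ (k + 1))⁻¹) * (ι₂ g₀) ^ (k + 1) * x⁻¹ := by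
            rw [← h1]
        _ = _ := by group
    obtain ⟨x', hx'⟩ := hmal _ _ (fun h => by
      have := hgz ((k + 1 : ℕ) : ℤ) (by rw [zpow_natCast]; exact h)
      omega) _ hcomm
    have hxfin : IsOfFinOrder x := by
      have : IsOfFinOrder (⟨x, hx⟩ : F) := isOfFinOrder_of_finite _
      exact Submonoid.isOfFinOrder_coe.2 this
    obtain ⟨q, hq, hq1⟩ := hxfin.exists_pow_eq_one
    rw [hx', ← map_pow] at hq1
    have h2 := htf x' q hq (hι₂ (by rw [hq1, map_one]))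
    rw [hx', h2, map_one]
  · intro hbot
    have h1 : ι₁ x₀ ∈ fres (Monoid.CoprodI (goodFac R)) := by
      unfold fres
      rw [Subgroup.mem_sInf]
      intro N hN
      have hN' : N.FiniteIndex := hN
      have h2 : x₀ ∈ N.comap ι₁ := by
        unfold fres at hx₀
        rw [Subgroup.mem_sInf] at hx₀
        refine hx₀ _ (show (N.comap ι₁).FiniteIndex from ⟨?_⟩)
        rw [Subgroup.index_comap]
        exact fun h => hN'.index_ne_zero (Subgroup.index_eq_zero_of_relIndex_eq_zero h)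
      exact h2
    rw [hbot, Subgroup.mem_bot] at h1
    exact hx₀1 (hι₁ (by rw [h1, map_one]))

/-- TARGET 2 -/
theorem pidx_le_fres {G A : Type} [Group G] [Group A] (hf : (fres G).FiniteIndex) (hA : HypGroup A)
    (π : G →* A) (hs : Function.Surjective π) : pidx A ≤ (fres G).index := by
  have h0 := pidx_ne_zero hA
  unfold pidx at h0 ⊢
  rw [← Subgroup.index_comap_of_surjective _ hs] at h0 ⊢
  have h1 : fres G ≤ (Subgroup.centralizer (rad A : Set A)).comap π := by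
    unfold fres
    exact sInf_le (show ((Subgroup.centralizer (rad A : Set A)).comap π).FiniteIndex from ⟨h0⟩)
  exact Nat.le_of_dvd (Nat.pos_of_ne_zero hf.index_ne_zero) (Subgroup.index_dvd_of_le h1)

end Pool.Agent.H507
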