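import Pool.Agent.H507_D.Defs2
import Pool.Agent.H507_P.R1

set_option autoImplicit false

namespace Pool.Agent.H507

open Pool.Agent.TH68 Pool.Agent.Helper97.Hyp

/-- the configurations -/
def Conf (G : Type*) [Group G] (a p : ℕ) : Prop :=
  ∃ (k : Fin a → G) (g : Fin p → G), (∀ (x : G) (i : Fin a), ∃ j, x * k i * x⁻¹ = k j) ∧
    ∀ u v, u ≠ v → ∃ i, ¬ Commute ((g u)⁻¹ * g v) (k i)

/-- the product of two terms -/
def cmul {α : Type} (s t : Lgp.Term α) : Lgp.Term α :=
  FirstOrder.Language.Functions.apply₂ (L := Lgp) GpFunc.mul s t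

/-- the inverse of a term -/
def cinv {α : Type} (s : Lgp.Term α) : Lgp.Term α :=
  FirstOrder.Language.Functions.apply₁ (L := Lgp) GpFunc.inv s

theorem realize_cmul {α : Type} {G : Type} [Group G] (s t : Lgp.Term α) (v : α → G) :
    (cmul s t).realize v = s.realize v * t.realize v := by
  unfold cmul
  rw [FirstOrder.Language.Term.realize_functions_apply₂]
  rfl

theorem realize_cinv {α : Type} {G : Type} [Group G] (s : Lgp.Term α) (v : α → G) :
    (cinv s).realize v = (s.realize v)⁻¹ := by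
  unfold cinv
  rw [FirstOrder.Language.Term.realize_functions_apply₁]
  rfl

/-- TARGET 1 -/
theorem conf_sentence (a p : ℕ) : ∃ σ : Lgp.Sentence, ∀ (G : Type) [Group G], G ⊨ σ ↔ Conf G a p := by
  classical
  let K : Fin a → Lgp.Term (Empty ⊕ (Fin a ⊕ Fin p)) :=
    fun i => FirstOrder.Language.Term.var (Sum.inr (Sum.inl i))
  let Gt : Fin p → Lgp.Term (Empty ⊕ (Fin a ⊕ Fin p)) :=
    fun i => FirstOrder.Language.Term.var (Sum.inr (Sum.inr i))
  let K' : Fin a → Lgp.Term ((Empty ⊕ (Fin a ⊕ Fin p)) ⊕ Unit) :=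
    fun i => FirstOrder.Language.Term.var (Sum.inl (Sum.inr (Sum.inl i)))
  let X : Lgp.Term ((Empty ⊕ (Fin a ⊕ Fin p)) ⊕ Unit) :=
    FirstOrder.Language.Term.var (Sum.inr ())
  let f1 : Lgp.Formula (Empty ⊕ (Fin a ⊕ Fin p)) :=
    FirstOrder.Language.Formula.iAlls Unit
      (FirstOrder.Language.Formula.iInf fun i : Fin a =>
        FirstOrder.Language.Formula.iSup fun j : Fin a =>
          FirstOrder.Language.Term.equal (cmul (cmul X (K' i)) (cinv X)) (K' j))
  let f2 : Lgp.Formula (Empty ⊕ (Fin a ⊕ Fin p)) :=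
    FirstOrder.Language.Formula.iInf fun uv : {uv : Fin p × Fin p // uv.1 ≠ uv.2} =>
      FirstOrder.Language.Formula.iSup fun i : Fin a =>
        FirstOrder.Language.Formula.not
          (FirstOrder.Language.Term.equal
            (cmul (cmul (cinv (Gt uv.1.1)) (Gt uv.1.2)) (K i))
            (cmul (K i) (cmul (cinv (Gt uv.1.1)) (Gt uv.1.2))))
  refine ⟨FirstOrder.Language.Formula.iExs (Fin a ⊕ Fin p) (f1 ⊓ f2), ?_⟩
  intro G _
  have h0 : (G ⊨ (FirstOrder.Language.Formula.iExs (Fin a ⊕ Fin p) (f1 ⊓ f2) : Lgp.Sentence)) ↔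
      ∃ w : Fin a ⊕ Fin p → G, (f1 ⊓ f2).Realize (fun b => Sum.elim (default : Empty → G) w b) := by
    exact FirstOrder.Language.Formula.realize_iExs
  rw [h0]
  have h1 : ∀ w : Fin a ⊕ Fin p → G, f1.Realize (fun b => Sum.elim (default : Empty → G) w b) ↔
      ∀ (x : G) (i : Fin a), ∃ j, x * w (Sum.inl i) * x⁻¹ = w (Sum.inl j) := by
    intro w
    simp only [f1, FirstOrder.Language.Formula.realize_iAlls,
      FirstOrder.Language.Formula.realize_iInf, FirstOrder.Language.Formula.realize_iSup,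
      FirstOrder.Language.Formula.realize_equal, realize_cmul, realize_cinv]
    constructor
    · intro h x i
      exact h (fun _ => x) i
    · intro h x i
      exact h (x ()) i
  have h2 : ∀ w : Fin a ⊕ Fin p → G, f2.Realize (fun b => Sum.elim (default : Empty → G) w b) ↔
      ∀ u v : Fin p, u ≠ v → ∃ i : Fin a,
        ¬ Commute ((w (Sum.inr u))⁻¹ * w (Sum.inr v)) (w (Sum.inl i)) := by
    intro w
    simp only [f2, FirstOrder.Language.Formula.realize_iInf,
      FirstOrder.Language.Formula.realize_iSup, FirstOrder.Language.Formula.realize_not,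
      FirstOrder.Language.Formula.realize_equal, realize_cmul, realize_cinv]
    constructor
    · intro h u v huv
      exact h ⟨(u, v), huv⟩
    · intro h uv
      exact h uv.1.1 uv.1.2 uv.2
  constructor
  · rintro ⟨w, hw⟩
    have hw' := FirstOrder.Language.Formula.realize_inf.1 hw
    exact ⟨fun i => w (Sum.inl i), fun u => w (Sum.inr u), (h1 w).1 hw'.1, (h2 w).1 hw'.2⟩
  · rintro ⟨k, g, hk, hg⟩
    refine ⟨Sum.elim k g, FirstOrder.Language.Formula.realize_inf.2 ⟨(h1 _).2 ?_, (h2 _).2 ?_⟩⟩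
    · exact hk
    · exact hg

/-- TARGET 2 -/
theorem conf_open (a p : ℕ) : IsOpen {N : MG | Conf N.grp a p} := by
  classical
  intro n N hN _
  obtain ⟨k, g, hk, hg⟩ := hN
  have hs : Function.Surjective (QuotientGroup.mk : FreeGroup ℕ → N.grp) :=
    QuotientGroup.mk_surjective
  choose r hr using hs
  let kw : Fin a → FreeGroup ℕ := fun i => r (k i)
  let gw : Fin p → FreeGroup ℕ := fun i => r (g i)
  let w1 : ℕ × Fin a × Fin a → FreeGroup ℕ := fun t =>
    FreeGroup.of t.1 * kw t.2.1 * (FreeGroup.of t.1)⁻¹ * (kw t.2.2)⁻¹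
  let w2 : ℕ × Fin a × Fin a → FreeGroup ℕ := fun t =>
    (FreeGroup.of t.1)⁻¹ * kw t.2.1 * FreeGroup.of t.1 * (kw t.2.2)⁻¹
  let w3 : Fin p × Fin p × Fin a → FreeGroup ℕ := fun t =>
    ((gw t.1)⁻¹ * gw t.2.1) * kw t.2.2 * (kw t.2.2 * ((gw t.1)⁻¹ * gw t.2.1))⁻¹
  refine ⟨((Finset.range n ×ˢ (Finset.univ : Finset (Fin a × Fin a))).image w1) ∪
    ((Finset.range n ×ˢ (Finset.univ : Finset (Fin a × Fin a))).image w2) ∪
    (Finset.univ.image w3), ?_⟩
  intro N' hN' hB
  have hker : ∀ (P : MG) (x y : FreeGroup ℕ), x * y⁻¹ ∈ P.ker ↔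
      (QuotientGroup.mk x : P.grp) = QuotientGroup.mk y := by
    intro P x y
    rw [QuotientGroup.eq]
    constructor
    · intro h
      have h2 := P.normal.conj_mem _ (P.ker.inv_mem h) x⁻¹
      have e : x⁻¹ * (x * y⁻¹)⁻¹ * x⁻¹⁻¹ = x⁻¹ * y := by group
      rwa [e] at h2
    · intro h
      have h2 := P.normal.conj_mem _ (P.ker.inv_mem h) x
      have e : x * (x⁻¹ * y)⁻¹ * x⁻¹ = x * y⁻¹ := by group
      rwa [e] at h2
  have hk' : ∀ i, (QuotientGroup.mk (kw i) : N.grp) = k i := fun i => hr (k i)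
  have hg' : ∀ i, (QuotientGroup.mk (gw i) : N.grp) = g i := fun i => hr (g i)
  have c1 : ∀ l, l < n → ∀ i, ∃ j, (QuotientGroup.mk (FreeGroup.of l) : N'.grp) *
      QuotientGroup.mk (kw i) * (QuotientGroup.mk (FreeGroup.of l) : N'.grp)⁻¹ =
        QuotientGroup.mk (kw j) := by
    intro l hl i
    obtain ⟨j, hj⟩ := hk (QuotientGroup.mk (FreeGroup.of l)) i
    refine ⟨j, ?_⟩
    have h1 : w1 (l, i, j) ∈ N.ker := by
      refine (hker N _ _).2 ?_
      rw [hk' j, ← hj, ← hk' i]
      rfl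
    have h2 := (hB (w1 (l, i, j)) (Finset.mem_union_left _ (Finset.mem_union_left _
      (Finset.mem_image.2 ⟨(l, i, j), Finset.mem_product.2 ⟨Finset.mem_range.2 hl,
        Finset.mem_univ _⟩, rfl⟩)))).2 h1
    exact (hker N' _ _).1 h2
  have c2 : ∀ l, l < n → ∀ i, ∃ j, (QuotientGroup.mk (FreeGroup.of l) : N'.grp)⁻¹ *
      QuotientGroup.mk (kw i) * (QuotientGroup.mk (FreeGroup.of l) : N'.grp) =
        QuotientGroup.mk (kw j) := by
    intro l hl i
    obtain ⟨j, hj⟩ := hk (QuotientGroup.mk (FreeGroup.of l))⁻¹ i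
    refine ⟨j, ?_⟩
    have h1 : w2 (l, i, j) ∈ N.ker := by
      refine (hker N _ _).2 ?_
      rw [inv_inv] at hj
      rw [hk' j, ← hj, ← hk' i]
      rfl
    have h2 := (hB (w2 (l, i, j)) (Finset.mem_union_left _ (Finset.mem_union_right _
      (Finset.mem_image.2 ⟨(l, i, j), Finset.mem_product.2 ⟨Finset.mem_range.2 hl,
        Finset.mem_univ _⟩, rfl⟩)))).2 h1
    exact (hker N' _ _).1 h2
  have c3 : ∀ l, n ≤ l → (QuotientGroup.mk (FreeGroup.of l) : N'.grp) = 1 := by
    intro l hl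
    exact (QuotientGroup.eq_one_iff _).2 (hN' l hl)
  have c4 : ∀ x : FreeGroup ℕ, ∀ i, ∃ j, (QuotientGroup.mk x : N'.grp) *
      QuotientGroup.mk (kw i) * (QuotientGroup.mk x : N'.grp)⁻¹ = QuotientGroup.mk (kw j) := by
    intro x
    induction x using FreeGroup.induction_on with
    | C1 =>
      intro i
      refine ⟨i, ?_⟩
      rw [QuotientGroup.mk_one, one_mul, inv_one, mul_one]
    | of l =>
      intro i
      rcases Nat.lt_or_ge l n with hl | hl
      · exact c1 l hl i
      · refine ⟨i, ?_⟩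
        rw [c3 l hl, one_mul, inv_one, mul_one]
    | inv_of l _ =>
      intro i
      rcases Nat.lt_or_ge l n with hl | hl
      · obtain ⟨j, hj⟩ := c2 l hl i
        refine ⟨j, ?_⟩
        rw [QuotientGroup.mk_inv, inv_inv]
        exact hj
      · refine ⟨i, ?_⟩
        rw [QuotientGroup.mk_inv, c3 l hl, inv_one, one_mul, inv_one, mul_one]
    | mul x y hx hy =>
      intro i
      obtain ⟨j, hj⟩ := hy i
      obtain ⟨m, hm⟩ := hx j
      refine ⟨m, ?_⟩
      rw [QuotientGroup.mk_mul, ← hm, ← hj]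
      group
  refine ⟨fun i => QuotientGroup.mk (kw i), fun i => QuotientGroup.mk (gw i), ?_, ?_⟩
  · intro x i
    obtain ⟨y, rfl⟩ := QuotientGroup.mk_surjective x
    exact c4 y i
  · intro u v huv
    obtain ⟨i, hi⟩ := hg u v huv
    refine ⟨i, fun hc => hi ?_⟩
    have h1 : w3 (u, v, i) ∈ N'.ker := (hker N' _ _).2 hc
    have h2 := (hB (w3 (u, v, i)) (Finset.mem_union_right _
      (Finset.mem_image.2 ⟨(u, v, i), Finset.mem_univ _, rfl⟩))).1 h1
    have h3 := (hker N _ _).1 h2
    rw [← hk' i, ← hg' u, ← hg' v]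
    exact h3

/-- TARGET 3 -/
theorem conf_rad {G : Type} [Group G] (hG : HypGroup G) : ∃ a, Conf G a (pidx G) := by
  classical
  have := rad_finite hG
  have hp := pidx_ne_zero hG
  have hfin : Finite (G ⧸ Subgroup.centralizer (rad G : Set G)) := by
    apply Nat.finite_of_card_ne_zero
    exact hp
  let e : (G ⧸ Subgroup.centralizer (rad G : Set G)) ≃ Fin (pidx G) :=
    Finite.equivFin (G ⧸ Subgroup.centralizer (rad G : Set G))
  let f : rad G ≃ Fin (Nat.card (rad G)) := Finite.equivFin (rad G)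
  refine ⟨Nat.card (rad G), fun i => ((f.symm i : rad G) : G), fun u => (e.symm u).out, ?_, ?_⟩
  · intro x i
    refine ⟨f ⟨x * ((f.symm i : rad G) : G) * x⁻¹, (rad_normal G).conj_mem _ (f.symm i).2 x⟩, ?_⟩
    simp only [Equiv.symm_apply_apply]
  · intro u v huv
    by_contra hcon
    push Not at hcon
    apply huv
    have hm : ((e.symm u).out)⁻¹ * (e.symm v).out ∈ Subgroup.centralizer (rad G : Set G) := by
      rw [Subgroup.mem_centralizer_iff]
      intro h hh
      have := hcon (f ⟨h, hh⟩)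
      simp only [Equiv.symm_apply_apply] at this
      exact this.symm
    have h2 := QuotientGroup.eq.2 hm
    rw [QuotientGroup.out_eq', QuotientGroup.out_eq'] at h2
    exact e.symm.injective h2

theorem conf_pow {G : Type} [Group G] {a : ℕ} (k : Fin a → G)
    (hk : ∀ (x : G) (i : Fin a), ∃ j, x * k i * x⁻¹ = k j) (x : G) (i : Fin a) :
    Commute (x ^ a.factorial) (k i) := by
  classical
  have hm : ∀ (x : G) (s : Set.range k), x * (s : G) * x⁻¹ ∈ Set.range k := by
    rintro x ⟨s, i, rfl⟩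
    obtain ⟨j, hj⟩ := hk x i
    exact ⟨j, hj.symm⟩
  have hm' : ∀ (x : G) (s : Set.range k), x⁻¹ * (s : G) * x ∈ Set.range k := by
    intro x s
    have := hm x⁻¹ s
    rwa [inv_inv] at this
  let σ : Equiv.Perm (Set.range k) :=
    { toFun := fun s => ⟨x * (s : G) * x⁻¹, hm x s⟩
      invFun := fun s => ⟨x⁻¹ * (s : G) * x, hm' x s⟩
      left_inv := by
        intro s
        apply Subtype.ext
        simp only
        group
      right_inv := by
        intro s
        apply Subtype.ext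
        simp only
        group }
  have hσ : ∀ (m : ℕ) (s : Set.range k), (((σ ^ m) s : Set.range k) : G) = x ^ m * s * (x ^ m)⁻¹ := by
    intro m
    induction m with
    | zero =>
      intro s
      simp
    | succ m ih =>
      intro s
      rw [pow_succ', Equiv.Perm.mul_apply]
      have e1 : ((σ ((σ ^ m) s) : Set.range k) : G) = x * (((σ ^ m) s : Set.range k) : G) * x⁻¹ := rfl
      rw [e1, ih s, pow_succ' x m]
      group
  have hcard : Fintype.card (Set.range k) ≤ a := by
    have := Fintype.card_range_le k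
    simpa using this
  have h1 : σ ^ a.factorial = 1 := by
    have h2 : σ ^ (Fintype.card (Set.range k)).factorial = 1 := by
      have := pow_card_eq_one (x := σ)
      rwa [Fintype.card_perm] at this
    obtain ⟨c, hc⟩ := Nat.factorial_dvd_factorial hcard
    rw [hc, pow_mul, h2, one_pow]
  have h3 := hσ a.factorial ⟨k i, i, rfl⟩
  rw [h1] at h3
  have h4 : k i = x ^ a.factorial * k i * (x ^ a.factorial)⁻¹ := h3
  have h5 : x ^ a.factorial * k i = k i * x ^ a.factorial := by
    rw [eq_mul_inv_iff_mul_eq] at h4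
    exact h4.symm
  exact h5

/-- TARGET 4 -/
theorem conf_le {G : Type} [Group G] {a p : ℕ} (h : Conf G a p) (C : Subgroup G) (hf : C.FiniteIndex)
    (hC : C ≤ Subgroup.closure {y | ∃ x ∈ C, y = x ^ (a.factorial)}) : p ≤ C.index := by
  classical
  obtain ⟨k, g, hk, hg⟩ := h
  have hc : C ≤ Subgroup.centralizer (Set.range k) := by
    refine hC.trans ((Subgroup.closure_le _).2 ?_)
    rintro y ⟨x, _, rfl⟩
    change x ^ a.factorial ∈ Subgroup.centralizer (Set.range k)
    rw [Subgroup.mem_centralizer_iff]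
    rintro _ ⟨i, rfl⟩
    exact (conf_pow k hk x i).symm
  have hinj : Function.Injective (fun u => (QuotientGroup.mk (g u) : G ⧸ C)) := by
    intro u v huv
    by_contra hne
    obtain ⟨i, hi⟩ := hg u v hne
    apply hi
    have h1 : (g u)⁻¹ * g v ∈ C := QuotientGroup.eq.1 huv
    have h2 := hc h1
    rw [Subgroup.mem_centralizer_iff] at h2
    exact (h2 (k i) ⟨i, rfl⟩).symm
  have : Finite (G ⧸ C) := Subgroup.finite_quotient_of_finiteIndex
  have h3 := Nat.card_le_card_of_injective _ hinj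
  rw [Nat.card_fin] at h3
  exact h3

end Pool.Agent.H507
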