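import Pool.Agent.H507_D.Defs2
import Pool.Agent.H507_D.Line2
import Pool.Agent.H507_P.A2
import Pool.Agent.H507_P.A3
import Pool.Agent.H507_P.B1
import Pool.Agent.H507_P.G4a
import Pool.Agent.H507_P.G4b
import Pool.Agent.H507_P.G9
import Pool.Agent.H507_P.R1

set_option autoImplicit false

namespace Pool.Agent.H507

open Pool.Agent.TH68 Pool.Agent.Helper97.Hyp

/-- the quotient by a finite extension -/
theorem n4_quot {G : Type} [Group G] (N M : Subgroup G) [N.Normal] [M.Normal] (h : N ≤ M)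
    (hf : Finite (M.map (QuotientGroup.mk' N))) (h1 : HypGroup (G ⧸ M)) (h2 : ¬ Elem (G ⧸ M)) :
    HypGroup (G ⧸ N) ∧ ¬ Elem (G ⧸ N) := by
  have e := QuotientGroup.quotientQuotientEquivQuotient N M h
  constructor
  · exact hyp_of_quot (M.map (QuotientGroup.mk' N)) (hyp_equiv e.symm h1)
  · intro h3
    exact h2 (elem_equiv e (elem_quot (M.map (QuotientGroup.mk' N)) h3))

theorem n4_elem_of_finite {G : Type} [Group G] [Finite G] : Elem G :=
  ⟨⊥, inferInstance, inferInstance⟩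

/-- the subgroup generated by powers is normal -/
theorem n4_pow_normal {G : Type} [Group G] (C : Subgroup G) [C.Normal] (M : ℕ) :
    (Subgroup.closure {y | ∃ x ∈ C, y = x ^ M}).Normal := by
  refine ⟨fun n hn g => ?_⟩
  have h : Subgroup.closure {y | ∃ x ∈ C, y = x ^ M} ≤
      (Subgroup.closure {y | ∃ x ∈ C, y = x ^ M}).comap (MulAut.conj g).toMonoidHom := by
    refine (Subgroup.closure_le _).2 ?_
    rintro y ⟨x, hx, rfl⟩
    refine Subgroup.subset_closure ⟨g * x * g⁻¹, ?_, ?_⟩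
    · exact Subgroup.Normal.conj_mem inferInstance x hx g
    · show g * x ^ M * g⁻¹ = (g * x * g⁻¹) ^ M
      rw [conj_pow]
  exact h hn

/-- TARGET 1 -/
theorem power_quot {G : Type} [Group G] (hG : HypGroup G) (hne : ¬ Elem G) (M : ℕ) (hM : 0 < M)
    (S : Set G) (hS : S.Finite) :
    ∃ (N : Subgroup G) (_ : N.Normal), ¬ Finite N ∧ (∀ s ∈ S, s ∈ N → s = 1) ∧
      (∀ s ∈ rad G, s ∈ N → s = 1) ∧ HypGroup (G ⧸ N) ∧ ¬ Elem (G ⧸ N) ∧
      Subgroup.centralizer (rad G : Set G) ≤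
        Subgroup.closure {y | ∃ x ∈ Subgroup.centralizer (rad G : Set G), y = x ^ M} ⊔ N := by
  classical
  have hKf := rad_finite hG
  set K := rad G with hK
  set C := Subgroup.centralizer (K : Set G) with hC
  have hCn : C.Normal := Subgroup.normal_centralizer
  have hCi : C.FiniteIndex := ⟨pidx_ne_zero hG⟩
  have hQ : HypGroup (G ⧸ K) := hyp_quot K hG
  have hQe : ¬ Elem (G ⧸ K) := fun h => hne (elem_of_quot K h)
  have hQn : NoFin (G ⧸ K) := noFin_rad hG
  set H := Subgroup.closure {y | ∃ x ∈ C, y = x ^ M} with hH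
  have hHn : H.Normal := n4_pow_normal C M
  have hHC : H ≤ C := by
    refine (Subgroup.closure_le _).2 ?_
    rintro y ⟨x, hx, rfl⟩
    exact pow_mem hx M
  have hCne : C.map (QuotientGroup.mk' K) ≠ ⊥ := by
    intro h0
    rw [Subgroup.map_eq_bot_iff, QuotientGroup.ker_mk'] at h0
    have hCf : Finite C := Finite.of_injective (Subgroup.inclusion h0)
      (Subgroup.inclusion_injective h0)
    have : Finite G := (Subgroup.finite_iff_finite_and_finiteIndex C).2 ⟨hCf, hCi⟩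
    exact hne n4_elem_of_finite
  obtain ⟨x₁, hx₁, hx₁o, -⟩ := suitable hQ hQe hQn (C.map (QuotientGroup.mk' K)) hCne
  have hHne : H.map (QuotientGroup.mk' K) ≠ ⊥ := by
    obtain ⟨x, hx, rfl⟩ := hx₁
    intro h0
    have h1 : QuotientGroup.mk' K (x ^ M) ∈ H.map (QuotientGroup.mk' K) :=
      Subgroup.mem_map_of_mem _ (Subgroup.subset_closure ⟨x, hx, rfl⟩)
    rw [h0, Subgroup.mem_bot, map_pow] at h1
    exact hx₁o (isOfFinOrder_iff_pow_eq_one.2 ⟨M, hM, h1⟩)
  obtain ⟨c, hcH, hco, hctf, b, hbH, hbE⟩ :=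
    suitable hQ hQe hQn (H.map (QuotientGroup.mk' K)) hHne
  have hGfg : Group.FG G := hyp_fg hG
  have hCfg : C.FG := (Group.fg_iff_subgroup_fg C).1 (C.fg_of_index_ne_zero)
  obtain ⟨X, hX⟩ := hCfg
  set X' : Finset G := insert 1 X with hX'
  have hXC : ∀ x ∈ X', x ∈ C := by
    intro x hx
    rw [hX', Finset.mem_insert] at hx
    rcases hx with rfl | hx
    · exact one_mem _
    · rw [← hX]; exact Subgroup.subset_closure hx
  have hne' : Nonempty X' := ⟨⟨1, Finset.mem_insert_self _ _⟩⟩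
  have hSf : ((K : Set G) ∪ S).Finite := (Set.toFinite _).union hS
  obtain ⟨w, hw, hS1, hhyp, hel, -, hwK⟩ := core (ι := Unit) (κ := X') K hQ (fun _ => H)
    (fun _ => hHC) (fun _ => c) (fun _ => b) (fun _ => hcH) (fun _ => hbH) (fun _ => hco)
    (fun i j hij => absurd (Subsingleton.elim i j) hij) (fun _ => hctf) (fun _ => hbE)
    (fun _ => ()) (fun k => k.1) (fun k => hXC k.1 k.2) _ hSf
  set N := Subgroup.normalClosure (Set.range fun k : X' => w k * k.1) with hN
  have hNn : N.Normal := Subgroup.normalClosure_normal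
  have hwN : ∀ k : X', w k * k.1 ∈ N := fun k =>
    Subgroup.subset_normalClosure (Set.mem_range_self k)
  have hmap : (N ⊔ K).map (QuotientGroup.mk' N) = K.map (QuotientGroup.mk' N) := by
    rw [Subgroup.map_sup, QuotientGroup.map_mk'_self, bot_sup_eq]
  have hfin : Finite ((N ⊔ K).map (QuotientGroup.mk' N)) := by
    rw [hmap]
    exact Set.Finite.to_subtype ((Set.toFinite (K : Set G)).image _)
  have hNK : (N ⊔ K).Normal := Subgroup.sup_normal N K
  have hfinal := n4_quot N (N ⊔ K) le_sup_left hfin hhyp hel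
  refine ⟨N, hNn, ?_, fun s hs hsN => hS1 s (Or.inr hs) hsN, fun s hs hsN => hS1 s (Or.inl hs) hsN,
    hfinal.1, hfinal.2, ?_⟩
  · intro hNf
    obtain ⟨k⟩ := hne'
    exact hwK k (le_rad hNn hNf (hwN k))
  · rw [← hX]
    refine (Subgroup.closure_le _).2 ?_
    intro x hx
    have hx' : x ∈ X' := Finset.mem_insert_of_mem hx
    have h1 : x = (w ⟨x, hx'⟩)⁻¹ * (w ⟨x, hx'⟩ * x) := by group
    rw [SetLike.mem_coe, h1]
    exact mul_mem (inv_mem (Subgroup.mem_sup_left (hw ⟨x, hx'⟩)))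
      (Subgroup.mem_sup_right (hwN ⟨x, hx'⟩))

/-- TARGET 2 -/
theorem not_central {G : Type} [Group G] (hG : HypGroup G) (hne : ¬ Elem G) (N : Subgroup G)
    (hN : ¬ Finite N) :
    ∃ g ∈ Subgroup.centralizer (rad G : Set G), ∃ n ∈ N, n * g * n⁻¹ * g⁻¹ ≠ 1 := by
  classical
  by_contra hcon
  push Not at hcon
  set C := Subgroup.centralizer (rad G : Set G) with hC
  have hCi : C.FiniteIndex := ⟨pidx_ne_zero hG⟩
  obtain ⟨c, hcN, hco⟩ : ∃ c ∈ N, ¬ IsOfFinOrder c := by
    by_contra h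
    push Not at h
    exact hN (tors_finite hG N h)
  have hCE : C ≤ Lox.E c := by
    intro g hg
    refine ⟨1, 1, one_ne_zero, one_ne_zero, ?_⟩
    have h1 := hcon g hg c hcN
    rw [zpow_one]
    have h2 : g * c * g⁻¹ = (c * g * c⁻¹ * g⁻¹)⁻¹ * c := by group
    rw [h2, h1, inv_one, one_mul]
  have hEi : (Lox.E c).FiniteIndex := Subgroup.finiteIndex_of_le hCE
  obtain ⟨F, hF, hFE⟩ := E_cosets hG hco
  have hZE : Subgroup.zpowers c ≤ Lox.E c := by
    rw [Subgroup.zpowers_le]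
    simpa using Lox.zpow_mem_E (g := c) 1
  have hq : Finite (Lox.E c ⧸ (Subgroup.zpowers c).subgroupOf (Lox.E c)) := by
    have hFf : Finite F := hF.to_subtype
    refine Finite.of_surjective (fun f : F => if h : (f : G)⁻¹ ∈ Lox.E c then
      (QuotientGroup.mk (⟨(f : G)⁻¹, h⟩ : Lox.E c) :
        Lox.E c ⧸ (Subgroup.zpowers c).subgroupOf (Lox.E c)) else QuotientGroup.mk 1) ?_
    intro q
    obtain ⟨e, rfl⟩ := QuotientGroup.mk_surjective q
    obtain ⟨f, hf, n, hn⟩ := hFE (e : G)⁻¹ (inv_mem e.2)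
    have hf1 : f⁻¹ = e * c ^ n := by
      have : f = c ^ (-n) * (e : G)⁻¹ := by rw [hn]; group
      rw [this]; group
    have hfE : f⁻¹ ∈ Lox.E c := by
      rw [hf1]; exact mul_mem e.2 (Lox.zpow_mem_E n)
    refine ⟨⟨f, hf⟩, ?_⟩
    simp only [dif_pos hfE]
    rw [QuotientGroup.eq, Subgroup.mem_subgroupOf]
    refine ⟨-n, ?_⟩
    show c ^ (-n) = (f⁻¹)⁻¹ * (e : G)
    rw [hf1]; group
  have hrel : (Subgroup.zpowers c).relIndex (Lox.E c) ≠ 0 := by
    have : ((Subgroup.zpowers c).subgroupOf (Lox.E c)).FiniteIndex :=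
      Subgroup.finiteIndex_of_finite_quotient
    exact this.index_ne_zero
  have hZi : (Subgroup.zpowers c).FiniteIndex := by
    refine ⟨?_⟩
    rw [← Subgroup.relIndex_mul_index hZE]
    exact mul_ne_zero hrel hEi.index_ne_zero
  exact hne ⟨Subgroup.zpowers c, hZi, inferInstance⟩

/-- TARGET 3 -/
theorem bigger {G : Type} [Group G] (hG : HypGroup G) (hne : ¬ Elem G) (hrf : fres G = ⊥)
    (S : Set G) (hS : S.Finite) :
    ∃ (A : Type) (_ : Group A) (π : G →* A), Function.Surjective π ∧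
      (∀ s ∈ S, π s = 1 → s = 1) ∧ HypGroup A ∧ ¬ Elem A ∧ pidx G < pidx A := by
  classical
  obtain ⟨N, hNn, hNi, hNS, hNr, hNh, hNe, -⟩ := power_quot hG hne 1 one_pos S hS
  obtain ⟨g, hg, n, hn, hng⟩ := not_central hG hne N hNi
  have h1 : n * g * n⁻¹ * g⁻¹ ∉ fres G := by
    rw [hrf, Subgroup.mem_bot]; exact hng
  obtain ⟨L₀, hL₀, hnL₀⟩ : ∃ L₀ : Subgroup G, L₀.FiniteIndex ∧ n * g * n⁻¹ * g⁻¹ ∉ L₀ := by
    unfold fres at h1
    rw [Subgroup.mem_sInf] at h1
    push Not at h1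
    exact h1
  set L := L₀.normalCore with hL
  have hLn : L.Normal := Subgroup.normalCore_normal L₀
  have hLi : L.FiniteIndex := inferInstanceAs (L₀.normalCore.FiniteIndex)
  have hnL : n * g * n⁻¹ * g⁻¹ ∉ L := fun h => hnL₀ (Subgroup.normalCore_le _ h)
  set N₁ := N ⊓ L with hN₁
  have hN₁n : N₁.Normal := Subgroup.normal_inf_normal N L
  have hEf : Finite (N.map (QuotientGroup.mk' N₁)) := by
    have hQL : Finite (G ⧸ L) := inferInstance
    have hle : N₁ ≤ L := inf_le_right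
    refine Finite.of_injective (fun e : N.map (QuotientGroup.mk' N₁) =>
      QuotientGroup.map N₁ L (MonoidHom.id G) hle e.1) ?_
    rintro ⟨_, x, hx, rfl⟩ ⟨_, y, hy, rfl⟩ hxy
    have h2 : (QuotientGroup.mk x : G ⧸ L) = QuotientGroup.mk y := hxy
    rw [QuotientGroup.eq] at h2
    apply Subtype.ext
    show (QuotientGroup.mk x : G ⧸ N₁) = QuotientGroup.mk y
    rw [QuotientGroup.eq]
    exact Subgroup.mem_inf.2 ⟨N.mul_mem (N.inv_mem hx) hy, h2⟩
  have hA := n4_quot N₁ N inf_le_left hEf hNh hNe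
  have hrn : (rad G).Normal := rad_normal G
  have hrN₁ : ∀ k ∈ rad G, k ∈ N₁ → k = 1 := fun k hk hk' => hNr k hk hk'.1
  refine ⟨G ⧸ N₁, inferInstance, QuotientGroup.mk' N₁, QuotientGroup.mk'_surjective N₁, ?_, hA.1,
    hA.2, ?_⟩
  · intro s hs hs1
    have h2 : s ∈ N₁ := (QuotientGroup.eq_one_iff s).1 hs1
    exact hNS s hs h2.1
  · have hrf' : Finite (rad G) := rad_finite hG
    have hradmap : (rad G).map (QuotientGroup.mk' N₁) ≤ rad (G ⧸ N₁) := by
      refine le_rad (Subgroup.Normal.map hrn _ (QuotientGroup.mk'_surjective N₁)) ?_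
      exact Set.Finite.to_subtype ((Set.toFinite (rad G : Set G)).image _)
    have hNmap : N.map (QuotientGroup.mk' N₁) ≤ rad (G ⧸ N₁) :=
      le_rad (Subgroup.Normal.map hNn _ (QuotientGroup.mk'_surjective N₁)) hEf
    set C := Subgroup.centralizer (rad G : Set G) with hC
    have hker : (QuotientGroup.mk' N₁).ker ≤ C := by
      rw [QuotientGroup.ker_mk']
      intro x hx
      rw [hC, Subgroup.mem_centralizer_iff]
      intro k hk
      have hdis : Disjoint (rad G) N₁ := by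
        rw [disjoint_iff_inf_le]
        rintro y ⟨hy1, hy2⟩
        exact hrN₁ y hy1 hy2
      exact Subgroup.commute_of_normal_of_disjoint _ _ hrn hN₁n hdis k x hk hx
    have hidx : (C.map (QuotientGroup.mk' N₁)).index = pidx G :=
      Subgroup.index_map_eq (f := QuotientGroup.mk' N₁) C (QuotientGroup.mk'_surjective N₁) hker
    have hle : Subgroup.centralizer (rad (G ⧸ N₁) : Set (G ⧸ N₁)) ≤
        C.map (QuotientGroup.mk' N₁) := by
      intro a ha
      obtain ⟨x, rfl⟩ := QuotientGroup.mk'_surjective N₁ a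
      refine ⟨x, ?_, rfl⟩
      rw [SetLike.mem_coe, hC, Subgroup.mem_centralizer_iff]
      intro k hk
      rw [Subgroup.mem_centralizer_iff] at ha
      have h2 := ha _ (hradmap (Subgroup.mem_map_of_mem _ hk))
      rw [← map_mul, ← map_mul] at h2
      have h3 : (k * x)⁻¹ * (x * k) ∈ N₁ := QuotientGroup.eq.1 h2
      have h4 : (k * x)⁻¹ * (x * k) ∈ rad G := by
        have e : (k * x)⁻¹ * (x * k) = (x⁻¹ * k⁻¹ * x⁻¹⁻¹) * k := by group
        rw [e]
        exact mul_mem (hrn.conj_mem _ (inv_mem hk) _) hk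
      have h5 := hrN₁ _ h4 h3
      exact inv_mul_eq_one.1 h5
    have hlt : Subgroup.centralizer (rad (G ⧸ N₁) : Set (G ⧸ N₁)) <
        C.map (QuotientGroup.mk' N₁) := by
      refine lt_of_le_of_ne hle ?_
      intro heq
      have h2 : QuotientGroup.mk' N₁ g ∈
          Subgroup.centralizer (rad (G ⧸ N₁) : Set (G ⧸ N₁)) := by
        rw [heq]; exact Subgroup.mem_map_of_mem _ hg
      rw [Subgroup.mem_centralizer_iff] at h2
      have h3 := h2 _ (hNmap (Subgroup.mem_map_of_mem _ hn))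
      rw [← map_mul, ← map_mul] at h3
      have h4 : (g * n)⁻¹ * (n * g) ∈ N₁ := QuotientGroup.eq.1 h3.symm
      have h5 : n * g * n⁻¹ * g⁻¹ ∈ L := by
        have e : n * g * n⁻¹ * g⁻¹ = (g * n) * ((g * n)⁻¹ * (n * g)) * (g * n)⁻¹ := by group
        rw [e]
        exact hLn.conj_mem _ h4.2 _
      exact hnL h5
    have hfi : (Subgroup.centralizer (rad (G ⧸ N₁) : Set (G ⧸ N₁))).FiniteIndex :=
      ⟨pidx_ne_zero hA.1⟩
    rw [← hidx]
    exact Subgroup.index_strictAnti hlt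

end Pool.Agent.H507
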