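import Pool.Agent.H507_P.T6

set_option autoImplicit false

namespace Pool.Agent.H507

/-- local form of `top_neg` -/
theorem top_neg_local (C U₀ : Set MG) (hU₀ : IsOpen U₀) (hne : (U₀ ∩ C).Nonempty)
    (S : Set (closure C)) (hS : S ∈ residual (closure C))
    (hc : ((fun N : closure C => thy N.1) '' (S ∩ Subtype.val ⁻¹' U₀)).Countable) :
    ∃ (U : Set MG) (T : Lgp.Theory), U ⊆ U₀ ∧ IsOpen U ∧ (U ∩ C).Nonempty ∧
      ∀ V : Set MG, V ⊆ U → IsOpen V → (V ∩ C).Nonempty → ∃ N ∈ V ∩ closure C, thy N = T := by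
  obtain ⟨i1, -, i3⟩ := mg_space
  have i4 : LocallyCompactSpace (closure C) := isClosed_closure.locallyCompactSpace
  have i5 : BaireSpace (closure C) := inferInstance
  obtain ⟨x0, hx0U, hx0⟩ := hne
  have i6 : Nonempty (closure C) := ⟨⟨x0, subset_closure hx0⟩⟩
  set S' : Set (closure C) := S ∩ Subtype.val ⁻¹' U₀ with hS'
  have key : ∃ T : Lgp.Theory,
      (interior (closure {x : closure C | x ∈ S' ∧ thy x.1 = T})).Nonempty := by
    by_contra hcon
    push Not at hcon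
    have h1 : (⋂ T ∈ ((fun N : closure C => thy N.1) '' S'),
        (closure {x : closure C | x ∈ S' ∧ thy x.1 = T})ᶜ) ∈ residual (closure C) := by
      rw [countable_bInter_mem hc]
      intro T _
      refine residual_of_dense_open isClosed_closure.isOpen_compl ?_
      rw [← interior_eq_empty_iff_dense_compl]
      exact hcon T
    have h2 := dense_of_mem_residual (Filter.inter_mem h1 hS)
    obtain ⟨x, hxU, hx1, hx2⟩ := h2.inter_open_nonempty (Subtype.val ⁻¹' U₀)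
      (hU₀.preimage continuous_subtype_val) ⟨⟨x0, subset_closure hx0⟩, hx0U⟩
    rw [Set.mem_iInter₂] at hx1
    exact hx1 (thy x.1) ⟨x, ⟨hx2, hxU⟩, rfl⟩ (subset_closure ⟨⟨hx2, hxU⟩, rfl⟩)
  obtain ⟨T, x, hx⟩ := key
  obtain ⟨U, hU, hUO⟩ := isOpen_induced_iff.1
    (isOpen_interior (s := closure {x : closure C | x ∈ S' ∧ thy x.1 = T}))
  obtain ⟨y, hy⟩ : ((Subtype.val ⁻¹' U ∩ Subtype.val ⁻¹' U₀ : Set (closure C))).Nonempty := by
    have h1 := interior_subset hx
    have hxU : x ∈ Subtype.val ⁻¹' U := by rw [hUO]; exact hx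
    obtain ⟨z, hz1, hz2⟩ := mem_closure_iff.1 h1 (Subtype.val ⁻¹' U)
      (hU.preimage continuous_subtype_val) hxU
    exact ⟨z, hz1, hz2.1.2⟩
  refine ⟨U ∩ U₀, T, Set.inter_subset_right, hU.inter hU₀, ?_, fun V hVU hV hVC => ?_⟩
  · exact mem_closure_iff.1 y.2 (U ∩ U₀) (hU.inter hU₀) ⟨hy.1, hy.2⟩
  · obtain ⟨v, hvV, hvC⟩ := hVC
    have h1 : (⟨v, subset_closure hvC⟩ : closure C) ∈ Subtype.val ⁻¹' U := (hVU hvV).1
    rw [hUO] at h1
    have h2 := interior_subset h1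
    obtain ⟨y, hy1, hy2⟩ := mem_closure_iff.1 h2 (Subtype.val ⁻¹' V)
      (hV.preimage continuous_subtype_val) hvV
    exact ⟨y.1, ⟨hy1, y.2⟩, hy2.2⟩

end Pool.Agent.H507
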