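import Pool.Agent.H507_D.Defs2
import Pool.Agent.H507_P.A1
import Pool.Agent.H507_P.G4c

set_option autoImplicit false

namespace Pool.Agent.H507

open Pool.Agent.TH68 Pool.Agent.Helper97.Hyp

/-- TARGET 1 -/
theorem exists_marking (G : Type) [Group G] (h : Group.FG G) : ∃ N : MG, Nonempty (N.grp ≃* G) := by
  obtain ⟨S, hS⟩ := Group.fg_def.1 h
  let a : ℕ → G := fun i => S.toList.getD i 1
  let f : FreeGroup ℕ →* G := FreeGroup.lift a
  have hsurj : Function.Surjective f := by
    rw [← MonoidHom.range_eq_top, eq_top_iff, ← hS, Subgroup.closure_le]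
    intro x hx
    have hx' : x ∈ S.toList := Finset.mem_toList.2 hx
    obtain ⟨i, hi, hxi⟩ := List.mem_iff_getElem.1 hx'
    refine ⟨FreeGroup.of i, ?_⟩
    change FreeGroup.lift a (FreeGroup.of i) = x
    rw [FreeGroup.lift_apply_of]
    change S.toList.getD i 1 = x
    rw [List.getD_eq_getElem _ _ hi, hxi]
  refine ⟨⟨f.ker, inferInstance, S.toList.length, ?_⟩,
    ⟨QuotientGroup.quotientKerEquivOfSurjective f hsurj⟩⟩
  intro i hi
  rw [MonoidHom.mem_ker]
  change FreeGroup.lift a (FreeGroup.of i) = 1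
  rw [FreeGroup.lift_apply_of]
  change S.toList.getD i 1 = 1
  exact List.getD_eq_default _ _ hi

/-- the word norm of the integers -/
def wInt : WNorm (Multiplicative ℤ) where
  ℓ g := (Multiplicative.toAdd g).natAbs
  one' := rfl
  eq_one g h := by
    have : Multiplicative.toAdd g = 0 := Int.natAbs_eq_zero.1 h
    exact this
  inv' g := by
    rw [toAdd_inv, Int.natAbs_neg]
  mul_le g h := by
    rw [toAdd_mul]
    exact Int.natAbs_add_le _ _
  geod g k hk := by
    rcases le_total 0 (Multiplicative.toAdd g) with h | h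
    · refine ⟨Multiplicative.ofAdd (k : ℤ), Multiplicative.ofAdd (Multiplicative.toAdd g - k), ?_,
        ?_, ?_⟩
      · rw [← ofAdd_add, add_sub_cancel, ofAdd_toAdd]
      · simp
      · rw [toAdd_ofAdd]; omega
    · refine ⟨Multiplicative.ofAdd (-(k : ℤ)), Multiplicative.ofAdd (Multiplicative.toAdd g + k), ?_,
        ?_, ?_⟩
      · rw [← ofAdd_add, neg_add_cancel_comm_assoc, ofAdd_toAdd]
      · simp
      · rw [toAdd_ofAdd]; omega
  fin r := by
    have h : Set.Finite (Multiplicative.ofAdd '' (Set.Icc (-(r : ℤ)) r)) :=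
      (Set.finite_Icc _ _).image _
    refine h.subset ?_
    intro g hg
    refine ⟨Multiplicative.toAdd g, ?_, ofAdd_toAdd g⟩
    have hg' : (Multiplicative.toAdd g).natAbs ≤ r := hg
    rw [Set.mem_Icc]
    omega

theorem hyp_int : HypGroup (Multiplicative ℤ) := by
  refine ⟨wInt, 0, ?_⟩
  intro x y z w
  have hd : ∀ u v : Pt wInt, dist u v
      = (((Multiplicative.toAdd v.out - Multiplicative.toAdd u.out).natAbs : ℕ) : ℝ) := by
    intro u v
    rw [dist_def]
    change (((Multiplicative.toAdd (u.out⁻¹ * v.out)).natAbs : ℕ) : ℝ) = _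
    rw [toAdd_mul, toAdd_inv, neg_add_eq_sub]
  simp only [hd]
  generalize Multiplicative.toAdd x.out = a
  generalize Multiplicative.toAdd y.out = b
  generalize Multiplicative.toAdd z.out = c
  generalize Multiplicative.toAdd w.out = d
  have key : (b - a).natAbs + (d - c).natAbs ≤
      max ((c - a).natAbs + (d - b).natAbs) ((d - a).natAbs + (c - b).natAbs) := by
    omega
  have key' : (((b - a).natAbs + (d - c).natAbs : ℕ) : ℝ) ≤
      ((max ((c - a).natAbs + (d - b).natAbs) ((d - a).natAbs + (c - b).natAbs) : ℕ) : ℝ) := by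
    exact_mod_cast key
  rw [Nat.cast_max] at key'
  push_cast at key' ⊢
  linarith

/-- TARGET 2 -/
theorem exists_nonElem : ∃ (B : Type) (_ : Group B), HypGroup B ∧ ¬ Elem B := by
  let G : Bool → Type := fun _ => Multiplicative ℤ
  refine ⟨Monoid.CoprodI G, inferInstance, hyp_coprodI fun _ => hyp_int, ?_⟩
  rintro ⟨C, hC, hcyc⟩
  let g : Multiplicative ℤ := Multiplicative.ofAdd 1
  have hg : ∀ n : ℤ, n ≠ 0 → g ^ n ≠ 1 := by
    intro n hn h
    have : Multiplicative.toAdd (g ^ n) = 0 := by rw [h]; rfl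
    rw [toAdd_zpow] at this
    simp only [g, toAdd_ofAdd, smul_eq_mul, mul_one] at this
    exact hn this
  let t : Monoid.CoprodI G := Monoid.CoprodI.of (i := true) g
  let s : Monoid.CoprodI G := Monoid.CoprodI.of (i := false) g
  have hinj : Function.Injective (Monoid.CoprodI.of (M := G) (i := true)) :=
    Monoid.CoprodI.of_injective true
  have htz : ∀ n : ℤ, t ^ n = Monoid.CoprodI.of (M := G) (i := true) (g ^ n) := by
    intro n
    exact (map_zpow (Monoid.CoprodI.of (M := G) (i := true)) g n).symm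
  have ht : ∀ n : ℤ, n ≠ 0 → t ^ n ≠ 1 := by
    intro n hn h
    rw [htz] at h
    exact hg n hn (hinj (h.trans (map_one _).symm))
  obtain ⟨n, hn, -, htn⟩ := Subgroup.exists_pow_mem_of_index_ne_zero hC.index_ne_zero t
  obtain ⟨m, hm, -, hum⟩ := Subgroup.exists_pow_mem_of_index_ne_zero hC.index_ne_zero (s * t * s⁻¹)
  obtain ⟨⟨z, hz⟩, hgen⟩ := hcyc
  obtain ⟨a, ha⟩ := hgen ⟨t ^ n, htn⟩
  obtain ⟨b, hb⟩ := hgen ⟨(s * t * s⁻¹) ^ m, hum⟩
  have ha' : z ^ a = t ^ n := congrArg Subtype.val ha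
  have hb' : z ^ b = (s * t * s⁻¹) ^ m := congrArg Subtype.val hb
  rw [conj_pow] at hb'
  have hb0 : b ≠ 0 := by
    rintro rfl
    rw [zpow_zero] at hb'
    have h1 : t ^ m = 1 := by
      have h2 : s * t ^ m * s⁻¹ = 1 := hb'.symm
      rw [mul_inv_eq_one] at h2
      exact mul_eq_left.1 h2
    exact ht m (by exact_mod_cast hm.ne') (by exact_mod_cast h1)
  have ha0 : a ≠ 0 := by
    rintro rfl
    rw [zpow_zero] at ha'
    exact ht n (by exact_mod_cast hn.ne') (by exact_mod_cast ha'.symm)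
  have key : s * t ^ ((m : ℤ) * a) * s⁻¹ = t ^ ((n : ℤ) * b) := by
    have h1 : (z ^ b) ^ a = (z ^ a) ^ b := by rw [← zpow_mul, ← zpow_mul, mul_comm]
    rw [ha', hb', conj_zpow] at h1
    rw [zpow_mul, zpow_mul, zpow_natCast, zpow_natCast]
    exact h1
  rw [htz, htz] at key
  obtain ⟨y, hy⟩ := malnormal (hg _ (mul_ne_zero (by exact_mod_cast hm.ne') ha0)) key
  have h2 := retract (G := G) (i := false) (j := true) (by decide) (x := g) (y := y) 1
    (by rw [one_mul, inv_one, mul_one]; exact hy)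
  exact hg 1 one_ne_zero (by rw [zpow_one]; exact h2)

/-- TARGET 3 -/
theorem fres_eq_bot_iff (G : Type) [Group G] : fres G = ⊥ ↔
    ∀ x : G, x ≠ 1 → ∃ L : Subgroup G, L.FiniteIndex ∧ x ∉ L := by
  rw [Subgroup.eq_bot_iff_forall]
  constructor
  · intro h x hx
    by_contra hcon
    push Not at hcon
    apply hx
    apply h
    unfold fres
    rw [Subgroup.mem_sInf]
    intro L hL
    exact hcon L hL
  · intro h x hx
    by_contra hne
    obtain ⟨L, hL, hxL⟩ := h x hne
    unfold fres at hx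
    rw [Subgroup.mem_sInf] at hx
    exact hxL (hx L hL)

end Pool.Agent.H507
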