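import Pool.Agent.H507_P.M1
import Pool.Agent.H507_P.N1
import Pool.Agent.H507_P.N4
import Pool.Agent.H507_P.D5
import Pool.Agent.H507_P.D5a
import Pool.Agent.H507_P.X1
import Pool.Agent.H507_P.T7

set_option autoImplicit false

namespace Pool.Agent.H507

open Pool.Agent.TH68 Pool.Agent.Helper97.Hyp

/-- non-elementary hyperbolic marked groups -/
def clsH : Set MG := {N : MG | HypGroup N.grp ∧ ¬ Elem N.grp}

theorem clsP_true : clsP (fun _ => True) = clsH := by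
  ext N
  simp [clsP, clsH]

/-! ### The case of a non residually finite hyperbolic group -/

theorem bound_of_nonRF {R : Type} [Group R] (hR : HypGroup R) (hres : fres R ≠ ⊥) (U : Set MG)
    (hU : IsOpen U) (hne : (U ∩ clsH).Nonempty) :
    ∃ V : Set MG, V ⊆ U ∧ IsOpen V ∧ (V ∩ clsH).Nonempty ∧
      ∃ B : ℕ, ∀ N ∈ V ∩ clsH, pidx N.grp ≤ B := by
  obtain ⟨N, hNU, hN1, hN2⟩ := hne
  obtain ⟨B, _, hB1, hB2, hB3, hB4⟩ := good_source hR hres
  obtain ⟨S, hS, hnear⟩ := near_quot N U hU hNU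
  obtain ⟨Q, _, φ, hφs, hφi, hQ1, hQ2, hQ3⟩ := dense_step hB1 hB2 hB3 hB4 hN1 hN2 S hS
  obtain ⟨N', hN'U, hN'k⟩ := hnear φ.ker inferInstance (fun s hs h => hφi s hs h)
  obtain ⟨e⟩ := grp_equiv N N' Q φ hφs hN'k
  have h1 : HypGroup N'.grp := hyp_equiv e.symm hQ1
  have h2 : ¬ Elem N'.grp := fun h => hQ2 (elem_equiv e h)
  obtain ⟨W, hW, hN'W, hWk⟩ := fp_nhd N' (hyp_fp h1)
  refine ⟨U ∩ W, Set.inter_subset_left, hU.inter hW, ⟨N', ⟨hN'U, hN'W⟩, h1, h2⟩, (fres Q).index, ?_⟩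
  rintro M ⟨⟨-, hMW⟩, hM1, hM2⟩
  let π : N'.grp →* M.grp := QuotientGroup.map N'.ker M.ker (MonoidHom.id _) (hWk M hMW)
  have hs : Function.Surjective π := by
    intro y
    obtain ⟨g, rfl⟩ := QuotientGroup.mk_surjective y
    exact ⟨QuotientGroup.mk g, rfl⟩
  exact pidx_le_fres hQ3 hM1 (π.comp e.symm.toMonoidHom) (hs.comp e.symm.surjective)

/-! ### The residually finite case -/

theorem uncountable_of_RF (hrf : ∀ (G : Type) [Group G], HypGroup G → fres G = ⊥) (U₀ : Set MG)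
    (hU₀ : IsOpen U₀) (hne : (U₀ ∩ clsH).Nonempty) (S : Set (closure clsH))
    (hS : S ∈ residual (closure clsH)) :
    ¬ ((fun N : closure clsH => thy N.1) '' (S ∩ Subtype.val ⁻¹' U₀)).Countable := by
  intro hc
  obtain ⟨U, T, -, hU, hUC, hT⟩ := top_neg_local clsH U₀ hU₀ hne S hS hc
  choose σ hσ using fun a p => conf_sentence a p
  -- the indices occurring
  have claim2 : ∀ N ∈ U ∩ clsH, ∃ a, σ a (pidx N.grp) ∈ T := by
    rintro N ⟨hNU, hN1, hN2⟩
    obtain ⟨a, ha⟩ := conf_rad hN1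
    obtain ⟨M, ⟨⟨-, hM⟩, -⟩, hMT⟩ := hT (U ∩ {N' : MG | Conf N'.grp a (pidx N.grp)})
      Set.inter_subset_left (hU.inter (conf_open _ _)) ⟨N, ⟨hNU, ha⟩, hN1, hN2⟩
    refine ⟨a, ?_⟩
    rw [← hMT]
    exact (hσ a (pidx N.grp) M.grp).2 hM
  have claim1 : ∀ N ∈ U ∩ clsH, ∀ a p, σ a p ∈ T → p ≤ pidx N.grp := by
    rintro N ⟨hNU, hN1, hN2⟩ a p hap
    obtain ⟨F, hF, hnear⟩ := near_quot N U hU hNU
    obtain ⟨K, hK, -, hKF, hKr, hQ1, hQ2, hQ3⟩ := power_quot hN1 hN2 a.factorial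
      (Nat.factorial_pos a) F hF
    obtain ⟨N', hN'U, hN'k⟩ := hnear K hK hKF
    obtain ⟨e⟩ := grp_equiv N N' (N.grp ⧸ K) (QuotientGroup.mk' K) (QuotientGroup.mk'_surjective K)
      (by rw [QuotientGroup.ker_mk']; exact hN'k)
    have h1 : HypGroup N'.grp := hyp_equiv e.symm hQ1
    have h2 : ¬ Elem N'.grp := fun h => hQ2 (elem_equiv e h)
    obtain ⟨W, hW, hN'W, hWk⟩ := fp_nhd N' (hyp_fp h1)
    obtain ⟨M, ⟨⟨-, hMW⟩, -⟩, hMT⟩ := hT (U ∩ W) Set.inter_subset_left (hU.inter hW)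
      ⟨N', ⟨hN'U, hN'W⟩, h1, h2⟩
    have hconf : Conf M.grp a p := by
      rw [← hσ a p M.grp]
      rw [← hMT] at hap
      exact hap
    -- the surjection `N.grp → M.grp`
    have hle : N.ker ≤ M.ker := by
      refine le_trans ?_ (hWk M hMW)
      rw [hN'k]
      intro g hg
      rw [Subgroup.mem_comap]
      have : QuotientGroup.mk' N.ker g = 1 := (QuotientGroup.eq_one_iff g).2 hg
      rw [this]
      exact K.one_mem
    let π : N.grp →* M.grp := QuotientGroup.map N.ker M.ker (MonoidHom.id _) hle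
    have hs : Function.Surjective π := by
      intro y
      obtain ⟨g, rfl⟩ := QuotientGroup.mk_surjective y
      exact ⟨QuotientGroup.mk g, rfl⟩
    have hπK : ∀ x ∈ K, π x = 1 := by
      intro x hx
      obtain ⟨g, rfl⟩ := QuotientGroup.mk_surjective x
      have h3 : g ∈ N'.ker := by rw [hN'k]; exact hx
      exact (QuotientGroup.eq_one_iff g).2 (hWk M hMW h3)
    set C : Subgroup N.grp := Subgroup.centralizer (rad N.grp : Set N.grp) with hC
    have hCi : C.index ≠ 0 := pidx_ne_zero hN1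
    have hCf : (C.map π).FiniteIndex := by
      refine ⟨?_⟩
      intro h0
      apply hCi
      have h4 := Subgroup.index_map_dvd C hs
      rw [h0] at h4
      exact Nat.eq_zero_of_zero_dvd h4
    have hCle : C.map π ≤ Subgroup.closure {y | ∃ x ∈ C.map π, y = x ^ (a.factorial)} := by
      have h5 : C.map π ≤ (Subgroup.closure {y | ∃ x ∈ C, y = x ^ a.factorial} ⊔ K).map π :=
        Subgroup.map_mono hQ3
      rw [Subgroup.map_sup] at h5
      have h6 : K.map π ≤ ⊥ := by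
        rintro _ ⟨x, hx, rfl⟩
        exact hπK x hx
      refine h5.trans (sup_le ?_ (h6.trans bot_le))
      rw [MonoidHom.map_closure]
      apply Subgroup.closure_mono
      rintro _ ⟨_, ⟨x, hx, rfl⟩, rfl⟩
      exact ⟨π x, ⟨x, hx, rfl⟩, map_pow π x _⟩
    have h7 := conf_le hconf (C.map π) hCf hCle
    exact h7.trans (Nat.le_of_dvd (Nat.pos_of_ne_zero hCi) (Subgroup.index_map_dvd C hs))
  obtain ⟨N, hNU, hN1, hN2⟩ := hUC
  obtain ⟨F, hF, hnear⟩ := near_quot N U hU hNU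
  obtain ⟨A, _, π, hπs, hπi, hA1, hA2, hA3⟩ := bigger hN1 hN2 (hrf _ hN1) F hF
  obtain ⟨N', hN'U, hN'k⟩ := hnear π.ker inferInstance (fun s hs h => hπi s hs h)
  obtain ⟨e⟩ := grp_equiv N N' A π hπs hN'k
  have h1 : HypGroup N'.grp := hyp_equiv e.symm hA1
  have h2 : ¬ Elem N'.grp := fun h => hA2 (elem_equiv e h)
  obtain ⟨a, ha⟩ := claim2 N' ⟨hN'U, h1, h2⟩
  have h3 := claim1 N ⟨hNU, hN1, hN2⟩ a _ ha
  rw [pidx_equiv h1 e] at h3
  omega

theorem clsH_nonempty : clsH.Nonempty := by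
  obtain ⟨B, _, h1, h2⟩ := exists_nonElem
  obtain ⟨N, ⟨e⟩⟩ := exists_marking B (hyp_fg h1)
  exact ⟨N, hyp_equiv e.symm h1, fun h => h2 (elem_equiv e h)⟩

end Pool.Agent.H507
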