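import Pool.Agent.H507_D.Top

/-!
The space of marked groups is Hausdorff, second countable and locally compact.
-/

set_option autoImplicit false

namespace Pool.Agent.H507

open Topology Filter

theorem isOpen_def (U : Set MG) : IsOpen U ↔ ∀ n, ∀ N ∈ U, N ∈ stage n →
    ∃ B : Finset (FreeGroup ℕ), ∀ N' ∈ stage n,
      (∀ g ∈ B, g ∈ N'.ker ↔ g ∈ N.ker) → N' ∈ U := Iff.rfl

theorem mem_clopen (g : FreeGroup ℕ) : IsClopen {N : MG | g ∈ N.ker} := by
  constructor
  · rw [← isOpen_compl_iff, isOpen_def]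
    intro n N hN _
    exact ⟨{g}, fun N' _ h h' => hN ((h g (Finset.mem_singleton_self g)).1 h')⟩
  · rw [isOpen_def]
    intro n N hN _
    exact ⟨{g}, fun N' _ h => (h g (Finset.mem_singleton_self g)).2 hN⟩

theorem stage_clopen (n : ℕ) : IsClopen (stage n) := by
  classical
  have key : ∀ m, ∀ N ∈ stage m, ∀ N' ∈ stage m,
      (∀ g ∈ (Finset.range m).image (FreeGroup.of (α := ℕ)), g ∈ N'.ker ↔ g ∈ N.ker) →
      N ∈ stage n → N' ∈ stage n := by
    intro m N _ N' hN' h hNn i hi
    by_cases him : i < m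
    · exact (h _ (Finset.mem_image_of_mem _ (Finset.mem_range.2 him))).2 (hNn i hi)
    · exact hN' i (not_lt.1 him)
  constructor
  · rw [← isOpen_compl_iff, isOpen_def]
    intro m N hN hm
    exact ⟨_, fun N' hN' h h' => hN (key m N' hN' N hm (fun g hg => (h g hg).symm) h')⟩
  · rw [isOpen_def]
    intro m N hN hm
    exact ⟨_, fun N' hN' h => key m N hm N' hN' h hN⟩

theorem countable_words : Countable (FreeGroup ℕ) := by
  have : Function.Surjective (FreeGroup.mk (α := ℕ)) := fun x => ⟨x.toWord, FreeGroup.mk_toWord⟩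
  exact this.countable

/-- the basic open sets -/
def basic (p : ℕ × Finset (FreeGroup ℕ) × Finset (FreeGroup ℕ)) : Set MG :=
  stage p.1 ∩ ⋂ g ∈ p.2.1, {N | g ∈ N.ker ↔ g ∈ p.2.2}

theorem isOpen_basic (p : ℕ × Finset (FreeGroup ℕ) × Finset (FreeGroup ℕ)) : IsOpen (basic p) := by
  refine (stage_clopen _).isOpen.inter (isOpen_biInter_finset fun g _ => ?_)
  by_cases h : g ∈ p.2.2
  · simpa [h] using (mem_clopen g).isOpen
  · have := (mem_clopen g).compl.isOpen
    simpa [h, Set.compl_def] using this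

theorem isCompact_stage (n : ℕ) : IsCompact (stage n) := by
  rw [isCompact_iff_ultrafilter_le_nhds]
  intro F hF
  rw [le_principal_iff] at hF
  let K : Subgroup (FreeGroup ℕ) :=
    { carrier := {g | {M : MG | g ∈ M.ker} ∈ F}
      one_mem' := by
        have : {M : MG | (1 : FreeGroup ℕ) ∈ M.ker} = Set.univ := by
          ext M; simp [M.ker.one_mem]
        show {M : MG | (1 : FreeGroup ℕ) ∈ M.ker} ∈ F
        rw [this]
        exact univ_mem
      mul_mem' := by
        intro a b ha hb
        have ha' : {M : MG | a ∈ M.ker} ∈ F := ha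
        have hb' : {M : MG | b ∈ M.ker} ∈ F := hb
        show {M : MG | a * b ∈ M.ker} ∈ F
        filter_upwards [ha', hb'] with M h1 h2
        exact M.ker.mul_mem h1 h2
      inv_mem' := by
        intro a ha
        have ha' : {M : MG | a ∈ M.ker} ∈ F := ha
        show {M : MG | a⁻¹ ∈ M.ker} ∈ F
        filter_upwards [ha'] with M h1
        exact M.ker.inv_mem h1 }
  have hK : ∀ g, g ∈ K ↔ {M : MG | g ∈ M.ker} ∈ F := fun g => Iff.rfl
  have hKn : K.Normal := by
    constructor
    intro a ha g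
    rw [hK] at ha ⊢
    filter_upwards [ha] with M h1
    exact M.normal.conj_mem a h1 g
  have hfin : ∀ i, n ≤ i → FreeGroup.of i ∈ K := by
    intro i hi
    rw [hK]
    filter_upwards [hF] with M hM
    exact hM i hi
  refine ⟨⟨K, hKn, n, hfin⟩, hfin, ?_⟩
  intro U hU
  obtain ⟨V, hVU, hV, hNV⟩ := mem_nhds_iff.1 hU
  obtain ⟨B, hB⟩ := (isOpen_def V).1 hV n _ hNV hfin
  have h1 : (⋂ g ∈ B, {M : MG | g ∈ M.ker ↔ g ∈ K}) ∈ F := by
    refine (biInter_finset_mem B).2 fun g _ => ?_
    by_cases hg : g ∈ K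
    · have hg' := (hK g).1 hg
      filter_upwards [hg'] with M hM
      exact ⟨fun _ => hg, fun _ => hM⟩
    · have hg' : {M : MG | g ∈ M.ker}ᶜ ∈ F := by
        rw [Ultrafilter.compl_mem_iff_notMem]
        exact fun h => hg ((hK g).2 h)
      filter_upwards [hg'] with M hM
      exact ⟨fun h => absurd h hM, fun h => absurd h hg⟩
  filter_upwards [hF, h1] with M hM hM1
  refine hVU (hB M hM fun g hg => ?_)
  exact (Set.mem_iInter₂.1 hM1) g hg

theorem mg_space : T2Space MG ∧ SecondCountableTopology MG ∧ LocallyCompactSpace MG := by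
  classical
  have hT2 : T2Space MG := by
    constructor
    intro N N' hne
    have : ∃ g, ¬ (g ∈ N.ker ↔ g ∈ N'.ker) := by
      by_contra hcon
      push Not at hcon
      apply hne
      apply MG.ext
      ext g
      exact hcon g
    obtain ⟨g, hg⟩ := this
    by_cases h : g ∈ N.ker
    · have h' : g ∉ N'.ker := fun h'' => hg ⟨fun _ => h'', fun _ => h⟩
      exact ⟨_, _, (mem_clopen g).isOpen, (mem_clopen g).compl.isOpen, h, h', disjoint_compl_right⟩
    · have h' : g ∈ N'.ker := by
        by_contra h''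
        exact hg ⟨fun k => absurd k h, fun k => absurd k h''⟩
      exact ⟨_, _, (mem_clopen g).compl.isOpen, (mem_clopen g).isOpen, h, h', disjoint_compl_left⟩
  refine ⟨hT2, ?_, ?_⟩
  · have := countable_words
    have hb : TopologicalSpace.IsTopologicalBasis (Set.range basic) := by
      refine TopologicalSpace.isTopologicalBasis_of_isOpen_of_nhds ?_ ?_
      · rintro _ ⟨p, rfl⟩
        exact isOpen_basic p
      · intro N U hN hU
        obtain ⟨n, hn⟩ := N.fin
        obtain ⟨B, hB⟩ := (isOpen_def U).1 hU n N hN hn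
        refine ⟨_, ⟨(n, B, B.filter (· ∈ N.ker)), rfl⟩, ⟨hn, ?_⟩, ?_⟩
        · refine Set.mem_iInter₂.2 fun g hg => ?_
          simp only [Set.mem_setOf_eq, Finset.mem_filter]
          exact ⟨fun h => ⟨hg, h⟩, fun h => h.2⟩
        · rintro N' ⟨h1, h2⟩
          refine hB N' h1 fun g hg => ?_
          have h3 := (Set.mem_iInter₂.1 h2) g hg
          simp only [Set.mem_setOf_eq, Finset.mem_filter] at h3
          exact h3.trans ⟨fun h => h.2, fun h => ⟨hg, h⟩⟩
    exact hb.secondCountableTopology (Set.countable_range _)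
  · have : WeaklyLocallyCompactSpace MG := by
      constructor
      intro N
      obtain ⟨n, hn⟩ := N.fin
      exact ⟨stage n, isCompact_stage n, (stage_clopen n).isOpen.mem_nhds hn⟩
    infer_instance

end Pool.Agent.H507
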