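import Pool.Agent.H507_D.Top
import Pool.Agent.H507_P.T1

set_option autoImplicit false

namespace Pool.Agent.H507

open FirstOrder Language in
/-- Evaluation of terms commutes with homomorphisms. -/
theorem realize_hom {G H : Type} [Group G] [Group H] (f : G →* H) {β : Type} (t : Lgp.Term β)
    (v : β → G) : t.realize (fun i => f (v i)) = f (t.realize v) := by
  induction t with
  | var i => rfl
  | @func l g ts ih =>
    cases g with
    | one =>
      exact (map_one f).symm
    | inv =>
      have e := ih 0
      refine Eq.trans ?_ (map_inv f (Term.realize v (ts 0))).symm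
      exact congrArg (fun z => z⁻¹) e
    | mul =>
      have e0 := ih 0
      have e1 := ih 1
      refine Eq.trans ?_ (map_mul f (Term.realize v (ts 0)) (Term.realize v (ts 1))).symm
      exact congrArg₂ (fun a b => a * b) e0 e1

open FirstOrder Language in
/-- The sets defined by formulas with parameters words are Borel. -/
theorem borel_form {α : Type} {n : ℕ} (φ : Lgp.BoundedFormula α n) (v : α → FreeGroup ℕ)
    (w : Fin n → FreeGroup ℕ) : @MeasurableSet MG (borel MG)
      {N : MG | φ.Realize (fun i => ((v i : FreeGroup ℕ) : N.grp))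
        (fun i => ((w i : FreeGroup ℕ) : N.grp))} := by
  let _ : MeasurableSpace MG := borel MG
  have : BorelSpace MG := ⟨rfl⟩
  induction φ with
  | falsum =>
    have e : {N : MG | (BoundedFormula.falsum : Lgp.BoundedFormula α _).Realize
        (fun i => ((v i : FreeGroup ℕ) : N.grp)) (fun i => ((w i : FreeGroup ℕ) : N.grp))} = ∅ := by
      ext N
      simp [BoundedFormula.Realize]
    rw [e]
    exact MeasurableSet.empty
  | @equal m t₁ t₂ =>
    have e : {N : MG | (BoundedFormula.equal t₁ t₂ : Lgp.BoundedFormula α _).Realize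
        (fun i => ((v i : FreeGroup ℕ) : N.grp)) (fun i => ((w i : FreeGroup ℕ) : N.grp))} =
        {N : MG | (t₁.realize (Sum.elim v w))⁻¹ * t₂.realize (Sum.elim v w) ∈ N.ker} := by
      ext N
      have h : ∀ t : Lgp.Term (α ⊕ Fin m), t.realize (Sum.elim
          (fun i => ((v i : FreeGroup ℕ) : N.grp)) (fun i => ((w i : FreeGroup ℕ) : N.grp))) =
          ((t.realize (Sum.elim v w) : FreeGroup ℕ) : N.grp) := by
        intro t
        rw [← QuotientGroup.mk'_apply, ← realize_hom]
        congr 1
        ext i
        rcases i with i | i <;> rfl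
      simp only [BoundedFormula.Realize, Set.mem_ofPred_eq]
      rw [h, h, QuotientGroup.eq]
    rw [e]
    exact (mem_clopen _).isOpen.measurableSet
  | rel R ts => exact R.elim
  | imp φ₁ φ₂ ih₁ ih₂ =>
    have e : {N : MG | (BoundedFormula.imp φ₁ φ₂).Realize
        (fun i => ((v i : FreeGroup ℕ) : N.grp)) (fun i => ((w i : FreeGroup ℕ) : N.grp))} =
        {N : MG | φ₁.Realize (fun i => ((v i : FreeGroup ℕ) : N.grp))
          (fun i => ((w i : FreeGroup ℕ) : N.grp))}ᶜ ∪
        {N : MG | φ₂.Realize (fun i => ((v i : FreeGroup ℕ) : N.grp))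
          (fun i => ((w i : FreeGroup ℕ) : N.grp))} := by
      ext N
      simp only [BoundedFormula.realize_imp, Set.mem_ofPred_eq, Set.mem_union, Set.mem_compl_iff]
      tauto
    rw [e]
    exact (ih₁ w).compl.union (ih₂ w)
  | @all m φ ih =>
    have e : {N : MG | (BoundedFormula.all φ).Realize
        (fun i => ((v i : FreeGroup ℕ) : N.grp)) (fun i => ((w i : FreeGroup ℕ) : N.grp))} =
        ⋂ g : FreeGroup ℕ, {N : MG | φ.Realize (fun i => ((v i : FreeGroup ℕ) : N.grp))
          (fun i => (((Fin.snoc w g : Fin (m + 1) → FreeGroup ℕ) i : FreeGroup ℕ) : N.grp))} := by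
      ext N
      have h : ∀ g : FreeGroup ℕ, (Fin.snoc (fun i => ((w i : FreeGroup ℕ) : N.grp))
          ((g : FreeGroup ℕ) : N.grp) : Fin (m + 1) → N.grp) =
          (fun i => (((Fin.snoc w g : Fin (m + 1) → FreeGroup ℕ) i : FreeGroup ℕ) : N.grp)) := by
        intro g
        funext i
        refine Fin.lastCases ?_ (fun j => ?_) i
        · rw [Fin.snoc_last, Fin.snoc_last]
        · rw [Fin.snoc_castSucc, Fin.snoc_castSucc]
      simp only [BoundedFormula.realize_all, Set.mem_ofPred_eq, Set.mem_iInter]
      constructor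
      · intro hN g
        rw [← h g]
        exact hN _
      · intro hN x
        obtain ⟨g, rfl⟩ := QuotientGroup.mk_surjective x
        rw [h g]
        exact hN g
    rw [e]
    exact MeasurableSet.iInter (fun g => ih _)

/-- TARGET -/
theorem borel_mod (σ : Lgp.Sentence) : @MeasurableSet MG (borel MG) {N : MG | N.grp ⊨ σ} := by
  have h := borel_form σ (fun i => i.elim) (fun i => i.elim0)
  have e : {N : MG | N.grp ⊨ σ} = {N : MG | FirstOrder.Language.BoundedFormula.Realize σ
      (fun i : Empty => (((i.elim : FreeGroup ℕ)) : N.grp))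
      (fun i : Fin 0 => (((i.elim0 : FreeGroup ℕ)) : N.grp))} := by
    ext N
    simp only [Set.mem_ofPred_eq, FirstOrder.Language.Sentence.Realize,
      FirstOrder.Language.Formula.Realize]
    have key : ∀ (a a' : Empty → N.grp) (b b' : Fin 0 → N.grp),
        (FirstOrder.Language.BoundedFormula.Realize σ a b ↔
          FirstOrder.Language.BoundedFormula.Realize σ a' b') := by
      intro a a' b b'
      rw [Subsingleton.elim a a', Subsingleton.elim b b']
    exact key _ _ _ _
  rw [e]
  exact h

end Pool.Agent.H507
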