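import Mathlib

set_option autoImplicit false

namespace Pool.Agent.H507

theorem zero_one_preimage {X : Type*} [TopologicalSpace X] (φ : OpenPartialHomeomorph X X)
    {M : Set X} (hM : IsMeagre M) : IsMeagre (φ.source ∩ φ ⁻¹' M) := by
  have hc : Continuous (φ.source.domRestrict φ) :=
    continuousOn_iff_continuous_domRestrict.1 φ.continuousOn
  have ho : IsOpenMap (φ.source.domRestrict φ) := by
    rintro U ⟨W, hW, rfl⟩
    have : φ.source.domRestrict φ '' (Subtype.val ⁻¹' W) = φ '' (φ.source ∩ W) := by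
      ext y
      constructor
      · rintro ⟨z, hz, rfl⟩
        exact ⟨z.1, ⟨z.2, hz⟩, rfl⟩
      · rintro ⟨z, ⟨hz, hz'⟩, rfl⟩
        exact ⟨⟨z, hz⟩, hz', rfl⟩
    rw [this]
    exact φ.isOpen_image_source_inter hW
  have h1 := (hM.preimage_of_isOpenMap hc ho).image_val
  refine h1.mono ?_
  rintro z ⟨hz, hz'⟩
  exact ⟨⟨z, hz⟩, hz', rfl⟩

/-- TARGET -/
theorem zero_one {X : Type*} [TopologicalSpace X] [BaireSpace X] (r : X → X → Prop)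
    (hom : ∀ x y, r x y → ∃ φ : OpenPartialHomeomorph X X, x ∈ φ.source ∧ φ x = y ∧
      ∀ z ∈ φ.source, r z (φ z))
    (V : Set X) (hV : IsOpen V)
    (tr : ∀ U₁ U₂ : Set X, IsOpen U₁ → IsOpen U₂ → U₁.Nonempty → U₂.Nonempty → U₁ ⊆ V → U₂ ⊆ V →
      ∃ x ∈ U₁, ∃ y ∈ U₂, r x y)
    (A : Set X) (hA : BaireMeasurableSet A) (inv : ∀ x y, r x y → (x ∈ A ↔ y ∈ A)) :
    IsMeagre (A ∩ V) ∨ IsMeagre (V \ A) := by
  by_contra hcon
  rw [not_or] at hcon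
  obtain ⟨h1, h2⟩ := hcon
  obtain ⟨O, hO, hAO⟩ := hA.residualEq_isOpen
  obtain ⟨O', hO', hAO'⟩ := hA.compl.residualEq_isOpen
  have hD : IsMeagre {x | ¬ (x ∈ A ↔ x ∈ O)} := by
    rw [IsMeagre]
    filter_upwards [hAO] with x hx
    intro hx'
    exact hx' (iff_of_eq hx)
  have hD' : IsMeagre {x | ¬ (x ∉ A ↔ x ∈ O')} := by
    rw [IsMeagre]
    filter_upwards [hAO'] with x hx
    intro hx'
    exact hx' (iff_of_eq hx)
  have hn1 : (O ∩ V).Nonempty := by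
    by_contra hne
    apply h1
    refine hD.mono ?_
    rintro x ⟨hx, hxV⟩ hiff
    exact hne ⟨x, hiff.1 hx, hxV⟩
  have hn2 : (O' ∩ V).Nonempty := by
    by_contra hne
    apply h2
    refine hD'.mono ?_
    rintro x ⟨hxV, hx⟩ hiff
    exact hne ⟨x, hiff.1 hx, hxV⟩
  obtain ⟨x, hx, y, hy, hxy⟩ := tr _ _ (hO.inter hV) (hO'.inter hV) hn1 hn2
    Set.inter_subset_right Set.inter_subset_right
  obtain ⟨φ, hφx, hφy, hφr⟩ := hom x y hxy
  have hG : IsOpen ((φ.source ∩ φ ⁻¹' (O' ∩ V)) ∩ (O ∩ V)) :=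
    (φ.isOpen_inter_preimage (hO'.inter hV)).inter (hO.inter hV)
  have hxG : x ∈ (φ.source ∩ φ ⁻¹' (O' ∩ V)) ∩ (O ∩ V) := ⟨⟨hφx, by
    rw [Set.mem_preimage, hφy]; exact hy⟩, hx⟩
  refine not_isMeagre_of_isOpen hG ⟨x, hxG⟩ ?_
  refine (hD.union (zero_one_preimage φ hD')).mono ?_
  rintro z ⟨⟨hz, hz1⟩, hz2⟩
  by_contra hcon
  rw [Set.mem_union, not_or] at hcon
  obtain ⟨h3, h4⟩ := hcon
  have h5 : z ∈ A ↔ z ∈ O := not_not.1 h3
  have h6 : φ z ∉ A ↔ φ z ∈ O' := by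
    by_contra h7
    exact h4 ⟨hz, h7⟩
  exact h6.2 hz1.1 ((inv z (φ z) (hφr z hz)).1 (h5.2 hz2.1))

end Pool.Agent.H507
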