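import Pool.Agent.H507_D.Top
import Pool.Agent.H507_P.T1

set_option autoImplicit false

namespace Pool.Agent.H507

/-- pull back along an endomorphism -/
def pull (α : FreeGroup ℕ →* FreeGroup ℕ) (m : ℕ) (hα : ∀ i, m ≤ i → α (FreeGroup.of i) = 1)
    (M : MG) : MG :=
  ⟨M.ker.comap α, inferInstance, m, fun i hi => by
    rw [Subgroup.mem_comap, hα i hi]; exact M.ker.one_mem⟩

theorem mem_pull (α : FreeGroup ℕ →* FreeGroup ℕ) (m : ℕ)
    (hα : ∀ i, m ≤ i → α (FreeGroup.of i) = 1) (M : MG) (g : FreeGroup ℕ) :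
    g ∈ (pull α m hα M).ker ↔ α g ∈ M.ker := Iff.rfl

theorem pull_stage (α : FreeGroup ℕ →* FreeGroup ℕ) (m : ℕ)
    (hα : ∀ i, m ≤ i → α (FreeGroup.of i) = 1) (M : MG) : pull α m hα M ∈ stage m := by
  intro i hi
  rw [mem_pull, hα i hi]; exact M.ker.one_mem

theorem pull_continuous (α : FreeGroup ℕ →* FreeGroup ℕ) (m : ℕ)
    (hα : ∀ i, m ≤ i → α (FreeGroup.of i) = 1) : Continuous (pull α m hα) := by
  classical
  rw [continuous_def]
  intro U hU k M hM _
  obtain ⟨B, hB⟩ := hU m (pull α m hα M) hM (pull_stage α m hα M)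
  refine ⟨B.image α, fun M' _ h => hB (pull α m hα M') (pull_stage α m hα M') ?_⟩
  intro g hg
  rw [mem_pull, mem_pull]
  exact h (α g) (Finset.mem_image_of_mem _ hg)

/-- the open set on which the change of generators works -/
def Oset (α β : FreeGroup ℕ →* FreeGroup ℕ) (n : ℕ) : Set MG :=
  {M | M ∈ stage n ∧ ∀ j ∈ Finset.range n,
    α (β (FreeGroup.of j)) * (FreeGroup.of j)⁻¹ ∈ M.ker}

theorem Oset_open (α β : FreeGroup ℕ →* FreeGroup ℕ) (n : ℕ) : IsOpen (Oset α β n) := by
  have : Oset α β n = stage n ∩ ⋂ j ∈ Finset.range n,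
      {M : MG | α (β (FreeGroup.of j)) * (FreeGroup.of j)⁻¹ ∈ M.ker} := by
    ext M; simp [Oset]
  rw [this]
  exact (stage_clopen n).isOpen.inter
    (isOpen_biInter_finset fun j _ => (mem_clopen _).isOpen)

theorem Oset_key (α β : FreeGroup ℕ →* FreeGroup ℕ) (n : ℕ)
    (hβ : ∀ j, n ≤ j → β (FreeGroup.of j) = 1) (M : MG) (hM : M ∈ Oset α β n)
    (g : FreeGroup ℕ) : (QuotientGroup.mk' M.ker) (α (β g)) = QuotientGroup.mk' M.ker g := by
  have h : ((QuotientGroup.mk' M.ker).comp (α.comp β)) = QuotientGroup.mk' M.ker := by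
    apply FreeGroup.ext_hom
    intro j
    by_cases hj : j < n
    · have h1 := hM.2 j (Finset.mem_range.2 hj)
      have h2 : (QuotientGroup.mk' M.ker) (α (β (FreeGroup.of j)) * (FreeGroup.of j)⁻¹) = 1 :=
        (QuotientGroup.eq_one_iff _).2 h1
      rw [map_mul, map_inv, mul_inv_eq_one] at h2
      exact h2
    · have h1 : FreeGroup.of j ∈ M.ker := hM.1 j (not_lt.1 hj)
      have h2 : (QuotientGroup.mk' M.ker) (FreeGroup.of j) = 1 :=
        (QuotientGroup.eq_one_iff _).2 h1
      rw [h2]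
      simp [hβ j (not_lt.1 hj)]
  exact DFunLike.congr_fun h g

theorem Oset_iff (α β : FreeGroup ℕ →* FreeGroup ℕ) (n : ℕ)
    (hβ : ∀ j, n ≤ j → β (FreeGroup.of j) = 1) (M : MG) (hM : M ∈ Oset α β n)
    (g : FreeGroup ℕ) : α (β g) ∈ M.ker ↔ g ∈ M.ker := by
  rw [← QuotientGroup.eq_one_iff (N := M.ker) (α (β g)),
    ← QuotientGroup.eq_one_iff (N := M.ker) g]
  have := Oset_key α β n hβ M hM g
  simp only [QuotientGroup.mk'_apply] at this
  rw [this]

theorem pull_pull (α β : FreeGroup ℕ →* FreeGroup ℕ) (n m : ℕ)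
    (hα : ∀ i, m ≤ i → α (FreeGroup.of i) = 1)
    (hβ : ∀ j, n ≤ j → β (FreeGroup.of j) = 1) (M : MG) (hM : M ∈ Oset α β n) :
    pull β n hβ (pull α m hα M) = M := by
  apply MG.ext
  ext g
  rw [mem_pull, mem_pull]
  exact Oset_iff α β n hβ M hM g

theorem pull_mem (α β : FreeGroup ℕ →* FreeGroup ℕ) (n m : ℕ)
    (hα : ∀ i, m ≤ i → α (FreeGroup.of i) = 1)
    (hβ : ∀ j, n ≤ j → β (FreeGroup.of j) = 1) (M : MG) (hM : M ∈ Oset α β n) :
    pull α m hα M ∈ Oset β α m := by
  refine ⟨pull_stage α m hα M, fun i _ => ?_⟩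
  rw [mem_pull, map_mul, map_inv]
  have := Oset_key α β n hβ M hM (α (FreeGroup.of i))
  rw [← QuotientGroup.eq_one_iff]
  change (QuotientGroup.mk' M.ker) (α (β (α (FreeGroup.of i))) * (α (FreeGroup.of i))⁻¹) = 1
  rw [map_mul, this, map_inv, mul_inv_cancel]

theorem pull_grp (α β : FreeGroup ℕ →* FreeGroup ℕ) (n m : ℕ)
    (hα : ∀ i, m ≤ i → α (FreeGroup.of i) = 1)
    (hβ : ∀ j, n ≤ j → β (FreeGroup.of j) = 1) (M : MG) (hM : M ∈ Oset α β n) :
    Nonempty (M.grp ≃* (pull α m hα M).grp) := by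
  let f : FreeGroup ℕ →* M.grp := (QuotientGroup.mk' M.ker).comp α
  have hf : Function.Surjective f := by
    intro x
    obtain ⟨g, rfl⟩ := QuotientGroup.mk'_surjective M.ker x
    exact ⟨β g, Oset_key α β n hβ M hM g⟩
  have hk : f.ker = (pull α m hα M).ker := by
    ext g
    rw [mem_pull, MonoidHom.mem_ker, ← QuotientGroup.eq_one_iff]
    rfl
  exact ⟨((QuotientGroup.quotientMulEquivOfEq hk).symm.trans
    (QuotientGroup.quotientKerEquivOfSurjective f hf)).symm⟩

/-- the partial homeomorphism -/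
noncomputable def pullHomeo (α β : FreeGroup ℕ →* FreeGroup ℕ) (n m : ℕ)
    (hα : ∀ i, m ≤ i → α (FreeGroup.of i) = 1)
    (hβ : ∀ j, n ≤ j → β (FreeGroup.of j) = 1) : OpenPartialHomeomorph MG MG where
  toFun := pull α m hα
  invFun := pull β n hβ
  source := Oset α β n
  target := Oset β α m
  map_source' := fun M hM => pull_mem α β n m hα hβ M hM
  map_target' := fun M hM => pull_mem β α m n hβ hα M hM
  left_inv' := fun M hM => pull_pull α β n m hα hβ M hM
  right_inv' := fun M hM => pull_pull β α m n hβ hα M hM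
  open_source := Oset_open α β n
  open_target := Oset_open β α m
  continuousOn_toFun := (pull_continuous α m hα).continuousOn
  continuousOn_invFun := (pull_continuous β n hβ).continuousOn

/-- TARGET 1 -/
theorem mg_hom (N N' : MG) (e : N.grp ≃* N'.grp) : ∃ φ : OpenPartialHomeomorph MG MG,
    N ∈ φ.source ∧ φ N = N' ∧ ∀ z ∈ φ.source, Nonempty (z.grp ≃* (φ z).grp) := by
  classical
  obtain ⟨n, hn⟩ := N.fin
  obtain ⟨m, hm⟩ := N'.fin
  -- words
  have hu : ∀ i : ℕ, ∃ u : FreeGroup ℕ, QuotientGroup.mk' N.ker u =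
      e.symm (QuotientGroup.mk' N'.ker (FreeGroup.of i)) := fun i =>
    QuotientGroup.mk'_surjective N.ker _
  have hv : ∀ j : ℕ, ∃ v : FreeGroup ℕ, QuotientGroup.mk' N'.ker v =
      e (QuotientGroup.mk' N.ker (FreeGroup.of j)) := fun j =>
    QuotientGroup.mk'_surjective N'.ker _
  choose u hu using hu
  choose v hv using hv
  let α : FreeGroup ℕ →* FreeGroup ℕ := FreeGroup.lift fun i => if i < m then u i else 1
  let β : FreeGroup ℕ →* FreeGroup ℕ := FreeGroup.lift fun j => if j < n then v j else 1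
  have hα : ∀ i, m ≤ i → α (FreeGroup.of i) = 1 := by
    intro i hi
    simp [α, not_lt.2 hi]
  have hβ : ∀ j, n ≤ j → β (FreeGroup.of j) = 1 := by
    intro j hj
    simp [β, not_lt.2 hj]
  have h1 : ∀ g, QuotientGroup.mk' N.ker (α g) = e.symm (QuotientGroup.mk' N'.ker g) := by
    intro g
    have : ((QuotientGroup.mk' N.ker).comp α) =
        (e.symm.toMonoidHom.comp (QuotientGroup.mk' N'.ker)) := by
      apply FreeGroup.ext_hom
      intro i
      by_cases hi : i < m
      · simpa [α, hi] using hu i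
      · have h2 : (QuotientGroup.mk' N'.ker) (FreeGroup.of i) = 1 :=
          (QuotientGroup.eq_one_iff _).2 (hm i (not_lt.1 hi))
        rw [MonoidHom.comp_apply, MonoidHom.comp_apply, h2, hα i (not_lt.1 hi), map_one, map_one]
    exact DFunLike.congr_fun this g
  have h2 : ∀ g, QuotientGroup.mk' N'.ker (β g) = e (QuotientGroup.mk' N.ker g) := by
    intro g
    have : ((QuotientGroup.mk' N'.ker).comp β) =
        (e.toMonoidHom.comp (QuotientGroup.mk' N.ker)) := by
      apply FreeGroup.ext_hom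
      intro i
      by_cases hi : i < n
      · simpa [β, hi] using hv i
      · have h2 : (QuotientGroup.mk' N.ker) (FreeGroup.of i) = 1 :=
          (QuotientGroup.eq_one_iff _).2 (hn i (not_lt.1 hi))
        rw [MonoidHom.comp_apply, MonoidHom.comp_apply, h2, hβ i (not_lt.1 hi), map_one, map_one]
    exact DFunLike.congr_fun this g
  refine ⟨pullHomeo α β n m hα hβ, ?_, ?_, ?_⟩
  · refine ⟨hn, fun j _ => ?_⟩
    rw [← QuotientGroup.eq_one_iff]
    change (QuotientGroup.mk' N.ker) (α (β (FreeGroup.of j)) * (FreeGroup.of j)⁻¹) = 1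
    rw [map_mul, h1, h2, map_inv, MulEquiv.symm_apply_apply, mul_inv_cancel]
  · apply MG.ext
    ext g
    change g ∈ (pull α m hα N).ker ↔ _
    rw [mem_pull, ← QuotientGroup.eq_one_iff, ← QuotientGroup.eq_one_iff (N := N'.ker) g]
    change (QuotientGroup.mk' N.ker) (α g) = 1 ↔ (QuotientGroup.mk' N'.ker) g = 1
    rw [h1, map_eq_one_iff _ e.symm.injective]
  · intro z hz
    exact pull_grp α β n m hα hβ z hz

theorem closure_map (C : Set MG) (hC : ∀ N N' : MG, Nonempty (N.grp ≃* N'.grp) → N ∈ C → N' ∈ C)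
    (φ : OpenPartialHomeomorph MG MG) (h : ∀ z ∈ φ.source, Nonempty (z.grp ≃* (φ z).grp))
    (z : MG) (hz : z ∈ φ.source) (hzC : z ∈ closure C) : φ z ∈ closure C := by
  rw [mem_closure_iff]
  intro U hU hzU
  have hV : IsOpen (φ.source ∩ φ ⁻¹' U) := φ.isOpen_inter_preimage hU
  obtain ⟨w, ⟨hw1, hw2⟩, hwC⟩ := mem_closure_iff.1 hzC _ hV ⟨hz, hzU⟩
  exact ⟨φ w, hw2, hC w (φ w) (h w hw1) hwC⟩

/-- TARGET 2 -/
theorem mg_hom_closure (C : Set MG) (hC : ∀ N N' : MG, Nonempty (N.grp ≃* N'.grp) → N ∈ C → N' ∈ C)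
    (x y : closure C) (h : Nonempty (x.1.grp ≃* y.1.grp)) :
    ∃ φ : OpenPartialHomeomorph (closure C) (closure C), x ∈ φ.source ∧ φ x = y ∧
      ∀ z ∈ φ.source, Nonempty (z.1.grp ≃* (φ z).1.grp) := by
  classical
  obtain ⟨e⟩ := h
  obtain ⟨φ, hx, hxy, hφ⟩ := mg_hom x.1 y.1 e
  have hφs : ∀ z ∈ φ.symm.source, Nonempty (z.grp ≃* (φ.symm z).grp) := by
    intro z hz
    have hz' : z ∈ φ.target := hz
    obtain ⟨f⟩ := hφ (φ.symm z) (φ.map_target hz')
    rw [φ.right_inv hz'] at f
    exact ⟨f.symm⟩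
  have hm := closure_map C hC φ hφ
  have hm' := closure_map C hC φ.symm hφs
  let F : closure C → closure C := fun z =>
    if hz : z.1 ∈ φ.source then ⟨φ z.1, hm z.1 hz z.2⟩ else z
  let G : closure C → closure C := fun z =>
    if hz : z.1 ∈ φ.target then ⟨φ.symm z.1, hm' z.1 hz z.2⟩ else z
  have hF : ∀ z : closure C, z.1 ∈ φ.source → (F z).1 = φ z.1 := by
    intro z hz
    simp only [F, dif_pos hz]
  have hG : ∀ z : closure C, z.1 ∈ φ.target → (G z).1 = φ.symm z.1 := by
    intro z hz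
    simp only [G, dif_pos hz]
  let ψ : OpenPartialHomeomorph (closure C) (closure C) :=
    { toFun := F
      invFun := G
      source := Subtype.val ⁻¹' φ.source
      target := Subtype.val ⁻¹' φ.target
      map_source' := fun z hz => by
        change (F z).1 ∈ φ.target
        rw [hF z hz]; exact φ.map_source hz
      map_target' := fun z hz => by
        change (G z).1 ∈ φ.source
        rw [hG z hz]; exact φ.map_target hz
      left_inv' := fun z hz => by
        apply Subtype.ext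
        have h1 : (F z).1 ∈ φ.target := by rw [hF z hz]; exact φ.map_source hz
        rw [hG _ h1, hF z hz]; exact φ.left_inv hz
      right_inv' := fun z hz => by
        apply Subtype.ext
        have h1 : (G z).1 ∈ φ.source := by rw [hG z hz]; exact φ.map_target hz
        rw [hF _ h1, hG z hz]; exact φ.right_inv hz
      open_source := φ.open_source.preimage continuous_subtype_val
      open_target := φ.open_target.preimage continuous_subtype_val
      continuousOn_toFun := by
        rw [Topology.IsInducing.subtypeVal.continuousOn_iff]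
        have h1 : ContinuousOn (φ ∘ (Subtype.val : closure C → MG)) (Subtype.val ⁻¹' φ.source) :=
          φ.continuousOn.comp continuous_subtype_val.continuousOn (fun z hz => hz)
        exact h1.congr fun z hz => hF z hz
      continuousOn_invFun := by
        rw [Topology.IsInducing.subtypeVal.continuousOn_iff]
        have h1 : ContinuousOn (φ.symm ∘ (Subtype.val : closure C → MG))
            (Subtype.val ⁻¹' φ.target) :=
          φ.continuousOn_symm.comp continuous_subtype_val.continuousOn (fun z hz => hz)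
        exact h1.congr fun z hz => hG z hz }
  refine ⟨ψ, hx, ?_, ?_⟩
  · apply Subtype.ext
    change (F x).1 = y.1
    rw [hF x hx, hxy]
  · intro z hz
    change Nonempty (z.1.grp ≃* (F z).1.grp)
    rw [hF z hz]
    exact hφ z.1 hz

end Pool.Agent.H507
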