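import Pool.Agent.H507_D.Top
import Pool.Agent.H507_P.T1
import Pool.Agent.H507_P.T2
import Pool.Agent.H507_P.T3
import Pool.Agent.H507_P.T4

set_option autoImplicit false

namespace Pool.Agent.H507

theorem T5_countable_sentence : Countable Lgp.Sentence := by
  have hF : ∀ n, Countable (Lgp.Functions n) := by
    intro n
    have : Subsingleton (Lgp.Functions n) := by
      constructor
      intro a b
      change GpFunc n at a b
      cases a <;> cases b <;> rfl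
    infer_instance
  have hR : ∀ n, Countable (Lgp.Relations n) := by
    intro n
    change Countable Empty
    infer_instance
  have h1 : Countable (Σ n, Lgp.Functions n) := by infer_instance
  have h2 : Countable (Σ n, Lgp.Relations n) := by infer_instance
  have h3 : Lgp.card ≤ Cardinal.aleph0 := by
    have : Countable Lgp.Symbols := by
      unfold FirstOrder.Language.Symbols
      infer_instance
    exact Cardinal.mk_le_aleph0_iff.2 this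
  have h4 := FirstOrder.Language.BoundedFormula.card_le (L := Lgp) (α := Empty)
  have h5 : Cardinal.mk (Σ n, Lgp.BoundedFormula Empty n) ≤ Cardinal.aleph0 := by
    refine h4.trans (max_le le_rfl ?_)
    simp only [Cardinal.mk_eq_zero, Cardinal.lift_zero, zero_add]
    rw [Cardinal.lift_le_aleph0]
    exact h3
  have h6 : Countable (Σ n, Lgp.BoundedFormula Empty n) := Cardinal.mk_le_aleph0_iff.1 h5
  have hinj : Function.Injective (fun σ : Lgp.Sentence =>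
      (⟨0, σ⟩ : Σ n, Lgp.BoundedFormula Empty n)) := by
    intro a b h
    simpa using h
  exact hinj.countable

/-- isomorphic groups satisfy the same sentences -/
theorem T5_iso {N N' : MG} (h : Nonempty (N.grp ≃* N'.grp)) (σ : Lgp.Sentence) :
    N.grp ⊨ σ ↔ N'.grp ⊨ σ := by
  obtain ⟨f⟩ := h
  let g : FirstOrder.Language.Equiv Lgp N.grp N'.grp :=
    { toEquiv := f.toEquiv
      map_fun' := by
        intro n F v
        change GpFunc n at F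
        cases F
        · exact map_one f
        · exact map_inv f _
        · exact map_mul f _ _
      map_rel' := by
        intro n R v
        exact (R : Empty).elim }
  exact FirstOrder.Language.StrongHomClass.realize_sentence g σ

/-- a good open set -/
def T5_Good (C V : Set MG) : Prop :=
  IsOpen V ∧ ∀ U₁ U₂ : Set MG, IsOpen U₁ → IsOpen U₂ → (U₁ ∩ V ∩ C).Nonempty →
    (U₂ ∩ V ∩ C).Nonempty →
    ∃ M₁ ∈ U₁ ∩ V ∩ C, ∃ M₂ ∈ U₂ ∩ V ∩ C, Nonempty (M₁.grp ≃* M₂.grp)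

theorem T5_baire (C : Set MG) : BaireSpace (closure C) := by
  obtain ⟨h1, h2, h3⟩ := mg_space
  have : LocallyCompactSpace (closure C) := isClosed_closure.locallyCompactSpace
  infer_instance

theorem T5_const (C : Set MG) (hC : ∀ N N' : MG, Nonempty (N.grp ≃* N'.grp) → N ∈ C → N' ∈ C)
    (V : Set MG) (hV : T5_Good C V) :
    ∃ (E : Set (closure C)) (T : Lgp.Theory), IsMeagre E ∧
      ∀ x : closure C, x.1 ∈ V → x ∉ E → thy x.1 = T := by
  classical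
  have hB := T5_baire C
  have hcs := T5_countable_sentence
  let A : Lgp.Sentence → Set (closure C) := fun σ => {x | x.1.grp ⊨ σ}
  let V' : Set (closure C) := Subtype.val ⁻¹' V
  have hV' : IsOpen V' := hV.1.preimage continuous_subtype_val
  have hA : ∀ σ, BaireMeasurableSet (A σ) := by
    intro σ
    letI : MeasurableSpace MG := borel MG
    haveI : BorelSpace MG := ⟨rfl⟩
    have h1 : MeasurableSet {N : MG | N.grp ⊨ σ} := borel_mod σ
    have h2 : MeasurableSet (A σ) := measurable_subtype_coe h1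
    exact h2.baireMeasurableSet
  have hkey : ∀ σ, IsMeagre (A σ ∩ V') ∨ IsMeagre (V' \ A σ) := by
    intro σ
    refine zero_one (fun x y : closure C => Nonempty (x.1.grp ≃* y.1.grp))
      (fun x y h => mg_hom_closure C hC x y h) V' hV' ?_ (A σ) (hA σ)
      (fun x y h => T5_iso h σ)
    intro U₁ U₂ hU₁ hU₂ hn₁ hn₂ hs₁ hs₂
    obtain ⟨O₁, hO₁, rfl⟩ := isOpen_induced_iff.1 hU₁
    obtain ⟨O₂, hO₂, rfl⟩ := isOpen_induced_iff.1 hU₂
    have key : ∀ O : Set MG, IsOpen O → (Subtype.val ⁻¹' O : Set (closure C)).Nonempty →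
        (Subtype.val ⁻¹' O : Set (closure C)) ⊆ V' → (O ∩ V ∩ C).Nonempty := by
      intro O hO hn hs
      obtain ⟨x, hx⟩ := hn
      exact mem_closure_iff.1 x.2 (O ∩ V) (hO.inter hV.1) ⟨hx, hs hx⟩
    obtain ⟨M₁, hM₁, M₂, hM₂, hM⟩ := hV.2 O₁ O₂ hO₁ hO₂ (key O₁ hO₁ hn₁ hs₁) (key O₂ hO₂ hn₂ hs₂)
    exact ⟨⟨M₁, subset_closure hM₁.2⟩, hM₁.1.1, ⟨M₂, subset_closure hM₂.2⟩, hM₂.1.1, hM⟩
  let T : Lgp.Theory := {σ | IsMeagre (V' \ A σ)}
  let F : Lgp.Sentence → Set (closure C) := fun σ => if σ ∈ T then V' \ A σ else A σ ∩ V'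
  have hF : ∀ σ, IsMeagre (F σ) := by
    intro σ
    simp only [F]
    split_ifs with h
    · exact h
    · exact (hkey σ).resolve_right h
  refine ⟨⋃ σ, F σ, T, isMeagre_iUnion hF, ?_⟩
  intro x hxV hxE
  rw [Set.mem_iUnion] at hxE
  push Not at hxE
  ext σ
  have h1 := hxE σ
  have h2 : σ ∈ thy x.1 ↔ x ∈ A σ := Iff.rfl
  rw [h2]
  simp only [F] at h1
  constructor
  · intro hx
    by_contra hT
    rw [if_neg hT] at h1
    exact h1 ⟨hx, hxV⟩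
  · intro hT
    rw [if_pos hT] at h1
    by_contra hx
    exact h1 ⟨hxV, hx⟩

/-- TARGET 1 -/
theorem top_main (C : Set MG) (hC : ∀ N N' : MG, Nonempty (N.grp ≃* N'.grp) → N ∈ C → N' ∈ C)
    (good : ∀ U : Set MG, IsOpen U → (U ∩ C).Nonempty → ∃ V : Set MG, V ⊆ U ∧ IsOpen V ∧
      (V ∩ C).Nonempty ∧ ∀ N₁ ∈ V ∩ C, ∀ N₂ ∈ V ∩ C, ∀ U₁ U₂ : Set MG, IsOpen U₁ → IsOpen U₂ →
        N₁ ∈ U₁ → N₂ ∈ U₂ → ∃ M₁ ∈ U₁ ∩ C, ∃ M₂ ∈ U₂ ∩ C, Nonempty (M₁.grp ≃* M₂.grp)) :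
    ∃ S : Set (closure C), S ∈ residual (closure C) ∧ ((fun N : closure C => thy N.1) '' S).Countable := by
  classical
  obtain ⟨hT2, hSC, hLC⟩ := mg_space
  have hconst := fun V : {V : Set MG // T5_Good C V} => T5_const C hC V.1 V.2
  choose E Th hE hTh using hconst
  let s : {V : Set MG // T5_Good C V} → Set (closure C) := fun V => Subtype.val ⁻¹' V.1
  have hs : ∀ V, IsOpen (s V) := fun V => V.2.1.preimage continuous_subtype_val
  obtain ⟨K, hK, hKu⟩ := TopologicalSpace.isOpen_iUnion_countable s hs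
  have hD : Dense (⋃ V, s V) := by
    rw [dense_iff_inter_open]
    intro O hO hne
    obtain ⟨U, hU, rfl⟩ := isOpen_induced_iff.1 hO
    obtain ⟨x, hx⟩ := hne
    have h1 : (U ∩ C).Nonempty := mem_closure_iff.1 x.2 U hU hx
    obtain ⟨V, hVU, hV, hVC, hgood⟩ := good U hU h1
    have hG : T5_Good C V := by
      refine ⟨hV, ?_⟩
      rintro U₁ U₂ hU₁ hU₂ ⟨N₁, hN₁⟩ ⟨N₂, hN₂⟩
      obtain ⟨M₁, hM₁, M₂, hM₂, hM⟩ := hgood N₁ ⟨hN₁.1.2, hN₁.2⟩ N₂ ⟨hN₂.1.2, hN₂.2⟩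
        (U₁ ∩ V) (U₂ ∩ V) (hU₁.inter hV) (hU₂.inter hV) hN₁.1 hN₂.1
      exact ⟨M₁, hM₁, M₂, hM₂, hM⟩
    obtain ⟨N, hN⟩ := hVC
    refine ⟨⟨N, subset_closure hN.2⟩, hVU hN.1, ?_⟩
    rw [Set.mem_iUnion]
    exact ⟨⟨V, hG⟩, hN.1⟩
  have hDo : IsOpen (⋃ V, s V) := isOpen_iUnion hs
  have hDr := residual_of_dense_open hDo hD
  have hEm : IsMeagre (⋃ V ∈ K, E V) := isMeagre_biUnion hK fun V _ => hE V
  refine ⟨(⋃ V, s V) ∩ (⋃ V ∈ K, E V)ᶜ, Filter.inter_mem hDr hEm, ?_⟩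
  refine (hK.image Th).mono ?_
  rintro _ ⟨x, ⟨hx1, hx2⟩, rfl⟩
  rw [← hKu, Set.mem_iUnion₂] at hx1
  obtain ⟨V, hVK, hxV⟩ := hx1
  refine ⟨V, hVK, ?_⟩
  refine (hTh V x hxV ?_).symm
  intro hxE
  apply hx2
  rw [Set.mem_iUnion₂]
  exact ⟨V, hVK, hxE⟩

/-- TARGET 2 -/
theorem top_one (C : Set MG) (hC : ∀ N N' : MG, Nonempty (N.grp ≃* N'.grp) → N ∈ C → N' ∈ C)
    (good : ∀ N₁ ∈ C, ∀ N₂ ∈ C, ∀ U₁ U₂ : Set MG, IsOpen U₁ → IsOpen U₂ →
        N₁ ∈ U₁ → N₂ ∈ U₂ → ∃ M₁ ∈ U₁ ∩ C, ∃ M₂ ∈ U₂ ∩ C, Nonempty (M₁.grp ≃* M₂.grp)) :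
    ∃ S : Set (closure C), S ∈ residual (closure C) ∧ ∀ x ∈ S, ∀ y ∈ S, thy x.1 = thy y.1 := by
  have hG : T5_Good C Set.univ := by
    refine ⟨isOpen_univ, ?_⟩
    rintro U₁ U₂ hU₁ hU₂ ⟨N₁, hN₁⟩ ⟨N₂, hN₂⟩
    obtain ⟨M₁, hM₁, M₂, hM₂, hM⟩ := good N₁ hN₁.2 N₂ hN₂.2 U₁ U₂ hU₁ hU₂ hN₁.1.1 hN₂.1.1
    exact ⟨M₁, ⟨⟨hM₁.1, trivial⟩, hM₁.2⟩, M₂, ⟨⟨hM₂.1, trivial⟩, hM₂.2⟩, hM⟩
  obtain ⟨E, T, hE, hT⟩ := T5_const C hC Set.univ hG
  exact ⟨Eᶜ, hE, fun x hx y hy => (hT x trivial hx).trans (hT y trivial hy).symm⟩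

end Pool.Agent.H507
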