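import Pool.Agent.H507_D.Top
import Pool.Agent.H507_P.T1

set_option autoImplicit false

namespace Pool.Agent.H507

/-- TARGET 1 -/
theorem top_neg (C : Set MG) (hne : C.Nonempty) (S : Set (closure C)) (hS : S ∈ residual (closure C))
    (hc : ((fun N : closure C => thy N.1) '' S).Countable) :
    ∃ (U : Set MG) (T : Lgp.Theory), IsOpen U ∧ (U ∩ C).Nonempty ∧
      ∀ V : Set MG, V ⊆ U → IsOpen V → (V ∩ C).Nonempty → ∃ N ∈ V ∩ closure C, thy N = T := by
  obtain ⟨i1, -, i3⟩ := mg_space
  have i4 : LocallyCompactSpace (closure C) := isClosed_closure.locallyCompactSpace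
  have i5 : BaireSpace (closure C) := inferInstance
  obtain ⟨x0, hx0⟩ := hne
  have i6 : Nonempty (closure C) := ⟨⟨x0, subset_closure hx0⟩⟩
  have key : ∃ T : Lgp.Theory, (interior (closure {x : closure C | x ∈ S ∧ thy x.1 = T})).Nonempty := by
    by_contra hcon
    push Not at hcon
    have h1 : (⋂ T ∈ ((fun N : closure C => thy N.1) '' S),
        (closure {x : closure C | x ∈ S ∧ thy x.1 = T})ᶜ) ∈ residual (closure C) := by
      rw [countable_bInter_mem hc]
      intro T _
      refine residual_of_dense_open isClosed_closure.isOpen_compl ?_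
      rw [← interior_eq_empty_iff_dense_compl]
      exact hcon T
    have h2 := dense_of_mem_residual (Filter.inter_mem h1 hS)
    obtain ⟨x, hx1, hx2⟩ := h2.nonempty
    rw [Set.mem_iInter₂] at hx1
    exact hx1 (thy x.1) ⟨x, hx2, rfl⟩ (subset_closure ⟨hx2, rfl⟩)
  obtain ⟨T, x, hx⟩ := key
  obtain ⟨U, hU, hUO⟩ := isOpen_induced_iff.1
    (isOpen_interior (s := closure {x : closure C | x ∈ S ∧ thy x.1 = T}))
  refine ⟨U, T, hU, ?_, fun V hVU hV hVC => ?_⟩
  · have hxU : x.1 ∈ U := by
      have : x ∈ Subtype.val ⁻¹' U := by rw [hUO]; exact hx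
      exact this
    exact mem_closure_iff.1 x.2 U hU hxU
  · obtain ⟨v, hvV, hvC⟩ := hVC
    have h1 : (⟨v, subset_closure hvC⟩ : closure C) ∈ Subtype.val ⁻¹' U := hVU hvV
    rw [hUO] at h1
    have h2 := interior_subset h1
    obtain ⟨y, hy1, hy2⟩ := mem_closure_iff.1 h2 (Subtype.val ⁻¹' V)
      (hV.preimage continuous_subtype_val) hvV
    exact ⟨y.1, ⟨hy1, y.2⟩, hy2.2⟩

/-- TARGET 2 -/
theorem near_quot (N : MG) (U : Set MG) (hU : IsOpen U) (hN : N ∈ U) :
    ∃ S : Set N.grp, S.Finite ∧ ∀ M : Subgroup N.grp, M.Normal → (∀ s ∈ S, s ∈ M → s = 1) →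
      ∃ N' ∈ U, N'.ker = M.comap (QuotientGroup.mk' N.ker) := by
  obtain ⟨n, hn⟩ := N.fin
  obtain ⟨B, hB⟩ := hU n N hN hn
  refine ⟨(QuotientGroup.mk' N.ker) '' (B : Set (FreeGroup ℕ)), B.finite_toSet.image _, ?_⟩
  intro M hM hS
  have hle : N.ker ≤ M.comap (QuotientGroup.mk' N.ker) := by
    intro g hg
    rw [Subgroup.mem_comap]
    have h1 : QuotientGroup.mk' N.ker g = 1 := (QuotientGroup.eq_one_iff g).2 hg
    rw [h1]
    exact M.one_mem
  refine ⟨⟨M.comap (QuotientGroup.mk' N.ker), hM.comap _, n, fun i hi => hle (hn i hi)⟩, ?_, rfl⟩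
  refine hB _ (fun i hi => hle (hn i hi)) ?_
  intro g hg
  constructor
  · intro h1
    have h2 := hS _ ⟨g, hg, rfl⟩ h1
    exact (QuotientGroup.eq_one_iff g).1 h2
  · intro h1
    exact hle h1

/-- TARGET 3 -/
theorem fp_nhd (N : MG) (h : Group.IsFinitelyPresented N.grp) :
    ∃ U : Set MG, IsOpen U ∧ N ∈ U ∧ ∀ N' ∈ U, N.ker ≤ N'.ker := by
  obtain ⟨m, hm⟩ := N.fin
  obtain ⟨n, φ, hφ, R, hR, hRφ⟩ := h.out
  have hψ := QuotientGroup.mk'_surjective N.ker
  choose w hw using fun y : Fin n => hψ (φ (FreeGroup.of y))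
  choose z hz using fun i : ℕ => hφ (QuotientGroup.mk' N.ker (FreeGroup.of i))
  set W : FreeGroup (Fin n) →* FreeGroup ℕ := FreeGroup.lift w with hWdef
  have hW : ∀ g, QuotientGroup.mk' N.ker (W g) = φ g := by
    intro g
    have : (QuotientGroup.mk' N.ker).comp W = φ := by
      ext y
      simp only [MonoidHom.comp_apply, hWdef, FreeGroup.lift_apply_of]
      exact hw y
    exact DFunLike.congr_fun this g
  set B : Set (FreeGroup ℕ) := W '' R ∪ (fun i => (FreeGroup.of i)⁻¹ * W (z i)) '' Set.Iio m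
    with hBdef
  have hBfin : B.Finite := (hR.image _).union ((Set.finite_Iio m).image _)
  have hBN : ∀ g ∈ B, g ∈ N.ker := by
    rintro g (⟨r, hr, rfl⟩ | ⟨i, -, rfl⟩)
    · rw [← QuotientGroup.eq_one_iff]
      have h1 : r ∈ φ.ker := by
        rw [← hRφ]; exact Subgroup.subset_normalClosure hr
      have h2 := hW r
      rw [MonoidHom.mem_ker.1 h1] at h2
      exact h2
    · rw [← QuotientGroup.eq_one_iff]
      have h2 : QuotientGroup.mk' N.ker ((FreeGroup.of i)⁻¹ * W (z i)) = 1 := by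
        rw [map_mul, map_inv, hW, hz, inv_mul_cancel]
      exact h2
  refine ⟨stage m ∩ ⋂ g ∈ B, {N' : MG | g ∈ N'.ker}, ?_, ?_, ?_⟩
  · refine (stage_clopen m).isOpen.inter ?_
    exact hBfin.isOpen_biInter fun g _ => (mem_clopen g).isOpen
  · refine ⟨hm, ?_⟩
    rw [Set.mem_iInter₂]
    exact fun g hg => hBN g hg
  · rintro N' ⟨hN'm, hN'⟩
    rw [Set.mem_iInter₂] at hN'
    set θ : FreeGroup ℕ →* FreeGroup (Fin n) := FreeGroup.lift (fun i => if i < m then z i else 1)
      with hθdef
    have hθ1 : ∀ g, φ (θ g) = QuotientGroup.mk' N.ker g := by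
      intro g
      have : φ.comp θ = QuotientGroup.mk' N.ker := by
        ext i
        by_cases hi : i < m
        · simp [hθdef, hi, hz]
        · have h1 : QuotientGroup.mk' N.ker (FreeGroup.of i) = 1 :=
            (QuotientGroup.eq_one_iff _).2 (hm i (not_lt.1 hi))
          simp only [MonoidHom.comp_apply, hθdef, FreeGroup.lift_apply_of, hi, if_false, map_one]
          exact h1.symm
      exact DFunLike.congr_fun this g
    have hθ2 : ∀ g, QuotientGroup.mk' N'.ker (W (θ g)) = QuotientGroup.mk' N'.ker g := by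
      intro g
      have : ((QuotientGroup.mk' N'.ker).comp W).comp θ = QuotientGroup.mk' N'.ker := by
        ext i
        by_cases hi : i < m
        · simp only [MonoidHom.comp_apply, hθdef, FreeGroup.lift_apply_of, hi, if_true]
          have h1 : (FreeGroup.of i)⁻¹ * W (z i) ∈ N'.ker := hN' _ (Or.inr ⟨i, hi, rfl⟩)
          exact (QuotientGroup.eq.2 h1).symm
        · have h1 : QuotientGroup.mk' N'.ker (FreeGroup.of i) = 1 :=
            (QuotientGroup.eq_one_iff _).2 (hN'm i (not_lt.1 hi))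
          simp only [MonoidHom.comp_apply, hθdef, FreeGroup.lift_apply_of, hi, if_false, map_one]
          exact h1.symm
      exact DFunLike.congr_fun this g
    intro g hg
    have h1 : θ g ∈ φ.ker := by
      rw [MonoidHom.mem_ker, hθ1]
      exact (QuotientGroup.eq_one_iff g).2 hg
    rw [← hRφ] at h1
    have h2 : Subgroup.normalClosure R ≤ N'.ker.comap W := by
      have hn : (N'.ker.comap W).Normal := N'.normal.comap W
      refine Subgroup.normalClosure_le_normal ?_
      intro r hr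
      exact hN' _ (Or.inl ⟨r, hr, rfl⟩)
    have h3 : W (θ g) ∈ N'.ker := h2 h1
    have h4 : QuotientGroup.mk' N'.ker (W (θ g)) = 1 := (QuotientGroup.eq_one_iff _).2 h3
    rw [hθ2] at h4
    exact (QuotientGroup.eq_one_iff g).1 h4

end Pool.Agent.H507
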