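import Pool.Agent.H507_D.Defs2
import Pool.Agent.H507_P.A2
import Pool.Agent.H507_P.B1
import Pool.Agent.H507_P.C1
import Pool.Agent.H507_P.C2c
import Pool.Agent.H507_P.R1
import Pool.Agent.H507_P.T1
import Pool.Agent.H507_P.T5
import Pool.Agent.H507_P.T6

set_option autoImplicit false

namespace Pool.Agent.H507

open Pool.Agent.TH68 Pool.Agent.Helper97.Hyp

theorem pidx_equiv {G A : Type} [Group G] [Group A] (hG : HypGroup G) (e : G ≃* A) : pidx G = pidx A := by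
  refine le_antisymm (pidx_mono hG (hyp_equiv e hG) e.toMonoidHom e.surjective ?_)
    (pidx_mono (hyp_equiv e hG) hG e.symm.toMonoidHom e.symm.surjective ?_)
  · intro x _ hx
    exact (MulEquiv.map_eq_one_iff e).1 hx
  · intro x _ hx
    exact (MulEquiv.map_eq_one_iff e.symm).1 hx

theorem grp_equiv (N M : MG) (Q : Type) [Group Q] (φ : N.grp →* Q) (hφ : Function.Surjective φ)
    (h : M.ker = φ.ker.comap (QuotientGroup.mk' N.ker)) : Nonempty (M.grp ≃* Q) := by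
  have hk : M.ker = (φ.comp (QuotientGroup.mk' N.ker)).ker := by
    rw [h]
    rfl
  have hs : Function.Surjective (φ.comp (QuotientGroup.mk' N.ker)) := by
    intro q
    obtain ⟨x, rfl⟩ := hφ q
    obtain ⟨y, rfl⟩ := QuotientGroup.mk'_surjective N.ker x
    exact ⟨y, rfl⟩
  exact ⟨(QuotientGroup.quotientMulEquivOfEq hk).trans
    (QuotientGroup.quotientKerEquivOfSurjective _ hs)⟩

/-- the class of non-elementary hyperbolic groups with a bound on the index of the centralizer of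
the finite radical -/
def clsP (P : ℕ → Prop) : Set MG := {N : MG | HypGroup N.grp ∧ ¬ Elem N.grp ∧ P (pidx N.grp)}

theorem clsP_iso (P : ℕ → Prop) : ∀ N N' : MG, Nonempty (N.grp ≃* N'.grp) → N ∈ clsP P →
    N' ∈ clsP P := by
  rintro N N' ⟨e⟩ ⟨h1, h2, h3⟩
  exact ⟨hyp_equiv e h1, fun h => h2 (elem_equiv e.symm h), (pidx_equiv h1 e) ▸ h3⟩

/-- local transitivity -/
theorem machine_good (P : ℕ → Prop) (hP : ∀ m n, m ≤ n → P n → P m)
    (hB : ∀ U : Set MG, IsOpen U →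
      (U ∩ {N : MG | HypGroup N.grp ∧ ¬ Elem N.grp ∧ P (pidx N.grp)}).Nonempty →
      ∃ V : Set MG, V ⊆ U ∧ IsOpen V ∧
        (V ∩ {N : MG | HypGroup N.grp ∧ ¬ Elem N.grp ∧ P (pidx N.grp)}).Nonempty ∧
        ∃ B : ℕ, ∀ N ∈ V ∩ {N : MG | HypGroup N.grp ∧ ¬ Elem N.grp ∧ P (pidx N.grp)}, pidx N.grp ≤ B) :
    ∀ U : Set MG, IsOpen U →
      (U ∩ {N : MG | HypGroup N.grp ∧ ¬ Elem N.grp ∧ P (pidx N.grp)}).Nonempty →
      ∃ V : Set MG, V ⊆ U ∧ IsOpen V ∧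
      (V ∩ {N : MG | HypGroup N.grp ∧ ¬ Elem N.grp ∧ P (pidx N.grp)}).Nonempty ∧
      ∀ N₁ ∈ V ∩ {N : MG | HypGroup N.grp ∧ ¬ Elem N.grp ∧ P (pidx N.grp)},
      ∀ N₂ ∈ V ∩ {N : MG | HypGroup N.grp ∧ ¬ Elem N.grp ∧ P (pidx N.grp)},
      ∀ U₁ U₂ : Set MG, IsOpen U₁ → IsOpen U₂ → N₁ ∈ U₁ → N₂ ∈ U₂ →
        ∃ M₁ ∈ U₁ ∩ {N : MG | HypGroup N.grp ∧ ¬ Elem N.grp ∧ P (pidx N.grp)},
        ∃ M₂ ∈ U₂ ∩ {N : MG | HypGroup N.grp ∧ ¬ Elem N.grp ∧ P (pidx N.grp)},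
          Nonempty (M₁.grp ≃* M₂.grp) := by
  intro U hU hne
  obtain ⟨V₀, hV₀U, hV₀, hV₀C, B, hBd⟩ := hB U hU hne
  -- choose the maximal one
  obtain ⟨N₂, hN₂, hmax⟩ : ∃ N₂ ∈ V₀ ∩ {N : MG | HypGroup N.grp ∧ ¬ Elem N.grp ∧ P (pidx N.grp)},
      ∀ N ∈ V₀ ∩ {N : MG | HypGroup N.grp ∧ ¬ Elem N.grp ∧ P (pidx N.grp)},
        pidx N.grp + qidx N.grp ≤ pidx N₂.grp + qidx N₂.grp := by
    let T : Set ℕ := (fun N : MG => pidx N.grp + qidx N.grp) ''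
      (V₀ ∩ {N : MG | HypGroup N.grp ∧ ¬ Elem N.grp ∧ P (pidx N.grp)})
    have hT : T.Nonempty := hV₀C.image _
    have hb : BddAbove T := by
      refine ⟨2 * B, ?_⟩
      rintro _ ⟨N, hN, rfl⟩
      have h1 := hBd N hN
      have h2 := qidx_le hN.2.1
      show pidx N.grp + qidx N.grp ≤ 2 * B
      omega
    obtain ⟨N₂, hN₂, he⟩ := Nat.sSup_mem hT hb
    refine ⟨N₂, hN₂, fun N hN => ?_⟩
    have : pidx N.grp + qidx N.grp ≤ sSup T := le_csSup hb ⟨N, hN, rfl⟩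
    rw [← he] at this
    exact this
  obtain ⟨W, hW, hN₂W, hWk⟩ := fp_nhd N₂ (hyp_fp hN₂.2.1)
  have hfin : (rad N₂.grp : Set N₂.grp).Finite := by
    have := rad_finite hN₂.2.1
    exact Set.toFinite _
  let F : Set N₂.grp := {x | x ∈ rad N₂.grp ∧ x ≠ 1}
  have hF : F.Finite := hfin.subset fun x hx => hx.1
  let W' : Set MG := ⋂ x ∈ F, {N' : MG | Quotient.out x ∈ N'.ker}ᶜ
  have hW' : IsOpen W' := hF.isOpen_biInter fun x _ => (mem_clopen _).compl.isOpen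
  have hout : ∀ x : N₂.grp, (QuotientGroup.mk (Quotient.out x) : N₂.grp) = x := fun x => Quotient.out_eq' x
  have hN₂W' : N₂ ∈ W' := by
    simp only [W', Set.mem_iInter]
    intro x hx hmem
    refine hx.2 ?_
    rw [← hout x]
    exact (QuotientGroup.eq_one_iff _).2 hmem
  refine ⟨V₀ ∩ W ∩ W', fun N hN => hV₀U hN.1.1, (hV₀.inter hW).inter hW',
    ⟨N₂, ⟨⟨hN₂.1, hN₂W⟩, hN₂W'⟩, hN₂.2⟩, ?_⟩
  -- properties of the members
  have key : ∀ N' ∈ (V₀ ∩ W ∩ W') ∩ {N : MG | HypGroup N.grp ∧ ¬ Elem N.grp ∧ P (pidx N.grp)},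
      ∃ π : N₂.grp →* N'.grp, Function.Surjective π ∧ (∀ x ∈ rad N₂.grp, π x = 1 → x = 1) ∧
        pidx N'.grp = pidx N₂.grp ∧ qidx N'.grp = qidx N₂.grp := by
    intro N' hN'
    have hle := hWk N' hN'.1.1.2
    let π : N₂.grp →* N'.grp := QuotientGroup.map N₂.ker N'.ker (MonoidHom.id _) hle
    have hs : Function.Surjective π := by
      intro y
      obtain ⟨g, rfl⟩ := QuotientGroup.mk_surjective y
      exact ⟨QuotientGroup.mk g, rfl⟩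
    have hi : ∀ x ∈ rad N₂.grp, π x = 1 → x = 1 := by
      intro x hx h1
      by_contra hx1
      have h2 : Quotient.out x ∉ N'.ker := by
        have := hN'.1.2
        simp only [W', Set.mem_iInter] at this
        exact this x ⟨hx, hx1⟩
      apply h2
      rw [← hout x] at h1
      exact (QuotientGroup.eq_one_iff _).1 h1
    have h1 := pidx_mono hN₂.2.1 hN'.2.1 π hs hi
    have h2 := qidx_mono hN₂.2.1 hN'.2.1 π hs hi
    have h3 := hmax N' ⟨hN'.1.1.1, hN'.2⟩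
    exact ⟨π, hs, hi, by omega, by omega⟩
  intro N₁' hN₁' N₂' hN₂' U₁ U₂ hU₁ hU₂ hm₁ hm₂
  let X : Bool → MG := fun b => cond b N₁' N₂'
  let UU : Bool → Set MG := fun b => cond b U₁ U₂
  have hXm : ∀ b, X b ∈ (V₀ ∩ W ∩ W') ∩ {N : MG | HypGroup N.grp ∧ ¬ Elem N.grp ∧ P (pidx N.grp)} := by
    intro b
    cases b
    · exact hN₂'
    · exact hN₁'
  have hUU : ∀ b, IsOpen (UU b) := by
    intro b
    cases b
    · exact hU₂
    · exact hU₁
  have hXU : ∀ b, X b ∈ UU b := by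
    intro b
    cases b
    · exact hm₂
    · exact hm₁
  choose π hs hi hp hq using fun b => key (X b) (hXm b)
  choose S hSf hS using fun b => near_quot (X b) (UU b) (hUU b) (hXU b)
  obtain ⟨Q, _, φ, hφs, hφi, hQ1, hQ2, hQ3⟩ := cq_gen hN₂.2.1 (A := fun b => (X b).grp)
    (fun b => (hXm b).2.1) (fun b => (hXm b).2.2.1) π hs hi hp hq S hSf
  have fin : ∀ b, ∃ M ∈ UU b ∩ {N : MG | HypGroup N.grp ∧ ¬ Elem N.grp ∧ P (pidx N.grp)},
      Nonempty (M.grp ≃* Q) := by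
    intro b
    obtain ⟨M, hMU, hMk⟩ := hS b (φ b).ker inferInstance (fun s hs h => hφi b s hs h)
    obtain ⟨e⟩ := grp_equiv (X b) M Q (φ b) (hφs b) hMk
    have hM := hyp_equiv e.symm hQ1
    refine ⟨M, ⟨hMU, hM, fun h => hQ2 (elem_equiv e h), ?_⟩, ⟨e⟩⟩
    have := pidx_equiv hM e
    exact hP _ _ (this.le.trans hQ3) hN₂.2.2.2
  obtain ⟨M₁, hM₁, ⟨e₁⟩⟩ := fin true
  obtain ⟨M₂, hM₂, ⟨e₂⟩⟩ := fin false
  exact ⟨M₁, hM₁, M₂, hM₂, ⟨e₁.trans e₂.symm⟩⟩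

/-- countably many classes -/
theorem machine (P : ℕ → Prop) (hP : ∀ m n, m ≤ n → P n → P m)
    (hB : ∀ U : Set MG, IsOpen U → (U ∩ clsP P).Nonempty →
      ∃ V : Set MG, V ⊆ U ∧ IsOpen V ∧ (V ∩ clsP P).Nonempty ∧
        ∃ B : ℕ, ∀ N ∈ V ∩ clsP P, pidx N.grp ≤ B) :
    ∃ S : Set (closure (clsP P)), S ∈ residual (closure (clsP P)) ∧
      ((fun N : closure (clsP P) => thy N.1) '' S).Countable :=
  top_main _ (clsP_iso P) (machine_good P hP hB)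

/-- locally one class -/
theorem machine_local (P : ℕ → Prop) (hP : ∀ m n, m ≤ n → P n → P m)
    (hB : ∀ U : Set MG, IsOpen U → (U ∩ clsP P).Nonempty →
      ∃ V : Set MG, V ⊆ U ∧ IsOpen V ∧ (V ∩ clsP P).Nonempty ∧
        ∃ B : ℕ, ∀ N ∈ V ∩ clsP P, pidx N.grp ≤ B)
    (U : Set MG) (hU : IsOpen U) (hne : (U ∩ clsP P).Nonempty) :
    ∃ V : Set MG, V ⊆ U ∧ IsOpen V ∧ (V ∩ clsP P).Nonempty ∧
      ∃ S : Set (closure (clsP P)), S ∈ residual (closure (clsP P)) ∧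
        ∀ x ∈ S, ∀ y ∈ S, x.1 ∈ V → y.1 ∈ V → thy x.1 = thy y.1 := by
  obtain ⟨V, hVU, hV, hVC, hgood⟩ := machine_good P hP hB U hU hne
  have hG : T5_Good (clsP P) V := by
    refine ⟨hV, ?_⟩
    rintro U₁ U₂ hU₁ hU₂ ⟨N₁, hN₁⟩ ⟨N₂, hN₂⟩
    obtain ⟨M₁, hM₁, M₂, hM₂, hM⟩ := hgood N₁ ⟨hN₁.1.2, hN₁.2⟩ N₂ ⟨hN₂.1.2, hN₂.2⟩
      (U₁ ∩ V) (U₂ ∩ V) (hU₁.inter hV) (hU₂.inter hV) hN₁.1 hN₂.1
    exact ⟨M₁, hM₁, M₂, hM₂, hM⟩
  obtain ⟨E, T, hE, hT⟩ := T5_const (clsP P) (clsP_iso P) V hG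
  exact ⟨V, hVU, hV, hVC, Eᶜ, hE, fun x hx y hy hxV hyV => (hT x hxV hx).trans (hT y hyV hy).symm⟩

/-- TARGET 2 -/
theorem central_class :
    ∃ S : Set (closure {N : MG | HypGroup N.grp ∧ ¬ Elem N.grp ∧
        ∀ E : Subgroup N.grp, E.Normal → Finite E → E ≤ Subgroup.center N.grp}),
      S ∈ residual (closure {N : MG | HypGroup N.grp ∧ ¬ Elem N.grp ∧
        ∀ E : Subgroup N.grp, E.Normal → Finite E → E ≤ Subgroup.center N.grp}) ∧
      ∀ x ∈ S, ∀ y ∈ S, thy x.1 = thy y.1 := by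
  have inv : ∀ (G A : Type) [Group G] [Group A], G ≃* A →
      (∀ E : Subgroup G, E.Normal → Finite E → E ≤ Subgroup.center G) →
      ∀ E : Subgroup A, E.Normal → Finite E → E ≤ Subgroup.center A := by
    intro G A _ _ e h E hn hf
    have hf' : Finite (E.comap e.toMonoidHom) := by
      refine Finite.of_injective (fun x : E.comap e.toMonoidHom => (⟨e x.1, x.2⟩ : E)) ?_
      intro x y hxy
      have : e x.1 = e y.1 := congrArg Subtype.val hxy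
      exact Subtype.ext (e.injective this)
    have h1 := h (E.comap e.toMonoidHom) (hn.comap _) hf'
    intro x hx
    rw [Subgroup.mem_center_iff]
    intro g
    have hx' : e.symm x ∈ E.comap e.toMonoidHom := by
      show e (e.symm x) ∈ E
      rw [e.apply_symm_apply]
      exact hx
    have h2 := Subgroup.mem_center_iff.1 (h1 hx') (e.symm g)
    have h3 := congrArg e h2
    simpa using h3
  refine top_one _ ?_ ?_
  · rintro N N' ⟨e⟩ ⟨h1, h2, h3⟩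
    exact ⟨hyp_equiv e h1, fun h => h2 (elem_equiv e.symm h), inv _ _ e h3⟩
  intro N₁' hN₁' N₂' hN₂' U₁ U₂ hU₁ hU₂ hm₁ hm₂
  let X : Bool → MG := fun b => cond b N₁' N₂'
  let UU : Bool → Set MG := fun b => cond b U₁ U₂
  have hXm : ∀ b, HypGroup (X b).grp ∧ ¬ Elem (X b).grp ∧
      ∀ E : Subgroup (X b).grp, E.Normal → Finite E → E ≤ Subgroup.center (X b).grp := by
    intro b
    cases b
    · exact hN₂'
    · exact hN₁'
  have hUU : ∀ b, IsOpen (UU b) := by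
    intro b
    cases b
    · exact hU₂
    · exact hU₁
  have hXU : ∀ b, X b ∈ UU b := by
    intro b
    cases b
    · exact hm₂
    · exact hm₁
  choose S hSf hS using fun b => near_quot (X b) (UU b) (hUU b) (hXU b)
  obtain ⟨Q, _, φ, hφs, hφi, hQ1, hQ2, hQ3⟩ := cq_central (A := fun b => (X b).grp)
    (fun b => (hXm b).1) (fun b => (hXm b).2.1)
    (fun b => (hXm b).2.2 (rad (X b).grp) (rad_normal _) (rad_finite (hXm b).1)) S hSf
  have fin : ∀ b, ∃ M ∈ UU b ∩ {N : MG | HypGroup N.grp ∧ ¬ Elem N.grp ∧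
        ∀ E : Subgroup N.grp, E.Normal → Finite E → E ≤ Subgroup.center N.grp},
      Nonempty (M.grp ≃* Q) := by
    intro b
    obtain ⟨M, hMU, hMk⟩ := hS b (φ b).ker inferInstance (fun s hs h => hφi b s hs h)
    obtain ⟨e⟩ := grp_equiv (X b) M Q (φ b) (hφs b) hMk
    have hM := hyp_equiv e.symm hQ1
    exact ⟨M, ⟨hMU, hM, fun h => hQ2 (elem_equiv e h), inv _ _ e.symm hQ3⟩, ⟨e⟩⟩
  obtain ⟨M₁, hM₁, ⟨e₁⟩⟩ := fin true
  obtain ⟨M₂, hM₂, ⟨e₂⟩⟩ := fin false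
  exact ⟨M₁, hM₁, M₂, hM₂, ⟨e₁.trans e₂.symm⟩⟩

end Pool.Agent.H507
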